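import Pool.Agent.COST.J1

section

open Set Filter Topology

namespace Pool.Agent.COST

/-- `g` lies between powers of `a` -/
def Dom {H : Type} [Group H] [LinearOrder H] (a g : H) : Prop :=
  ∃ n : ℕ, (a ^ n)⁻¹ ≤ g ∧ g ≤ a ^ n

open Classical in
/-- integer part of `g` with respect to `a` -/
noncomputable def fl {H : Type} [Group H] [LinearOrder H] (a g : H) : ℤ :=
  if h : ∃ n : ℤ, a ^ n ≤ g ∧ g < a ^ (n + 1) then h.choose else 0

/-- real part of `g` with respect to `a`: limit of `fl a (g ^ m) / m` -/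
noncomputable def psi {H : Type} [Group H] [LinearOrder H] (a g : H) : ℝ :=
  limUnder atTop fun m : ℕ => (fl a (g ^ m) : ℝ) / m

variable {H : Type} [Group H] [LinearOrder H] [MulLeftMono H] [MulRightMono H]

/-- PROOF: `n`, `m` for the two factors, use `n + m`: `a ^ n * a ^ m = a ^ (n + m)`, `mul_le_mul'`. -/
theorem Dom.mul {a g h : H} (hg : Dom a g) (hh : Dom a h) : Dom a (g * h) := by
  obtain ⟨n, h1, h2⟩ := hg
  obtain ⟨m, h3, h4⟩ := hh
  refine ⟨n + m, ?_, ?_⟩
  · rw [add_comm n m, pow_add, mul_inv_rev]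
    exact mul_le_mul' h1 h3
  · rw [pow_add]
    exact mul_le_mul' h2 h4

theorem Dom.inv {a g : H} (hg : Dom a g) : Dom a g⁻¹ := by
  obtain ⟨n, h1, h2⟩ := hg
  refine ⟨n, ?_, ?_⟩
  · exact inv_le_inv_iff.mpr h2
  · have := inv_le_inv_iff.mpr h1
    rwa [inv_inv] at this

theorem Dom.one (a : H) : Dom a 1 := ⟨0, by simp, by simp⟩

theorem a0_1_strictMono {a : H} (ha : 1 < a) : StrictMono fun n : ℤ => a ^ n := by
  refine strictMono_int_of_lt_succ fun n => ?_
  rw [zpow_add_one]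
  exact lt_mul_of_one_lt_right' (a ^ n) ha

theorem a0_1_lt {a y : H} (ha : 1 < a) {x z : ℤ} (h1 : a ^ x ≤ y) (h2 : y < a ^ z) : x < z :=
  (a0_1_strictMono ha).lt_iff_lt.mp (h1.trans_lt h2)

/-- PROOF: `fl` exists: the set of integers `n` with `a ^ n ≤ g` is nonempty and bounded above
(`Dom a g`, `a ^ n` is strictly increasing in `n : ℤ` because `1 < a`), take the greatest element
(`Int.exists_greatest_of_bdd`). -/
theorem fl_spec {a g : H} (ha : 1 < a) (hg : Dom a g) :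
    a ^ fl a g ≤ g ∧ g < a ^ (fl a g + 1) := by
  have hex : ∃ n : ℤ, a ^ n ≤ g ∧ g < a ^ (n + 1) := by
    obtain ⟨n, h1, h2⟩ := hg
    have hsm := a0_1_strictMono ha
    have hb : ∃ b : ℤ, ∀ z : ℤ, a ^ z ≤ g → z ≤ b := by
      refine ⟨(n : ℤ), fun z hz => ?_⟩
      have h3 : a ^ z ≤ a ^ (n : ℤ) := by
        rw [zpow_natCast]
        exact hz.trans h2
      exact hsm.le_iff_le.mp h3
    have hin : ∃ z : ℤ, a ^ z ≤ g := by
      refine ⟨-(n : ℤ), ?_⟩
      rw [zpow_neg, zpow_natCast]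
      exact h1
    obtain ⟨k, hk1, hk2⟩ := Int.exists_greatest_of_bdd hb hin
    refine ⟨k, hk1, ?_⟩
    by_contra hcon
    have h4 := hk2 (k + 1) (not_lt.mp hcon)
    omega
  unfold fl
  rw [dif_pos hex]
  exact hex.choose_spec

/-- PROOF: `a ^ n` is strictly increasing in `n : ℤ`. -/
theorem fl_unique {a g : H} (ha : 1 < a) (n : ℤ) (h1 : a ^ n ≤ g) (h2 : g < a ^ (n + 1)) :
    fl a g = n := by
  have hex : ∃ n : ℤ, a ^ n ≤ g ∧ g < a ^ (n + 1) := ⟨n, h1, h2⟩
  have h3 : fl a g = hex.choose := by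
    unfold fl
    rw [dif_pos hex]
  obtain ⟨h4, h5⟩ := hex.choose_spec
  rw [h3]
  have h6 := a0_1_lt ha h1 h5
  have h7 := a0_1_lt ha h4 h2
  omega

/-- PROOF: `a ^ (n + m) ≤ g * h < a ^ (n + 1) * a ^ (m + 1)` and monotonicity of powers of `a`
(`a ^ x ≤ y < a ^ z` implies `x < z`). -/
theorem fl_mul {a g h : H} (ha : 1 < a) (hg : Dom a g) (hh : Dom a h) :
    fl a g + fl a h ≤ fl a (g * h) ∧ fl a (g * h) ≤ fl a g + fl a h + 1 := by
  obtain ⟨h1, h2⟩ := fl_spec ha hg
  obtain ⟨h3, h4⟩ := fl_spec ha hh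
  obtain ⟨h5, h6⟩ := fl_spec ha (hg.mul hh)
  have h7 : a ^ (fl a g + fl a h) ≤ g * h := by
    rw [zpow_add]
    exact mul_le_mul' h1 h3
  have h8 : g * h < a ^ (fl a g + 1 + (fl a h + 1)) := by
    rw [zpow_add]
    exact mul_lt_mul_of_lt_of_le h2 h4.le
  have h9 := a0_1_lt ha h7 h6
  have h10 := a0_1_lt ha h5 h8
  omega

theorem fl_mono {a g h : H} (ha : 1 < a) (hg : Dom a g) (hh : Dom a h) (hgh : g ≤ h) :
    fl a g ≤ fl a h := by
  obtain ⟨h1, -⟩ := fl_spec ha hg
  obtain ⟨-, h4⟩ := fl_spec ha hh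
  have h5 := a0_1_lt ha (h1.trans hgh) h4
  omega

end Pool.Agent.COST

end

section

open Set Filter Topology

namespace Pool.Agent.COST

variable {H : Type} [Group H] [LinearOrder H] [MulLeftMono H] [MulRightMono H]

theorem a0_2_dom_pow {a g : H} (hg : Dom a g) (m : ℕ) : Dom a (g ^ m) := by
  induction m with
  | zero => rw [pow_zero]; exact Dom.one a
  | succ m ih => rw [pow_succ]; exact ih.mul hg

theorem a0_2_fl_one {a : H} (ha : 1 < a) : fl a (1 : H) = 0 := by
  refine fl_unique ha 0 ?_ ?_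
  · rw [zpow_zero]
  · rw [zero_add, zpow_one]
    exact ha

theorem a0_2_upper {a g : H} (ha : 1 < a) (hg : Dom a g) (m : ℕ) :
    fl a (g ^ m) ≤ m * (fl a g + 1) := by
  induction m with
  | zero => rw [pow_zero, a0_2_fl_one ha]; simp
  | succ m ih =>
    rw [pow_succ]
    have h1 := (fl_mul ha (a0_2_dom_pow hg m) hg).2
    push_cast
    nlinarith [h1, ih]

theorem a0_2_subadd {a g : H} (ha : 1 < a) (hg : Dom a g) :
    Subadditive (fun m : ℕ => -(fl a (g ^ m) : ℝ)) := by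
  intro m n
  have h1 := (fl_mul ha (a0_2_dom_pow hg m) (a0_2_dom_pow hg n)).1
  rw [← pow_add] at h1
  have h2 : (fl a (g ^ m) : ℝ) + (fl a (g ^ n) : ℝ) ≤ (fl a (g ^ (m + n)) : ℝ) := by
    exact_mod_cast h1
  show -(fl a (g ^ (m + n)) : ℝ) ≤ -(fl a (g ^ m) : ℝ) + -(fl a (g ^ n) : ℝ)
  linarith

/-- PROOF: the sequence `u m = - fl a (g ^ m)` is subadditive (`fl_mul`, `Dom` for powers by
induction), and `u m / m` is bounded below (`fl a (g ^ m) ≤ m * (fl a g + 1)` by induction):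
`Subadditive.tendsto_lim`; then `Tendsto.limUnder_eq`. -/
theorem psi_tendsto {a g : H} (ha : 1 < a) (hg : Dom a g) :
    Tendsto (fun m : ℕ => (fl a (g ^ m) : ℝ) / m) atTop (𝓝 (psi a g)) := by
  have hsub := a0_2_subadd ha hg
  have hbdd : BddBelow (Set.range fun m : ℕ => -(fl a (g ^ m) : ℝ) / m) := by
    refine ⟨-|(fl a g : ℝ) + 1|, ?_⟩
    rintro _ ⟨m, rfl⟩
    show -|(fl a g : ℝ) + 1| ≤ -(fl a (g ^ m) : ℝ) / m
    rcases Nat.eq_zero_or_pos m with hm | hm
    · subst hm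
      simp
    · have hm' : (0 : ℝ) < m := by exact_mod_cast hm
      rw [le_div_iff₀ hm']
      have h1 : (fl a (g ^ m) : ℝ) ≤ m * ((fl a g : ℝ) + 1) := by
        exact_mod_cast a0_2_upper ha hg m
      have h2 : (m : ℝ) * ((fl a g : ℝ) + 1) ≤ m * |(fl a g : ℝ) + 1| :=
        mul_le_mul_of_nonneg_left (le_abs_self _) hm'.le
      linarith
  have h1 := hsub.tendsto_lim hbdd
  have h2 : Tendsto (fun m : ℕ => (fl a (g ^ m) : ℝ) / m) atTop (𝓝 (-hsub.lim)) := by
    refine h1.neg.congr fun m => ?_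
    rw [neg_div, neg_neg]
  have h3 : psi a g = -hsub.lim := h2.limUnder_eq
  rw [h3]
  exact h2

end Pool.Agent.COST

end

section

open Set Filter Topology

namespace Pool.Agent.COST

variable {H : Type} [Group H] [LinearOrder H] [MulLeftMono H] [MulRightMono H]

theorem a0_3_comm {g h : H} (hgh : g * h ≤ h * g) (m : ℕ) : g * h ^ m ≤ h ^ m * g := by
  induction m with
  | zero => simp
  | succ m ih =>
    calc g * h ^ (m + 1) = (g * h ^ m) * h := by rw [pow_succ, mul_assoc]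
      _ ≤ (h ^ m * g) * h := mul_le_mul_left ih h
      _ = h ^ m * (g * h) := by rw [mul_assoc]
      _ ≤ h ^ m * (h * g) := mul_le_mul_right hgh (h ^ m)
      _ = h ^ (m + 1) * g := by rw [pow_succ, mul_assoc]

theorem a0_3_comm' {g h : H} (hgh : g * h ≤ h * g) (m : ℕ) : g ^ m * h ≤ h * g ^ m := by
  induction m with
  | zero => simp
  | succ m ih =>
    calc g ^ (m + 1) * h = g ^ m * (g * h) := by rw [pow_succ, mul_assoc]
      _ ≤ g ^ m * (h * g) := mul_le_mul_right hgh (g ^ m)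
      _ = (g ^ m * h) * g := by rw [mul_assoc]
      _ ≤ (h * g ^ m) * g := mul_le_mul_left ih g
      _ = h * g ^ (m + 1) := by rw [pow_succ, mul_assoc]

theorem a0_3_pow {g h : H} (hgh : g * h ≤ h * g) (m : ℕ) :
    g ^ m * h ^ m ≤ (g * h) ^ m ∧ (g * h) ^ m ≤ h ^ m * g ^ m := by
  induction m with
  | zero => simp
  | succ m ih =>
    obtain ⟨ih1, ih2⟩ := ih
    constructor
    · calc g ^ (m + 1) * h ^ (m + 1) = g * (g ^ m * h) * h ^ m := by
            rw [pow_succ' g, pow_succ' h]; simp only [mul_assoc]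
        _ ≤ g * (h * g ^ m) * h ^ m :=
            mul_le_mul_left (mul_le_mul_right (a0_3_comm' hgh m) g) (h ^ m)
        _ = (g * h) * (g ^ m * h ^ m) := by simp only [mul_assoc]
        _ ≤ (g * h) * (g * h) ^ m := mul_le_mul_right ih1 (g * h)
        _ = (g * h) ^ (m + 1) := by rw [pow_succ']
    · calc (g * h) ^ (m + 1) = (g * h) ^ m * (g * h) := by rw [pow_succ]
        _ ≤ (h ^ m * g ^ m) * (g * h) := mul_le_mul_left ih2 (g * h)
        _ = h ^ m * (g ^ (m + 1) * h) := by rw [pow_succ g]; simp only [mul_assoc]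
        _ ≤ h ^ m * (h * g ^ (m + 1)) := mul_le_mul_right (a0_3_comm' hgh (m + 1)) (h ^ m)
        _ = h ^ (m + 1) * g ^ (m + 1) := by rw [pow_succ h]; simp only [mul_assoc]

theorem a0_3_pow' {g h : H} (hgh : h * g ≤ g * h) (m : ℕ) :
    h ^ m * g ^ m ≤ (g * h) ^ m ∧ (g * h) ^ m ≤ g ^ m * h ^ m := by
  induction m with
  | zero => simp
  | succ m ih =>
    obtain ⟨ih1, ih2⟩ := ih
    constructor
    · calc h ^ (m + 1) * g ^ (m + 1) = (h ^ (m + 1) * g) * g ^ m := by
            rw [pow_succ' g]; simp only [mul_assoc]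
        _ ≤ (g * h ^ (m + 1)) * g ^ m := mul_le_mul_left (a0_3_comm' hgh (m + 1)) (g ^ m)
        _ = (g * h) * (h ^ m * g ^ m) := by rw [pow_succ' h]; simp only [mul_assoc]
        _ ≤ (g * h) * (g * h) ^ m := mul_le_mul_right ih1 (g * h)
        _ = (g * h) ^ (m + 1) := by rw [pow_succ']
    · calc (g * h) ^ (m + 1) = (g * h) ^ m * (g * h) := by rw [pow_succ]
        _ ≤ (g ^ m * h ^ m) * (g * h) := mul_le_mul_left ih2 (g * h)
        _ = g ^ m * (h ^ m * g) * h := by simp only [mul_assoc]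
        _ ≤ g ^ m * (g * h ^ m) * h :=
            mul_le_mul_left (mul_le_mul_right (a0_3_comm' hgh m) (g ^ m)) h
        _ = g ^ (m + 1) * h ^ (m + 1) := by
            rw [pow_succ g, pow_succ h]; simp only [mul_assoc]

theorem a0_3_fl {a g h : H} (ha : 1 < a) (hg : Dom a g) (hh : Dom a h) (m : ℕ) :
    fl a (g ^ m) + fl a (h ^ m) ≤ fl a ((g * h) ^ m) ∧
      fl a ((g * h) ^ m) ≤ fl a (g ^ m) + fl a (h ^ m) + 1 := by
  have dg := a0_2_dom_pow hg m
  have dh := a0_2_dom_pow hh m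
  have dgh := a0_2_dom_pow (hg.mul hh) m
  obtain ⟨e1, e2⟩ := fl_mul ha dg dh
  obtain ⟨e3, e4⟩ := fl_mul ha dh dg
  rcases le_total (g * h) (h * g) with hc | hc
  · obtain ⟨p1, p2⟩ := a0_3_pow hc m
    have q1 := fl_mono ha (dg.mul dh) dgh p1
    have q2 := fl_mono ha dgh (dh.mul dg) p2
    constructor <;> omega
  · obtain ⟨p1, p2⟩ := a0_3_pow' hc m
    have q1 := fl_mono ha (dh.mul dg) dgh p1
    have q2 := fl_mono ha dgh (dg.mul dh) p2
    constructor <;> omega

/-- PROOF. Case `g * h ≤ h * g`: `g ^ m * h ^ m ≤ (g * h) ^ m ≤ h ^ m * g ^ m` by induction on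
`m` (for example `(g * h) ^ (m+1) ≤ h ^ m * g ^ m * (g * h)` and `g ^ (m+1) * h ≤ h * g ^ (m+1)`,
`g * h ^ m ≤ h ^ m * g`). So
`fl (g ^ m) + fl (h ^ m) ≤ fl ((g * h) ^ m) ≤ fl (h ^ m) + fl (g ^ m) + 1` (`fl_mul`, `fl_mono`);
divide by `m` and pass to the limit (`psi_tendsto`, `le_of_tendsto_of_tendsto`). Case
`h * g ≤ g * h`: in the same way `h ^ m * g ^ m ≤ (g * h) ^ m ≤ g ^ m * h ^ m`. -/
theorem psi_mul {a g h : H} (ha : 1 < a) (hg : Dom a g) (hh : Dom a h) :
    psi a (g * h) = psi a g + psi a h := by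
  have t1 := psi_tendsto ha hg
  have t2 := psi_tendsto ha hh
  have t3 := psi_tendsto ha (hg.mul hh)
  have t4 : Tendsto (fun m : ℕ => (1 : ℝ) / m) atTop (𝓝 0) :=
    tendsto_const_div_atTop_nhds_zero_nat 1
  have t12 := t1.add t2
  have t124 := t12.add t4
  rw [add_zero] at t124
  apply le_antisymm
  · refine le_of_tendsto_of_tendsto' t3 t124 fun m => ?_
    have h1 : (fl a ((g * h) ^ m) : ℝ) ≤ (fl a (g ^ m) : ℝ) + (fl a (h ^ m) : ℝ) + 1 := by
      exact_mod_cast (a0_3_fl ha hg hh m).2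
    rw [← add_div, ← add_div]
    exact div_le_div_of_nonneg_right h1 (Nat.cast_nonneg m)
  · refine le_of_tendsto_of_tendsto' t12 t3 fun m => ?_
    have h1 : (fl a (g ^ m) : ℝ) + (fl a (h ^ m) : ℝ) ≤ (fl a ((g * h) ^ m) : ℝ) := by
      exact_mod_cast (a0_3_fl ha hg hh m).1
    rw [← add_div]
    exact div_le_div_of_nonneg_right h1 (Nat.cast_nonneg m)

end Pool.Agent.COST

end

section

open Set Filter Topology

namespace Pool.Agent.COST

variable {H : Type} [Group H] [LinearOrder H] [MulLeftMono H] [MulRightMono H]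

theorem a0_4_pow_le {g h : H} (hgh : g ≤ h) (m : ℕ) : g ^ m ≤ h ^ m := by
  induction m with
  | zero => simp
  | succ m ih =>
    rw [pow_succ, pow_succ]
    exact mul_le_mul' ih hgh

/-- PROOF: powers: `g ≤ h → g ^ m ≤ h ^ m`, `fl_mono`, limit. -/
theorem psi_mono {a g h : H} (ha : 1 < a) (hg : Dom a g) (hh : Dom a h) (hgh : g ≤ h) :
    psi a g ≤ psi a h := by
  refine le_of_tendsto_of_tendsto' (psi_tendsto ha hg) (psi_tendsto ha hh) fun m => ?_
  have h1 : (fl a (g ^ m) : ℝ) ≤ (fl a (h ^ m) : ℝ) := by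
    exact_mod_cast fl_mono ha (a0_2_dom_pow hg m) (a0_2_dom_pow hh m) (a0_4_pow_le hgh m)
  exact div_le_div_of_nonneg_right h1 (Nat.cast_nonneg m)

/-- PROOF: `fl a (a ^ m) = m` by `fl_unique`. -/
theorem psi_self {a : H} (ha : 1 < a) : psi a a = 1 := by
  have hd : Dom a a := by
    refine ⟨1, ?_, ?_⟩
    · rw [pow_one]
      exact (inv_lt_one'.mpr ha).le.trans ha.le
    · rw [pow_one]
  have h1 : ∀ m : ℕ, fl a (a ^ m) = m := by
    intro m
    refine fl_unique ha m ?_ ?_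
    · rw [zpow_natCast]
    · rw [zpow_add_one, zpow_natCast]
      exact lt_mul_of_one_lt_right' (a ^ m) ha
  have h2 : Tendsto (fun m : ℕ => (fl a (a ^ m) : ℝ) / m) atTop (𝓝 1) := by
    refine tendsto_const_nhds.congr' ?_
    filter_upwards [eventually_ge_atTop 1] with m hm
    rw [h1 m]
    have h3 : (m : ℝ) ≠ 0 := by
      have : 0 < m := hm
      exact_mod_cast this.ne'
    push_cast
    exact (div_self h3).symm
  exact tendsto_nhds_unique (psi_tendsto ha hd) h2

end Pool.Agent.COST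

end

section

open Set Filter Topology

namespace Pool.Agent.COST

variable {H : Type} [Group H] [LinearOrder H] [MulLeftMono H] [MulRightMono H]

theorem a0_5_one {a : H} (ha : 1 < a) : psi a 1 = 0 := by
  have h := psi_mul ha (Dom.one a) (Dom.one a)
  rw [mul_one] at h
  linarith

theorem a0_5_inv {a g : H} (ha : 1 < a) (hg : Dom a g) : psi a g⁻¹ = - psi a g := by
  have h := psi_mul ha hg hg.inv
  rw [mul_inv_cancel, a0_5_one ha] at h
  linarith

theorem a0_5_dom {a g : H} (hg : Dom a g) (n : ℕ) : Dom a (g ^ n) := by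
  induction n with
  | zero => rw [pow_zero]; exact Dom.one a
  | succ n ih => rw [pow_succ]; exact ih.mul hg

theorem a0_5_pow {a g : H} (ha : 1 < a) (hg : Dom a g) (n : ℕ) : psi a (g ^ n) = n * psi a g := by
  induction n with
  | zero => rw [pow_zero, a0_5_one ha]; simp
  | succ n ih =>
    rw [pow_succ, psi_mul ha (a0_5_dom hg n) hg, ih]
    push_cast
    ring

omit [MulRightMono H] in
theorem a0_5_self {a : H} (ha : 1 < a) : Dom a a := by
  refine ⟨1, ?_, ?_⟩
  · rw [pow_one]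
    exact (inv_lt_one'.2 ha).le.trans ha.le
  · rw [pow_one]

theorem a0_5_lt {a g : H} (ha : 1 < a) (hg : Dom a g) (h0 : psi a g = 0) (n : ℕ) : g ^ n < a := by
  by_contra hcon
  have h1 := psi_mono ha (a0_5_self ha) (a0_5_dom hg n) (not_lt.1 hcon)
  rw [psi_self ha, a0_5_pow ha hg, h0, mul_zero] at h1
  linarith

theorem a0_5_zero {a g : H} (ha : 1 < a) (hg : Dom a g) (h1 : 1 ≤ g) (h : ∀ n : ℕ, g ^ n < a) :
    psi a g = 0 := by
  have ht := psi_tendsto ha hg
  have hf : ∀ m : ℕ, fl a (g ^ m) = 0 := by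
    intro m
    refine fl_unique ha 0 ?_ ?_
    · rw [zpow_zero]
      exact one_le_pow_of_one_le' h1 m
    · rw [zero_add, zpow_one]
      exact h m
  have hz : (fun m : ℕ => (fl a (g ^ m) : ℝ) / m) = fun _ => (0 : ℝ) := by
    funext m
    rw [hf m]
    simp
  rw [hz] at ht
  exact tendsto_nhds_unique ht tendsto_const_nhds

/-- PROOF: if `1 ≤ g` (otherwise pass to `g⁻¹`, `psi a g⁻¹ = - psi a g` by `psi_mul`, `psi a 1 = 0`).
If all `g ^ n < a` then `fl a (g ^ n) = 0` (as `1 ≤ g ^ n < a`), so `psi a g = 0`. If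
`a ≤ g ^ n` for some `n` then `1 = psi a a ≤ psi a (g ^ n) = n * psi a g`. -/
theorem psi_zero_iff {a g : H} (ha : 1 < a) (hg : Dom a g) :
    psi a g = 0 ↔ ∀ n : ℕ, g ^ n < a ∧ (g⁻¹) ^ n < a := by
  constructor
  · intro h0 n
    refine ⟨a0_5_lt ha hg h0 n, a0_5_lt ha hg.inv ?_ n⟩
    rw [a0_5_inv ha hg, h0, neg_zero]
  · intro h
    rcases le_total 1 g with h1 | h1
    · exact a0_5_zero ha hg h1 fun n => (h n).1
    · have h2 := a0_5_zero ha hg.inv (one_le_inv'.2 h1) fun n => (h n).2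
      rw [a0_5_inv ha hg] at h2
      linarith

end Pool.Agent.COST

end

section

open Set Filter Topology

namespace Pool.Agent.COST

variable {H : Type} [Group H] [LinearOrder H] [MulLeftMono H] [MulRightMono H]

theorem a0_6_lt {x y : H} (u : H) (h : x < y) : u * x * u⁻¹ < u * y * u⁻¹ := by
  refine lt_of_le_of_ne (mul_le_mul' (mul_le_mul' le_rfl h.le) le_rfl) fun he => h.ne ?_
  exact mul_left_cancel (mul_right_cancel he)

theorem a0_6_pow {a g : H} (hg : Dom a g) (m : ℕ) : Dom a (g ^ m) := by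
  induction m with
  | zero => rw [pow_zero]; exact Dom.one a
  | succ m ih => rw [pow_succ]; exact ih.mul hg

theorem a0_6_fl {a g : H} (ha : 1 < a) (hg : Dom a g) (u : H) :
    fl (u * a * u⁻¹) (u * g * u⁻¹) = fl a g := by
  obtain ⟨h1, h2⟩ := fl_spec ha hg
  have hua : 1 < u * a * u⁻¹ := by
    have h := a0_6_lt u ha
    rwa [mul_one, mul_inv_cancel] at h
  apply fl_unique hua
  · rw [conj_zpow]
    exact mul_le_mul' (mul_le_mul' le_rfl h1) le_rfl
  · rw [conj_zpow]
    exact a0_6_lt u h2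

/-- PROOF: `x ↦ u * x * u⁻¹` is an order preserving automorphism, so
`fl (u * a * u⁻¹) (u * g * u⁻¹) = fl a g` (`fl_spec`, `fl_unique`, `conj_zpow`) and the same for powers. -/
theorem psi_conj {a g : H} (ha : 1 < a) (hg : Dom a g) (u : H) :
    psi (u * a * u⁻¹) (u * g * u⁻¹) = psi a g := by
  unfold psi
  have h : (fun m : ℕ => (fl (u * a * u⁻¹) ((u * g * u⁻¹) ^ m) : ℝ) / m) =
      fun m : ℕ => (fl a (g ^ m) : ℝ) / m := by
    funext m
    rw [conj_pow, a0_6_fl ha (a0_6_pow hg m) u]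
  rw [h]

end Pool.Agent.COST

end

section

open Set Filter Topology

namespace Pool.Agent.COST

variable {H : Type} [Group H] [LinearOrder H] [MulLeftMono H] [MulRightMono H]

theorem a0_7_one {a : H} (ha : 1 < a) : psi a 1 = 0 := by
  have h := psi_mul ha (Dom.one a) (Dom.one a)
  rw [mul_one] at h
  linarith

theorem a0_7_inv {a g : H} (ha : 1 < a) (hg : Dom a g) : psi a g⁻¹ = - psi a g := by
  have h := psi_mul ha hg hg.inv
  rw [mul_inv_cancel, a0_7_one ha] at h
  linarith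

theorem a0_7_dpow {a g : H} (hg : Dom a g) (m : ℕ) : Dom a (g ^ m) := by
  induction m with
  | zero => rw [pow_zero]; exact Dom.one a
  | succ m ih => rw [pow_succ]; exact ih.mul hg

theorem a0_7_pow {a g : H} (ha : 1 < a) (hg : Dom a g) (m : ℕ) : psi a (g ^ m) = m * psi a g := by
  induction m with
  | zero => rw [pow_zero, a0_7_one ha]; simp
  | succ m ih =>
    rw [pow_succ, psi_mul ha (a0_7_dpow hg m) hg, ih]
    push_cast
    ring

theorem a0_7_dzpow {a g : H} (hg : Dom a g) (m : ℤ) : Dom a (g ^ m) := by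
  cases m with
  | ofNat m => rw [Int.ofNat_eq_natCast, zpow_natCast]; exact a0_7_dpow hg m
  | negSucc m => rw [zpow_negSucc]; exact (a0_7_dpow hg (m + 1)).inv

theorem a0_7_zpow {a g : H} (ha : 1 < a) (hg : Dom a g) (m : ℤ) : psi a (g ^ m) = m * psi a g := by
  cases m with
  | ofNat m =>
    rw [Int.ofNat_eq_natCast, zpow_natCast, a0_7_pow ha hg m]
    push_cast
    rfl
  | negSucc m =>
    rw [zpow_negSucc, a0_7_inv ha (a0_7_dpow hg (m + 1)), a0_7_pow ha hg (m + 1), Int.cast_negSucc]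
    ring

/-- PROOF: let `n m = fl b (g ^ m)`: `b ^ n m ≤ g ^ m < b ^ (n m + 1)`, so
`n m * psi a b ≤ m * psi a g ≤ (n m + 1) * psi a b` (`psi_mono`, `psi_mul` for powers and
inverses; all elements are `Dom a`). Divide by `m`: limit `psi b g * psi a b = psi a g`. -/
theorem psi_scale {a b g : H} (ha : 1 < a) (hb : 1 < b) (hab : Dom a b) (hba : Dom b a)
    (hg : Dom a g) (hg' : Dom b g) : psi a g = psi b g * psi a b := by
  have ht := psi_tendsto hb hg'
  have h1 : ∀ m : ℕ, 0 < m → (fl b (g ^ m) : ℝ) / m * psi a b ≤ psi a g := by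
    intro m hm
    obtain ⟨h2, _⟩ := fl_spec hb (a0_7_dpow hg' m)
    have h3 := psi_mono ha (a0_7_dzpow hab _) (a0_7_dpow hg m) h2
    rw [a0_7_zpow ha hab, a0_7_pow ha hg] at h3
    have hm' : (0 : ℝ) < m := Nat.cast_pos.2 hm
    rw [div_mul_eq_mul_div, div_le_iff₀ hm', mul_comm (psi a g)]
    exact h3
  have h4 : ∀ m : ℕ, 0 < m → psi a g ≤ ((fl b (g ^ m) : ℝ) / m + 1 / m) * psi a b := by
    intro m hm
    obtain ⟨_, h2⟩ := fl_spec hb (a0_7_dpow hg' m)
    have h3 := psi_mono ha (a0_7_dpow hg m) (a0_7_dzpow hab _) h2.le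
    rw [a0_7_zpow ha hab, a0_7_pow ha hg] at h3
    have hm' : (0 : ℝ) < m := Nat.cast_pos.2 hm
    rw [← add_div, div_mul_eq_mul_div, le_div_iff₀ hm', mul_comm (psi a g)]
    push_cast at h3
    exact h3
  apply le_antisymm
  · have h5 : Tendsto (fun m : ℕ => ((fl b (g ^ m) : ℝ) / m + 1 / m) * psi a b) atTop
        (𝓝 ((psi b g + 0) * psi a b)) :=
      (ht.add tendsto_one_div_atTop_nhds_zero_nat).mul_const _
    rw [add_zero] at h5
    refine ge_of_tendsto h5 ?_
    filter_upwards [eventually_gt_atTop 0] with m hm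
    exact h4 m hm
  · refine le_of_tendsto (ht.mul_const (psi a b)) ?_
    filter_upwards [eventually_gt_atTop 0] with m hm
    exact h1 m hm

end Pool.Agent.COST

end
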