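import Pool.Agent.COST.A0

section

open Set

namespace Pool.Agent.COST

/-- A jump system together with the order and the action by conjugation. -/
structure CJS (H : Type) [Group H] [LinearOrder H] extends JS H where
  /-- elements with positive value are positive -/
  pos : ∀ (a : Λ) (g : H), v g ≤ a → 0 < ψ a g → 1 < g
  /-- conjugation on the jumps -/
  cj : H → Λ → Λ
  cj_mono : ∀ u, StrictMono (cj u)
  cj_one : ∀ a, cj 1 a = a
  cj_mul : ∀ u w a, cj (u * w) a = cj u (cj w a)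
  v_conj : ∀ u g : H, v (u * g * u⁻¹) = (v g).map (cj u)
  ψ_conj : ∀ (u : H) (a : Λ), ∃ t : ℝ, 0 < t ∧
    ∀ g, v g ≤ a → ψ (cj u a) (u * g * u⁻¹) = t * ψ a g

variable {H : Type} [Group H] [LinearOrder H] [MulLeftMono H] [MulRightMono H]

/-- PROOF: `b ≤ a` : `b ≤ a ^ 1`, `(a ^ 1)⁻¹ ≤ 1 ≤ b`. Otherwise `a ≤ b`. -/
theorem dom_total {a b : H} (ha : 1 < a) (hb : 1 < b) : Dom a b ∨ Dom b a := by
  have key : ∀ {x y : H}, 1 < x → 1 < y → y ≤ x → Dom x y := by
    intro x y hx hy h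
    refine ⟨1, ?_, ?_⟩
    · rw [pow_one]
      exact (inv_le_one'.mpr hx.le).trans hy.le
    · rw [pow_one]
      exact h
  rcases le_total b a with h | h
  · exact Or.inl (key ha hb h)
  · exact Or.inr (key hb ha h)

/-- PROOF: `b ≤ c ^ n` and `g ≤ b ^ m` give `g ≤ c ^ (n * m)`; similarly for the lower bound. -/
theorem dom_trans {a b g : H} (ha : 1 < a) (hb : 1 < b) (hab : Dom a b) (hg : Dom b g) :
    Dom a g := by
  obtain ⟨n, h1, h2⟩ := hab
  obtain ⟨m, h3, h4⟩ := hg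
  have h5 : b ^ m ≤ a ^ (n * m) := by
    rw [pow_mul]
    exact pow_le_pow_left' h2 m
  refine ⟨n * m, ?_, h4.trans h5⟩
  exact (inv_le_inv_iff.mpr h5).trans h3

theorem a1_1_conj {a g : H} (u : H) (h : Dom a g) : Dom (u * a * u⁻¹) (u * g * u⁻¹) := by
  obtain ⟨n, h1, h2⟩ := h
  refine ⟨n, ?_, ?_⟩
  · rw [conj_pow]
    have e : (u * a ^ n * u⁻¹)⁻¹ = u * (a ^ n)⁻¹ * u⁻¹ := by group
    rw [e]
    exact mul_le_mul' (mul_le_mul' le_rfl h1) le_rfl
  · rw [conj_pow]
    exact mul_le_mul' (mul_le_mul' le_rfl h2) le_rfl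

/-- PROOF: `x ↦ u * x * u⁻¹` is an order preserving automorphism. -/
theorem dom_conj {a g : H} (u : H) : Dom (u * a * u⁻¹) (u * g * u⁻¹) ↔ Dom a g := by
  refine ⟨fun h => ?_, a1_1_conj u⟩
  have h1 := a1_1_conj u⁻¹ h
  have e : ∀ x : H, u⁻¹ * (u * x * u⁻¹) * u⁻¹⁻¹ = x := fun x => by group
  rw [e, e] at h1
  exact h1

/-- `g` and `|g|` generate the same convex subgroups. PROOF: `|g| = g` or `g⁻¹` (`mabs`, or
`max g g⁻¹`), `Dom.inv`. -/
theorem dom_abs {a g : H} : Dom a (max g g⁻¹) ↔ Dom a g := by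
  rcases max_choice g g⁻¹ with h | h
  · rw [h]
  · rw [h]
    refine ⟨fun h1 => ?_, fun h1 => h1.inv⟩
    have h2 := h1.inv
    rwa [inv_inv] at h2

end Pool.Agent.COST

end

section

open Set

namespace Pool.Agent.COST

variable {H : Type} [Group H] [LinearOrder H] [MulLeftMono H] [MulRightMono H]

/-- equivalence of positive elements -/
def clSetoid (H : Type) [Group H] [LinearOrder H] [MulLeftMono H] [MulRightMono H] :
    Setoid {a : H // 1 < a} where
  r a b := Dom a.1 b.1 ∧ Dom b.1 a.1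
  iseqv := by
    refine ⟨fun a => ?_, fun h => ⟨h.2, h.1⟩, fun {a b c} h1 h2 => ?_⟩
    · have h : Dom a.1 a.1 := ⟨1, by
        rw [pow_one]
        exact (inv_le_one'.mpr a.2.le).trans a.2.le, by rw [pow_one]⟩
      exact ⟨h, h⟩
    · exact ⟨dom_trans a.2 b.2 h1.1 h2.1, dom_trans c.2 b.2 h2.2 h1.2⟩

/-- classes of positive elements -/
def Cl (H : Type) [Group H] [LinearOrder H] [MulLeftMono H] [MulRightMono H] : Type :=
  Quotient (clSetoid H)

/-- class of a positive element -/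
def Cl.mk (a : H) (ha : 1 < a) : Cl H := Quotient.mk (clSetoid H) ⟨a, ha⟩

/-- representative -/
noncomputable def Cl.rep (c : Cl H) : H := (Quotient.out (s := clSetoid H) c).1

theorem Cl.rep_pos (c : Cl H) : 1 < c.rep := (Quotient.out (s := clSetoid H) c).2

theorem Cl.mk_rep (c : Cl H) : Cl.mk c.rep c.rep_pos = c :=
  Quotient.out_eq (s := clSetoid H) c

theorem Cl.mk_eq {a b : H} (ha : 1 < a) (hb : 1 < b) :
    Cl.mk a ha = Cl.mk b hb ↔ Dom a b ∧ Dom b a :=
  ⟨fun h => Quotient.exact (s := clSetoid H) h, fun h => Quotient.sound (s := clSetoid H) h⟩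

open Classical in
/-- PROOF: define `c ≤ d` as `Dom d.rep c.rep` (`Dom a b` means `b` is dominated by `a`); reflexive,
transitive (`dom_trans`), antisymmetric (`Cl.mk_eq`, `Cl.mk_rep`), total (`dom_total`). -/
theorem Cl.order_exists : ∃ lo : LinearOrder (Cl H), ∀ c d : Cl H,
    (lo.toPartialOrder.toPreorder.toLE.le c d ↔ Dom d.rep c.rep) := by
  refine ⟨{
    le := fun c d => Dom d.rep c.rep
    le_refl := fun c => ?_
    le_trans := fun c d e h1 h2 => dom_trans e.rep_pos d.rep_pos h2 h1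
    le_antisymm := fun c d h1 h2 => ?_
    le_total := fun c d => dom_total d.rep_pos c.rep_pos
    toDecidableLE := Classical.decRel _ }, fun c d => Iff.rfl⟩
  · rcases dom_total c.rep_pos c.rep_pos with h | h
    · exact h
    · exact h
  · rw [← Cl.mk_rep c, ← Cl.mk_rep d]
    exact (Cl.mk_eq c.rep_pos d.rep_pos).2 ⟨h2, h1⟩

noncomputable instance Cl.lo : LinearOrder (Cl H) := (Cl.order_exists (H := H)).choose

theorem Cl.le_iff (c d : Cl H) : c ≤ d ↔ Dom d.rep c.rep :=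
  (Cl.order_exists (H := H)).choose_spec c d

/-- PROOF: `Cl.le_iff`, the representatives are equivalent to `a`, `b` (`Cl.mk_eq`, `Cl.mk_rep`),
`dom_trans`. -/
theorem Cl.mk_le {a b : H} (ha : 1 < a) (hb : 1 < b) :
    Cl.mk a ha ≤ Cl.mk b hb ↔ Dom b a := by
  rw [Cl.le_iff]
  obtain ⟨h1, h2⟩ := (Cl.mk_eq (Cl.mk a ha).rep_pos ha).1 (Cl.mk_rep _)
  obtain ⟨h3, h4⟩ := (Cl.mk_eq (Cl.mk b hb).rep_pos hb).1 (Cl.mk_rep _)
  constructor
  · intro h
    exact dom_trans hb (Cl.mk b hb).rep_pos h4 (dom_trans (Cl.mk b hb).rep_pos (Cl.mk a ha).rep_pos h h1)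
  · intro h
    exact dom_trans (Cl.mk b hb).rep_pos hb h3 (dom_trans hb ha h h2)

end Pool.Agent.COST

end

section

open Set

namespace Pool.Agent.COST

variable {H : Type} [Group H] [LinearOrder H] [MulLeftMono H] [MulRightMono H]

open Classical in
/-- the class of `|g|`, bottom for `g = 1` -/
noncomputable def vcl (g : H) : WithBot (Cl H) :=
  if h : 1 < max g g⁻¹ then (Cl.mk (max g g⁻¹) h : Cl H) else ⊥

theorem a1_3_max (g : H) : 1 < max g g⁻¹ ↔ g ≠ 1 := by
  constructor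
  · rintro h rfl
    simp at h
  · intro h
    rcases lt_trichotomy g 1 with h1 | h1 | h1
    · exact lt_max_of_lt_right (one_lt_inv'.mpr h1)
    · exact absurd h1 h
    · exact lt_max_of_lt_left h1

/-- PROOF: `g = 1 ↔ ¬ 1 < max g g⁻¹`. -/
theorem vcl_bot (g : H) : vcl g = ⊥ ↔ g = 1 := by
  unfold vcl
  by_cases h : 1 < max g g⁻¹
  · rw [dif_pos h]
    constructor
    · intro h2
      exact absurd h2 (WithBot.coe_ne_bot)
    · intro h2
      exact absurd h2 ((a1_3_max g).mp h)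
  · rw [dif_neg h]
    constructor
    · intro _
      by_contra h2
      exact h ((a1_3_max g).mpr h2)
    · intro _
      rfl

/-- PROOF: for `g = 1` both sides are true (`Dom.one`). Otherwise `Cl.mk_le` with
`c = Cl.mk c.rep _`, and `dom_abs`. -/
theorem vcl_le (g : H) (c : Cl H) : vcl g ≤ c ↔ Dom c.rep g := by
  unfold vcl
  by_cases h : 1 < max g g⁻¹
  · rw [dif_pos h, WithBot.coe_le_coe]
    have h1 : Cl.mk (max g g⁻¹) h ≤ Cl.mk c.rep c.rep_pos ↔ Dom c.rep (max g g⁻¹) :=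
      Cl.mk_le h c.rep_pos
    rw [Cl.mk_rep] at h1
    rw [h1, dom_abs]
  · rw [dif_neg h]
    have h2 : g = 1 := by
      by_contra h2
      exact h ((a1_3_max g).mpr h2)
    subst h2
    exact ⟨fun _ => Dom.one _, fun _ => bot_le⟩

theorem vcl_inv (g : H) : vcl g⁻¹ = vcl g := by
  unfold vcl
  simp only [inv_inv, max_comm]

/-- PROOF: let `c` be the maximum if it is not `⊥`: `vcl_le` and `Dom.mul`; if both values are `⊥` then
`g = h = 1`. -/
theorem vcl_mul (g h : H) : vcl (g * h) ≤ max (vcl g) (vcl h) := by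
  rcases hm : max (vcl g) (vcl h) with _ | c
  · have hg : vcl g ≤ ⊥ := by
      have h1 := le_max_left (vcl g) (vcl h)
      rw [hm] at h1
      exact h1
    have hh : vcl h ≤ ⊥ := by
      have h1 := le_max_right (vcl g) (vcl h)
      rw [hm] at h1
      exact h1
    have hg1 := (vcl_bot g).mp (le_bot_iff.mp hg)
    have hh1 := (vcl_bot h).mp (le_bot_iff.mp hh)
    subst hg1
    subst hh1
    rw [mul_one]
    exact hg
  · have hg : vcl g ≤ (c : WithBot (Cl H)) := by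
      have h1 := le_max_left (vcl g) (vcl h)
      rw [hm] at h1
      exact h1
    have hh : vcl h ≤ (c : WithBot (Cl H)) := by
      have h1 := le_max_right (vcl g) (vcl h)
      rw [hm] at h1
      exact h1
    exact (vcl_le _ c).mpr (((vcl_le g c).mp hg).mul ((vcl_le h c).mp hh))

end Pool.Agent.COST

end

section

open Set

namespace Pool.Agent.COST

variable {H : Type} [Group H] [LinearOrder H] [MulLeftMono H] [MulRightMono H]

theorem a1_4_vcl {g : H} (h : 1 < max g g⁻¹) : vcl g = ((Cl.mk (max g g⁻¹) h : Cl H) : WithBot (Cl H)) := by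
  unfold vcl
  rw [dif_pos h]

theorem a1_4_le {g : H} {c : Cl H} (h : 1 < max g g⁻¹) :
    (c : WithBot (Cl H)) ≤ vcl g ↔ Dom (max g g⁻¹) c.rep := by
  rw [a1_4_vcl h, WithBot.coe_le_coe]
  have h1 : Cl.mk c.rep c.rep_pos ≤ Cl.mk (max g g⁻¹) h ↔ Dom (max g g⁻¹) c.rep :=
    Cl.mk_le c.rep_pos h
  rw [Cl.mk_rep] at h1
  exact h1

theorem a1_4_dom {g : H} {c : Cl H} (h : 1 < max g g⁻¹) (n : ℕ) (hn : c.rep ≤ (max g g⁻¹) ^ n) :
    Dom (max g g⁻¹) c.rep := by
  refine ⟨n, ?_, hn⟩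
  have h1 : 1 ≤ (max g g⁻¹) ^ n := one_le_pow_of_one_le' h.le n
  exact (inv_le_one'.mpr h1).trans c.rep_pos.le

/-- PROOF: by `psi_zero_iff` `psi c.rep g = 0` iff all powers of `g` and `g⁻¹` are `< c.rep`. If
`vcl g < c` and `c.rep ≤ g ^ n` (or `(g⁻¹) ^ n`) then `Dom |g| c.rep`, so `c ≤ vcl g`, contradiction.
Conversely if all powers of `g`, `g⁻¹` are `< c.rep` then `g = 1` or not `Dom |g| c.rep`, so
`vcl g < c`. -/
theorem vcl_psi (g : H) (c : Cl H) (h : vcl g ≤ c) : psi c.rep g = 0 ↔ vcl g < c := by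
  have hD := (vcl_le g c).mp h
  rw [psi_zero_iff c.rep_pos hD]
  constructor
  · intro hall
    by_cases h1 : 1 < max g g⁻¹
    · rw [← not_le, a1_4_le h1]
      rintro ⟨n, -, hn⟩
      rcases max_choice g g⁻¹ with h2 | h2
      · rw [h2] at hn
        exact absurd hn (not_le.mpr (hall n).1)
      · rw [h2] at hn
        exact absurd hn (not_le.mpr (hall n).2)
    · have h2 : g = 1 := by
        by_contra h2
        exact h1 ((a1_3_max g).mpr h2)
      rw [(vcl_bot g).mpr h2]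
      exact WithBot.bot_lt_coe c
  · intro hlt n
    have key : ∀ x : H, x ≤ max g g⁻¹ → x ^ n < c.rep := by
      intro x hx
      by_contra hcon
      have hcon' := not_lt.mp hcon
      have h3 : c.rep ≤ (max g g⁻¹) ^ n := hcon'.trans (a0_4_pow_le hx n)
      have h4 : 1 < max g g⁻¹ := by
        by_contra h5
        have h6 : (max g g⁻¹) ^ n ≤ 1 := by
          have h7 := a0_4_pow_le (not_lt.mp h5) n
          rwa [one_pow] at h7
        exact absurd (h3.trans h6) (not_le.mpr c.rep_pos)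
      exact absurd ((a1_4_le h4).mpr (a1_4_dom h4 n h3)) (not_le.mpr hlt)
    exact ⟨key g (le_max_left _ _), key g⁻¹ (le_max_right _ _)⟩

end Pool.Agent.COST

end

section

open Set

namespace Pool.Agent.COST

variable {H : Type} [Group H] [LinearOrder H] [MulLeftMono H] [MulRightMono H]

/-- conjugation on classes -/
noncomputable def ccj (u : H) (c : Cl H) : Cl H :=
  Cl.mk (u * c.rep * u⁻¹) (by
    have := mul_lt_mul_right (mul_lt_mul_left c.rep_pos u) u⁻¹
    simpa using this)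

theorem a1_5_conj_pos (u : H) {a : H} (ha : 1 < a) : 1 < u * a * u⁻¹ := by
  have := mul_lt_mul_right (mul_lt_mul_left ha u) u⁻¹
  simpa using this

/-- PROOF: `Cl.mk_eq`, `dom_conj`. -/
theorem ccj_mk (u a : H) (ha : 1 < a) (ha' : 1 < u * a * u⁻¹) :
    ccj u (Cl.mk a ha) = Cl.mk (u * a * u⁻¹) ha' := by
  unfold ccj
  rw [Cl.mk_eq, dom_conj, dom_conj, ← Cl.mk_eq (Cl.rep_pos _) ha, Cl.mk_rep]

/-- PROOF: `Cl.mk_le`, `dom_conj`: `ccj u c ≤ ccj u d ↔ c ≤ d`. -/
theorem ccj_mono (u : H) : StrictMono (ccj (H := H) u) := by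
  have key : ∀ c d : Cl H, ccj u c ≤ ccj u d ↔ c ≤ d := by
    intro c d
    unfold ccj
    rw [Cl.mk_le, dom_conj, ← Cl.le_iff]
  intro c d hcd
  rw [← not_le, key, not_le]
  exact hcd

/-- PROOF: `ccj_mk`, `Cl.mk_rep`. -/
theorem ccj_mul (u w : H) (c : Cl H) : ccj (u * w) c = ccj u (ccj w c) := by
  have h1 : ccj w c = Cl.mk (w * c.rep * w⁻¹) (a1_5_conj_pos w c.rep_pos) := rfl
  have h2 : ccj (u * w) c = Cl.mk (u * w * c.rep * (u * w)⁻¹)
      (a1_5_conj_pos (u * w) c.rep_pos) := rfl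
  rw [h1, ccj_mk u _ _ (a1_5_conj_pos u (a1_5_conj_pos w c.rep_pos)), h2]
  congr 1
  simp only [mul_inv_rev, mul_assoc]

end Pool.Agent.COST

end

section

open Set

namespace Pool.Agent.COST

variable {H : Type} [Group H] [LinearOrder H] [MulLeftMono H] [MulRightMono H]

theorem a1_6_max (u g : H) : max (u * g * u⁻¹) (u * g * u⁻¹)⁻¹ = u * max g g⁻¹ * u⁻¹ := by
  have hmono : Monotone fun x : H => u * x * u⁻¹ := fun x y hxy =>
    mul_le_mul_left (mul_le_mul_right hxy u) u⁻¹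
  have h1 : (u * g * u⁻¹)⁻¹ = u * g⁻¹ * u⁻¹ := by
    simp only [mul_inv_rev, inv_inv, mul_assoc]
  rw [h1]
  exact (hmono.map_max (a := g) (b := g⁻¹)).symm

/-- PROOF: `max (u g u⁻¹) (u g⁻¹ u⁻¹) = u (max g g⁻¹) u⁻¹`, `ccj_mk`. -/
theorem vcl_conj (u g : H) : vcl (u * g * u⁻¹) = (vcl g).map (ccj u) := by
  by_cases h1 : 1 < max g g⁻¹
  · have h2 : 1 < u * max g g⁻¹ * u⁻¹ := a1_5_conj_pos u h1
    have h3 : 1 < max (u * g * u⁻¹) (u * g * u⁻¹)⁻¹ := by
      rw [a1_6_max]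
      exact h2
    rw [a1_4_vcl h1, a1_4_vcl h3, WithBot.map_coe, ccj_mk u _ h1 h2]
    congr 2
    exact a1_6_max u g
  · have h2 : g = 1 := by
      by_contra h2
      exact h1 ((a1_3_max g).mpr h2)
    subst h2
    have h3 : u * 1 * u⁻¹ = 1 := by rw [mul_one, mul_inv_cancel]
    rw [h3, (vcl_bot (1 : H)).mpr rfl, WithBot.map_bot]

end Pool.Agent.COST

end

section

open Set

namespace Pool.Agent.COST

variable {H : Type} [Group H] [LinearOrder H] [MulLeftMono H] [MulRightMono H]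

theorem a1_7_one (c : Cl H) : ccj 1 c = c := by
  have h1 : 1 < (1 : H) * c.rep * (1 : H)⁻¹ := a1_5_conj_pos 1 c.rep_pos
  have h2 := ccj_mk (1 : H) c.rep c.rep_pos h1
  rw [Cl.mk_rep] at h2
  rw [h2]
  have h3 : Cl.mk ((1 : H) * c.rep * (1 : H)⁻¹) h1 = Cl.mk c.rep c.rep_pos := by
    congr 1
    rw [one_mul, inv_one, mul_one]
  rw [h3, Cl.mk_rep]

theorem a1_7_pos {c : Cl H} {g : H} (hv : vcl g ≤ c) (h : 0 < psi c.rep g) : 1 < g := by
  by_contra hcon
  have h1 := psi_mono c.rep_pos ((vcl_le g c).mp hv) (Dom.one c.rep) (not_lt.mp hcon)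
  have h2 : psi c.rep (1 : H) = 0 := by
    have h3 := psi_mul c.rep_pos (Dom.one c.rep) (Dom.one c.rep)
    rw [mul_one] at h3
    linarith
  linarith

theorem a1_7_conj (u : H) (c : Cl H) : ∃ t : ℝ, 0 < t ∧
    ∀ g, vcl g ≤ c → psi (ccj u c).rep (u * g * u⁻¹) = t * psi c.rep g := by
  have hb : 1 < u * c.rep * u⁻¹ := a1_5_conj_pos u c.rep_pos
  have hd : 1 < (ccj u c).rep := (ccj u c).rep_pos
  have heq : Cl.mk (ccj u c).rep hd = Cl.mk (u * c.rep * u⁻¹) hb := by
    rw [Cl.mk_rep]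
    rfl
  obtain ⟨hdb, hbd⟩ := (Cl.mk_eq hd hb).mp heq
  have hdd : Dom (ccj u c).rep (ccj u c).rep := dom_trans hd hb hdb hbd
  have hbb : Dom (u * c.rep * u⁻¹) (u * c.rep * u⁻¹) := dom_trans hb hd hbd hdb
  have hone : ∀ {x : H}, 1 < x → psi x (1 : H) = 0 := by
    intro x hx
    have h3 := psi_mul hx (Dom.one x) (Dom.one x)
    rw [mul_one] at h3
    linarith
  refine ⟨psi (ccj u c).rep (u * c.rep * u⁻¹), ?_, ?_⟩
  · have h1 : 0 ≤ psi (ccj u c).rep (u * c.rep * u⁻¹) := by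
      have h2 := psi_mono hd (Dom.one _) hdb hb.le
      rw [hone hd] at h2
      exact h2
    have h3 := psi_scale hd hb hdb hbd hdd hbd
    rw [psi_self hd] at h3
    rcases h1.lt_or_eq with h4 | h4
    · exact h4
    · rw [← h4, mul_zero] at h3
      exact absurd h3 one_ne_zero
  · intro g hg
    have hDg : Dom c.rep g := (vcl_le g c).mp hg
    have hDb : Dom (u * c.rep * u⁻¹) (u * g * u⁻¹) := (dom_conj u).mpr hDg
    have hDd : Dom (ccj u c).rep (u * g * u⁻¹) := dom_trans hd hb hdb hDb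
    rw [psi_scale hd hb hdb hbd hDd hDb, psi_conj c.rep_pos hDg u]
    ring

/-- PROOF. `Λ = Cl H`, `v = vcl`, `ψ c g = psi c.rep g`, `cj = ccj`. Countable: quotient of a
subtype. `ψ_mul`: `psi_mul`, `vcl_le`. `pos`: if `g ≤ 1` then `psi c.rep g ≤ psi c.rep 1 = 0`
(`psi_mono`). `ψ_conj`: put `b = u * c.rep * u⁻¹`, `d = (ccj u c).rep`, `b`, `d` equivalent:
`psi d (u g u⁻¹) = psi b (u g u⁻¹) * psi d b` (`psi_scale`), `psi b (u g u⁻¹) = psi c.rep g`
(`psi_conj`), and `t = psi d b > 0` (`psi_mono` gives `≥ 0`; it is not `0`, as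
`psi_scale` gives `1 = psi d d = psi b d * psi d b`). -/
theorem cjs_exists [Countable H] : Nonempty (CJS H) := by
  have hco : Countable (Cl H) := by
    unfold Cl
    infer_instance
  exact ⟨{
    Λ := Cl H
    lo := Cl.lo
    co := hco
    v := vcl
    v_bot := vcl_bot
    v_inv := vcl_inv
    v_mul := vcl_mul
    ψ := fun c g => psi c.rep g
    ψ_mul := fun c g h hg hh => psi_mul c.rep_pos ((vcl_le g c).mp hg) ((vcl_le h c).mp hh)
    ψ_zero := fun c g h => vcl_psi g c h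
    pos := fun c g hv h => a1_7_pos hv h
    cj := ccj
    cj_mono := ccj_mono
    cj_one := a1_7_one
    cj_mul := ccj_mul
    v_conj := vcl_conj
    ψ_conj := a1_7_conj }⟩

end Pool.Agent.COST

end
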