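import Pool.Agent.COST.A1

section

open Set

namespace Pool.Agent.COST

/-- convolution of functions on a group (finite sums) -/
noncomputable def conv {H : Type} [Group H] (x y : H → ℂ) : H → ℂ :=
  fun h => ∑ᶠ u : H, x u * y (u⁻¹ * h)

open Classical in
/-- function with one support point -/
noncomputable def sg {H : Type} [Group H] (g : H) (c : ℂ) : H → ℂ := fun h => if h = g then c else 0

theorem conv_zero_left {H : Type} [Group H] (y : H → ℂ) : conv 0 y = 0 := by
  funext h
  simp [conv]

theorem conv_zero_right {H : Type} [Group H] (x : H → ℂ) : conv x 0 = 0 := by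
  funext h
  simp [conv]

/-- PROOF: only `u = g` contributes (`finsum_eq_single`). -/
theorem conv_sg_left {H : Type} [Group H] (g : H) (c : ℂ) (y : H → ℂ) :
    conv (sg g c) y = fun h => c * y (g⁻¹ * h) := by
  funext h
  unfold conv
  rw [finsum_eq_single _ g]
  · simp [sg]
  · intro u hu
    simp [sg, hu]

/-- PROOF: only `u = h * g⁻¹` contributes. -/
theorem conv_sg_right {H : Type} [Group H] (g : H) (c : ℂ) (x : H → ℂ) :
    conv x (sg g c) = fun h => x (h * g⁻¹) * c := by
  funext h
  unfold conv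
  rw [finsum_eq_single _ (h * g⁻¹)]
  · have h1 : (h * g⁻¹)⁻¹ * h = g := by group
    rw [h1]
    simp [sg]
  · intro u hu
    have h1 : u⁻¹ * h ≠ g := by
      intro h2
      apply hu
      rw [← h2]
      group
    simp [sg, h1]

/-- PROOF: substitute `u = h * s⁻¹` in the finite sum (`finsum` over `u` with
`c (u⁻¹ * h) ≠ 0`), `Finsupp.sum`, `finsum_eq_sum_of_support_subset`. -/
theorem conv_finsupp {H : Type} [Group H] (x : H → ℂ) (c : H →₀ ℂ) :
    conv x (fun h => c h) = rc x c := by
  funext h
  unfold conv rc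
  rw [← finsum_comp_equiv ((Equiv.inv H).trans (Equiv.mulLeft h))]
  have h1 : ∀ s : H, x (((Equiv.inv H).trans (Equiv.mulLeft h)) s) *
      c ((((Equiv.inv H).trans (Equiv.mulLeft h)) s)⁻¹ * h) = x (h * s⁻¹) * c s := by
    intro s
    have h2 : (((Equiv.inv H).trans (Equiv.mulLeft h)) s) = h * s⁻¹ := rfl
    rw [h2]
    have h3 : (h * s⁻¹)⁻¹ * h = s := by group
    rw [h3]
  rw [finsum_congr h1]
  rw [finsum_eq_sum_of_support_subset (s := c.support) _ ?_]
  · rfl
  · intro s hs
    rw [Finset.mem_coe, Finsupp.mem_support_iff]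
    intro h4
    apply hs
    show x (h * s⁻¹) * c s = 0
    rw [h4, mul_zero]

/-- PROOF: a term with `x u * y (u⁻¹ * h) ≠ 0`. -/
theorem conv_ne {H : Type} [Group H] {x y : H → ℂ} {h : H} (hh : conv x y h ≠ 0) :
    ∃ u w, x u ≠ 0 ∧ y w ≠ 0 ∧ h = u * w := by
  obtain ⟨u, hu⟩ : ∃ u, x u * y (u⁻¹ * h) ≠ 0 := by
    by_contra hcon
    apply hh
    have h1 : ∀ u, x u * y (u⁻¹ * h) = 0 := by
      intro u
      by_contra h2
      exact hcon ⟨u, h2⟩
    unfold conv
    rw [finsum_congr h1, finsum_zero]
  exact ⟨u, u⁻¹ * h, left_ne_zero_of_mul hu, right_ne_zero_of_mul hu, by group⟩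

end Pool.Agent.COST

end

section

open Set

namespace Pool.Agent.COST

variable {H : Type} [Group H] [LinearOrder H] [MulLeftMono H] [MulRightMono H]

/-- PROOF: if the set is infinite then (being a subset of the well ordered set `supp x`) it
contains a strictly increasing sequence `u_n`; then `u_n⁻¹ * h` is a strictly decreasing sequence in
`supp y`, which is impossible (`Set.IsPWO`, in a linear order `Set.IsWF`). Alternatively use
`Set.SMulAntidiagonal.finite_of_isPWO` for the action of `H` on itself. -/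
theorem conv_finite {x y : H → ℂ} (hx : (Function.support x).IsPWO)
    (hy : (Function.support y).IsPWO) (h : H) :
    {u : H | x u ≠ 0 ∧ y (u⁻¹ * h) ≠ 0}.Finite := by
  by_contra hinf
  have hinf' : {u : H | x u ≠ 0 ∧ y (u⁻¹ * h) ≠ 0}.Infinite := hinf
  set e := hinf'.natEmbedding with he
  have h1 : ∀ n, ((e n : H)) ∈ Function.support x := fun n => (e n).2.1
  obtain ⟨g, hg⟩ := hx.exists_monotone_subseq (f := fun n => (e n : H)) h1
  have h2 : ∀ n, (((e (g n) : H))⁻¹ * h) ∈ Function.support y := fun n => (e (g n)).2.2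
  obtain ⟨m, n, hmn, hle0⟩ := hy (fun n => ⟨((e (g n) : H))⁻¹ * h, h2 n⟩)
  have hle : ((e (g m) : H))⁻¹ * h ≤ ((e (g n) : H))⁻¹ * h := hle0
  have h3 : ((e (g n) : H)) ≤ ((e (g m) : H)) := by
    have h4 := mul_le_mul_left hle h⁻¹
    simp only [mul_assoc, mul_inv_cancel, mul_one] at h4
    exact inv_le_inv_iff.mp h4
  have h5 : ((e (g m) : H)) ≤ ((e (g n) : H)) := hg hmn.le
  have h6 : e (g m) = e (g n) := Subtype.ext (le_antisymm h5 h3)
  have h7 : g m = g n := e.injective h6
  exact hmn.ne (g.injective h7)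

/-- PROOF: the support is contained in the product of the supports (`conv_ne`). Given a sequence
`h n = u n * w n` take a subsequence with `u` monotone, then a subsequence with `w` monotone
(`Set.IsPWO.exists_monotone_subseq`), `mul_le_mul'`. Or `Set.IsPWO.smul`. -/
theorem conv_pwo {x y : H → ℂ} (hx : (Function.support x).IsPWO)
    (hy : (Function.support y).IsPWO) : (Function.support (conv x y)).IsPWO := by
  intro f
  have h1 : ∀ n, ∃ u w, x u ≠ 0 ∧ y w ≠ 0 ∧ (f n : H) = u * w := fun n => conv_ne (f n).2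
  choose u w hu hw hf2 using h1
  obtain ⟨g, hg⟩ := hx.exists_monotone_subseq (f := u) hu
  obtain ⟨m, n, hmn, hle0⟩ := hy (fun n => ⟨w (g n), hw (g n)⟩)
  have hle : w (g m) ≤ w (g n) := hle0
  refine ⟨g m, g n, g.strictMono hmn, ?_⟩
  show (f (g m) : H) ≤ (f (g n) : H)
  rw [hf2, hf2]
  exact mul_le_mul' (hg hmn.le) hle

end Pool.Agent.COST

end

section

open Set

namespace Pool.Agent.COST

variable {H : Type} [Group H] [LinearOrder H] [MulLeftMono H] [MulRightMono H]

theorem b0_3_finite {x y z : H → ℂ} (hx : (Function.support x).IsPWO)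
    (hy : (Function.support y).IsPWO) (hz : (Function.support z).IsPWO) (h : H) :
    (Function.support fun q : H × H => x q.1 * y (q.1⁻¹ * q.2) * z (q.2⁻¹ * h)).Finite := by
  by_contra hinf
  have hinf' : (Function.support fun q : H × H =>
    x q.1 * y (q.1⁻¹ * q.2) * z (q.2⁻¹ * h)).Infinite := hinf
  set e := hinf'.natEmbedding with he
  have hmem : ∀ n, x (e n).1.1 ≠ 0 ∧ y ((e n).1.1⁻¹ * (e n).1.2) ≠ 0 ∧ z ((e n).1.2⁻¹ * h) ≠ 0 := by
    intro n
    have h0 := (e n).2
    rw [Function.mem_support] at h0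
    exact ⟨fun h1 => h0 (by simp [h1]), fun h1 => h0 (by simp [h1]), fun h1 => h0 (by simp [h1])⟩
  obtain ⟨g, hg⟩ := hx.exists_monotone_subseq (f := fun n => (e n).1.1) (fun n => (hmem n).1)
  obtain ⟨k, hk⟩ := hy.exists_monotone_subseq (f := fun n => (e (g n)).1.1⁻¹ * (e (g n)).1.2)
    (fun n => (hmem (g n)).2.1)
  obtain ⟨m, n, hmn, hle0⟩ := hz (fun n => ⟨(e (g (k n))).1.2⁻¹ * h, (hmem (g (k n))).2.2⟩)
  have hle : (e (g (k m))).1.2⁻¹ * h ≤ (e (g (k n))).1.2⁻¹ * h := hle0
  have hu : (e (g (k m))).1.1 ≤ (e (g (k n))).1.1 := hg (k.monotone hmn.le)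
  have hv : (e (g (k m))).1.1⁻¹ * (e (g (k m))).1.2 ≤ (e (g (k n))).1.1⁻¹ * (e (g (k n))).1.2 :=
    hk hmn.le
  have hp1 : (e (g (k m))).1.2 ≤ (e (g (k n))).1.2 := by
    have h1 := mul_le_mul' hu hv
    simpa only [mul_inv_cancel_left] using h1
  have hp2 : (e (g (k n))).1.2 ≤ (e (g (k m))).1.2 := by
    have h4 := mul_le_mul_left hle h⁻¹
    simp only [mul_assoc, mul_inv_cancel, mul_one] at h4
    exact inv_le_inv_iff.mp h4
  have hp : (e (g (k m))).1.2 = (e (g (k n))).1.2 := le_antisymm hp1 hp2
  have hu2 : (e (g (k n))).1.1 ≤ (e (g (k m))).1.1 := by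
    rw [hp] at hv
    exact inv_le_inv_iff.mp (le_of_mul_le_mul_right' hv)
  have h6 : e (g (k m)) = e (g (k n)) := Subtype.ext (Prod.ext (le_antisymm hu hu2) hp)
  exact hmn.ne (k.injective (g.injective (e.injective h6)))

/-- PROOF: fix `h` and put `F u p = x u * y (u⁻¹ * p) * z (p⁻¹ * h)`. The left side at `h` is
`∑ᶠ p, ∑ᶠ u, F u p`, the right side is `∑ᶠ u, ∑ᶠ w, x u * (y w * z (w⁻¹ * (u⁻¹ * h)))`, which
is `∑ᶠ u, ∑ᶠ p, F u p` by the substitution `p = u * w` in the inner sum
(`finsum_comp_equiv` or `finsum_eq_of_bijective`). The set `P` of all `p` with `F u p ≠ 0` for some `u` is finite: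
the indicator function of `supp x * supp y` has well ordered support (proof of `conv_pwo`), apply
`conv_finite` to it and `z`. For each `p` the set of `u` with `F u p ≠ 0` is finite
(`conv_finite` for `x`, `y`). Hence the support of `F` on `H × H` is finite, write everything as
finite sums over `finset` boxes (`finsum_eq_sum_of_support_subset`) and use `Finset.sum_comm`. -/
theorem conv_assoc {x y z : H → ℂ} (hx : (Function.support x).IsPWO)
    (hy : (Function.support y).IsPWO) (hz : (Function.support z).IsPWO) :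
    conv (conv x y) z = conv x (conv y z) := by
  funext h
  have hfin := b0_3_finite hx hy hz h
  have hfin' : (Function.support fun q : H × H =>
      x q.2 * y (q.2⁻¹ * q.1) * z (q.1⁻¹ * h)).Finite := by
    refine (hfin.image Prod.swap).subset ?_
    rintro ⟨p, u⟩ hq
    exact ⟨(u, p), hq, rfl⟩
  have hL : conv (conv x y) z h = ∑ᶠ p : H, ∑ᶠ u : H, x u * y (u⁻¹ * p) * z (p⁻¹ * h) := by
    show ∑ᶠ p : H, (∑ᶠ u : H, x u * y (u⁻¹ * p)) * z (p⁻¹ * h) = _
    refine finsum_congr fun p => ?_
    have hf : (Function.support fun u : H => x u * y (u⁻¹ * p)).Finite := by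
      refine (conv_finite hx hy p).subset ?_
      intro u hu
      rw [Function.mem_support] at hu
      exact ⟨left_ne_zero_of_mul hu, right_ne_zero_of_mul hu⟩
    exact finsum_mul' _ _ hf
  have hR : conv x (conv y z) h = ∑ᶠ u : H, ∑ᶠ p : H, x u * y (u⁻¹ * p) * z (p⁻¹ * h) := by
    show ∑ᶠ u : H, x u * (∑ᶠ w : H, y w * z (w⁻¹ * (u⁻¹ * h))) = _
    refine finsum_congr fun u => ?_
    have hf : (Function.support fun w : H => y w * z (w⁻¹ * (u⁻¹ * h))).Finite := by
      refine (conv_finite hy hz (u⁻¹ * h)).subset ?_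
      intro w hw
      rw [Function.mem_support] at hw
      exact ⟨left_ne_zero_of_mul hw, right_ne_zero_of_mul hw⟩
    have h1 := finsum_comp_equiv (Equiv.mulLeft u⁻¹)
      (f := fun w : H => x u * (y w * z (w⁻¹ * (u⁻¹ * h))))
    rw [mul_finsum' _ _ hf, ← h1]
    refine finsum_congr fun p => ?_
    simp only [Equiv.coe_mulLeft, mul_inv_rev, inv_inv]
    rw [mul_assoc p⁻¹ u, mul_inv_cancel_left]
    ring
  rw [hL, hR, ← finsum_curry (fun q : H × H => x q.2 * y (q.2⁻¹ * q.1) * z (q.1⁻¹ * h)) hfin',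
    ← finsum_curry (fun q : H × H => x q.1 * y (q.1⁻¹ * q.2) * z (q.2⁻¹ * h)) hfin]
  exact (finsum_comp_equiv (Equiv.prodComm H H)
    (f := fun q : H × H => x q.1 * y (q.1⁻¹ * q.2) * z (q.2⁻¹ * h)))

end Pool.Agent.COST

end

section

open Set

namespace Pool.Agent.COST

variable {H : Type} [Group H] [LinearOrder H] [MulLeftMono H] [MulRightMono H]

theorem b0_4_support {x y : H → ℂ} (hx : (Function.support x).IsPWO)
    (hy : (Function.support y).IsPWO) (h : H) :
    (Function.support fun u : H => x u * y (u⁻¹ * h)).Finite := by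
  refine (conv_finite hx hy h).subset ?_
  intro u hu
  rw [Function.mem_support] at hu
  exact ⟨left_ne_zero_of_mul hu, right_ne_zero_of_mul hu⟩

/-- PROOF: `finsum_add_distrib` with `conv_finite`. -/
theorem conv_add {x y z : H → ℂ} (hx : (Function.support x).IsPWO)
    (hy : (Function.support y).IsPWO) (hz : (Function.support z).IsPWO) :
    conv x (y + z) = conv x y + conv x z := by
  funext h
  show ∑ᶠ u : H, x u * (y (u⁻¹ * h) + z (u⁻¹ * h)) =
    (∑ᶠ u : H, x u * y (u⁻¹ * h)) + ∑ᶠ u : H, x u * z (u⁻¹ * h)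
  rw [← finsum_add_distrib (b0_4_support hx hy h) (b0_4_support hx hz h)]
  exact finsum_congr fun u => mul_add _ _ _

/-- PROOF: `finsum_add_distrib` with `conv_finite`. -/
theorem add_conv {x y z : H → ℂ} (hx : (Function.support x).IsPWO)
    (hy : (Function.support y).IsPWO) (hz : (Function.support z).IsPWO) :
    conv (x + y) z = conv x z + conv y z := by
  funext h
  show ∑ᶠ u : H, (x u + y u) * z (u⁻¹ * h) =
    (∑ᶠ u : H, x u * z (u⁻¹ * h)) + ∑ᶠ u : H, y u * z (u⁻¹ * h)
  rw [← finsum_add_distrib (b0_4_support hx hz h) (b0_4_support hy hz h)]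
  exact finsum_congr fun u => add_mul _ _ _

omit [MulLeftMono H] [MulRightMono H] in
theorem pwo_add {x y : H → ℂ} (hx : (Function.support x).IsPWO)
    (hy : (Function.support y).IsPWO) : (Function.support (x + y)).IsPWO :=
  (hx.union hy).mono (Function.support_add x y)

omit [MulLeftMono H] [MulRightMono H] in
theorem pwo_neg {x : H → ℂ} (hx : (Function.support x).IsPWO) :
    (Function.support (-x)).IsPWO := by
  rw [Function.support_neg]
  exact hx

omit [MulLeftMono H] [MulRightMono H] in
theorem pwo_finite {x : H → ℂ} (hx : (Function.support x).Finite) :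
    (Function.support x).IsPWO := hx.isPWO

omit [MulLeftMono H] [MulRightMono H] in
theorem sg_finite (g : H) (c : ℂ) : (Function.support (sg g c)).Finite := by
  refine (Set.finite_singleton g).subset ?_
  intro h hh
  by_contra hne
  exact hh (if_neg hne)

/-- functions with well ordered support -/
def mnSub (H : Type) [Group H] [LinearOrder H] : AddSubgroup (H → ℂ) where
  carrier := {x | (Function.support x).IsPWO}
  add_mem' := fun hx hy => pwo_add hx hy
  zero_mem' := by
    change (Function.support (0 : H → ℂ)).IsPWO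
    rw [Function.support_zero]
    exact Set.isPWO_empty
  neg_mem' := fun hx => pwo_neg hx

/-- the ring of functions with well ordered support -/
def MN (H : Type) [Group H] [LinearOrder H] : Type := mnSub H

noncomputable instance MN.acg : AddCommGroup (MN H) := inferInstanceAs (AddCommGroup (mnSub H))

/-- the underlying function -/
def MN.f (x : MN H) : H → ℂ := x.1

omit [MulLeftMono H] [MulRightMono H] in
theorem MN.pwo (x : MN H) : (Function.support x.f).IsPWO := x.2

omit [MulLeftMono H] [MulRightMono H] in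
theorem MN.ext {x y : MN H} (h : x.f = y.f) : x = y := Subtype.ext h

/-- element of the ring from a function -/
def MN.mk (x : H → ℂ) (hx : (Function.support x).IsPWO) : MN H := ⟨x, hx⟩

omit [MulLeftMono H] [MulRightMono H] in
theorem MN.mk_f (x : H → ℂ) (hx : (Function.support x).IsPWO) : (MN.mk x hx).f = x := rfl

omit [MulLeftMono H] [MulRightMono H] in
theorem MN.add_f (x y : MN H) : (x + y).f = x.f + y.f := rfl

omit [MulLeftMono H] [MulRightMono H] in
theorem MN.neg_f (x : MN H) : (-x).f = -x.f := rfl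

omit [MulLeftMono H] [MulRightMono H] in
theorem MN.sub_f (x y : MN H) : (x - y).f = x.f - y.f := rfl

omit [MulLeftMono H] [MulRightMono H] in
theorem MN.zero_f : (0 : MN H).f = 0 := rfl

noncomputable instance MN.mul : Mul (MN H) := ⟨fun x y => MN.mk (conv x.f y.f) (conv_pwo x.pwo y.pwo)⟩

noncomputable instance MN.one : One (MN H) := ⟨MN.mk (sg 1 1) (sg_finite 1 1).isPWO⟩

theorem MN.mul_f (x y : MN H) : (x * y).f = conv x.f y.f := rfl

omit [MulLeftMono H] [MulRightMono H] in
theorem MN.one_f : (1 : MN H).f = sg 1 1 := rfl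

noncomputable instance MN.ring : Ring (MN H) where
  __ := MN.acg
  __ := MN.mul
  __ := MN.one
  left_distrib x y z := MN.ext (conv_add x.pwo y.pwo z.pwo)
  right_distrib x y z := MN.ext (add_conv x.pwo y.pwo z.pwo)
  zero_mul x := MN.ext (conv_zero_left x.f)
  mul_zero x := MN.ext (conv_zero_right x.f)
  mul_assoc x y z := MN.ext (conv_assoc x.pwo y.pwo z.pwo)
  one_mul x := MN.ext (by
    rw [MN.mul_f, MN.one_f, conv_sg_left]
    funext h
    simp)
  mul_one x := MN.ext (by
    rw [MN.mul_f, MN.one_f, conv_sg_right]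
    funext h
    simp)

end Pool.Agent.COST

end
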