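import Pool.Agent.COST.J2
import Pool.Agent.COST.B0

section

open Set

namespace Pool.Agent.COST

theorem c0_1_locfin {H : Type} [Group H] (S : JS H) (x : H → ℂ)
    (hx : (Function.support x).Finite) (a : S.Λ) (g : H) : LocFin S a g x := by
  intro R
  refine (hx.image fun h => S.ψ a (h * g⁻¹)).subset ?_
  rintro r ⟨-, hr⟩
  obtain ⟨h, hh⟩ := Function.ne_iff.mp hr
  obtain ⟨h1, -, h3⟩ := piece_ne S a g r x h hh
  exact ⟨h, h1, h3⟩

theorem c0_1_fin {H : Type} [Group H] {S : JS H} {P : (H → ℂ) → Prop} (h0 : P 0)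
    (h1 : ∀ g c, P (sg g c))
    (h2 : ∀ x a g, InCoset S a g x → LocFin S a g x → (∀ r, Tame S (piece S a g r x)) →
      (∀ r, P (piece S a g r x)) → P x) (n : ℕ) :
    ∀ x : H → ℂ, (Function.support x).Finite → (Function.support x).ncard = n → P x := by
  induction n using Nat.strong_induction_on with
  | _ n ih =>
    intro x hx hn
    by_cases hsub : (Function.support x).Subsingleton
    · rcases hsub.eq_empty_or_singleton with he | ⟨g, hg⟩
      · rw [Function.support_eq_empty_iff.mp he]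
        exact h0
      · have hxg : x = sg g (x g) := by
          funext h
          unfold sg
          split_ifs with hh
          · rw [hh]
          · by_contra hne
            have h3 : h ∈ Function.support x := hne
            rw [hg] at h3
            exact hh h3
        rw [hxg]
        exact h1 g (x g)
    · rw [Set.not_subsingleton_iff] at hsub
      obtain ⟨p, hp, q, hq, hpq⟩ := hsub
      have hfin : {t : H × H | t.1 ∈ Function.support x ∧ t.2 ∈ Function.support x ∧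
          t.1 ≠ t.2}.Finite := by
        refine (hx.prod hx).subset ?_
        rintro ⟨t1, t2⟩ ht
        exact ⟨ht.1, ht.2.1⟩
      obtain ⟨⟨u, k⟩, ⟨hu, hk, huk⟩, hmax⟩ := Set.exists_max_image _
        (fun t : H × H => S.v (t.1 * t.2⁻¹)) hfin ⟨(p, q), hp, hq, hpq⟩
      have hne : S.v (u * k⁻¹) ≠ ⊥ := by
        rw [Ne, S.v_bot]
        intro h3
        exact huk (mul_inv_eq_one.mp h3)
      obtain ⟨a, ha⟩ := WithBot.ne_bot_iff_exists.mp hne
      have hin : InCoset S a k x := by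
        intro h hh
        by_cases hhk : h = k
        · rw [hhk, mul_inv_cancel, S.v_one]
          exact bot_le
        · rw [ha]
          exact hmax (h, k) ⟨hh, hk, hhk⟩
      refine h2 x a k hin (c0_1_locfin S x hx a k)
        (fun r => Tame.fin _ (piece_finite S a k r x hx)) fun r => ?_
      have hss : Function.support (piece S a k r x) ⊂ Function.support x := by
        refine (Set.ssubset_iff_of_subset fun h hh => (piece_ne S a k r x h hh).1).mpr ?_
        by_cases hr : r = 0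
        · refine ⟨u, hu, fun h3 => ?_⟩
          obtain ⟨-, h4, h5⟩ := piece_ne S a k r x u h3
          rw [hr] at h5
          have h6 := (S.ψ_zero a _ h4).mp h5
          rw [← ha] at h6
          exact lt_irrefl _ h6
        · refine ⟨k, hk, fun h3 => ?_⟩
          obtain ⟨-, -, h5⟩ := piece_ne S a k r x k h3
          rw [mul_inv_cancel, S.ψ_one] at h5
          exact hr h5.symm
      exact ih _ (hn ▸ Set.ncard_lt_ncard hss hx) _ (piece_finite S a k r x hx) rfl

/-- Induction principle. PROOF: induction on `Tame`; the case `node` is `h2`. Case of finite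
support: strong induction on the number of support points. No point: `x = 0`, `h0`. One point:
`x = sg g c`, `h1`. At least two points: the finite set of all `S.v (h * k⁻¹)`, `h ≠ k` support
points, consists of elements of `S.Λ` (`v_bot`); let `a` be the largest, attained at `(h0, k0)`,
`g = k0`. Then `InCoset S a g x`; `LocFin` and tameness of the pieces are clear (finite support,
`piece_finite`); every piece has fewer support points: it misses `k0` (level `0`) or `h0` (level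
`≠ 0` by `ψ_zero`). Apply `h2`. -/
theorem Tame.ind {H : Type} [Group H] {S : JS H} {P : (H → ℂ) → Prop} (h0 : P 0)
    (h1 : ∀ g c, P (sg g c))
    (h2 : ∀ x a g, InCoset S a g x → LocFin S a g x → (∀ r, Tame S (piece S a g r x)) →
      (∀ r, P (piece S a g r x)) → P x) {x : H → ℂ} (hx : Tame S x) : P x := by
  induction hx with
  | fin x hfin => exact c0_1_fin h0 h1 h2 _ x hfin rfl
  | node x a g hin hloc htame ih => exact h2 x a g hin hloc htame ih

end Pool.Agent.COST

end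

section

open Set

namespace Pool.Agent.COST

/-- Restrictions to cosets are tame. PROOF: induction on `Tame`. `fin`: `piece_finite`.
`node x b k`: let `y = piece S a g r x`. If `y = 0`: `Tame.zero`. Otherwise let `y h0 ≠ 0`.
Case `a ≤ b`: every `h` with `y h ≠ 0` satisfies `v (h * h0⁻¹) < a ≤ b`, so `h` has the same
`(b, k)`-level `ρ` as `h0`; hence `y = piece S a g r (piece S b k ρ x)`, tame by the induction
hypothesis. Case `b < a`: all support points of `x` satisfy `v (h * h0⁻¹) ≤ b < a`, so they have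
`(a, g)`-level `r` and lie in the coset: `y = x` (`piece_all`), tame. -/
theorem tame_restrict {H : Type} [Group H] {S : JS H} {x : H → ℂ} (hx : Tame S x) :
    ∀ (a : S.Λ) (g : H) (r : ℝ), Tame S (piece S a g r x) := by
  induction hx with
  | fin x hfin => exact fun a g r => Tame.fin _ (piece_finite S a g r x hfin)
  | node x b k hin hloc htame ih =>
    intro a g r
    by_cases hzero : piece S a g r x = 0
    · rw [hzero]
      exact Tame.zero S
    · obtain ⟨u, hu⟩ := Function.ne_iff.mp hzero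
      obtain ⟨hu1, hu2, hu3⟩ := piece_ne S a g r x u hu
      -- points of the piece differ from `u` by less than `a`
      have hlt : ∀ h, piece S a g r x h ≠ 0 → S.v (h * u⁻¹) < a := by
        intro h hh
        obtain ⟨-, hh2, hh3⟩ := piece_ne S a g r x h hh
        have h4 : S.v (h * u⁻¹) ≤ a := S.le_tri hh2 (by rw [S.v_symm]; exact hu2)
        have h5 := S.ψ_tri a (g := h) (h := u) (k := g) h4 hu2
        rw [hh3, hu3] at h5
        exact (S.ψ_zero a _ h4).mp (by linarith)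
      rcases le_or_gt a b with hab | hab
      · have hab' : ((a : S.Λ) : WithBot S.Λ) ≤ (b : S.Λ) := WithBot.coe_le_coe.mpr hab
        have huk : S.v (u * k⁻¹) ≤ b := hin u hu1
        have hkey : piece S a g r x = piece S a g r (piece S b k (S.ψ b (u * k⁻¹)) x) := by
          funext h
          by_cases hh : piece S a g r x h = 0
          · rw [hh]
            by_contra hne
            obtain ⟨h1, h2, h3⟩ := piece_ne S a g r _ h (Ne.symm hne)
            obtain ⟨h4, -, -⟩ := piece_ne S b k _ x h h1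
            rw [piece_of S a g r x h h2 h3] at hh
            exact h4 hh
          · obtain ⟨h1, h2, h3⟩ := piece_ne S a g r x h hh
            have h4 := hlt h hh
            have h5 : S.v (h * u⁻¹) ≤ b := h4.le.trans hab'
            have h6 : S.ψ b (h * u⁻¹) = 0 := (S.ψ_zero b _ h5).mpr (h4.trans_le hab')
            have h7 : S.v (h * k⁻¹) ≤ b := hin h h1
            have h8 : S.ψ b (h * k⁻¹) = S.ψ b (u * k⁻¹) := by
              rw [S.ψ_tri b (g := h) (h := u) (k := k) h5 huk, h6, zero_add]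
            rw [piece_of S a g r x h h2 h3, piece_of S a g r _ h h2 h3,
              piece_of S b k _ x h h7 h8]
        rw [hkey]
        exact ih _ a g r
      · have hba' : ((b : S.Λ) : WithBot S.Λ) < (a : S.Λ) := WithBot.coe_lt_coe.mpr hab
        have hkey : piece S a g r x = x := by
          refine piece_all S a g r x fun h hh => ?_
          have h1 : S.v (h * u⁻¹) ≤ b :=
            S.le_tri (hin h hh) (by rw [S.v_symm]; exact hin u hu1)
          have h2 : S.v (h * u⁻¹) < a := h1.trans_lt hba'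
          have h3 : S.ψ a (h * u⁻¹) = 0 := (S.ψ_zero a _ h2.le).mpr h2
          refine ⟨S.le_tri h2.le hu2, ?_⟩
          rw [S.ψ_tri a (g := h) (h := u) (k := g) h2.le hu2, h3, zero_add, hu3]
        rw [hkey]
        exact Tame.node x b k hin hloc htame

end Pool.Agent.COST

end

section

open Set

namespace Pool.Agent.COST

theorem c0_3_piece {H : Type} [Group H] (S : JS H) (a : S.Λ) (g : H) (r : ℝ) (x : H → ℂ) (u : H) :
    piece S a (g * u⁻¹) r (fun h => x (h * u)) = fun h => piece S a g r x (h * u) := by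
  funext h
  unfold piece
  have h1 : h * (g * u⁻¹)⁻¹ = h * u * g⁻¹ := by
    simp only [mul_inv_rev, inv_inv, mul_assoc]
  simp only [h1]

/-- PROOF: induction on `Tame` (for all `u`). `node x a g`: node data `(a, g * u⁻¹)`;
`piece S a (g * u⁻¹) r (fun h => x (h * u)) = fun h => piece S a g r x (h * u)`. -/
theorem tame_right {H : Type} [Group H] {S : JS H} {x : H → ℂ} (hx : Tame S x) (u : H) :
    Tame S (fun h => x (h * u)) := by
  induction hx with
  | fin x hfin =>
    refine Tame.fin _ ?_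
    refine (hfin.preimage (f := fun h => h * u) ?_).subset fun h hh => hh
    intro p _ q _ hpq
    exact mul_right_cancel hpq
  | node x a g hin hloc htame ih =>
    refine Tame.node _ a (g * u⁻¹) ?_ ?_ ?_
    · intro h hh
      have h1 : h * (g * u⁻¹)⁻¹ = h * u * g⁻¹ := by
        simp only [mul_inv_rev, inv_inv, mul_assoc]
      rw [h1]
      exact hin (h * u) hh
    · intro R
      refine (hloc R).subset ?_
      rintro r ⟨hr, hne⟩
      refine ⟨hr, fun h0 => hne ?_⟩
      rw [c0_3_piece, h0]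
      rfl
    · intro r
      rw [c0_3_piece]
      exact ih r

/-- PROOF: induction on `Tame`; for `k = 0` the function is `0`; pieces commute with scalars. -/
theorem tame_smul {H : Type} [Group H] {S : JS H} {x : H → ℂ} (hx : Tame S x) (k : ℂ) :
    Tame S (fun h => k * x h) := by
  have hp : ∀ (a : S.Λ) (g : H) (r : ℝ) (x : H → ℂ),
      piece S a g r (fun h => k * x h) = fun h => k * piece S a g r x h := by
    intro a g r x
    funext h
    unfold piece
    split_ifs
    · rfl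
    · rw [mul_zero]
  induction hx with
  | fin x hfin =>
    exact Tame.fin _ (hfin.subset fun h hh => right_ne_zero_of_mul hh)
  | node x a g hin hloc htame ih =>
    refine Tame.node _ a g (fun h hh => hin h (right_ne_zero_of_mul hh)) ?_ ?_
    · intro R
      refine (hloc R).subset ?_
      rintro r ⟨hr, hne⟩
      refine ⟨hr, fun h0 => hne ?_⟩
      rw [hp, h0]
      funext h
      exact mul_zero k
    · intro r
      rw [hp]
      exact ih r

/-- Levels are bounded below. PROOF: if some piece at level `r1` is not `0`, the set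
`{r ≤ r1 | piece ≠ 0}` is finite and nonempty, its minimum is a lower bound for all levels. -/
theorem locfin_bdd {H : Type} [Group H] {S : JS H} {a : S.Λ} {g : H} {x : H → ℂ}
    (h : LocFin S a g x) : ∃ m : ℝ, ∀ r, piece S a g r x ≠ 0 → m ≤ r := by
  by_cases hex : ∃ r1, piece S a g r1 x ≠ 0
  · obtain ⟨r1, hr1⟩ := hex
    obtain ⟨m, ⟨hm1, -⟩, hm2⟩ := Set.exists_min_image _ (fun r : ℝ => r) (h r1) ⟨r1, le_rfl, hr1⟩
    refine ⟨m, fun r hr => ?_⟩
    rcases le_or_gt r r1 with h1 | h1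
    · exact hm2 r ⟨h1, hr⟩
    · exact hm1.trans h1.le
  · exact ⟨0, fun r hr => absurd ⟨r, hr⟩ hex⟩

end Pool.Agent.COST

end

section

open Set

namespace Pool.Agent.COST

theorem c0_4_piece_add {H : Type} [Group H] (S : JS H) (c : S.Λ) (g : H) (r : ℝ) (x y : H → ℂ) :
    piece S c g r (x + y) = piece S c g r x + piece S c g r y := by
  funext h
  simp only [piece, Pi.add_apply]
  split_ifs
  · rfl
  · rw [add_zero]

theorem c0_4_node {H : Type} [Group H] {S : JS H} {x y : H → ℂ} (hx : Tame S x) (hy : Tame S y)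
    (c : S.Λ) (g : H) (h1 : InCoset S c g x) (h2 : InCoset S c g y)
    (h : ∀ r, Tame S (piece S c g r x + piece S c g r y)) : Tame S (x + y) := by
  refine Tame.node _ c g ?_ ?_ ?_
  · intro k hk
    by_cases hxk : x k = 0
    · refine h2 k ?_
      intro hyk
      exact hk (by rw [Pi.add_apply, hxk, hyk, add_zero])
    · exact h1 k hxk
  · intro R
    have e1 := (tame_piece S hx c g h1).1 R
    have e2 := (tame_piece S hy c g h2).1 R
    refine (e1.union e2).subset ?_
    rintro r ⟨hr, hne⟩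
    rw [c0_4_piece_add] at hne
    by_cases hxr : piece S c g r x = 0
    · refine Or.inr ⟨hr, ?_⟩
      intro hyr
      exact hne (by rw [hxr, hyr, add_zero])
    · exact Or.inl ⟨hr, hxr⟩
  · intro r
    rw [c0_4_piece_add]
    exact h r

theorem c0_4_level {H : Type} [Group H] (S : JS H) (x : H → ℂ) (A : WithBot S.Λ) (g : H)
    (hA : ∀ h, x h ≠ 0 → S.v (h * g⁻¹) ≤ A) (b : S.Λ) (k : H) (hAb : A < b)
    (hgk : S.v (g * k⁻¹) ≤ b) :
    ∀ h, x h ≠ 0 → S.v (h * k⁻¹) ≤ b ∧ S.ψ b (h * k⁻¹) = S.ψ b (g * k⁻¹) := by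
  intro h hh
  have h1 : S.v (h * g⁻¹) < b := lt_of_le_of_lt (hA h hh) hAb
  refine ⟨S.le_tri h1.le hgk, ?_⟩
  rw [S.ψ_tri b h1.le hgk, (S.ψ_zero b _ h1.le).2 h1, zero_add]

theorem c0_4_ii {H : Type} [Group H] {S : JS H} {x y : H → ℂ} (hx : Tame S x) (hy : Tame S y)
    (A : WithBot S.Λ) (g : H) (hA : ∀ h, x h ≠ 0 → S.v (h * g⁻¹) ≤ A) (b : S.Λ) (k : H)
    (hAb : A < b) (hgk : S.v (g * k⁻¹) ≤ b) (h2 : InCoset S b k y)
    (ih : ∀ r, Tame S (x + piece S b k r y)) : Tame S (x + y) := by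
  have hl := c0_4_level S x A g hA b k hAb hgk
  have hp := (tame_piece S hy b k h2).2
  refine c0_4_node hx hy b k (fun h hh => (hl h hh).1) h2 fun r => ?_
  by_cases hr : r = S.ψ b (g * k⁻¹)
  · rw [hr, piece_all S b k _ x hl]
    exact ih _
  · rw [piece_none S b k _ r x hl hr, zero_add]
    exact hp r

theorem c0_4_iii {H : Type} [Group H] {S : JS H} {x y : H → ℂ} (hx : Tame S x) (hy : Tame S y)
    (A : WithBot S.Λ) (g : H) (hA : ∀ h, x h ≠ 0 → S.v (h * g⁻¹) ≤ A) (B : WithBot S.Λ) (k : H)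
    (hB : ∀ h, y h ≠ 0 → S.v (h * k⁻¹) ≤ B) (h1 : A < S.v (g * k⁻¹)) (h2 : B < S.v (g * k⁻¹)) :
    Tame S (x + y) := by
  have hc : S.v (g * k⁻¹) ≠ ⊥ := fun h => not_lt_bot (h ▸ h1)
  obtain ⟨c, hc⟩ := WithBot.ne_bot_iff_exists.1 hc
  rw [← hc] at h1 h2
  have hgk : S.v (g * k⁻¹) ≤ c := hc.symm.le
  have hl := c0_4_level S x A g hA c k h1 hgk
  have hl' := c0_4_level S y B k hB c k h2 (by rw [mul_inv_cancel, S.v_one]; exact bot_le)
  have h0 : S.ψ c (k * k⁻¹) = 0 := by rw [mul_inv_cancel, S.ψ_one]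
  have hne : S.ψ c (g * k⁻¹) ≠ 0 := by
    intro h
    have h3 := (S.ψ_zero c _ hgk).1 h
    rw [← hc] at h3
    exact lt_irrefl _ h3
  rw [h0] at hl'
  refine c0_4_node hx hy c k (fun h hh => (hl h hh).1) (fun h hh => (hl' h hh).1) fun r => ?_
  by_cases hr : r = S.ψ c (g * k⁻¹)
  · rw [hr, piece_all S c k _ x hl, piece_none S c k _ _ y hl' hne, add_zero]
    exact hx
  · rw [piece_none S c k _ r x hl hr, zero_add]
    by_cases hr0 : r = 0
    · rw [hr0, piece_all S c k _ y hl']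
      exact hy
    · rw [piece_none S c k _ r y hl' hr0]
      exact Tame.zero S

theorem c0_4_sg {H : Type} [Group H] {S : JS H} (g : H) (c : ℂ) :
    ∀ h, sg g c h ≠ 0 → S.v (h * g⁻¹) ≤ ⊥ := by
  intro h hh
  have h1 : h = g := by
    by_contra hne
    exact hh (if_neg hne)
  rw [h1, mul_inv_cancel, S.v_one]

theorem c0_4_sg_finite {H : Type} [Group H] (g : H) (c : ℂ) :
    (Function.support (sg g c)).Finite := by
  refine (Set.finite_singleton g).subset ?_
  intro h hh
  by_contra hne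
  exact hh (if_neg hne)

theorem c0_4_add_sg {H : Type} [Group H] {S : JS H} (g : H) (c : ℂ) {y : H → ℂ} (hy : Tame S y) :
    Tame S (sg g c + y) := by
  have hsg : Tame S (sg g c) := Tame.fin _ (c0_4_sg_finite g c)
  refine Tame.ind (P := fun y => Tame S (sg g c + y)) ?_ ?_ ?_ hy
  · rw [add_zero]
    exact hsg
  · intro k d
    refine Tame.fin _ ?_
    exact ((c0_4_sg_finite g c).union (c0_4_sg_finite k d)).subset (Function.support_add _ _)
  · intro y b k h1 h2 h3 ih
    have hy : Tame S y := Tame.node y b k h1 h2 h3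
    by_cases hgk : S.v (g * k⁻¹) ≤ b
    · exact c0_4_ii hsg hy ⊥ g (c0_4_sg g c) b k (WithBot.bot_lt_coe b) hgk h1 ih
    · rw [not_le] at hgk
      exact c0_4_iii hsg hy ⊥ g (c0_4_sg g c) b k h1 ((WithBot.bot_lt_coe b).trans hgk) hgk

/-- PROOF. `P x := ∀ y, Tame S y → Tame S (x + y)` by `Tame.ind`.
`x = 0`: clear. `x = sg g c`: by `Tame.ind` on `y`: for `y = 0`, `y = sg` finite support. `y` with
node `(b, k)`: if `v (g * k⁻¹) ≤ b`, let `r0` be the `(b, k)`-level of `g`; the piece of the sum at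
level `r0` is `sg g c + y_r0` (tame by induction), the others are `y_r`. If
`v (g * k⁻¹) = a > b`: with respect to `(a, k)` all points of `y` have level `0` and `g` has level
`r0 ≠ 0`: pieces `y`, `sg g c`, `0`.
`x` with node `(a, g)`, induction hypothesis for all pieces `x_r`: by `Tame.ind` on `y`: `y = 0`
clear, `y = sg k c` by the case before (`add_comm`); `y` with node `(b, k)`, induction hypothesis
`Tame S (x + y_r)`; if `x = 0` clear. Let `β = v (g * k⁻¹)`.
(i) `β ≤ a`, `b ≤ a`: `y` lies in the coset `(a, g)`, the pieces of the sum at `(a, g)` are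
`x_r + piece S a g r y`: tame by the hypothesis for `x_r` and `tame_restrict`; `LocFin` by
`tame_piece`. (ii) `a < b`, `β ≤ b`: with respect to `(b, k)` all points of `x` have the same level
`r0`: the pieces are `x + y_r0` (tame by hypothesis) and `y_r`, `r ≠ r0`. (iii) `a < β`, `b < β`,
`β = c`: with respect to `(c, k)`: `y` at level `0`, `x` at level `ψ c (g * k⁻¹) ≠ 0`: pieces `x`,
`y`, `0`. -/
theorem tame_add {H : Type} [Group H] {S : JS H} {x y : H → ℂ} (hx : Tame S x) (hy : Tame S y) :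
    Tame S (x + y) := by
  refine Tame.ind (P := fun x => ∀ y, Tame S y → Tame S (x + y)) ?_ ?_ ?_ hx y hy
  · intro y hy
    rw [zero_add]
    exact hy
  · intro g c y hy
    exact c0_4_add_sg g c hy
  · intro x a g h1 h2 h3 ih y hy
    have hx : Tame S x := Tame.node x a g h1 h2 h3
    refine Tame.ind (P := fun y => Tame S (x + y)) ?_ ?_ ?_ hy
    · rw [add_zero]
      exact hx
    · intro k d
      rw [add_comm]
      exact c0_4_add_sg k d hx
    · intro y b k k1 k2 k3 ih'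
      have hy : Tame S y := Tame.node y b k k1 k2 k3
      by_cases hm : S.v (g * k⁻¹) ≤ max (a : WithBot S.Λ) b
      · rcases le_or_gt b a with hab | hab
        · have hab' : (b : WithBot S.Λ) ≤ a := WithBot.coe_le_coe.2 hab
          rw [max_eq_left hab'] at hm
          refine c0_4_node hx hy a g h1 ?_ fun r => ih r _ (tame_restrict hy a g r)
          intro h hh
          exact S.le_tri ((k1 h hh).trans hab') (by rw [S.v_symm]; exact hm)
        · have hab' : (a : WithBot S.Λ) < b := WithBot.coe_lt_coe.2 hab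
          rw [max_eq_right hab'.le] at hm
          exact c0_4_ii hx hy a g h1 b k hab' hm k1 ih'
      · rw [not_le, max_lt_iff] at hm
        exact c0_4_iii hx hy a g h1 b k k1 hm.1 hm.2

end Pool.Agent.COST

end

section

open Set

namespace Pool.Agent.COST

variable {H : Type} [Group H] [LinearOrder H] [MulLeftMono H] [MulRightMono H]

omit [MulLeftMono H] [MulRightMono H] in
theorem c0_5_v (S : CJS H) (a : S.Λ) (g u h : H) :
    S.v (h * (u⁻¹ * g)⁻¹) ≤ (S.cj u⁻¹ a : S.Λ) ↔ S.v (u * h * g⁻¹) ≤ a := by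
  have h1 : h * (u⁻¹ * g)⁻¹ = u⁻¹ * (u * h * g⁻¹) * (u⁻¹)⁻¹ := by group
  rw [h1, S.v_conj]
  rcases hv : S.v (u * h * g⁻¹) with _ | c
  · exact ⟨fun _ => bot_le, fun _ => bot_le⟩
  · change ((S.cj u⁻¹ c : S.Λ) : WithBot S.Λ) ≤ (S.cj u⁻¹ a : S.Λ) ↔
      ((c : S.Λ) : WithBot S.Λ) ≤ (a : S.Λ)
    rw [WithBot.coe_le_coe, WithBot.coe_le_coe]
    exact (S.cj_mono u⁻¹).le_iff_le

omit [MulLeftMono H] [MulRightMono H] in
theorem c0_5_piece (S : CJS H) (a : S.Λ) (g u : H) {t : ℝ} (ht : 0 < t)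
    (hψ : ∀ g', S.v g' ≤ a → S.ψ (S.cj u⁻¹ a) (u⁻¹ * g' * (u⁻¹)⁻¹) = t * S.ψ a g')
    (r : ℝ) (x : H → ℂ) :
    piece S.toJS (S.cj u⁻¹ a) (u⁻¹ * g) r (fun h => x (u * h)) =
      fun h => piece S.toJS a g (r / t) x (u * h) := by
  funext h
  unfold piece
  have h1 : h * (u⁻¹ * g)⁻¹ = u⁻¹ * (u * h * g⁻¹) * (u⁻¹)⁻¹ := by group
  have h2 : (S.v (h * (u⁻¹ * g)⁻¹) ≤ (S.cj u⁻¹ a : S.Λ) ∧
      S.ψ (S.cj u⁻¹ a) (h * (u⁻¹ * g)⁻¹) = r) ↔
      (S.v (u * h * g⁻¹) ≤ a ∧ S.ψ a (u * h * g⁻¹) = r / t) := by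
    rw [c0_5_v]
    refine and_congr_right fun hv => ?_
    rw [h1, hψ _ hv, eq_div_iff ht.ne', mul_comm]
  simp only [h2]

omit [MulLeftMono H] [MulRightMono H] in
/-- PROOF: induction on `Tame` (for all `u`). `node x a g`: put `b = S.cj u⁻¹ a`, `k = u⁻¹ * g`,
`t > 0` from `ψ_conj u⁻¹ a`. For `h` with `x (u * h) ≠ 0`:
`h * k⁻¹ = u⁻¹ * ((u * h) * g⁻¹) * (u⁻¹)⁻¹`, so `v (h * k⁻¹) ≤ b` (`v_conj`, `cj_mono`) and
`ψ b (h * k⁻¹) = t * ψ a (u * h * g⁻¹)`. So
`piece b k r (fun h => x (u * h)) = fun h => piece a g (r / t) x (u * h)`. -/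
theorem tame_left (S : CJS H) {x : H → ℂ} (hx : Tame S.toJS x) (u : H) :
    Tame S.toJS (fun h => x (u * h)) := by
  induction hx with
  | fin x hfin =>
    refine Tame.fin _ ?_
    refine (hfin.preimage (f := fun h => u * h) ?_).subset fun h hh => hh
    intro p _ q _ hpq
    exact mul_left_cancel hpq
  | node x a g hin hloc htame ih =>
    obtain ⟨t, ht, hψ⟩ := S.ψ_conj u⁻¹ a
    refine Tame.node _ (S.cj u⁻¹ a) (u⁻¹ * g) ?_ ?_ ?_
    · intro h hh
      exact (c0_5_v S a g u h).mpr (hin (u * h) hh)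
    · intro R
      refine ((hloc (R / t)).preimage (f := fun r => r / t) ?_).subset ?_
      · intro p _ q _ hpq
        have h1 : p / t = q / t := hpq
        exact (div_left_inj' ht.ne').mp h1
      · rintro r ⟨hr, hne⟩
        refine ⟨div_le_div_of_nonneg_right hr ht.le, fun h0 => hne ?_⟩
        rw [c0_5_piece S a g u ht hψ, h0]
        rfl
    · intro r
      rw [c0_5_piece S a g u ht hψ]
      exact ih (r / t)

end Pool.Agent.COST

end

section

open Set

namespace Pool.Agent.COST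

variable {H : Type} [Group H] [LinearOrder H] [MulLeftMono H] [MulRightMono H]

/-- Tame functions have well ordered support. PROOF: induction on `Tame`. `fin`: finite sets.
`node x a g`: if `h, h'` are support points and the level of `h` is smaller than the level of `h'`
then `ψ a (h' * h⁻¹) > 0`, so `h < h'` (`S.pos`). Suppose `f` is a strictly decreasing sequence of
support points (`Set.isWF_iff_no_descending_seq`, `Set.isPWO_iff_isWF`); its levels are
not increasing and lie in the finite set `{r ≤ level of f 0 | piece ≠ 0}`, so there is `n0` where the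
level is minimal and from `n0` on the level is constant `r`; then `n ↦ f (n0 + n)` is a strictly
decreasing sequence in the support of `piece S a g r x`, contradiction. -/
theorem tame_pwo (S : CJS H) {x : H → ℂ} (hx : Tame S.toJS x) :
    (Function.support x).IsPWO := by
  induction hx with
  | fin x hx => exact hx.isPWO
  | node x a g h1 h2 h3 ih =>
    rw [Set.isPWO_iff_isWF, Set.isWF_iff_no_descending_seq]
    intro f hf hfs
    have hanti : ∀ m n, m ≤ n → S.ψ a (f n * g⁻¹) ≤ S.ψ a (f m * g⁻¹) := by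
      intro m n hmn
      by_contra hlt
      rw [not_le] at hlt
      have e1 := h1 _ (hfs n)
      have e2 := h1 _ (hfs m)
      have e3 : S.v (f n * (f m)⁻¹) ≤ a := S.le_tri e1 (by rw [S.v_symm]; exact e2)
      have e4 : S.ψ a (f n * g⁻¹) = S.ψ a (f n * (f m)⁻¹) + S.ψ a (f m * g⁻¹) := S.ψ_tri a e3 e2
      have e5 : 1 < f n * (f m)⁻¹ := S.pos a _ e3 (by linarith)
      have e6 : f m < f n := by
        have := mul_lt_mul_left e5 (f m)
        rwa [one_mul, inv_mul_cancel_right] at this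
      exact absurd (hf.antitone hmn) (not_le.2 e6)
    have hmem : ∀ n, S.ψ a (f n * g⁻¹) ∈
        {r : ℝ | r ≤ S.ψ a (f 0 * g⁻¹) ∧ piece S.toJS a g r x ≠ 0} := by
      intro n
      refine ⟨hanti 0 n (Nat.zero_le n), ?_⟩
      intro h0
      have h4 := piece_of S.toJS a g _ x (f n) (h1 _ (hfs n)) rfl
      rw [h0] at h4
      exact hfs n h4.symm
    have hfin : (Set.range fun n => S.ψ a (f n * g⁻¹)).Finite := by
      refine (h2 (S.ψ a (f 0 * g⁻¹))).subset ?_
      rintro _ ⟨n, rfl⟩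
      exact hmem n
    obtain ⟨_, ⟨n0, rfl⟩, hmin⟩ := Set.exists_min_image _ (fun r : ℝ => r) hfin ⟨_, ⟨0, rfl⟩⟩
    have hconst : ∀ n, S.ψ a (f (n0 + n) * g⁻¹) = S.ψ a (f n0 * g⁻¹) := by
      intro n
      exact le_antisymm (hanti n0 (n0 + n) (Nat.le_add_right _ _)) (hmin _ ⟨n0 + n, rfl⟩)
    have h5 := ih (S.ψ a (f n0 * g⁻¹))
    rw [Set.isPWO_iff_isWF, Set.isWF_iff_no_descending_seq] at h5
    refine h5 (fun n => f (n0 + n)) (fun m n hmn => hf (by omega)) fun n => ?_
    rw [Function.mem_support, piece_of S.toJS a g _ x _ (h1 _ (hfs _)) (hconst n)]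
    exact hfs _

end Pool.Agent.COST

end

section

open Set

namespace Pool.Agent.COST

variable {H : Type} [Group H] [LinearOrder H] [MulLeftMono H] [MulRightMono H]

theorem c0_7_level (S : CJS H) (c : S.Λ) (g : H) (b' : S.Λ) (g' : H) (hb : S.cj g b' = c) (t : ℝ)
    (hψ : ∀ k, S.v k ≤ b' → S.ψ c (g * k * g⁻¹) = t * S.ψ b' k) (u w : H)
    (h1 : S.v (u * g⁻¹) ≤ c) (h2 : S.v (w * g'⁻¹) ≤ b') :
    S.v (u * w * (g * g')⁻¹) ≤ c ∧
      S.ψ c (u * w * (g * g')⁻¹) = S.ψ c (u * g⁻¹) + t * S.ψ b' (w * g'⁻¹) := by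
  have e1 : u * w * (g * g')⁻¹ = (u * g⁻¹) * (g * (w * g'⁻¹) * g⁻¹) := by group
  have e2 : S.v (g * (w * g'⁻¹) * g⁻¹) ≤ c := by
    rw [S.v_conj, ← hb]
    have h3 := WithBot.map_coe (S.cj g) b'
    rw [← h3]
    exact (S.cj_mono g).monotone.withBot_map h2
  rw [e1]
  exact ⟨S.le_mul h1 e2, by rw [S.ψ_mul c _ _ h1 e2, hψ _ h2]⟩

theorem c0_7_finsum {x y : H → ℂ} (U : Finset H) (h : H)
    (hU : ∀ u, x u ≠ 0 → y (u⁻¹ * h) ≠ 0 → u ∈ U) :
    conv x y h = ∑ u ∈ U, x u * y (u⁻¹ * h) := by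
  unfold conv
  refine finsum_eq_sum_of_support_subset _ ?_
  intro u hu
  rw [Function.mem_support, mul_ne_zero_iff] at hu
  exact hU u hu.1 hu.2

/-- Pieces of a product. PROOF. Let `F` be the finite set of the `r` with
`piece c g r x ≠ 0` and `piece b' g' ((ρ - r) / t) y ≠ 0` (finite: `(ρ - r) / t` is bounded below
(`locfin_bdd`), so `r` is bounded above, `LocFin` of `x`). At `h`: if `x u ≠ 0`, `y w ≠ 0`,
`h = u * w` then `h * (g * g')⁻¹ = (u * g⁻¹) * (g * (w * g'⁻¹) * g⁻¹)`, both factors have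
jump `≤ c` (`v_conj`, `hb`) and `ψ c (h * (g * g')⁻¹) = ψ c (u * g⁻¹) + t * ψ b' (w * g'⁻¹)`.
So for each `u` the term `x u * y (u⁻¹ * h)` appears on the left iff this number is `ρ`, and on
the right in the summand `r = ψ c (u * g⁻¹)` iff `ψ b' (w * g'⁻¹) = (ρ - r) / t`, which is the same
condition. The sums over `u` are finite (`conv_finite`, `tame_pwo`); exchange them with the sum
over `F`. -/
theorem conv_piece (S : CJS H) {x y : H → ℂ} (hx : Tame S.toJS x) (hy : Tame S.toJS y) (c : S.Λ)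
    (g : H) (b' : S.Λ) (g' : H) (hb : S.cj g b' = c) (t : ℝ) (ht : 0 < t)
    (hψ : ∀ k, S.v k ≤ b' → S.ψ c (g * k * g⁻¹) = t * S.ψ b' k)
    (h1 : InCoset S.toJS c g x) (h2 : InCoset S.toJS b' g' y) (ρ : ℝ) :
    ∃ F : Finset ℝ, piece S.toJS c (g * g') ρ (conv x y) =
      ∑ r ∈ F, conv (piece S.toJS c g r x) (piece S.toJS b' g' ((ρ - r) / t) y) := by
  have hl1 := (tame_piece S.toJS hx c g h1).1
  have hl2 := (tame_piece S.toJS hy b' g' h2).1
  obtain ⟨m, hm⟩ := locfin_bdd hl2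
  have hFin : {r : ℝ | piece S.toJS c g r x ≠ 0 ∧
      piece S.toJS b' g' ((ρ - r) / t) y ≠ 0}.Finite := by
    refine (hl1 (ρ - t * m)).subset ?_
    rintro r ⟨hr1, hr2⟩
    refine ⟨?_, hr1⟩
    have h3 := hm _ hr2
    rw [le_div_iff₀ ht] at h3
    linarith
  refine ⟨hFin.toFinset, ?_⟩
  funext h
  have hUfin := conv_finite (tame_pwo S hx) (tame_pwo S hy) h
  set U := hUfin.toFinset with hU
  have hUmem : ∀ u, u ∈ U ↔ x u ≠ 0 ∧ y (u⁻¹ * h) ≠ 0 := fun u => by
    rw [hU, Set.Finite.mem_toFinset, Set.mem_ofPred_eq]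
  have hconv : ∀ r, conv (piece S.toJS c g r x) (piece S.toJS b' g' ((ρ - r) / t) y) h =
      ∑ u ∈ U, piece S.toJS c g r x u * piece S.toJS b' g' ((ρ - r) / t) y (u⁻¹ * h) := by
    intro r
    refine c0_7_finsum U h fun u hu1 hu2 => ?_
    rw [hUmem]
    exact ⟨(piece_ne S.toJS _ _ _ _ _ hu1).1, (piece_ne S.toJS _ _ _ _ _ hu2).1⟩
  rw [Finset.sum_apply, Finset.sum_congr rfl fun r _ => hconv r, Finset.sum_comm]
  have hlev : ∀ u ∈ U, S.v (h * (g * g')⁻¹) ≤ c ∧
      S.ψ c (h * (g * g')⁻¹) = S.ψ c (u * g⁻¹) + t * S.ψ b' (u⁻¹ * h * g'⁻¹) := by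
    intro u hu
    rw [hUmem] at hu
    have h3 := c0_7_level S c g b' g' hb t hψ u (u⁻¹ * h) (h1 u hu.1) (h2 _ hu.2)
    rwa [mul_inv_cancel_left] at h3
  by_cases hcond : S.v (h * (g * g')⁻¹) ≤ c ∧ S.ψ c (h * (g * g')⁻¹) = ρ
  · rw [piece_of S.toJS c (g * g') ρ _ h hcond.1 hcond.2,
      c0_7_finsum U h fun u hu1 hu2 => (hUmem u).2 ⟨hu1, hu2⟩]
    refine Finset.sum_congr rfl fun u hu => ?_
    have h3 := hlev u hu
    rw [hUmem] at hu
    have h4 : (ρ - S.ψ c (u * g⁻¹)) / t = S.ψ b' (u⁻¹ * h * g'⁻¹) := by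
      rw [← hcond.2, h3.2, add_sub_cancel_left, mul_div_cancel_left₀ _ ht.ne']
    have h5 := piece_of S.toJS c g (S.ψ c (u * g⁻¹)) x u (h1 u hu.1) rfl
    have h6 := piece_of S.toJS b' g' ((ρ - S.ψ c (u * g⁻¹)) / t) y (u⁻¹ * h) (h2 _ hu.2) h4.symm
    rw [Finset.sum_eq_single (S.ψ c (u * g⁻¹))]
    · rw [h5, h6]
    · intro r _ hr
      have h7 : piece S.toJS c g r x u = 0 := by
        by_contra hne
        exact hr (piece_ne S.toJS _ _ _ _ _ hne).2.2.symm
      rw [h7, zero_mul]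
    · intro hnot
      exfalso
      apply hnot
      rw [Set.Finite.mem_toFinset]
      refine ⟨fun h0 => ?_, fun h0 => ?_⟩
      · rw [h0] at h5
        exact hu.1 h5.symm
      · rw [h0] at h6
        exact hu.2 h6.symm
  · have h3 : piece S.toJS c (g * g') ρ (conv x y) h = 0 := by
      by_contra hne
      exact hcond (piece_ne S.toJS _ _ _ _ _ hne).2
    rw [h3]
    symm
    refine Finset.sum_eq_zero fun u hu => Finset.sum_eq_zero fun r _ => ?_
    by_contra hne
    rw [← Ne, mul_ne_zero_iff] at hne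
    obtain ⟨hn1, hn2⟩ := hne
    have h4 := (piece_ne S.toJS _ _ _ _ _ hn1).2.2
    have h5 := (piece_ne S.toJS _ _ _ _ _ hn2).2.2
    have h6 := hlev u hu
    apply hcond
    refine ⟨h6.1, ?_⟩
    rw [h6.2, h4, h5, mul_div_cancel₀ _ ht.ne']
    ring

/-- PROOF: the first computation in the docstring of `conv_piece`, `conv_ne`. Locally finite: a
nonzero piece of the product at level `ρ` gives `r`, `r'` with `ρ = r + t * r'` and nonzero
pieces; `r`, `r'` are bounded below (`locfin_bdd`), so for `ρ ≤ R` both are bounded above and there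
are finitely many pairs. -/
theorem conv_coset (S : CJS H) {x y : H → ℂ} (hx : Tame S.toJS x) (hy : Tame S.toJS y) (c : S.Λ)
    (g : H) (b' : S.Λ) (g' : H) (hb : S.cj g b' = c) (t : ℝ) (ht : 0 < t)
    (hψ : ∀ k, S.v k ≤ b' → S.ψ c (g * k * g⁻¹) = t * S.ψ b' k)
    (h1 : InCoset S.toJS c g x) (h2 : InCoset S.toJS b' g' y) :
    InCoset S.toJS c (g * g') (conv x y) ∧ LocFin S.toJS c (g * g') (conv x y) := by
  have hl1 := (tame_piece S.toJS hx c g h1).1
  have hl2 := (tame_piece S.toJS hy b' g' h2).1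
  obtain ⟨m1, hm1⟩ := locfin_bdd hl1
  obtain ⟨m2, hm2⟩ := locfin_bdd hl2
  refine ⟨?_, ?_⟩
  · intro h hh
    obtain ⟨u, w, hu, hw, rfl⟩ := conv_ne hh
    exact (c0_7_level S c g b' g' hb t hψ u w (h1 u hu) (h2 w hw)).1
  · intro R
    refine (((hl1 (R - t * m2)).prod (hl2 ((R - m1) / t))).image
      (fun p : ℝ × ℝ => p.1 + t * p.2)).subset ?_
    rintro ρ ⟨hρ, hne⟩
    obtain ⟨h, hh⟩ := Function.ne_iff.1 hne
    obtain ⟨hh1, _, hh3⟩ := piece_ne S.toJS _ _ _ _ _ hh
    obtain ⟨u, w, hu, hw, rfl⟩ := conv_ne hh1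
    have h3 := (c0_7_level S c g b' g' hb t hψ u w (h1 u hu) (h2 w hw)).2
    have h4 : piece S.toJS c g (S.ψ c (u * g⁻¹)) x ≠ 0 := by
      intro h0
      have h5 := piece_of S.toJS c g (S.ψ c (u * g⁻¹)) x u (h1 u hu) rfl
      rw [h0] at h5
      exact hu h5.symm
    have h4' : piece S.toJS b' g' (S.ψ b' (w * g'⁻¹)) y ≠ 0 := by
      intro h0
      have h5 := piece_of S.toJS b' g' (S.ψ b' (w * g'⁻¹)) y w (h2 w hw) rfl
      rw [h0] at h5
      exact hw h5.symm
    have h5 := hm1 _ h4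
    have h6 := hm2 _ h4'
    rw [hh3] at h3
    refine ⟨(S.ψ c (u * g⁻¹), S.ψ b' (w * g'⁻¹)), ⟨⟨?_, h4⟩, ⟨?_, h4'⟩⟩, h3.symm⟩
    · have h7 := mul_le_mul_of_nonneg_left h6 ht.le
      show S.ψ c (u * g⁻¹) ≤ R - t * m2
      linarith
    · show S.ψ b' (w * g'⁻¹) ≤ (R - m1) / t
      rw [le_div_iff₀ ht]
      linarith

end Pool.Agent.COST

end

section

open Set

namespace Pool.Agent.COST

variable {H : Type} [Group H] [LinearOrder H] [MulLeftMono H] [MulRightMono H]

theorem c0_8_sum {S : JS H} {T : Type} (F : Finset T) (f : T → H → ℂ)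
    (h : ∀ r ∈ F, Tame S (f r)) : Tame S (∑ r ∈ F, f r) := by
  classical
  induction F using Finset.induction_on with
  | empty =>
    rw [Finset.sum_empty]
    exact Tame.zero S
  | insert a s ha ih =>
    rw [Finset.sum_insert ha]
    exact tame_add (h a (Finset.mem_insert_self _ _))
      (ih fun r hr => h r (Finset.mem_insert_of_mem hr))

theorem c0_8_left (S : CJS H) (g : H) (c : ℂ) {y : H → ℂ} (hy : Tame S.toJS y) :
    Tame S.toJS (conv (sg g c) y) := by
  rw [conv_sg_left]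
  exact tame_smul (tame_left S hy g⁻¹) c

theorem c0_8_right (S : CJS H) (g : H) (c : ℂ) {x : H → ℂ} (hx : Tame S.toJS x) :
    Tame S.toJS (conv x (sg g c)) := by
  rw [conv_sg_right]
  have h1 := tame_smul (tame_right hx g⁻¹) c
  have h2 : (fun h => x (h * g⁻¹) * c) = fun h => c * x (h * g⁻¹) := by
    funext h
    rw [mul_comm]
  rw [h2]
  exact h1

/-- PROOF. `P x := ∀ y, Tame y → Tame (conv x y)` by `Tame.ind`. `x = 0`: `conv_zero_left`.
`x = sg g c`: `conv_sg_left`, `tame_left`, `tame_smul`. `x` with node `(a, g)` and hypothesis for the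
pieces: by `Tame.ind` on `y`: `y = 0`: `conv_zero_right`; `y = sg k c`: `conv_sg_right`,
`tame_right`, `tame_smul` (`x` is tame by `Tame.node`). `y` with node `(b, g')` and hypothesis
`Tame (conv x y_r)`: put `c = max a (S.cj g b)`, `b' = S.cj g⁻¹ c`; then `S.cj g b' = c`
(`cj_mul`, `cj_one`), `b ≤ b'`, `InCoset c g x`, `InCoset b' g' y`. `ψ_conj` gives `t`.
By `conv_coset` and `Tame.node` it is enough that all pieces are tame, by `conv_piece` and
`tame_add` (finite sums by induction) that each `conv (piece c g r x) (piece b' g' r' y)` is tame.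
If `a = c`: hypothesis for `x_r` and `tame_restrict` for `y`. If `a < c` then `S.cj g b = c`, so
`b' = b`; all points of `x` have the same `(c, g)`-level, so `piece c g r x` is `x` or `0`
(`piece_all`, `piece_none`), use the hypothesis for `y_r'` or `conv_zero_left`. -/
theorem tame_conv (S : CJS H) {x y : H → ℂ} (hx : Tame S.toJS x) (hy : Tame S.toJS y) :
    Tame S.toJS (conv x y) := by
  refine Tame.ind (P := fun x => ∀ y, Tame S.toJS y → Tame S.toJS (conv x y)) ?_ ?_ ?_ hx y hy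
  · intro y _
    rw [conv_zero_left]
    exact Tame.zero _
  · intro g c y hy
    exact c0_8_left S g c hy
  · intro x a g h1 h2 h3 ih y hy
    have hx : Tame S.toJS x := Tame.node x a g h1 h2 h3
    refine Tame.ind (P := fun y => Tame S.toJS (conv x y)) ?_ ?_ ?_ hy
    · rw [conv_zero_right]
      exact Tame.zero _
    · intro k d
      exact c0_8_right S k d hx
    · intro y b g' k1 k2 k3 ih'
      have hy : Tame S.toJS y := Tame.node y b g' k1 k2 k3
      have hcc : ∀ c, S.cj g (S.cj g⁻¹ c) = c := fun c => by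
        rw [← S.cj_mul, mul_inv_cancel, S.cj_one]
      have hcc' : S.cj g⁻¹ (S.cj g b) = b := by
        rw [← S.cj_mul, inv_mul_cancel, S.cj_one]
      rcases le_or_gt (S.cj g b) a with hle | hlt
      · have hb : S.cj g (S.cj g⁻¹ a) = a := hcc a
        have hbb : b ≤ S.cj g⁻¹ a := by
          rw [← (S.cj_mono g).le_iff_le, hb]
          exact hle
        have hy2 : InCoset S.toJS (S.cj g⁻¹ a) g' y := fun h hh =>
          (k1 h hh).trans (WithBot.coe_le_coe.2 hbb)
        obtain ⟨t, ht, hψ⟩ := S.ψ_conj g (S.cj g⁻¹ a)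
        rw [hb] at hψ
        have h4 := conv_coset S hx hy a g (S.cj g⁻¹ a) g' hb t ht hψ h1 hy2
        refine Tame.node _ a (g * g') h4.1 h4.2 fun ρ => ?_
        obtain ⟨F, hF⟩ := conv_piece S hx hy a g (S.cj g⁻¹ a) g' hb t ht hψ h1 hy2 ρ
        rw [hF]
        exact c0_8_sum F _ fun r _ => ih r _ (tame_restrict hy _ _ _)
      · have hx2 : InCoset S.toJS (S.cj g b) g x := fun h hh =>
          (h1 h hh).trans (WithBot.coe_le_coe.2 hlt.le)
        obtain ⟨t, ht, hψ⟩ := S.ψ_conj g b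
        have h4 := conv_coset S hx hy (S.cj g b) g b g' rfl t ht hψ hx2 k1
        refine Tame.node _ (S.cj g b) (g * g') h4.1 h4.2 fun ρ => ?_
        obtain ⟨F, hF⟩ := conv_piece S hx hy (S.cj g b) g b g' rfl t ht hψ hx2 k1 ρ
        rw [hF]
        refine c0_8_sum F _ fun r _ => ?_
        have hl := c0_4_level S.toJS x a g h1 (S.cj g b) g (WithBot.coe_lt_coe.2 hlt)
          (by rw [mul_inv_cancel, S.v_one]; exact bot_le)
        by_cases hr : r = S.ψ (S.cj g b) (g * g⁻¹)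
        · rw [hr, piece_all S.toJS _ _ _ x hl]
          exact ih' _
        · rw [piece_none S.toJS _ _ _ r x hl hr, conv_zero_left]
          exact Tame.zero _

end Pool.Agent.COST

end

section

open Set

namespace Pool.Agent.COST

variable {H : Type} [Group H] [LinearOrder H] [MulLeftMono H] [MulRightMono H]

theorem c0_9_sum {T : Type} (F : Finset T) (p : T → MN H) :
    (∑ n ∈ F, p n).f = ∑ n ∈ F, (p n).f := by
  classical
  induction F using Finset.induction_on with
  | empty => rw [Finset.sum_empty, Finset.sum_empty, MN.zero_f]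
  | insert a s ha ih => rw [Finset.sum_insert ha, Finset.sum_insert ha, MN.add_f, ih]

theorem c0_9_pow (S : CJS H) (a : S.Λ) (w : MN H) (hw : Tame S.toJS w.f)
    (h1 : InCoset S.toJS a 1 w.f) (δ : ℝ) (h2 : ∀ h, w.f h ≠ 0 → δ ≤ S.ψ a h) (n : ℕ) :
    Tame S.toJS ((-w) ^ n).f ∧
      ∀ h, ((-w) ^ n).f h ≠ 0 → S.v h ≤ a ∧ n * δ ≤ S.ψ a h := by
  induction n with
  | zero =>
    rw [pow_zero, MN.one_f]
    refine ⟨Tame.fin _ (sg_finite 1 1), fun h hh => ?_⟩
    have h3 : h = 1 := by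
      by_contra hne
      exact hh (if_neg hne)
    rw [h3, S.v_one, S.ψ_one, Nat.cast_zero, zero_mul]
    exact ⟨bot_le, le_rfl⟩
  | succ n ih =>
    rw [pow_succ, MN.mul_f, MN.neg_f]
    have hneg : Tame S.toJS (-w.f) := by
      have h3 := tame_smul hw (-1)
      have h4 : (fun h => -1 * w.f h) = -w.f := by
        funext h
        rw [Pi.neg_apply, neg_one_mul]
      rwa [h4] at h3
    refine ⟨tame_conv S ih.1 hneg, fun h hh => ?_⟩
    obtain ⟨u, k, hu, hk, rfl⟩ := conv_ne hh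
    rw [Pi.neg_apply, neg_ne_zero] at hk
    have h3 := ih.2 u hu
    have h4 := h1 k hk
    rw [inv_one, mul_one] at h4
    have h5 := h2 k hk
    refine ⟨S.le_mul h3.1 h4, ?_⟩
    rw [S.ψ_mul a u k h3.1 h4]
    push_cast
    linarith [h3.2]

/-- Geometric series. PROOF. Powers of `-w` in the ring `MN H`: by induction on `n`,
`((-w) ^ n).f` is tame (`tame_conv`), lies in `InCoset a 1` and its support points `h` satisfy
`n * δ ≤ ψ a h` (`conv_ne`, `ψ_mul`). Define `s h = 0` if not `v h ≤ a`, and otherwise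
`s h = ∑ n ∈ range (⌊ψ a h / δ⌋₊ + 1), ((-w) ^ n).f h`. For every `M` with `ψ a h < (M + 1) * δ`
we have `s h = s_M h` where `s_M = ∑ n ∈ range (M + 1), (-w) ^ n` (the additional terms vanish).
Tame: `Tame.node` with `(a, 1)`: for `r ≤ R < (M + 1) * δ` the piece of `s` at level `r` is the piece
of `s_M`, which is tame and locally finite (`tame_add`, `tame_restrict`, `tame_piece`).
So `s` is in `MN H` (`tame_pwo`). Product: let `h` be given. If not `v h ≤ a` then both sides are `0`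
at `h` (all points of `s` and `1 + w` have jump `≤ a`; `h ≠ 1`). Otherwise choose `M` with
`ψ a h < (M + 1) * δ`; for `u` with `v u ≤ a` and `(1 + w).f (u⁻¹ * h) ≠ 0` we have
`ψ a (u⁻¹ * h) ≥ 0`, so `ψ a u ≤ ψ a h` and `s u = s_M u`; hence
`(s * (1 + w)).f h = (s_M * (1 + w)).f h = (1 - (-w) ^ (M + 1)).f h = (1 : MN H).f h`
(`geom_sum_mul_neg`). -/
theorem geom (S : CJS H) (a : S.Λ) (w : MN H) (hw : Tame S.toJS w.f) (h1 : InCoset S.toJS a 1 w.f)
    (δ : ℝ) (hδ : 0 < δ) (h2 : ∀ h, w.f h ≠ 0 → δ ≤ S.ψ a h) :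
    ∃ s : MN H, Tame S.toJS s.f ∧ s * (1 + w) = 1 := by
  classical
  have hp := c0_9_pow S a w hw h1 δ h2
  set N : H → ℕ := fun h => ⌊S.ψ a h / δ⌋₊ with hN
  set fM : ℕ → H → ℂ := fun M => ∑ n ∈ Finset.range (M + 1), ((-w) ^ n).f with hfM
  have hzero : ∀ h n, N h < n → ((-w) ^ n).f h = 0 := by
    intro h n hn
    by_contra hne
    have h3 := (hp n).2 h hne
    have h4 : (n : ℝ) ≤ S.ψ a h / δ := by
      rw [le_div_iff₀ hδ]
      exact h3.2
    exact absurd (Nat.le_floor h4) (not_le.2 hn)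
  have hfMa : ∀ M h, fM M h = ∑ n ∈ Finset.range (M + 1), ((-w) ^ n).f h := fun M h => by
    show (∑ n ∈ Finset.range (M + 1), ((-w) ^ n).f) h = _
    rw [Finset.sum_apply]
  set s0 : H → ℂ := fun h => fM (N h) h with hs0
  have hA : ∀ h M, N h ≤ M → s0 h = fM M h := by
    intro h M hM
    rw [hs0]
    show fM (N h) h = fM M h
    rw [hfMa, hfMa]
    refine Finset.sum_subset (Finset.range_subset_range.2 (by omega)) ?_
    intro n _ hn
    rw [Finset.mem_range] at hn
    exact hzero h n (by omega)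
  have hfMv : ∀ M h, fM M h ≠ 0 → S.v h ≤ a := by
    intro M h hh
    rw [hfMa] at hh
    obtain ⟨n, _, hn⟩ := Finset.exists_ne_zero_of_sum_ne_zero hh
    exact ((hp n).2 h hn).1
  have hlt : ∀ h, S.ψ a h < ((N h : ℝ) + 1) * δ := by
    intro h
    rw [← div_lt_iff₀ hδ]
    exact Nat.lt_floor_add_one _
  have hNle : ∀ h (M : ℕ), S.ψ a h < ((M : ℝ) + 1) * δ → N h ≤ M := by
    intro h M hM
    rw [← div_lt_iff₀ hδ] at hM
    have h3 : ⌊S.ψ a h / δ⌋₊ < M + 1 := by
      rw [Nat.floor_lt' (Nat.succ_ne_zero M)]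
      push_cast
      exact hM
    exact Nat.lt_succ_iff.1 h3
  have hfMt : ∀ M, Tame S.toJS (fM M) := fun M => c0_8_sum _ _ fun n _ => (hp n).1
  have hfMc : ∀ M, InCoset S.toJS a 1 (fM M) := fun M h hh => by
    rw [inv_one, mul_one]
    exact hfMv M h hh
  have hpiece : ∀ (M : ℕ) (r : ℝ), r < ((M : ℝ) + 1) * δ →
      piece S.toJS a 1 r s0 = piece S.toJS a 1 r (fM M) := by
    intro M r hr
    funext h
    unfold piece
    split_ifs with hc
    · rw [inv_one, mul_one] at hc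
      exact hA h M (hNle h M (by rw [hc.2]; exact hr))
    · rfl
  have hex : ∀ R : ℝ, ∃ M : ℕ, R < ((M : ℝ) + 1) * δ := by
    intro R
    refine ⟨⌊R / δ⌋₊, ?_⟩
    rw [← div_lt_iff₀ hδ]
    exact Nat.lt_floor_add_one _
  have hs0t : Tame S.toJS s0 := by
    refine Tame.node _ a 1 ?_ ?_ ?_
    · intro h hh
      rw [inv_one, mul_one]
      exact hfMv _ h hh
    · intro R
      obtain ⟨M, hM⟩ := hex R
      refine ((tame_piece S.toJS (hfMt M) a 1 (hfMc M)).1 R).subset ?_
      rintro r ⟨hr, hne⟩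
      rw [hpiece M r (lt_of_le_of_lt hr hM)] at hne
      exact ⟨hr, hne⟩
    · intro r
      obtain ⟨M, hM⟩ := hex r
      rw [hpiece M r hM]
      exact tame_restrict (hfMt M) a 1 r
  have hone : ∀ k, (1 + w).f k ≠ 0 → S.v k ≤ a ∧ 0 ≤ S.ψ a k := by
    intro k hk
    rw [MN.add_f, Pi.add_apply, MN.one_f] at hk
    by_cases hk1 : k = 1
    · rw [hk1, S.v_one, S.ψ_one]
      exact ⟨bot_le, le_rfl⟩
    · have h3 : sg (1 : H) (1 : ℂ) k = 0 := if_neg hk1
      rw [h3, zero_add] at hk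
      have h4 := h1 k hk
      rw [inv_one, mul_one] at h4
      exact ⟨h4, hδ.le.trans (h2 k hk)⟩
  refine ⟨MN.mk s0 (tame_pwo S hs0t), hs0t, MN.ext ?_⟩
  rw [MN.mul_f, MN.mk_f, MN.one_f]
  funext h
  by_cases hv : S.v h ≤ a
  · have h3 : conv s0 (1 + w).f h = conv (fM (N h)) (1 + w).f h := by
      unfold conv
      refine finsum_congr fun u => ?_
      by_cases hu : (1 + w).f (u⁻¹ * h) = 0
      · rw [hu, mul_zero, mul_zero]
      · have h4 := hone _ hu
        have h5 : u = h * (u⁻¹ * h)⁻¹ := by group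
        have h6 : S.v (u⁻¹ * h)⁻¹ ≤ a := by
          rw [S.v_inv]
          exact h4.1
        have h7 : S.ψ a u = S.ψ a h - S.ψ a (u⁻¹ * h) := by
          have h8 := S.ψ_mul a h (u⁻¹ * h)⁻¹ hv h6
          rw [← h5, S.ψ_inv a _ h4.1] at h8
          linarith
        have h9 : N u ≤ N h := hNle u (N h) (by linarith [hlt h, h4.2])
        rw [hA u (N h) h9]
    have h4 : (∑ n ∈ Finset.range (N h + 1), (-w) ^ n) * (1 + w) = 1 - (-w) ^ (N h + 1) := by
      have h5 := geom_sum_mul_neg (-w) (N h + 1)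
      rwa [sub_neg_eq_add] at h5
    have h5 := congrArg MN.f h4
    rw [MN.mul_f, c0_9_sum, MN.sub_f, MN.one_f] at h5
    rw [h3]
    have h6 := congrFun h5 h
    rw [Pi.sub_apply, hzero h (N h + 1) (Nat.lt_succ_self _), sub_zero] at h6
    exact h6
  · have h3 : h ≠ 1 := by
      rintro rfl
      apply hv
      rw [S.v_one]
      exact bot_le
    have h4 : sg (1 : H) (1 : ℂ) h = 0 := if_neg h3
    rw [h4]
    by_contra hne
    obtain ⟨u, k, hu, hk, rfl⟩ := conv_ne hne
    exact hv (S.le_mul (hfMv _ u hu) (hone k hk).1)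

end Pool.Agent.COST

end

section

open Set

namespace Pool.Agent.COST

variable {H : Type} [Group H] [LinearOrder H] [MulLeftMono H] [MulRightMono H]

/-- Restriction of a left inverse. PROOF. Let `u' = piece S a' h0⁻¹ 0 u` with
`a' = S.cj h0⁻¹ a`: its support are the `k` with `u k ≠ 0` and `v (h0 * k) < a`, because
`v (k * h0) = v (h0⁻¹ * (h0 * k) * (h0⁻¹)⁻¹)` (`v_conj`, `cj_mono`, `ψ_zero`). Tame:
`tame_restrict`. At `h`: for `s = k⁻¹ * h` with `z s ≠ 0` we have `v (s * h0⁻¹) < a` and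
`h0 * h * h0⁻¹ = (h0 * k) * (s * h0⁻¹)`, so `v (h0 * k) < a ↔ v (h0 * h * h0⁻¹) < a`. If
`v (h0 * h * h0⁻¹) < a` then all terms of `conv u z h` are kept, the value is `sg 1 1 h`. Otherwise
all terms vanish, and `h ≠ 1`, so `sg 1 1 h = 0`. -/
theorem inv_restrict (S : CJS H) (a : S.Λ) (h0 : H) (u z : H → ℂ) (hu : Tame S.toJS u)
    (hz : ∀ s, z s ≠ 0 → S.v (s * h0⁻¹) < a) (huz : conv u z = sg 1 1) :
    ∃ u' : H → ℂ, Tame S.toJS u' ∧ (∀ k, u' k ≠ 0 → S.v (h0 * k) < a) ∧ conv u' z = sg 1 1 := by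
  have hiff : ∀ k, (S.v (k * h0⁻¹⁻¹) ≤ S.cj h0⁻¹ a ∧ S.ψ (S.cj h0⁻¹ a) (k * h0⁻¹⁻¹) = 0) ↔
      S.v (h0 * k) < a := by
    intro k
    have e1 : k * h0⁻¹⁻¹ = h0⁻¹ * (h0 * k) * h0⁻¹⁻¹ := by group
    have e2 : S.v (k * h0⁻¹⁻¹) < S.cj h0⁻¹ a ↔ S.v (h0 * k) < a := by
      rw [e1, S.v_conj, ← WithBot.map_coe (S.cj h0⁻¹) a]
      exact (S.cj_mono h0⁻¹).withBot_map.lt_iff_lt
    rw [← e2]
    constructor
    · rintro ⟨h1, h2⟩
      exact (S.ψ_zero _ _ h1).1 h2
    · intro h1
      exact ⟨h1.le, (S.ψ_zero _ _ h1.le).2 h1⟩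
  refine ⟨piece S.toJS (S.cj h0⁻¹ a) h0⁻¹ 0 u, tame_restrict hu _ _ _, ?_, ?_⟩
  · intro k hk
    exact (hiff k).1 (piece_ne S.toJS _ _ _ _ _ hk).2
  · funext h
    by_cases hv : S.v (h0 * h * h0⁻¹) < a
    · rw [← huz]
      unfold conv
      refine finsum_congr fun k => ?_
      by_cases hzk : z (k⁻¹ * h) = 0
      · rw [hzk, mul_zero, mul_zero]
      · have h1 := hz _ hzk
        have h2 : h0 * k = (h0 * h * h0⁻¹) * (k⁻¹ * h * h0⁻¹)⁻¹ := by group
        have h3 : S.v (h0 * k) < a := by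
          rw [h2]
          refine S.lt_mul hv ?_
          rw [S.v_inv]
          exact h1
        have h4 := (hiff k).2 h3
        rw [piece_of S.toJS _ _ _ u k h4.1 h4.2]
    · have h1 : h ≠ 1 := by
        rintro rfl
        apply hv
        rw [mul_one, mul_inv_cancel, S.v_one]
        exact WithBot.bot_lt_coe a
      have h2 : sg (1 : H) (1 : ℂ) h = 0 := if_neg h1
      rw [h2]
      by_contra hne
      obtain ⟨k, w, hk, hw, rfl⟩ := conv_ne hne
      apply hv
      have h3 := (hiff k).1 (piece_ne S.toJS _ _ _ _ _ hk).2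
      have h4 : h0 * (k * w) * h0⁻¹ = (h0 * k) * (w * h0⁻¹) := by group
      rw [h4]
      exact S.lt_mul h3 (hz _ hw)

end Pool.Agent.COST

end

section

open Set

namespace Pool.Agent.COST

variable {H : Type} [Group H] [LinearOrder H] [MulLeftMono H] [MulRightMono H]

theorem c0_11_node (S : CJS H) (x : H → ℂ) (a : S.Λ) (g : H) (h1 : InCoset S.toJS a g x)
    (h2 : LocFin S.toJS a g x) (h3 : ∀ r, Tame S.toJS (piece S.toJS a g r x))
    (ih : ∀ r, piece S.toJS a g r x ≠ 0 →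
      ∃ u : H → ℂ, Tame S.toJS u ∧ conv u (piece S.toJS a g r x) = sg 1 1) (hne : x ≠ 0) :
    ∃ u : H → ℂ, Tame S.toJS u ∧ conv u x = sg 1 1 := by
  have hx : Tame S.toJS x := Tame.node x a g h1 h2 h3
  have hpne : ∀ k, x k ≠ 0 → piece S.toJS a g (S.ψ a (k * g⁻¹)) x ≠ 0 := by
    intro k hk h0
    have h4 := piece_of S.toJS a g (S.ψ a (k * g⁻¹)) x k (h1 k hk) rfl
    rw [h0] at h4
    exact hk h4.symm
  obtain ⟨h1', hh1'⟩ := Function.ne_iff.1 hne
  obtain ⟨r0, ⟨hr0a, hr0b⟩, hr0min⟩ := Set.exists_min_image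
    {r | r ≤ S.ψ a (h1' * g⁻¹) ∧ piece S.toJS a g r x ≠ 0} (fun r : ℝ => r)
    (h2 _) ⟨_, le_rfl, hpne h1' hh1'⟩
  have hmin : ∀ r, piece S.toJS a g r x ≠ 0 → r0 ≤ r := by
    intro r hr
    rcases le_or_gt r (S.ψ a (h1' * g⁻¹)) with hle | hgt
    · exact hr0min r ⟨hle, hr⟩
    · exact hr0a.trans hgt.le
  obtain ⟨h0, hh0⟩ := Function.ne_iff.1 hr0b
  obtain ⟨hh0a, hh0b, hh0c⟩ := piece_ne S.toJS _ _ _ _ _ hh0
  obtain ⟨u, hu, huz⟩ := ih r0 hr0b
  have hdiff : ∀ s, S.v (s * g⁻¹) ≤ a → S.v (s * h0⁻¹) ≤ a ∧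
      S.ψ a (s * h0⁻¹) = S.ψ a (s * g⁻¹) - r0 := by
    intro s hs
    have h4 : S.v (s * h0⁻¹) ≤ a := S.le_tri hs (by rw [S.v_symm]; exact hh0b)
    have h5 := S.ψ_tri a h4 hh0b
    refine ⟨h4, ?_⟩
    rw [h5, hh0c]
    ring
  obtain ⟨u', hu', hu'1, hu'2⟩ := inv_restrict S a h0 u (piece S.toJS a g r0 x) hu (by
    intro s hs
    obtain ⟨hs1, hs2, hs3⟩ := piece_ne S.toJS _ _ _ _ _ hs
    obtain ⟨h4, h5⟩ := hdiff s hs2
    rw [hs3, sub_self] at h5
    exact (S.ψ_zero a _ h4).1 h5) huz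
  obtain ⟨m, ⟨hm1, hm2⟩, hm3⟩ : ∃ m : ℝ, (r0 < m ∧ m ≤ r0 + 1) ∧
      ∀ r, piece S.toJS a g r x ≠ 0 → r ≠ r0 → r ≤ r0 + 1 → m ≤ r := by
    have hfin : (({r | r ≤ r0 + 1 ∧ piece S.toJS a g r x ≠ 0} \ {r0}) ∪ {r0 + 1}).Finite :=
      ((h2 (r0 + 1)).subset Set.sdiff_subset).union (Set.finite_singleton _)
    obtain ⟨m, hm, hmm⟩ := Set.exists_min_image _ (fun r : ℝ => r) hfin ⟨r0 + 1, Or.inr rfl⟩
    refine ⟨m, ⟨?_, hmm _ (Or.inr rfl)⟩, fun r hr hr' hr'' => hmm r (Or.inl ⟨⟨hr'', hr⟩, hr'⟩)⟩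
    rcases hm with ⟨⟨_, h5⟩, h6⟩ | h6
    · exact lt_of_le_of_ne (hmin m h5) (fun h => h6 h.symm)
    · rw [Set.mem_singleton_iff] at h6
      rw [h6]
      linarith
  have hgap : ∀ r, piece S.toJS a g r x ≠ 0 → r ≠ r0 → m ≤ r := by
    intro r hr hr'
    rcases le_or_gt r (r0 + 1) with hle | hgt
    · exact hm3 r hr hr' hle
    · linarith
  have hxr : Tame S.toJS (x + fun h => -1 * piece S.toJS a g r0 x h) :=
    tame_add hx (tame_smul (h3 r0) (-1))
  have hxrpt : ∀ s, (x + fun h => -1 * piece S.toJS a g r0 x h) s ≠ 0 →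
      S.v (s * h0⁻¹) ≤ a ∧ m - r0 ≤ S.ψ a (s * h0⁻¹) := by
    intro s hs
    rw [Pi.add_apply] at hs
    have hxs : x s ≠ 0 := by
      intro h4
      apply hs
      have h5 : piece S.toJS a g r0 x s = 0 := by
        by_contra h6
        exact (piece_ne S.toJS _ _ _ _ _ h6).1 h4
      rw [h4, h5, mul_zero, add_zero]
    have hlev : S.ψ a (s * g⁻¹) ≠ r0 := by
      intro h4
      apply hs
      have h5 := piece_of S.toJS a g r0 x s (h1 s hxs) h4
      show x s + -1 * piece S.toJS a g r0 x s = 0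
      rw [h5]
      ring
    obtain ⟨h4, h5⟩ := hdiff s (h1 s hxs)
    refine ⟨h4, ?_⟩
    rw [h5]
    linarith [hgap _ (hpne s hxs) hlev]
  have hw : Tame S.toJS (conv u' (x + fun h => -1 * piece S.toJS a g r0 x h)) :=
    tame_conv S hu' hxr
  obtain ⟨t, ht, hψ⟩ := S.ψ_conj h0⁻¹ a
  have hwpt : ∀ h, conv u' (x + fun h => -1 * piece S.toJS a g r0 x h) h ≠ 0 →
      S.v h ≤ S.cj h0⁻¹ a ∧ t * (m - r0) ≤ S.ψ (S.cj h0⁻¹ a) h := by
    intro h hh
    obtain ⟨k, s, hk, hs, rfl⟩ := conv_ne hh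
    have h4 := hu'1 k hk
    obtain ⟨h5, h6⟩ := hxrpt s hs
    have h7 : k * s = h0⁻¹ * ((h0 * k) * (s * h0⁻¹)) * h0⁻¹⁻¹ := by group
    have h8 : S.v ((h0 * k) * (s * h0⁻¹)) ≤ a := S.le_mul h4.le h5
    have h9 : S.ψ a ((h0 * k) * (s * h0⁻¹)) = S.ψ a (s * h0⁻¹) := by
      rw [S.ψ_mul a _ _ h4.le h5, (S.ψ_zero a _ h4.le).2 h4, zero_add]
    rw [h7]
    constructor
    · rw [S.v_conj, ← WithBot.map_coe (S.cj h0⁻¹) a]
      exact (S.cj_mono h0⁻¹).monotone.withBot_map h8
    · rw [hψ _ h8, h9]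
      exact mul_le_mul_of_nonneg_left h6 ht.le
  obtain ⟨s, hs1, hs2⟩ := geom S (S.cj h0⁻¹ a) (MN.mk _ (tame_pwo S hw)) hw
    (fun h hh => by
      rw [inv_one, mul_one]
      exact (hwpt h hh).1) (t * (m - r0)) (mul_pos ht (sub_pos.2 hm1))
    (fun h hh => (hwpt h hh).2)
  refine ⟨conv s.f u', tame_conv S hs1 hu', ?_⟩
  have hU : MN.mk u' (tame_pwo S hu') * MN.mk _ (tame_pwo S (h3 r0)) = 1 := MN.ext hu'2
  have hW : MN.mk u' (tame_pwo S hu') * MN.mk _ (tame_pwo S hxr) =
      MN.mk _ (tame_pwo S hw) := MN.ext rfl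
  have hfin : (s * MN.mk u' (tame_pwo S hu')) * (MN.mk _ (tame_pwo S (h3 r0)) +
      MN.mk _ (tame_pwo S hxr)) = 1 := by
    rw [mul_assoc, mul_add, hU, hW, hs2]
  have hfin' := congrArg MN.f hfin
  rw [MN.mul_f, MN.mul_f, MN.add_f, MN.mk_f, MN.mk_f, MN.mk_f, MN.one_f] at hfin'
  have hsum : (piece S.toJS a g r0 x + (x + fun h => -1 * piece S.toJS a g r0 x h)) = x := by
    funext h
    simp only [Pi.add_apply]
    ring
  rw [hsum] at hfin'
  exact hfin'

/-- PROOF. By `Tame.ind` with `P x := x ≠ 0 → ∃ u, Tame u ∧ conv u x = sg 1 1`.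
`x = sg g c`, `c ≠ 0`: `u = sg g⁻¹ c⁻¹` (`conv_sg_left`). `x` with node `(a, g)`: let `r0` be the
lowest level with `x_r0 = piece a g r0 x ≠ 0` (exists: `LocFin`, `x ≠ 0`), `h0` a support point of
`x_r0`. Hypothesis: `u` tame with `conv u x_r0 = 1`; `inv_restrict` gives `u'` (`z = x_r0`: two
points of the same level differ by jump `< a`). Put `w = conv u' (x - x_r0)`, tame (`tame_conv`,
`tame_add`, `tame_smul`). Let `δ0 > 0` be such that all levels of `x` above `r0` are `≥ r0 + δ0`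
(`LocFin` with `R = r0 + 1`). A support point of `w` is `h = k * s`, `v (h0 * k) < a`, `s` a point
of `x` of level `> r0`: `h = h0⁻¹ * ((h0 * k) * (s * h0⁻¹)) * (h0⁻¹)⁻¹`. With
`a' = S.cj h0⁻¹ a` and `t` from `ψ_conj`: `v h ≤ a'`, `ψ a' h = t * ψ a (s * h0⁻¹) ≥ t * δ0`.
So `geom` (for `a'`, `δ = t * δ0`, `w ∈ MN H` by `tame_pwo`) gives `s` with `s * (1 + w) = 1`.
In the ring `MN H`: `(s * u') * x = s * (u' * x_r0 + u' * (x - x_r0)) = s * (1 + w) = 1`. -/
theorem tame_inv (S : CJS H) {x : H → ℂ} (hx : Tame S.toJS x) (hne : x ≠ 0) :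
    ∃ u : H → ℂ, Tame S.toJS u ∧ conv u x = sg 1 1 := by
  refine Tame.ind (P := fun x => x ≠ 0 → ∃ u : H → ℂ, Tame S.toJS u ∧ conv u x = sg 1 1)
    ?_ ?_ ?_ hx hne
  · intro h
    exact absurd rfl h
  · intro g c h
    have hc : c ≠ 0 := by
      rintro rfl
      apply h
      funext k
      unfold sg
      split_ifs <;> rfl
    refine ⟨sg g⁻¹ c⁻¹, Tame.fin _ (sg_finite _ _), ?_⟩
    rw [conv_sg_left]
    funext k
    rw [inv_inv]
    unfold sg
    by_cases hk : k = 1
    · rw [if_pos (by rw [hk, mul_one]), if_pos hk, inv_mul_cancel₀ hc]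
    · rw [if_neg (by rwa [mul_eq_left]), if_neg hk, mul_zero]
  · intro x a g h1 h2 h3 ih hne
    exact c0_11_node S x a g h1 h2 h3 ih hne

end Pool.Agent.COST

end
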