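import Pool.Agent.COST.Defs

open MeasureTheory Set
open scoped ENNReal

namespace Pool.Agent.COST

/-- cocycle of the left coset space -/
theorem kap_mem {G : Type} [Group G] (K : Subgroup G) (g : G) (c : G ⧸ K) :
    (g⁻¹ • c : G ⧸ K).out⁻¹ * g⁻¹ * c.out ∈ K := by
  have h : ((g⁻¹ • c : G ⧸ K).out : G ⧸ K) = ((g⁻¹ * c.out : G) : G ⧸ K) := by
    rw [QuotientGroup.out_eq']
    conv_lhs => rw [← QuotientGroup.out_eq' c]
    rfl
  have h2 := QuotientGroup.eq.mp h
  simpa [mul_assoc] using h2

/-- cocycle of the left coset space -/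
noncomputable def kap {G : Type} [Group G] (K : Subgroup G) (g : G) (c : G ⧸ K) : K :=
  ⟨(g⁻¹ • c : G ⧸ K).out⁻¹ * g⁻¹ * c.out, kap_mem K g c⟩

theorem kap_mul {G : Type} [Group G] (K : Subgroup G) (g h : G) (c : G ⧸ K) :
    kap K (g * h) c = kap K h (g⁻¹ • c) * kap K g c := by
  apply Subtype.ext
  simp only [kap, Subgroup.coe_mul, mul_inv_rev, mul_smul]
  group

theorem kap_one {G : Type} [Group G] (K : Subgroup G) (c : G ⧸ K) : kap K 1 c = 1 := by
  apply Subtype.ext
  simp [kap]

/-- the co-induced action -/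
@[reducible] noncomputable def coindAct {G : Type} [Group G] (K : Subgroup G) (Y : Type) [MulAction K Y] :
    MulAction G (G ⧸ K → Y) where
  smul g x := fun c => (kap K g c)⁻¹ • x (g⁻¹ • c)
  one_smul x := by
    funext c
    change (kap K 1 c)⁻¹ • x ((1:G)⁻¹ • c) = x c
    rw [kap_one]; simp
  mul_smul g h x := by
    funext c
    change (kap K (g * h) c)⁻¹ • x ((g * h)⁻¹ • c) =
      (kap K g c)⁻¹ • ((kap K h (g⁻¹ • c))⁻¹ • x (h⁻¹ • (g⁻¹ • c)))
    rw [kap_mul, mul_inv_rev, mul_smul, mul_inv_rev, mul_smul]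

theorem shift_mp {G : Type} [Group G] (I : Type) [MulAction G I] (Y : Type)
    [MeasurableSpace Y] (ν : Measure Y) [IsProbabilityMeasure ν] (g : G) :
    MeasurePreserving (fun x : I → Y => fun c => x (g⁻¹ • c))
      (Measure.infinitePi fun _ => ν) (Measure.infinitePi fun _ => ν) := by
  refine ⟨by fun_prop, ?_⟩
  apply Measure.eq_infinitePi
  intro s t ht
  rw [Measure.map_apply (by fun_prop) (MeasurableSet.pi s.countable_toSet fun i _ => ht i)]
  classical
  have : (fun x : I → Y => fun c => x (g⁻¹ • c)) ⁻¹' (Set.pi s t) =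
      Set.pi (s.image (fun c => g⁻¹ • c) : Finset I) (fun c => t (g • c)) := by
    ext x
    simp only [mem_preimage, Set.mem_pi, Finset.mem_coe, Finset.mem_image]
    constructor
    · rintro h _ ⟨c, hc, rfl⟩
      rw [smul_inv_smul]
      exact h c hc
    · intro h c hc
      have := h _ ⟨c, hc, rfl⟩
      rwa [smul_inv_smul] at this
  rw [this, Measure.infinitePi_pi _ (fun i _ => ht _), Finset.prod_image]
  · apply Finset.prod_congr rfl
    intro c _
    rw [smul_inv_smul]
  · intro a _ b _ hab
    exact smul_left_cancel g⁻¹ hab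

theorem coind_mp {G : Type} [Group G] (K : Subgroup G) (Y : Type)
    [MeasurableSpace Y] [MulAction K Y] (ν : Measure Y) [IsProbabilityMeasure ν]
    (mp : ∀ k : K, MeasurePreserving (fun y : Y => k • y) ν ν) (g : G) :
    MeasurePreserving (fun x : G ⧸ K → Y => fun c => (kap K g c)⁻¹ • x (g⁻¹ • c))
      (Measure.infinitePi fun _ => ν) (Measure.infinitePi fun _ => ν) := by
  have h2 : MeasurePreserving (fun x : G ⧸ K → Y => fun c => (kap K g c)⁻¹ • x c)
      (Measure.infinitePi fun _ => ν) (Measure.infinitePi fun _ => ν) := by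
    refine ⟨?_, ?_⟩
    · apply measurable_pi_lambda
      intro c
      exact (mp _).measurable.comp (measurable_pi_apply c)
    · rw [Measure.infinitePi_map_pi (fun _ : G ⧸ K => ν) (fun c => (mp (kap K g c)⁻¹).measurable)]
      apply congrArg
      funext c
      exact (mp (kap K g c)⁻¹).map_eq
  exact h2.comp (shift_mp (G ⧸ K) Y ν g)

/-- the co-induced space -/
noncomputable def PMP.coind {G : Type} [Group G] [Countable G] (K : Subgroup G) (Y : PMP K) : PMP G where
  X := G ⧸ K → Y.X
  ms := inferInstance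
  sb := by
    have : Countable (G ⧸ K) := Quotient.countable
    infer_instance
  act := coindAct K Y.X
  μ := Measure.infinitePi fun _ => Y.μ
  prob := inferInstance
  mp := fun g => coind_mp K Y.X Y.μ Y.mp g

/-- equivariant projection of the co-induced space -/
theorem PMP.coind_proj {G : Type} [Group G] [Countable G] (K : Subgroup G) (Y : PMP K) :
    ∃ p : (PMP.coind K Y).X → Y.X, MeasurePreserving p (PMP.coind K Y).μ Y.μ ∧
      ∀ (k : K) (x : (PMP.coind K Y).X), p ((k : G) • x) = k • p x := by
  have hs : ((1 : G) : G ⧸ K).out ∈ K := by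
    have h := QuotientGroup.out_eq' ((1 : G) : G ⧸ K)
    have h2 := QuotientGroup.eq.mp h.symm
    simpa using h2
  refine ⟨fun x => (⟨_, hs⟩ : K) • x ((1 : G) : G ⧸ K), ?_, ?_⟩
  · exact (Y.mp _).comp (measurePreserving_eval_infinitePi (fun _ : G ⧸ K => Y.μ) _)
  · intro k x
    change (⟨_, hs⟩ : K) • ((kap K (k : G) ((1 : G) : G ⧸ K))⁻¹ •
      x ((k : G)⁻¹ • ((1 : G) : G ⧸ K))) = k • ((⟨_, hs⟩ : K) • x ((1 : G) : G ⧸ K))
    have h1 : ((k : G)⁻¹ • ((1 : G) : G ⧸ K)) = ((1 : G) : G ⧸ K) := by
      change (((k : G)⁻¹ * 1 : G) : G ⧸ K) = _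
      rw [QuotientGroup.eq]
      simp
    rw [h1, smul_smul, smul_smul]
    apply congrArg (· • x ((1 : G) : G ⧸ K))
    apply Subtype.ext
    simp only [kap, Subgroup.coe_mul, Subgroup.coe_inv, h1]
    group

/-- product of two spaces -/
noncomputable def PMP.prod {G : Type} [Group G] (Y Z : PMP G) : PMP G where
  X := Y.X × Z.X
  ms := inferInstance
  sb := inferInstance
  act := inferInstance
  μ := Y.μ.prod Z.μ
  prob := inferInstance
  mp := fun g => (Y.mp g).prod (Z.mp g)

/-- The one point space. -/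
noncomputable def PMP.point (G : Type) [Group G] : PMP G where
  X := Unit
  ms := inferInstance
  sb := inferInstance
  act := { smul := fun _ x => x, one_smul := fun _ => rfl, mul_smul := fun _ _ _ => rfl }
  μ := Measure.dirac ()
  prob := inferInstance
  mp := fun g => MeasurePreserving.id _

/-- the cyclic group of order n with a group acting by translations through a homomorphism -/
noncomputable def PMP.cyc {K : Type} [Group K] (ψ : K →* Multiplicative ℤ) (n : ℕ) [NeZero n] :
    PMP K where
  X := ZMod n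
  ms := ⊤
  sb := by
    let _ : MeasurableSpace (ZMod n) := ⊤
    let _ : Fintype (ZMod n) := ZMod.fintype n
    have : DiscreteMeasurableSpace (ZMod n) := ⟨fun _ => trivial⟩
    infer_instance
  act :=
    { smul := fun k r => r + ((Multiplicative.toAdd (ψ k) : ℤ) : ZMod n)
      one_smul := fun r => by
        change r + ((Multiplicative.toAdd (ψ 1) : ℤ) : ZMod n) = r
        simp
      mul_smul := fun k l r => by
        change r + ((Multiplicative.toAdd (ψ (k * l)) : ℤ) : ZMod n) =
          (r + ((Multiplicative.toAdd (ψ l) : ℤ) : ZMod n)) + ((Multiplicative.toAdd (ψ k) : ℤ) : ZMod n)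
        simp only [map_mul, toAdd_mul, Int.cast_add]
        ring }
  μ := ((n : ℝ≥0∞)⁻¹) • (@Measure.count (ZMod n) ⊤)
  prob := by
    let _ : MeasurableSpace (ZMod n) := ⊤
    let _ : Fintype (ZMod n) := ZMod.fintype n
    refine ⟨?_⟩
    change (n : ℝ≥0∞)⁻¹ * Measure.count (Set.univ : Set (ZMod n)) = 1
    rw [Measure.count_apply MeasurableSet.univ]
    rw [Set.encard_univ, ENat.card_eq_coe_fintype_card, ZMod.card]
    simp only [ENat.toENNReal_coe]
    exact ENNReal.inv_mul_cancel (by simpa using NeZero.ne n) (by simp)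
  mp := fun k => by
    let _ : MeasurableSpace (ZMod n) := ⊤
    refine ⟨measurable_from_top, ?_⟩
    ext s hs
    rw [Measure.map_apply measurable_from_top hs]
    change (n : ℝ≥0∞)⁻¹ * Measure.count _ = (n : ℝ≥0∞)⁻¹ * Measure.count s
    apply congrArg
    rw [Measure.count_apply hs, Measure.count_apply MeasurableSpace.measurableSet_top]
    apply congrArg
    have hinj : Function.Injective (fun r : ZMod n => r + ((Multiplicative.toAdd (ψ k) : ℤ) : ZMod n)) :=
      fun a b h => add_right_cancel h
    have hsurj : Function.Surjective (fun r : ZMod n => r + ((Multiplicative.toAdd (ψ k) : ℤ) : ZMod n)) :=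
      fun b => ⟨b - _, sub_add_cancel _ _⟩
    exact Set.encard_preimage_of_bijective ⟨hinj, hsurj⟩ s

end Pool.Agent.COST
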