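import Pool.Agent.COST.Free

open MeasureTheory Set
open scoped ENNReal

namespace Pool.Agent.COST

/-- A set S from which every point is reached by the descents in D. -/
def Covers {G : Type} [Group G] (X : PMP G) (D : Set G) (S : Set X.X) : Prop :=
  ∀ P : X.X → Prop, (∀ z ∈ S, P z) → (∀ z, (∀ g ∈ D, P (g • z)) → P z) → ∀ z, P z

/-- Hierarchical descent sets. -/
inductive Desc {G : Type} [Group G] : Set G → Prop
  | empty : Desc ∅
  | step (D : Set G) (hfin : D.Finite) (K : Subgroup G) (ψ : K →* Multiplicative ℤ)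
      (hK : ∀ g ∈ D, g ∈ K)
      (hψ : ∀ (g : G) (h : g ∈ K), g ∈ D → Multiplicative.toAdd (ψ ⟨g, h⟩) ≤ 0)
      (hD : Desc {g | g ∈ D ∧ ∃ h : g ∈ K, Multiplicative.toAdd (ψ ⟨g, h⟩) = 0}) : Desc D

theorem exists_small (M : ℕ) (ε : ℝ≥0∞) (hε : ε ≠ 0) :
    ∃ n : ℕ, n ≠ 0 ∧ (n : ℝ≥0∞)⁻¹ * (M : ℝ≥0∞) < ε := by
  obtain ⟨n, hn⟩ := ENNReal.exists_inv_nat_lt (a := ε / ((M : ℝ≥0∞) + 1))
    (ENNReal.div_ne_zero.mpr ⟨hε, by simp⟩)
  refine ⟨n, ?_, ?_⟩
  · rintro rfl
    simp at hn
  · have h1 : (n : ℝ≥0∞)⁻¹ * ((M : ℝ≥0∞) + 1) < ε := by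
      rw [ENNReal.lt_div_iff_mul_lt (Or.inl (by simp)) (Or.inl (by simp))] at hn
      exact hn
    exact lt_of_le_of_lt (mul_le_mul_right (by simp) _) h1

theorem cyc_slab {K : Type} [Group K] (ψ : K →* Multiplicative ℤ) (n : ℕ) [NeZero n] (M : ℕ) :
    MeasurableSet {r : (PMP.cyc ψ n).X | ZMod.val (n := n) r < M} ∧
    (PMP.cyc ψ n).μ {r : (PMP.cyc ψ n).X | ZMod.val (n := n) r < M} ≤ (n : ℝ≥0∞)⁻¹ * M := by
  have h0 : MeasurableSet {r : (PMP.cyc ψ n).X | ZMod.val (n := n) r < M} := MeasurableSpace.measurableSet_top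
  refine ⟨h0, ?_⟩
  change (n : ℝ≥0∞)⁻¹ * (@Measure.count (ZMod n) ⊤) {r : ZMod n | r.val < M} ≤ _
  apply mul_le_mul_right
  rw [@Measure.count_apply (ZMod n) ⊤ _ MeasurableSpace.measurableSet_top]
  have h1 : ({r : ZMod n | r.val < M} : Set (ZMod n)).encard ≤ (Set.Iio M : Set ℕ).encard := by
    apply Set.encard_le_encard_of_injOn (f := fun r => ZMod.val r)
    · intro r hr
      exact hr
    · intro a _ b _ hab
      exact ZMod.val_injective n hab
  have h2 : (Set.Iio M : Set ℕ).encard = M := by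
    rw [← Finset.coe_Iio, Set.encard_coe_eq_coe_finsetCard, Nat.card_Iio]
  rw [h2] at h1
  calc ((({r : ZMod n | r.val < M} : Set (ZMod n)).encard : ENat) : ℝ≥0∞) ≤ ((M : ENat) : ℝ≥0∞) := by
        exact_mod_cast h1
    _ = (M : ℝ≥0∞) := by simp

theorem cyc_level {K : Type} [Group K] (ψ : K →* Multiplicative ℤ) (n : ℕ) [NeZero n] (M : ℕ)
    (k : K) (r : (PMP.cyc ψ n).X) (hk : Multiplicative.toAdd (ψ k) ≤ 0)
    (hM : (Multiplicative.toAdd (ψ k)).natAbs ≤ ZMod.val (n := n) r) :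
    ZMod.val (n := n) (k • r : (PMP.cyc ψ n).X) =
      ZMod.val (n := n) r - (Multiplicative.toAdd (ψ k)).natAbs := by
  set a := (Multiplicative.toAdd (ψ k)).natAbs with ha
  have hval : (Multiplicative.toAdd (ψ k) : ℤ) = -(a : ℤ) := by omega
  have hr : ZMod.val (n := n) r < n := ZMod.val_lt (n := n) r
  have hav : ZMod.val ((a : ℕ) : ZMod n) = a := ZMod.val_natCast_of_lt (by omega)
  have key : ∀ q : ZMod n, a ≤ q.val →
      ZMod.val (q + ((Multiplicative.toAdd (ψ k) : ℤ) : ZMod n)) = q.val - a := by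
    intro q hq
    rw [hval]
    have : q + ((-(a : ℤ) : ℤ) : ZMod n) = q - ((a : ℕ) : ZMod n) := by
      push_cast; ring
    rw [this]
    have h := ZMod.val_sub (n := n) (a := q) (b := ((a : ℕ) : ZMod n)) (by rw [hav]; exact hq)
    rw [h, hav]
  exact key r hM

theorem cover {G : Type} [Group G] [Countable G] (D : Set G) (hD : Desc D) :
    ∀ ε : ℝ≥0∞, ε ≠ 0 → ∃ (X : PMP G) (S : Set X.X), MeasurableSet S ∧ X.μ S < ε ∧ Covers X D S := by
  induction hD with
  | empty =>
    intro ε hε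
    refine ⟨PMP.point G, ∅, MeasurableSet.empty, ?_, ?_⟩
    · simpa using pos_iff_ne_zero.mpr hε
    · intro P _ h z
      exact h z (by simp)
  | step D hfin K ψ hK hψ hD ih =>
    intro ε hε
    have hε2 : ε / 2 ≠ 0 := (ENNReal.half_pos hε).ne'
    obtain ⟨X', S', hS', hμ', hcov⟩ := ih (ε / 2) hε2
    classical
    -- bound
    obtain ⟨M, hM⟩ : ∃ M : ℕ, ∀ (g : G) (h : g ∈ K), g ∈ D →
        (Multiplicative.toAdd (ψ ⟨g, h⟩)).natAbs ≤ M := by
      obtain ⟨M, hM⟩ := (hfin.image (fun g => if h : g ∈ K then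
        (Multiplicative.toAdd (ψ ⟨g, h⟩)).natAbs else 0)).bddAbove
      refine ⟨M, fun g h hg => ?_⟩
      have := hM ⟨g, hg, rfl⟩
      simpa [h] using this
    obtain ⟨n, hn0, hn⟩ := exists_small M (ε / 2) hε2
    have : NeZero n := ⟨hn0⟩
    obtain ⟨p, hpm, hpe⟩ := PMP.coind_proj K (PMP.cyc ψ n)
    obtain ⟨hsm, hsμ⟩ := cyc_slab ψ n M
    let X1 := PMP.coind K (PMP.cyc ψ n)
    let S1 : Set X1.X := p ⁻¹' {r | ZMod.val (n := n) r < M}
    have hS1 : MeasurableSet S1 := hpm.measurable hsm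
    have hμ1 : X1.μ S1 ≤ (n : ℝ≥0∞)⁻¹ * M := by
      rw [hpm.measure_preimage hsm.nullMeasurableSet]
      exact hsμ
    refine ⟨PMP.prod X' X1, (PMP.p1 X' X1 ⁻¹' S') ∪ (PMP.p2 X' X1 ⁻¹' S1), ?_, ?_, ?_⟩
    · exact ((PMP.p1_mp X' X1).measurable hS').union ((PMP.p2_mp X' X1).measurable hS1)
    · calc (PMP.prod X' X1).μ ((PMP.p1 X' X1 ⁻¹' S') ∪ (PMP.p2 X' X1 ⁻¹' S1))
          ≤ (PMP.prod X' X1).μ (PMP.p1 X' X1 ⁻¹' S') + (PMP.prod X' X1).μ (PMP.p2 X' X1 ⁻¹' S1) :=
            measure_union_le _ _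
        _ = X'.μ S' + X1.μ S1 := by
            rw [(PMP.p1_mp X' X1).measure_preimage hS'.nullMeasurableSet,
              (PMP.p2_mp X' X1).measure_preimage hS1.nullMeasurableSet]
        _ ≤ X'.μ S' + (n : ℝ≥0∞)⁻¹ * M := by gcongr
        _ < ε / 2 + ε / 2 := ENNReal.add_lt_add hμ' hn
        _ = ε := ENNReal.add_halves ε
    · intro P hPS hPstep
      -- strong induction on the level
      have key : ∀ ℓ : ℕ, ∀ (z' : X'.X) (z1 : X1.X), ZMod.val (n := n) (p z1) = ℓ → P (z', z1) := by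
        intro ℓ
        induction ℓ using Nat.strong_induction_on with
        | _ ℓ ihℓ =>
          by_cases hℓ : ℓ < M
          · intro z' z1 hz
            apply hPS
            right
            change ZMod.val (n := n) (p z1) < M
            omega
          · have := hcov (fun z' => ∀ z1 : X1.X, ZMod.val (n := n) (p z1) = ℓ → P (z', z1)) ?_ ?_
            · exact this
            · intro z' hz' z1 _
              apply hPS
              left
              exact hz'
            · intro z' hz' z1 hz1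
              apply hPstep
              intro g hg
              have hgK := hK g hg
              have hle := hψ g hgK hg
              have hM' := hM g hgK hg
              have hlev : ZMod.val (n := n) (p (g • z1)) =
                  ZMod.val (n := n) (p z1) - (Multiplicative.toAdd (ψ ⟨g, hgK⟩)).natAbs := by
                have h1 := hpe ⟨g, hgK⟩ z1
                change p (g • z1) = _ at h1
                rw [h1]
                exact cyc_level ψ n M ⟨g, hgK⟩ (p z1) hle (by omega)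
              change P (g • z', g • z1)
              by_cases h0 : Multiplicative.toAdd (ψ ⟨g, hgK⟩) = 0
              · apply hz' g ⟨hg, hgK, h0⟩
                rw [hlev, h0]
                simpa using hz1
              · apply ihℓ (ZMod.val (n := n) (p z1) - (Multiplicative.toAdd (ψ ⟨g, hgK⟩)).natAbs) _ _ _ hlev
                have : 0 < (Multiplicative.toAdd (ψ ⟨g, hgK⟩)).natAbs := Int.natAbs_pos.mpr h0
                omega
      intro z
      exact key _ z.1 z.2 rfl

end Pool.Agent.COST
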