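import Mathlib

/-!
Standard actions, graphings and cost.
-/

open MeasureTheory Set
open scoped ENNReal

namespace Pool.Agent.COST

/-- A probability measure preserving Borel action of a group on a standard Borel space. -/
structure PMP (G : Type) [Group G] where
  /-- the space -/
  X : Type
  /-- its Borel structure -/
  ms : MeasurableSpace X
  /-- it is standard Borel -/
  sb : StandardBorelSpace X
  /-- the action -/
  act : MulAction G X
  /-- the measure -/
  μ : Measure X
  /-- it is a probability measure -/
  prob : IsProbabilityMeasure μ
  /-- every group element acts by a measure preserving Borel map -/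
  mp : ∀ g : G, MeasurePreserving (fun x : X => g • x) μ μ

attribute [instance] PMP.ms PMP.sb PMP.act PMP.prob

/-- A standard action: a Borel action on a standard Borel space which preserves a probability
measure and is essentially free. -/
structure StdAction (G : Type) [Group G] extends PMP G where
  /-- almost every point has trivial stabiliser -/
  free : ∀ᵐ x ∂μ, ∀ g : G, g • x = x → g = 1

/-- A graphing of the orbit equivalence relation of a standard action: a countable family of
measure preserving Borel bijections `φ i : A i → B i` between Borel subsets, inside the orbit equivalence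
relation such that, up to a null set, the orbit equivalence relation is the smallest
equivalence relation containing all pairs `(x, φ i x)` with `x ∈ A i`. -/
structure Graphing {G : Type} [Group G] (α : StdAction G) where
  /-- the domains -/
  A : ℕ → Set α.X
  /-- the ranges -/
  B : ℕ → Set α.X
  /-- the bijections (only their values on the domains matter) -/
  φ : ℕ → α.X → α.X
  measA : ∀ i, MeasurableSet (A i)
  measB : ∀ i, MeasurableSet (B i)
  meas : ∀ i, Measurable (φ i)
  bij : ∀ i, BijOn (φ i) (A i) (B i)
  pres : ∀ i, ∀ E ⊆ A i, MeasurableSet E → α.μ (φ i '' E) = α.μ E
  rel : ∀ i, ∀ x ∈ A i, ∃ g : G, g • x = φ i x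
  gen : ∀ᵐ x ∂α.μ, ∀ g : G,
    Relation.EqvGen (fun a b => ∃ i, a ∈ A i ∧ b = φ i a) x (g • x)

/-- The cost of a graphing. -/
noncomputable def Graphing.cost {G : Type} [Group G] {α : StdAction G} (Φ : Graphing α) : ℝ≥0∞ :=
  ∑' i, α.μ (Φ.A i)

/-- The cost of a standard action: the infimum of the costs of the graphings of its orbit
equivalence relation. -/
noncomputable def StdAction.cost {G : Type} [Group G] (α : StdAction G) : ℝ≥0∞ :=
  ⨅ Φ : Graphing α, Φ.cost

/-- The cost of a group: the infimum of the costs of its standard actions. -/
noncomputable def groupCost (G : Type) [Group G] : ℝ≥0∞ :=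
  ⨅ α : StdAction G, α.cost

/-- A group is locally indicable if every nontrivial finitely generated subgroup has a
homomorphism onto the integers. -/
def LocallyIndicable (G : Type) [Group G] : Prop :=
  ∀ K : Subgroup G, K.FG → K ≠ ⊥ →
    ∃ ψ : K →* Multiplicative ℤ, Function.Surjective ψ

end Pool.Agent.COST
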