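import Mathlib

section

open scoped ENNReal InnerProductSpace

namespace Pool.Agent.COST

/-- square summable functions -/
abbrev L2 (Ω : Type) : Type := lp (fun _ : Ω => ℂ) 2

open Classical in
/-- the basis vector at a point -/
noncomputable def dl {Ω : Type} (ω : Ω) : L2 Ω := lp.single 2 ω (1 : ℂ)

/-- the square summable function given by a finitely supported function -/
noncomputable def toL2 {Ω : Type} (x : Ω →₀ ℂ) : L2 Ω := x.sum fun ω c => c • dl ω

theorem dl_self {Ω : Type} (ω : Ω) : dl ω ω = (1 : ℂ) := by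
  classical
  change (lp.single 2 ω (1 : ℂ) : L2 Ω) ω = 1
  rw [lp.single_apply_self]

theorem dl_ne {Ω : Type} {ω ω' : Ω} (h : ω' ≠ ω) : dl ω ω' = (0 : ℂ) := by
  classical
  change (lp.single 2 ω (1 : ℂ) : L2 Ω) ω' = 0
  rw [lp.single_apply_ne 2 ω 1 h]

theorem inner_dl {Ω : Type} (ω : Ω) (f : L2 Ω) : ⟪dl ω, f⟫_ℂ = f ω := by
  classical
  change ⟪(lp.single 2 ω (1 : ℂ) : L2 Ω), f⟫_ℂ = f ω
  rw [lp.inner_single_left]
  simp

theorem norm_dl {Ω : Type} (ω : Ω) : ‖(dl ω : L2 Ω)‖ = 1 := by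
  classical
  change ‖(lp.single 2 ω (1 : ℂ) : L2 Ω)‖ = 1
  rw [lp.norm_single (by norm_num)]
  simp

theorem L2.ext {Ω : Type} {f g : L2 Ω} (h : ∀ ω, f ω = g ω) : f = g :=
  lp.ext (funext h)

theorem hasSum_dl {Ω : Type} (f : L2 Ω) : HasSum (fun ω => f ω • dl ω) f := by
  classical
  have h := lp.hasSum_single (p := 2) (by norm_num) f
  have h2 : (fun ω => f ω • dl ω) = fun i : Ω => lp.single 2 i (f i : ℂ) := by
    funext i
    change f i • (lp.single 2 i (1 : ℂ) : L2 Ω) = _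
    have h3 : (lp.single 2 i (f i • (1 : ℂ)) : L2 Ω) = f i • (lp.single 2 i (1 : ℂ) : L2 Ω) :=
      lp.single_smul 2 i (f i) 1
    rw [← h3, smul_eq_mul, mul_one]
  rw [h2]
  exact h

/-- two continuous linear maps which agree on the basis vectors are equal -/
theorem clm_ext {Ω : Type} {F : Type*} [NormedAddCommGroup F] [NormedSpace ℂ F]
    {A B : L2 Ω →L[ℂ] F} (h : ∀ ω, A (dl ω) = B (dl ω)) : A = B := by
  ext f
  have h1 := (hasSum_dl f).mapL A
  have h2 := (hasSum_dl f).mapL B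
  simp only [map_smul, h] at h1 h2
  exact h1.unique h2

theorem toL2_apply {Ω : Type} (x : Ω →₀ ℂ) (ω : Ω) : toL2 x ω = x ω := by
  classical
  unfold toL2 Finsupp.sum
  rw [lp.coeFn_sum, Finset.sum_apply]
  have : ∀ i ∈ x.support, (x i • dl i : L2 Ω) ω = if ω = i then x i else 0 := by
    intro i _
    change x i • (dl i : L2 Ω) ω = _
    split_ifs with h
    · subst h; rw [dl_self]; simp
    · rw [dl_ne h]; simp
  rw [Finset.sum_congr rfl this, Finset.sum_ite_eq]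
  split_ifs with h
  · rfl
  · exact (Finsupp.notMem_support_iff.mp h).symm

theorem toL2_single {Ω : Type} (ω : Ω) (c : ℂ) : toL2 (Finsupp.single ω c) = c • dl ω := by
  unfold toL2
  rw [Finsupp.sum_single_index]
  simp

theorem toL2_add {Ω : Type} (x y : Ω →₀ ℂ) : toL2 (x + y) = toL2 x + toL2 y := by
  apply L2.ext
  intro ω
  rw [lp.coeFn_add, Pi.add_apply]
  simp only [toL2_apply, Finsupp.add_apply]

theorem toL2_smul {Ω : Type} (c : ℂ) (x : Ω →₀ ℂ) : toL2 (c • x) = c • toL2 x := by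
  apply L2.ext
  intro ω
  rw [lp.coeFn_smul, Pi.smul_apply]
  simp only [toL2_apply, Finsupp.smul_apply]

theorem e0_1_two : 0 < (2 : ℝ≥0∞).toReal := by norm_num

theorem e0_1_mem {Ω Ω' : Type} (e : Ω ≃ Ω') (f : L2 Ω) :
    Memℓp (fun ω' : Ω' => (f (e.symm ω') : ℂ)) 2 := by
  rw [memℓp_gen_iff e0_1_two]
  have h1 : Summable fun i : Ω => ‖(f i : ℂ)‖ ^ (2 : ℝ≥0∞).toReal :=
    (memℓp_gen_iff e0_1_two).mp (lp.memℓp f)
  exact (Equiv.summable_iff e.symm).mpr h1

/-- Reindexing. PROOF: `f ↦ f ∘ e.symm` is in `lp` and has the same norm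
(`Equiv.tsum_eq`, `lp.norm_rpow_eq_tsum` or `lp.norm_eq_tsum_rpow`, `memℓp_gen_iff`,
`Equiv.summable_iff`); it is linear with inverse `f ↦ f ∘ e`. -/
theorem reix_exists {Ω Ω' : Type} (e : Ω ≃ Ω') :
    ∃ U : L2 Ω ≃ₗᵢ[ℂ] L2 Ω', ∀ (f : L2 Ω) (ω' : Ω'), U f ω' = f (e.symm ω') := by
  refine ⟨{
    toFun := fun f => ⟨fun ω' : Ω' => (f (e.symm ω') : ℂ), e0_1_mem e f⟩
    invFun := fun f => ⟨fun ω : Ω => (f (e ω) : ℂ), e0_1_mem e.symm f⟩
    left_inv := ?_
    right_inv := ?_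
    map_add' := ?_
    map_smul' := ?_
    norm_map' := ?_ }, ?_⟩
  · intro f g
    exact L2.ext fun ω' => rfl
  · intro c f
    exact L2.ext fun ω' => rfl
  · intro f
    refine L2.ext fun ω => ?_
    change (f (e.symm (e ω)) : ℂ) = f ω
    rw [e.symm_apply_apply]
  · intro f
    refine L2.ext fun ω => ?_
    change (f (e (e.symm ω)) : ℂ) = f ω
    rw [e.apply_symm_apply]
  · intro f
    have h1 := lp.norm_eq_tsum_rpow e0_1_two f
    have h2 := lp.norm_eq_tsum_rpow e0_1_two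
      (⟨fun ω' : Ω' => (f (e.symm ω') : ℂ), e0_1_mem e f⟩ : L2 Ω')
    have h3 : ∑' i : Ω', ‖((⟨fun ω' : Ω' => (f (e.symm ω') : ℂ), e0_1_mem e f⟩ : L2 Ω') i : ℂ)‖ ^
        (2 : ℝ≥0∞).toReal = ∑' i : Ω, ‖(f i : ℂ)‖ ^ (2 : ℝ≥0∞).toReal :=
      e.symm.tsum_eq (fun i : Ω => ‖(f i : ℂ)‖ ^ (2 : ℝ≥0∞).toReal)
    rw [h3, ← h1] at h2
    exact h2
  · intro f ω'
    rfl

end Pool.Agent.COST

end

section

open scoped ENNReal InnerProductSpace

namespace Pool.Agent.COST

/-- reindexing -/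
noncomputable def reix {Ω Ω' : Type} (e : Ω ≃ Ω') : L2 Ω ≃ₗᵢ[ℂ] L2 Ω' := (reix_exists e).choose

theorem reix_apply {Ω Ω' : Type} (e : Ω ≃ Ω') (f : L2 Ω) (ω' : Ω') :
    reix e f ω' = f (e.symm ω') := (reix_exists e).choose_spec f ω'

theorem reix_dl {Ω Ω' : Type} (e : Ω ≃ Ω') (ω : Ω) : reix e (dl ω) = dl (e ω) := by
  apply L2.ext
  intro ω'
  rw [reix_apply]
  by_cases h : ω' = e ω
  · subst h
    rw [Equiv.symm_apply_apply, dl_self, dl_self]
  · rw [dl_ne h, dl_ne]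
    intro h2
    exact h (by rw [← h2, Equiv.apply_symm_apply])

/-- left translation -/
noncomputable def tr {H J : Type} [Group H] (g : H) : L2 (H × J) ≃ₗᵢ[ℂ] L2 (H × J) :=
  reix (Equiv.prodCongr (Equiv.mulLeft g) (Equiv.refl J))

theorem tr_apply {H J : Type} [Group H] (g : H) (f : L2 (H × J)) (h : H) (j : J) :
    tr g f (h, j) = f (g⁻¹ * h, j) := by
  unfold tr
  rw [reix_apply]
  rfl

theorem tr_dl {H J : Type} [Group H] (g h : H) (j : J) :
    tr g (dl (h, j)) = dl (g * h, j) := by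
  unfold tr
  rw [reix_dl]
  rfl

theorem tr_mul {H J : Type} [Group H] (g h : H) (f : L2 (H × J)) :
    tr (g * h) f = tr g (tr h f) := by
  apply L2.ext
  rintro ⟨k, j⟩
  rw [tr_apply, tr_apply, tr_apply, mul_inv_rev, mul_assoc]

theorem tr_one {H J : Type} [Group H] (f : L2 (H × J)) : tr 1 f = f := by
  apply L2.ext
  rintro ⟨k, j⟩
  rw [tr_apply, inv_one, one_mul]

theorem tr_toL2 {H J : Type} [Group H] (g : H) (x : H × J →₀ ℂ) (h : H) (j : J) :
    tr g (toL2 x) (h, j) = x (g⁻¹ * h, j) := by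
  rw [tr_apply, toL2_apply]

/-- Von Neumann dimension of the closure of a left invariant subspace of the square summable
functions on `H × J`: the sum of the squared norms of the projections of the basis vectors at the
identity. -/
noncomputable def vd {H J : Type} [Group H] [Fintype J] (V : Submodule ℂ (L2 (H × J))) : ℝ :=
  ∑ j, ‖V.topologicalClosure.starProjection (dl ((1 : H), j))‖ ^ 2

end Pool.Agent.COST

end
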