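import Pool.Agent.COST.E0

section

open scoped ENNReal InnerProductSpace
open Filter Topology

namespace Pool.Agent.COST

variable {E F : Type} [NormedAddCommGroup E] [InnerProductSpace ℂ E] [CompleteSpace E]
  [NormedAddCommGroup F] [InnerProductSpace ℂ F] [CompleteSpace F]

omit [CompleteSpace F] in
theorem e1_1_conj (M N : F →L[ℂ] F) (hM : ∀ x y, ⟪M x, y⟫_ℂ = ⟪x, M y⟫_ℂ)
    (hN : (∀ x y, ⟪N x, y⟫_ℂ = ⟪x, N y⟫_ℂ) ∧ ∀ x, 0 ≤ (⟪N x, x⟫_ℂ).re) :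
    (∀ x y, ⟪(M * N * M) x, y⟫_ℂ = ⟪x, (M * N * M) y⟫_ℂ) ∧
      ∀ x, 0 ≤ (⟪(M * N * M) x, x⟫_ℂ).re := by
  constructor
  · intro x y
    change ⟪M (N (M x)), y⟫_ℂ = ⟪x, M (N (M y))⟫_ℂ
    rw [hM, hN.1, hM]
  · intro x
    change 0 ≤ (⟪M (N (M x)), x⟫_ℂ).re
    rw [hM]
    exact hN.2 _

omit [CompleteSpace F] in
theorem e1_1_all (K : F →L[ℂ] F) (hsa : ∀ x y, ⟪K x, y⟫_ℂ = ⟪x, K y⟫_ℂ)
    (h0 : ∀ x, 0 ≤ (⟪K x, x⟫_ℂ).re) (h1 : ∀ x, (⟪K x, x⟫_ℂ).re ≤ ‖x‖ ^ 2) (n : ℕ) :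
    ∀ i j : ℕ, i + j = n →
      (∀ x y, ⟪(K ^ i * (1 - K) ^ j) x, y⟫_ℂ = ⟪x, (K ^ i * (1 - K) ^ j) y⟫_ℂ) ∧
      ∀ x, 0 ≤ (⟪(K ^ i * (1 - K) ^ j) x, x⟫_ℂ).re := by
  have hsaL : ∀ x y, ⟪(1 - K) x, y⟫_ℂ = ⟪x, (1 - K) y⟫_ℂ := by
    intro x y
    change ⟪x - K x, y⟫_ℂ = ⟪x, y - K y⟫_ℂ
    rw [inner_sub_left, inner_sub_right, hsa]
  have hpL : ∀ x, 0 ≤ (⟪(1 - K) x, x⟫_ℂ).re := by
    intro x
    change 0 ≤ (⟪x - K x, x⟫_ℂ).re
    rw [inner_sub_left, Complex.sub_re]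
    have h2 : (⟪x, x⟫_ℂ).re = ‖x‖ ^ 2 := inner_self_eq_norm_sq (𝕜 := ℂ) x
    rw [h2]
    linarith [h1 x]
  have hcom : Commute K (1 - K) := (Commute.one_right K).sub_right (Commute.refl K)
  induction n using Nat.strong_induction_on with
  | _ n ih =>
    intro i j hij
    rcases Nat.lt_or_ge i 2 with hi | hi
    · rcases Nat.lt_or_ge j 2 with hj | hj
      · have hi' : i = 0 ∨ i = 1 := by omega
        have hj' : j = 0 ∨ j = 1 := by omega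
        rcases hi' with rfl | rfl <;> rcases hj' with rfl | rfl
        · rw [pow_zero, pow_zero, one_mul]
          refine ⟨fun x y => rfl, fun x => ?_⟩
          have h2 : (⟪x, x⟫_ℂ).re = ‖x‖ ^ 2 := inner_self_eq_norm_sq (𝕜 := ℂ) x
          change 0 ≤ (⟪x, x⟫_ℂ).re
          rw [h2]
          positivity
        · rw [pow_zero, pow_one, one_mul]
          exact ⟨hsaL, hpL⟩
        · rw [pow_zero, pow_one, mul_one]
          exact ⟨hsa, h0⟩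
        · rw [pow_one, pow_one]
          have e1 : K * (1 - K) = K * (1 - K) * K + (1 - K) * K * (1 - K) := by
            noncomm_ring
          have a1 := e1_1_conj K (1 - K) hsa ⟨hsaL, hpL⟩
          have a2 := e1_1_conj (1 - K) K hsaL ⟨hsa, h0⟩
          rw [e1]
          constructor
          · intro x y
            rw [add_apply, add_apply, inner_add_left,
              inner_add_right, a1.1, a2.1]
          · intro x
            rw [add_apply, inner_add_left, Complex.add_re]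
            exact add_nonneg (a1.2 x) (a2.2 x)
      · obtain ⟨j', rfl⟩ := Nat.exists_eq_add_of_le' hj
        have a1 := e1_1_conj (1 - K) _ hsaL (ih (i + j') (by omega) i j' rfl)
        have e1 : K ^ i * (1 - K) ^ (j' + 2) =
            (1 - K) * (K ^ i * (1 - K) ^ j') * (1 - K) := by
          rw [← mul_assoc (1 - K), ← (hcom.pow_left i).eq, mul_assoc, mul_assoc,
            ← pow_succ, ← pow_succ']
        rw [e1]
        exact a1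
    · obtain ⟨i', rfl⟩ := Nat.exists_eq_add_of_le' hi
      have a1 := e1_1_conj K _ hsa (ih (i' + j) (by omega) i' j rfl)
      have e1 : K ^ (i' + 2) * (1 - K) ^ j = K * (K ^ i' * (1 - K) ^ j) * K := by
        rw [mul_assoc K, mul_assoc (K ^ i'), ← (hcom.pow_right j).eq, ← mul_assoc (K ^ i'),
          ← pow_succ, ← mul_assoc K, ← pow_succ']
      rw [e1]
      exact a1

/-- PROOF. Put `L = 1 - K`, self-adjoint, `0 ≤ re ⟪L x, x⟫` by `h1`. `K * L` is positive: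
`K L = K L K + L K L` (as `K + L = 1` and `K`, `L` commute) and
`re ⟪K L K x, x⟫ = re ⟪L (K x), K x⟫ ≥ 0`, similarly the other. In general
write `i = 2 i' + i0`, `j = 2 j' + j0` with `i0, j0 ∈ {0, 1}`: with `y = (K ^ i' * L ^ j') x`,
`re ⟪(K ^ i * L ^ j) x, x⟫ = re ⟪(K ^ i0 * L ^ j0) y, y⟫ ≥ 0` (self-adjointness, commuting). -/
theorem pos_pow (K : F →L[ℂ] F) (hsa : ∀ x y, ⟪K x, y⟫_ℂ = ⟪x, K y⟫_ℂ)
    (h0 : ∀ x, 0 ≤ (⟪K x, x⟫_ℂ).re) (h1 : ∀ x, (⟪K x, x⟫_ℂ).re ≤ ‖x‖ ^ 2) (i j : ℕ) (x : F) :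
    0 ≤ (⟪(K ^ i * (1 - K) ^ j) x, x⟫_ℂ).re := by
  exact (e1_1_all K hsa h0 h1 (i + j) i j rfl).2 x

end Pool.Agent.COST

end

section

open scoped ENNReal InnerProductSpace
open Filter Topology

namespace Pool.Agent.COST

variable {E F : Type} [NormedAddCommGroup E] [InnerProductSpace ℂ E] [CompleteSpace E]
  [NormedAddCommGroup F] [InnerProductSpace ℂ F] [CompleteSpace F]

/-- the sequence of the energies -/
theorem e1_2_a (K : F →L[ℂ] F) (hsa : ∀ x y, ⟪K x, y⟫_ℂ = ⟪x, K y⟫_ℂ)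
    (h0 : ∀ x, 0 ≤ (⟪K x, x⟫_ℂ).re) (h1 : ∀ x, (⟪K x, x⟫_ℂ).re ≤ ‖x‖ ^ 2) (y : F) :
    Antitone (fun n : ℕ => (⟪(K ^ n * (1 - K)) y, y⟫_ℂ).re) := by
  refine antitone_nat_of_succ_le fun n => ?_
  have h2 := pos_pow K hsa h0 h1 n 2 y
  have e1 : K ^ n * (1 - K) ^ 2 = K ^ n * (1 - K) - K ^ (n + 1) * (1 - K) := by
    rw [pow_succ K n]
    noncomm_ring
  rw [e1, sub_apply, inner_sub_left, Complex.sub_re] at h2
  linarith

theorem e1_2_sum (K : F →L[ℂ] F) (y : F) (n : ℕ) :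
    ∑ j ∈ Finset.range n, (⟪(K ^ j * (1 - K)) y, y⟫_ℂ).re =
      ‖y‖ ^ 2 - (⟪(K ^ n) y, y⟫_ℂ).re := by
  induction n with
  | zero =>
    rw [Finset.sum_range_zero, pow_zero]
    have h2 : (⟪y, y⟫_ℂ).re = ‖y‖ ^ 2 := inner_self_eq_norm_sq (𝕜 := ℂ) y
    change 0 = ‖y‖ ^ 2 - (⟪y, y⟫_ℂ).re
    rw [h2, sub_self]
  | succ n ih =>
    rw [Finset.sum_range_succ, ih]
    have e1 : K ^ n * (1 - K) = K ^ n - K ^ (n + 1) := by
      rw [pow_succ K n]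
      noncomm_ring
    rw [e1, sub_apply, inner_sub_left, Complex.sub_re]
    ring

theorem e1_2_pow_pos (K : F →L[ℂ] F) (hsa : ∀ x y, ⟪K x, y⟫_ℂ = ⟪x, K y⟫_ℂ)
    (h0 : ∀ x, 0 ≤ (⟪K x, x⟫_ℂ).re) (h1 : ∀ x, (⟪K x, x⟫_ℂ).re ≤ ‖x‖ ^ 2) (n : ℕ) (y : F) :
    0 ≤ (⟪(K ^ n) y, y⟫_ℂ).re := by
  have h2 := pos_pow K hsa h0 h1 n 0 y
  rwa [pow_zero, mul_one] at h2

theorem e1_2_pow_le (K : F →L[ℂ] F) (hsa : ∀ x y, ⟪K x, y⟫_ℂ = ⟪x, K y⟫_ℂ)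
    (h0 : ∀ x, 0 ≤ (⟪K x, x⟫_ℂ).re) (h1 : ∀ x, (⟪K x, x⟫_ℂ).re ≤ ‖x‖ ^ 2) (n : ℕ) (y : F) :
    (⟪(K ^ n) y, y⟫_ℂ).re ≤ ‖y‖ ^ 2 := by
  have h2 := e1_2_sum K y n
  have h3 : 0 ≤ ∑ j ∈ Finset.range n, (⟪(K ^ j * (1 - K)) y, y⟫_ℂ).re := by
    refine Finset.sum_nonneg fun j _ => ?_
    have h4 := pos_pow K hsa h0 h1 j 1 y
    rwa [pow_one] at h4
  linarith

theorem e1_2_sym (K : F →L[ℂ] F) (hsa : ∀ x y, ⟪K x, y⟫_ℂ = ⟪x, K y⟫_ℂ) (n : ℕ) (x y : F) :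
    ⟪(K ^ n) x, y⟫_ℂ = ⟪x, (K ^ n) y⟫_ℂ := by
  induction n generalizing x y with
  | zero => rfl
  | succ n ih =>
    have e1 : ∀ z, (K ^ (n + 1)) z = K ((K ^ n) z) := fun z => by
      rw [pow_succ']
      rfl
    have e2 : ∀ z, (K ^ (n + 1)) z = (K ^ n) (K z) := fun z => by
      rw [pow_succ]
      rfl
    rw [e1, e2, hsa, ih]

theorem e1_2_norm (K : F →L[ℂ] F) (hsa : ∀ x y, ⟪K x, y⟫_ℂ = ⟪x, K y⟫_ℂ) (n : ℕ) (x : F) :
    ‖(K ^ n) x‖ ^ 2 = (⟪(K ^ (2 * n)) x, x⟫_ℂ).re := by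
  have h2 : (⟪(K ^ n) x, (K ^ n) x⟫_ℂ).re = ‖(K ^ n) x‖ ^ 2 :=
    inner_self_eq_norm_sq (𝕜 := ℂ) _
  have e1 : (K ^ (2 * n)) x = (K ^ n) ((K ^ n) x) := by
    rw [two_mul, pow_add]
    rfl
  rw [← h2, e1, ← e1_2_sym K hsa]

theorem e1_2_contr (K : F →L[ℂ] F) (hsa : ∀ x y, ⟪K x, y⟫_ℂ = ⟪x, K y⟫_ℂ)
    (h0 : ∀ x, 0 ≤ (⟪K x, x⟫_ℂ).re) (h1 : ∀ x, (⟪K x, x⟫_ℂ).re ≤ ‖x‖ ^ 2) (n : ℕ) (x : F) :
    ‖(K ^ n) x‖ ≤ ‖x‖ := by
  have h2 := e1_2_pow_le K hsa h0 h1 (2 * n) x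
  rw [← e1_2_norm K hsa] at h2
  exact (sq_le_sq₀ (norm_nonneg _) (norm_nonneg _)).1 h2

/-- PROOF. Let `a n = re ⟪(K ^ n * (1 - K)) y, y⟫ ≥ 0` (`pos_pow`). It is antitone
(`a n - a (n+1) = re ⟪(K ^ n * (1 - K) ^ 2) y, y⟫ ≥ 0`) and
`∑ j ∈ range n, a j = re ⟪(1 - K ^ n) y, y⟫ ≤ ‖y‖ ^ 2` (telescoping, `re ⟪K ^ n y, y⟫ ≥ 0`), so
`n * a n ≤ ‖y‖ ^ 2`. Finally `‖(K ^ n * (1 - K)) y‖ ^ 2 = re ⟪(K ^ (2n) * (1 - K) ^ 2) y, y⟫
≤ re ⟪(K ^ (2n) * (1 - K)) y, y⟫ = a (2 n)` (the difference is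
`re ⟪(K ^ (2n+1) * (1 - K)) y, y⟫ ≥ 0`). -/
theorem pow_small (K : F →L[ℂ] F) (hsa : ∀ x y, ⟪K x, y⟫_ℂ = ⟪x, K y⟫_ℂ)
    (h0 : ∀ x, 0 ≤ (⟪K x, x⟫_ℂ).re) (h1 : ∀ x, (⟪K x, x⟫_ℂ).re ≤ ‖x‖ ^ 2) (y : F) :
    Tendsto (fun n : ℕ => (K ^ n) (y - K y)) atTop (𝓝 0) := by
  have hL : ∀ x y, ⟪(1 - K) x, y⟫_ℂ = ⟪x, (1 - K) y⟫_ℂ := by
    intro x y
    change ⟪x - K x, y⟫_ℂ = ⟪x, y - K y⟫_ℂ
    rw [inner_sub_left, inner_sub_right, hsa]
  have ha := e1_2_a K hsa h0 h1 y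
  have hapos : ∀ n : ℕ, 0 ≤ (⟪(K ^ n * (1 - K)) y, y⟫_ℂ).re := by
    intro n
    have h4 := pos_pow K hsa h0 h1 n 1 y
    rwa [pow_one] at h4
  have hbd : ∀ n : ℕ, n * (⟪(K ^ n * (1 - K)) y, y⟫_ℂ).re ≤ ‖y‖ ^ 2 := by
    intro n
    have h2 := e1_2_sum K y n
    have h3 := e1_2_pow_pos K hsa h0 h1 n y
    have h4 : n * (⟪(K ^ n * (1 - K)) y, y⟫_ℂ).re ≤
        ∑ j ∈ Finset.range n, (⟪(K ^ j * (1 - K)) y, y⟫_ℂ).re := by
      have h5 : ∑ _j ∈ Finset.range n, (⟪(K ^ n * (1 - K)) y, y⟫_ℂ).re ≤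
          ∑ j ∈ Finset.range n, (⟪(K ^ j * (1 - K)) y, y⟫_ℂ).re :=
        Finset.sum_le_sum fun j hj => ha (Finset.mem_range.1 hj).le
      rwa [Finset.sum_const, Finset.card_range, nsmul_eq_mul] at h5
    linarith
  have hcom : Commute K (1 - K) := (Commute.one_right K).sub_right (Commute.refl K)
  have hnorm : ∀ n : ℕ, ‖(K ^ n) (y - K y)‖ ^ 2 ≤ (⟪(K ^ n * (1 - K)) y, y⟫_ℂ).re := by
    intro n
    have e0 : (K ^ n) (y - K y) = (K ^ n * (1 - K)) y := rfl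
    have e1 : ‖(K ^ n) (y - K y)‖ ^ 2 = (⟪(K ^ (2 * n) * (1 - K) ^ (2 : ℕ)) y, y⟫_ℂ).re := by
      have h2 : (⟪(K ^ n * (1 - K)) y, (K ^ n * (1 - K)) y⟫_ℂ).re =
        ‖(K ^ n * (1 - K)) y‖ ^ 2 := inner_self_eq_norm_sq (𝕜 := ℂ) _
      rw [e0, ← h2]
      have e2 : K ^ (2 * n) * (1 - K) ^ 2 = (K ^ n * (1 - K)) * (K ^ n * (1 - K)) := by
        rw [two_mul, pow_add, pow_two, mul_assoc, mul_assoc, ← mul_assoc (1 - K),
          ← (hcom.pow_left n).eq, mul_assoc]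
      rw [e2]
      have e3 : ∀ z w, ⟪(K ^ n * (1 - K)) z, w⟫_ℂ = ⟪z, (K ^ n * (1 - K)) w⟫_ℂ := by
        intro z w
        have e4 : (K ^ n * (1 - K)) w = ((1 - K) * K ^ n) w := by
          rw [(hcom.pow_left n).eq]
        rw [e4]
        change ⟪(K ^ n) ((1 - K) z), w⟫_ℂ = ⟪z, (1 - K) ((K ^ n) w)⟫_ℂ
        rw [e1_2_sym K hsa, hL]
      change _ = (⟪(K ^ n * (1 - K)) ((K ^ n * (1 - K)) y), y⟫_ℂ).re
      rw [e3 ((K ^ n * (1 - K)) y) y]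
    rw [e1]
    have h5 := pos_pow K hsa h0 h1 (2 * n + 1) 1 y
    have e5 : K ^ (2 * n) * (1 - K) ^ 2 =
        K ^ (2 * n) * (1 - K) - K ^ (2 * n + 1) * (1 - K) ^ 1 := by
      rw [pow_succ K (2 * n)]
      noncomm_ring
    rw [e5, sub_apply, inner_sub_left, Complex.sub_re]
    have h6 := ha (show n ≤ 2 * n by omega)
    simp only at h6
    linarith
  have hlim : Tendsto (fun n : ℕ => ‖y‖ ^ 2 / (n : ℝ)) atTop (𝓝 0) :=
    tendsto_const_div_atTop_nhds_zero_nat _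
  have hsq : Tendsto (fun n : ℕ => ‖(K ^ n) (y - K y)‖ ^ 2) atTop (𝓝 0) := by
    refine tendsto_of_tendsto_of_tendsto_of_le_of_le' tendsto_const_nhds hlim
      (Eventually.of_forall fun n => by positivity) ?_
    filter_upwards [eventually_gt_atTop 0] with n hn
    have hn' : (0 : ℝ) < n := Nat.cast_pos.2 hn
    rw [le_div_iff₀ hn', mul_comm]
    exact (mul_le_mul_of_nonneg_left (hnorm n) hn'.le).trans (hbd n)
  rw [tendsto_zero_iff_norm_tendsto_zero]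
  have h7 := hsq.sqrt
  rw [Real.sqrt_zero] at h7
  refine h7.congr fun n => ?_
  rw [Real.sqrt_sq (norm_nonneg _)]

/-- PROOF: `K ^ n` are contractions: `‖K ^ n x‖ ^ 2 = re ⟪K ^ (2n) x, x⟫ ≤ ‖x‖ ^ 2` (`pos_pow`: the
sequence `re ⟪K ^ m x, x⟫` is antitone). So the convergence of `pow_small` passes to the closure of
the range of `1 - K`. -/
theorem pow_small_closure (K : F →L[ℂ] F) (hsa : ∀ x y, ⟪K x, y⟫_ℂ = ⟪x, K y⟫_ℂ)
    (h0 : ∀ x, 0 ≤ (⟪K x, x⟫_ℂ).re) (h1 : ∀ x, (⟪K x, x⟫_ℂ).re ≤ ‖x‖ ^ 2) (y : F)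
    (hy : y ∈ closure (Set.range fun x : F => x - K x)) :
    Tendsto (fun n : ℕ => (K ^ n) y) atTop (𝓝 0) := by
  rw [Metric.tendsto_atTop]
  intro ε hε
  obtain ⟨_, ⟨z, rfl⟩, hz⟩ := Metric.mem_closure_iff.1 hy (ε / 2) (half_pos hε)
  obtain ⟨N, hN⟩ := Metric.tendsto_atTop.1 (pow_small K hsa h0 h1 z) (ε / 2) (half_pos hε)
  refine ⟨N, fun n hn => ?_⟩
  have h2 := hN n hn
  rw [dist_zero_right] at h2 ⊢
  rw [dist_eq_norm] at hz
  have h3 : (K ^ n) y = (K ^ n) (y - (z - K z)) + (K ^ n) (z - K z) := by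
    rw [← map_add, sub_add_cancel]
  rw [h3]
  have h4 := e1_2_contr K hsa h0 h1 n (y - (z - K z))
  have h5 := norm_add_le ((K ^ n) (y - (z - K z))) ((K ^ n) (z - K z))
  linarith

end Pool.Agent.COST

end

section

open scoped ENNReal InnerProductSpace
open Filter Topology

namespace Pool.Agent.COST

variable {E F : Type} [NormedAddCommGroup E] [InnerProductSpace ℂ E] [CompleteSpace E]
  [NormedAddCommGroup F] [InnerProductSpace ℂ F] [CompleteSpace F]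

/-- polynomial approximation of the range projection -/
noncomputable def pk (c : ℝ) (n : ℕ) (A : F →L[ℂ] F) : F →L[ℂ] F := 1 - (1 - (c : ℂ) • A) ^ n

/-- the factor: `T ∘ bk = pk (T T*)`, `bk ∘ T = pk (T* T)` -/
noncomputable def bk (c : ℝ) (n : ℕ) (T : E →L[ℂ] F) : F →L[ℂ] E :=
  ((c : ℂ) • ∑ j ∈ Finset.range n, (1 - (c : ℂ) • (T.adjoint ∘L T)) ^ j) ∘L T.adjoint

theorem e1_3_pow (c : ℝ) (T : E →L[ℂ] F) (j : ℕ) :
    T ∘L (1 - (c : ℂ) • (T.adjoint ∘L T)) ^ j =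
      ((1 - (c : ℂ) • (T ∘L T.adjoint)) ^ j) ∘L T := by
  induction j with
  | zero =>
    ext x
    simp
  | succ j ih =>
    ext x
    have h1 : ∀ z, T (((1 - (c : ℂ) • (T.adjoint ∘L T)) ^ j) z) =
        ((1 - (c : ℂ) • (T ∘L T.adjoint)) ^ j) (T z) := fun z =>
      congrArg (fun A : E →L[ℂ] F => A z) ih
    rw [pow_succ, pow_succ]
    change T (((1 - (c : ℂ) • (T.adjoint ∘L T)) ^ j) ((1 - (c : ℂ) • (T.adjoint ∘L T)) x)) =
      ((1 - (c : ℂ) • (T ∘L T.adjoint)) ^ j) ((1 - (c : ℂ) • (T ∘L T.adjoint)) (T x))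
    rw [h1]
    congr 1
    change T (x - (c : ℂ) • T.adjoint (T x)) = T x - (c : ℂ) • T (T.adjoint (T x))
    rw [map_sub, map_smul]

/-- PROOF: `T (1 - c T* T) ^ j = (1 - c T T*) ^ j T` by induction, and the geometric sum
`1 - X ^ n = (∑ j ∈ range n, X ^ j) * (1 - X)` with `X = 1 - c T T*`. -/
theorem comp_bk (c : ℝ) (n : ℕ) (T : E →L[ℂ] F) :
    T ∘L bk c n T = pk c n (T ∘L T.adjoint) := by
  have h1 := geom_sum_mul_neg (1 - (c : ℂ) • (T ∘L T.adjoint)) n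
  rw [sub_sub_cancel] at h1
  unfold pk bk
  rw [← h1]
  ext x
  change T ((c : ℂ) • (∑ j ∈ Finset.range n, (1 - (c : ℂ) • (T.adjoint ∘L T)) ^ j)
      (T.adjoint x)) = (∑ j ∈ Finset.range n, (1 - (c : ℂ) • (T ∘L T.adjoint)) ^ j)
      ((c : ℂ) • T (T.adjoint x))
  rw [map_smul, map_smul, sum_apply, sum_apply, map_sum]
  congr 1
  refine Finset.sum_congr rfl fun j _ => ?_
  exact congrArg (fun A : E →L[ℂ] F => A (T.adjoint x)) (e1_3_pow c T j)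

/-- PROOF: geometric sum with `X = 1 - c T* T`. -/
theorem bk_comp (c : ℝ) (n : ℕ) (T : E →L[ℂ] F) :
    bk c n T ∘L T = pk c n (T.adjoint ∘L T) := by
  have h1 := geom_sum_mul_neg (1 - (c : ℂ) • (T.adjoint ∘L T)) n
  rw [sub_sub_cancel] at h1
  unfold pk bk
  rw [← h1]
  ext x
  change (c : ℂ) • (∑ j ∈ Finset.range n, (1 - (c : ℂ) • (T.adjoint ∘L T)) ^ j)
      (T.adjoint (T x)) = (∑ j ∈ Finset.range n, (1 - (c : ℂ) • (T.adjoint ∘L T)) ^ j)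
      ((c : ℂ) • T.adjoint (T x))
  rw [map_smul]

end Pool.Agent.COST

end

section

open scoped ENNReal InnerProductSpace
open Filter Topology

namespace Pool.Agent.COST

variable {E F : Type} [NormedAddCommGroup E] [InnerProductSpace ℂ E] [CompleteSpace E]
  [NormedAddCommGroup F] [InnerProductSpace ℂ F] [CompleteSpace F]

/-- the hypotheses of `pos_pow` for `1 - c T T*` -/
theorem e1_4_K (T : E →L[ℂ] F) (c : ℝ) (hc : 0 < c) (hT : c * ‖T‖ ^ 2 ≤ 1) :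
    (∀ x y, ⟪(1 - (c : ℂ) • (T ∘L T.adjoint)) x, y⟫_ℂ =
      ⟪x, (1 - (c : ℂ) • (T ∘L T.adjoint)) y⟫_ℂ) ∧
    (∀ x, 0 ≤ (⟪(1 - (c : ℂ) • (T ∘L T.adjoint)) x, x⟫_ℂ).re) ∧
    (∀ x, (⟪(1 - (c : ℂ) • (T ∘L T.adjoint)) x, x⟫_ℂ).re ≤ ‖x‖ ^ 2) := by
  have hval : ∀ x, (⟪(1 - (c : ℂ) • (T ∘L T.adjoint)) x, x⟫_ℂ).re =
      ‖x‖ ^ 2 - c * ‖T.adjoint x‖ ^ 2 := by
    intro x
    change (⟪x - (c : ℂ) • T (T.adjoint x), x⟫_ℂ).re = _
    have h2 : (⟪x, x⟫_ℂ).re = ‖x‖ ^ 2 := inner_self_eq_norm_sq (𝕜 := ℂ) x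
    have h3 : (⟪T.adjoint x, T.adjoint x⟫_ℂ).re = ‖T.adjoint x‖ ^ 2 :=
      inner_self_eq_norm_sq (𝕜 := ℂ) _
    rw [inner_sub_left, Complex.sub_re, h2, inner_smul_left, Complex.conj_ofReal,
      Complex.re_ofReal_mul, ← ContinuousLinearMap.adjoint_inner_right, h3]
  refine ⟨?_, ?_, ?_⟩
  · intro x y
    change ⟪x - (c : ℂ) • T (T.adjoint x), y⟫_ℂ = ⟪x, y - (c : ℂ) • T (T.adjoint y)⟫_ℂ
    have e1 := ContinuousLinearMap.adjoint_inner_right T (T.adjoint x) y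
    have e2 := ContinuousLinearMap.adjoint_inner_left T (T.adjoint y) x
    rw [inner_sub_left, inner_sub_right, inner_smul_left, inner_smul_right, Complex.conj_ofReal,
      ← e1, ← e2]
  · intro x
    rw [hval]
    have h4 : ‖T.adjoint x‖ ≤ ‖T‖ * ‖x‖ := by
      have h5 := T.adjoint.le_opNorm x
      rwa [LinearIsometryEquiv.norm_map] at h5
    have h5 : ‖T.adjoint x‖ ^ 2 ≤ ‖T‖ ^ 2 * ‖x‖ ^ 2 := by
      rw [← mul_pow]
      exact pow_le_pow_left₀ (norm_nonneg _) h4 2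
    have h6 : c * ‖T.adjoint x‖ ^ 2 ≤ c * (‖T‖ ^ 2 * ‖x‖ ^ 2) :=
      mul_le_mul_of_nonneg_left h5 hc.le
    have h7 : (c * ‖T‖ ^ 2) * ‖x‖ ^ 2 ≤ 1 * ‖x‖ ^ 2 :=
      mul_le_mul_of_nonneg_right hT (by positivity)
    nlinarith
  · intro x
    rw [hval]
    have : 0 ≤ c * ‖T.adjoint x‖ ^ 2 := by positivity
    linarith

theorem e1_4_val (K : F →L[ℂ] F) (x : F) (n : ℕ) :
    (⟪x, ((1 : F →L[ℂ] F) - K ^ n) x⟫_ℂ).re = ‖x‖ ^ 2 - (⟪x, (K ^ n) x⟫_ℂ).re := by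
  change (⟪x, x - (K ^ n) x⟫_ℂ).re = _
  have h2 : (⟪x, x⟫_ℂ).re = ‖x‖ ^ 2 := inner_self_eq_norm_sq (𝕜 := ℂ) x
  rw [inner_sub_right, Complex.sub_re, h2]

/-- PROOF. `K = 1 - c A` satisfies the hypotheses of `pos_pow`: `A = T T*` is self-adjoint,
`re ⟪A x, x⟫ = ‖T* x‖ ^ 2 ≤ ‖T‖ ^ 2 * ‖x‖ ^ 2`. Let `P` be the projection onto the closure of
`V`, `x = P x + (x - P x)`. Let `R` be the closure of the range of `T`; `R` is the closure of the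
range of `c A = 1 - K` (its orthogonal complement is `ker A = ker T*`). Write `x = y + y'` with
`y = P_R x`, `y' ∈ ker T*`: `K ^ n x = K ^ n y + y'` and `K ^ n y → 0`
(`pow_small_closure`). So `⟪x, pk x⟫ → ⟪x, y⟫ = ‖P_R x‖ ^ 2 ≥ ‖P x‖ ^ 2` because `V ≤ R`. -/
theorem op_lower (T : E →L[ℂ] F) (c : ℝ) (hc : 0 < c) (hT : c * ‖T‖ ^ 2 ≤ 1)
    (V : Submodule ℂ F) (hV : ∀ v ∈ V, v ∈ closure (Set.range T)) (x : F) (η : ℝ) (hη : 0 < η) :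
    ∀ᶠ n : ℕ in atTop, ‖V.topologicalClosure.starProjection x‖ ^ 2 - η ≤
      (⟪x, pk c n (T ∘L T.adjoint) x⟫_ℂ).re := by
  obtain ⟨hsa, h0, h1⟩ := e1_4_K T c hc hT
  set K : F →L[ℂ] F := 1 - (c : ℂ) • (T ∘L T.adjoint) with hK
  have hc0 : (c : ℂ) ≠ 0 := by
    rw [Ne, Complex.ofReal_eq_zero]
    exact hc.ne'
  set R : Submodule ℂ F := (T ∘L T.adjoint : F →L[ℂ] F).range.topologicalClosure with hR
  have hRc : IsClosed (R : Set F) := Submodule.isClosed_topologicalClosure _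
  have hRcomp : CompleteSpace R := hRc.completeSpace_coe
  -- the complement of `R` is killed by the adjoint
  have hker : ∀ z ∈ Rᗮ, T.adjoint z = 0 := by
    intro z hz
    have h2 : T (T.adjoint z) ∈ R := Submodule.le_topologicalClosure _ ⟨z, rfl⟩
    have h3 : ⟪T (T.adjoint z), z⟫_ℂ = 0 := (Submodule.mem_orthogonal _ _).1 hz _ h2
    rw [← ContinuousLinearMap.adjoint_inner_right] at h3
    exact inner_self_eq_zero.1 h3
  have hTR : ∀ e, T e ∈ R := by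
    intro e
    have h2 : R = Rᗮᗮ := (Submodule.orthogonal_orthogonal R).symm
    rw [h2, Submodule.mem_orthogonal]
    intro z hz
    rw [← ContinuousLinearMap.adjoint_inner_left, hker z hz, inner_zero_left]
  have hVR : V.topologicalClosure ≤ R := by
    refine Submodule.topologicalClosure_minimal _ ?_ hRc
    intro v hv
    have h2 : closure (Set.range T) ⊆ (R : Set F) := by
      refine closure_minimal ?_ hRc
      rintro _ ⟨e, rfl⟩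
      exact hTR e
    exact h2 (hV v hv)
  set y : F := R.starProjection x with hy
  have hyR : y ∈ R := Submodule.starProjection_apply_mem R x
  have hy' : x - y ∈ Rᗮ := Submodule.sub_starProjection_mem_orthogonal x
  have hcl : y ∈ closure (Set.range fun z : F => z - K z) := by
    have h2 : y ∈ closure ((T ∘L T.adjoint : F →L[ℂ] F).range : Set F) := hyR
    refine closure_mono ?_ h2
    rintro _ ⟨z, rfl⟩
    refine ⟨(c : ℂ)⁻¹ • z, ?_⟩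
    change (c : ℂ)⁻¹ • z - ((c : ℂ)⁻¹ • z - (c : ℂ) • T (T.adjoint ((c : ℂ)⁻¹ • z))) =
      T (T.adjoint z)
    rw [sub_sub_cancel, map_smul, map_smul, smul_smul, mul_inv_cancel₀ hc0, one_smul]
  have hlim := pow_small_closure K hsa h0 h1 y hcl
  have hfix : ∀ n : ℕ, (K ^ n) (x - y) = x - y := by
    have h2 : K (x - y) = x - y := by
      change (x - y) - (c : ℂ) • T (T.adjoint (x - y)) = x - y
      rw [hker _ hy', map_zero, smul_zero, sub_zero]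
    intro n
    induction n with
    | zero => rfl
    | succ n ih =>
      rw [pow_succ]
      change (K ^ n) (K (x - y)) = x - y
      rw [h2, ih]
  have hnormP : ‖V.topologicalClosure.starProjection x‖ ≤ ‖y‖ := by
    have h2 : V.topologicalClosure.starProjection x =
        V.topologicalClosure.starProjection y := by
      have h3 := Submodule.starProjection_comp_starProjection_of_le hVR
      exact (congrArg (fun A : F →L[ℂ] F => A x) h3).symm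
    rw [h2]
    exact Submodule.norm_starProjection_apply_le _ _
  have hinn : (⟪x, y⟫_ℂ).re = ‖y‖ ^ 2 := by
    have h2 : ⟪x - y, y⟫_ℂ = 0 := by
      rw [← inner_conj_symm, (Submodule.mem_orthogonal _ _).1 hy' y hyR, map_zero]
    have h3 : ⟪x, y⟫_ℂ = ⟪y, y⟫_ℂ := by
      rw [inner_sub_left, sub_eq_zero] at h2
      exact h2
    rw [h3]
    exact inner_self_eq_norm_sq (𝕜 := ℂ) y
  have hval : ∀ n : ℕ, (⟪x, pk c n (T ∘L T.adjoint) x⟫_ℂ).re =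
      ‖y‖ ^ 2 - (⟪x, (K ^ n) y⟫_ℂ).re := by
    intro n
    have h2 : pk c n (T ∘L T.adjoint) x = y - (K ^ n) y := by
      change x - (K ^ n) x = y - (K ^ n) y
      have h3 : (K ^ n) x = (K ^ n) y + (K ^ n) (x - y) := by
        rw [← map_add, add_sub_cancel]
      rw [h3, hfix n]
      abel
    rw [h2, inner_sub_right, Complex.sub_re, hinn]
  have hlim2 : Tendsto (fun n : ℕ => (⟪x, (K ^ n) y⟫_ℂ).re) atTop (𝓝 0) := by
    have h2 : Tendsto (fun n : ℕ => ⟪x, (K ^ n) y⟫_ℂ) atTop (𝓝 ⟪x, 0⟫_ℂ) :=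
      Tendsto.inner tendsto_const_nhds hlim
    rw [inner_zero_right] at h2
    have h3 := (Complex.continuous_re.tendsto 0).comp h2
    rw [Complex.zero_re] at h3
    exact h3
  filter_upwards [hlim2.eventually_lt_const hη] with n hn
  rw [hval]
  have h2 : ‖V.topologicalClosure.starProjection x‖ ^ 2 ≤ ‖y‖ ^ 2 :=
    pow_le_pow_left₀ (norm_nonneg _) hnormP 2
  linarith

end Pool.Agent.COST

end

section

open scoped ENNReal InnerProductSpace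
open Filter Topology

namespace Pool.Agent.COST

variable {E F : Type} [NormedAddCommGroup E] [InnerProductSpace ℂ E] [CompleteSpace E]
  [NormedAddCommGroup F] [InnerProductSpace ℂ F] [CompleteSpace F]

/-- PROOF: `K = 1 - c A` as in `op_lower`; `0 ≤ re ⟪K ^ n x, x⟫ ≤ ‖x‖ ^ 2` (`pos_pow`, antitone
in `n`). Apply the statement for `T` also to its adjoint. -/
theorem op_bounds (T : E →L[ℂ] F) (c : ℝ) (hc : 0 < c) (hT : c * ‖T‖ ^ 2 ≤ 1) (n : ℕ) (x : F) :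
    0 ≤ (⟪x, pk c n (T ∘L T.adjoint) x⟫_ℂ).re ∧
      (⟪x, pk c n (T ∘L T.adjoint) x⟫_ℂ).re ≤ ‖x‖ ^ 2 := by
  obtain ⟨hsa, h0, h1⟩ := e1_4_K T c hc hT
  have h2 := e1_4_val (1 - (c : ℂ) • (T ∘L T.adjoint)) x n
  have h3 := e1_2_pow_pos _ hsa h0 h1 n x
  have h4 := e1_2_pow_le _ hsa h0 h1 n x
  rw [e1_2_sym _ hsa] at h3 h4
  have h5 : (⟪x, pk c n (T ∘L T.adjoint) x⟫_ℂ).re =
      ‖x‖ ^ 2 - (⟪x, ((1 - (c : ℂ) • (T ∘L T.adjoint)) ^ n) x⟫_ℂ).re := h2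
  rw [h5]
  constructor <;> linarith

theorem op_bounds' (T : E →L[ℂ] F) (c : ℝ) (hc : 0 < c) (hT : c * ‖T‖ ^ 2 ≤ 1) (n : ℕ) (x : E) :
    0 ≤ (⟪x, pk c n (T.adjoint ∘L T) x⟫_ℂ).re ∧
      (⟪x, pk c n (T.adjoint ∘L T) x⟫_ℂ).re ≤ ‖x‖ ^ 2 := by
  have h1 := op_bounds T.adjoint c hc (by rwa [LinearIsometryEquiv.norm_map]) n x
  rw [ContinuousLinearMap.adjoint_adjoint] at h1
  exact h1

/-- PROOF: `(1 - c T* T) x = x`. -/
theorem op_kernel (T : E →L[ℂ] F) (c : ℝ) (n : ℕ) (x : E) (hx : T x = 0) :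
    pk c n (T.adjoint ∘L T) x = 0 := by
  have h2 : ∀ n : ℕ, ((1 - (c : ℂ) • (T.adjoint ∘L T)) ^ n) x = x := by
    have h3 : (1 - (c : ℂ) • (T.adjoint ∘L T)) x = x := by
      change x - (c : ℂ) • T.adjoint (T x) = x
      rw [hx, map_zero, smul_zero, sub_zero]
    intro n
    induction n with
    | zero => rfl
    | succ n ih =>
      rw [pow_succ]
      change ((1 - (c : ℂ) • (T.adjoint ∘L T)) ^ n) ((1 - (c : ℂ) • (T.adjoint ∘L T)) x) = x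
      rw [h3, ih]
  change x - ((1 - (c : ℂ) • (T.adjoint ∘L T)) ^ n) x = 0
  rw [h2, sub_self]

end Pool.Agent.COST

end
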