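import Pool.Agent.COST.E0

section

open scoped ENNReal InnerProductSpace

namespace Pool.Agent.COST

theorem e2_1_sum {Ω Ω' : Type} (p : Ω' → Option Ω)
    (hp : ∀ a b ω, p a = some ω → p b = some ω → a = b) (f : L2 Ω) (s : Finset Ω') :
    ∑ i ∈ s, ‖(p i).elim (0 : ℂ) f‖ ^ (2 : ℝ≥0∞).toReal ≤ ‖f‖ ^ (2 : ℝ≥0∞).toReal := by
  classical
  have h2 : ∀ i, ‖(p i).elim (0 : ℂ) f‖ ^ (2 : ℝ≥0∞).toReal =
      ∑ ω ∈ (p i).toFinset, ‖f ω‖ ^ (2 : ℝ≥0∞).toReal := by
    intro i
    cases h : p i with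
    | none => simp
    | some ω => simp
  rw [Finset.sum_congr rfl fun i _ => h2 i, ← Finset.sum_biUnion]
  · exact lp.sum_rpow_le_norm_rpow (by norm_num) f _
  · intro a _ b _ hab
    rw [Function.onFun, Finset.disjoint_left]
    intro ω h3 h4
    rw [Option.mem_toFinset, Option.mem_def] at h3 h4
    exact hab (hp a b ω h3 h4)

theorem e2_1_mem {Ω Ω' : Type} (p : Ω' → Option Ω)
    (hp : ∀ a b ω, p a = some ω → p b = some ω → a = b) (f : L2 Ω) :
    Memℓp (fun i => (p i).elim (0 : ℂ) f) 2 :=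
  memℓp_gen' (e2_1_sum p hp f)

/-- Operator of a part of an injective map. PROOF: for `f ∈ L2 Ω` the function
`ω' ↦ (p ω').elim 0 f` is square summable: the sum over `{ω' | p ω' ≠ none}` is by injectivity a
part of the sum `∑ ‖f ω‖ ^ 2`
(`Summable.comp_injective`, `tsum` comparison); so it defines a linear map of norm `≤ 1`
(`LinearMap.mkContinuous`, `lp.norm_rpow_eq_tsum`). -/
theorem pre_op {Ω Ω' : Type} (p : Ω' → Option Ω)
    (hp : ∀ a b ω, p a = some ω → p b = some ω → a = b) :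
    ∃ R : L2 Ω →L[ℂ] L2 Ω', ‖R‖ ≤ 1 ∧ ∀ (f : L2 Ω) (ω' : Ω'), R f ω' = (p ω').elim 0 f := by
  have hadd : ∀ (f g : L2 Ω) (i : Ω'), (p i).elim (0 : ℂ) (f + g : L2 Ω) =
      (p i).elim (0 : ℂ) f + (p i).elim (0 : ℂ) g := by
    intro f g i
    cases p i with
    | none => simp
    | some ω => simp
  have hsmul : ∀ (c : ℂ) (f : L2 Ω) (i : Ω'), (p i).elim (0 : ℂ) (c • f : L2 Ω) =
      c * (p i).elim (0 : ℂ) f := by
    intro c f i
    cases p i with
    | none => simp
    | some ω => simp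
  let R : L2 Ω →ₗ[ℂ] L2 Ω' :=
    { toFun := fun f => ⟨fun i => (p i).elim (0 : ℂ) f, e2_1_mem p hp f⟩
      map_add' := fun f g => L2.ext fun i => hadd f g i
      map_smul' := fun c f => L2.ext fun i => hsmul c f i }
  have hR : ∀ f, ‖R f‖ ≤ 1 * ‖f‖ := by
    intro f
    rw [one_mul]
    exact lp.norm_le_of_forall_sum_le (by norm_num) (norm_nonneg _) (e2_1_sum p hp f)
  exact ⟨R.mkContinuous 1 hR, R.mkContinuous_norm_le zero_le_one hR, fun f i => rfl⟩

end Pool.Agent.COST

end

section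

open scoped ENNReal InnerProductSpace

namespace Pool.Agent.COST

open Classical in
/-- The operator with given values on the basis vectors. PROOF. For `s : S` and `(k, i)` in the
support of `ξ s` let `R` be the operator of `pre_op` for the map
`(h, i') ↦ if i' = i ∧ h * k⁻¹ ∈ A s then some (h * k⁻¹, s) else none`; it maps `dl (g, s')` to
`dl (g * k, i)` if `s' = s` and `g ∈ A s` and to `0` otherwise. Take
`T = ∑ s, ∑ (k, i) ∈ supp (ξ s), ξ s (k, i) • R`, `C = ∑ s, ∑ (k, i), ‖ξ s (k, i)‖`. -/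
theorem gen_op {H I S : Type} [Group H] [Fintype S] (ξ : S → H × I →₀ ℂ) :
    ∃ C : ℝ, 0 ≤ C ∧ ∀ A : S → Set H, ∃ T : L2 (H × S) →L[ℂ] L2 (H × I), ‖T‖ ≤ C ∧
      ∀ g s, T (dl (g, s)) = if g ∈ A s then tr g (toL2 (ξ s)) else 0 := by
  have hinj : ∀ (A : S → Set H) (s : S) (q : H × I) (a b : H × I) (ω : H × S),
      (if a.2 = q.2 ∧ a.1 * q.1⁻¹ ∈ A s then some (a.1 * q.1⁻¹, s) else none) = some ω →
      (if b.2 = q.2 ∧ b.1 * q.1⁻¹ ∈ A s then some (b.1 * q.1⁻¹, s) else none) = some ω →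
      a = b := by
    intro A s q a b ω h1 h2
    split_ifs at h1 h2 with h3 h4
    rw [Option.some.injEq] at h1 h2
    have h5 := congrArg Prod.fst (h1.trans h2.symm)
    exact Prod.ext (mul_right_cancel h5) (h3.1.trans h4.1.symm)
  refine ⟨∑ s, ∑ q ∈ (ξ s).support, ‖ξ s q‖, Finset.sum_nonneg fun s _ =>
    Finset.sum_nonneg fun q _ => norm_nonneg _, fun A => ?_⟩
  have hex := fun (s : S) (q : H × I) => pre_op
    (fun a : H × I => if a.2 = q.2 ∧ a.1 * q.1⁻¹ ∈ A s then some (a.1 * q.1⁻¹, s) else none)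
    (hinj A s q)
  choose R hR1 hR2 using hex
  refine ⟨∑ s, ∑ q ∈ (ξ s).support, ξ s q • R s q, ?_, ?_⟩
  · refine (norm_sum_le _ _).trans (Finset.sum_le_sum fun s _ => ?_)
    refine (norm_sum_le _ _).trans (Finset.sum_le_sum fun q _ => ?_)
    rw [norm_smul]
    exact mul_le_of_le_one_right (norm_nonneg _) (hR1 s q)
  · intro g s'
    apply L2.ext
    rintro ⟨h, i⟩
    have hRv : ∀ s q, R s q (dl (g, s')) (h, i) =
        if s = s' ∧ g ∈ A s' ∧ q = (g⁻¹ * h, i) then (1 : ℂ) else 0 := by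
      intro s q
      rw [hR2]
      by_cases hc : i = q.2 ∧ h * q.1⁻¹ ∈ A s
      · rw [if_pos hc, Option.elim_some]
        by_cases hd : ((h * q.1⁻¹, s) : H × S) = (g, s')
        · have h1 : h * q.1⁻¹ = g := congrArg Prod.fst hd
          have h2 : s = s' := congrArg Prod.snd hd
          rw [hd, dl_self, if_pos]
          refine ⟨h2, ?_, ?_⟩
          · rw [← h1, ← h2]
            exact hc.2
          · refine Prod.ext ?_ hc.1.symm
            rw [← h1]
            simp
        · rw [dl_ne hd, if_neg]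
          rintro ⟨h1, h2, h3⟩
          apply hd
          rw [h1, h3]
          simp
      · rw [if_neg hc, Option.elim_none, if_neg]
        rintro ⟨h1, h2, h3⟩
        apply hc
        rw [h1, h3]
        simpa using h2
    have hsum : (∑ s, ∑ q ∈ (ξ s).support, ξ s q • R s q) (dl (g, s')) (h, i) =
        ∑ s, ∑ q ∈ (ξ s).support, ξ s q *
          (if s = s' ∧ g ∈ A s' ∧ q = (g⁻¹ * h, i) then (1 : ℂ) else 0) := by
      rw [sum_apply, lp.coeFn_sum, Finset.sum_apply]
      refine Finset.sum_congr rfl fun s _ => ?_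
      rw [sum_apply, lp.coeFn_sum, Finset.sum_apply]
      refine Finset.sum_congr rfl fun q _ => ?_
      rw [← hRv s q]
      rfl
    rw [hsum, Finset.sum_eq_single s']
    · by_cases hg : g ∈ A s'
      · rw [if_pos hg, tr_toL2]
        by_cases hm : (g⁻¹ * h, i) ∈ (ξ s').support
        · rw [Finset.sum_eq_single (g⁻¹ * h, i), if_pos ⟨rfl, hg, rfl⟩, mul_one]
          · intro q _ hq
            rw [if_neg (fun h3 => hq h3.2.2), mul_zero]
          · intro h3
            exact absurd hm h3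
        · rw [Finset.sum_eq_zero, Finsupp.notMem_support_iff.1 hm]
          intro q hq
          rw [if_neg, mul_zero]
          rintro ⟨_, _, h3⟩
          exact hm (h3 ▸ hq)
      · rw [if_neg hg, Finset.sum_eq_zero]
        · rfl
        · intro q _
          rw [if_neg (fun h3 => hg h3.2.1), mul_zero]
    · intro s _ hs
      refine Finset.sum_eq_zero fun q _ => ?_
      rw [if_neg (fun h3 => hs h3.1), mul_zero]
    · intro h3
      exact absurd (Finset.mem_univ _) h3

end Pool.Agent.COST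

end
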