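import Pool.Agent.COST.Coind

open MeasureTheory Set
open scoped ENNReal

namespace Pool.Agent.COST

/-- Bernoulli shift over the unit interval -/
noncomputable def PMP.shift (G : Type) [Group G] [Countable G] : PMP G where
  X := G → unitInterval
  ms := inferInstance
  sb := inferInstance
  act :=
    { smul := fun g x => fun c => x (g⁻¹ * c)
      one_smul := fun x => by
        funext c
        change x ((1 : G)⁻¹ * c) = x c
        simp
      mul_smul := fun g h x => by
        funext c
        change x ((g * h)⁻¹ * c) = x (h⁻¹ * (g⁻¹ * c))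
        rw [mul_inv_rev, mul_assoc] }
  μ := Measure.infinitePi fun _ => volume
  prob := inferInstance
  mp := fun g => shift_mp G unitInterval volume g

theorem PMP.shift_free (G : Type) [Group G] [Countable G] :
    ∀ᵐ x ∂(PMP.shift G).μ, ∀ g : G, g • x = x → g = 1 := by
  rw [ae_all_iff]
  intro g
  by_cases hg : g = 1
  · exact Filter.Eventually.of_forall fun x _ => hg
  have hne : (1 : G) ≠ g⁻¹ := fun h => hg (by simpa using h.symm)
  have hmap := Measure.infinitePi_map_eval_prod (P := fun _ : G => (volume : Measure unitInterval)) hne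
  have hdiag : ((volume : Measure unitInterval).prod volume) {p | p.1 = p.2} = 0 := by
    have hm : MeasurableSet {p : unitInterval × unitInterval | p.1 = p.2} := measurableSet_diagonal
    rw [Measure.measure_prod_null hm]
    refine Filter.Eventually.of_forall fun x => ?_
    have : Prod.mk x ⁻¹' {p : unitInterval × unitInterval | p.1 = p.2} = {x} := by
      ext y
      simp [eq_comm]
    change volume (Prod.mk x ⁻¹' {p : unitInterval × unitInterval | p.1 = p.2}) = 0
    rw [this]
    exact measure_singleton x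
  have hm : MeasurableSet {p : unitInterval × unitInterval | p.1 = p.2} := measurableSet_diagonal
  rw [← hmap, Measure.map_apply (by fun_prop) hm] at hdiag
  have h2 : ∀ᵐ x ∂(PMP.shift G).μ, x ∉ ((fun ω : G → unitInterval => (ω 1, ω g⁻¹)) ⁻¹' {p | p.1 = p.2}) := by
    exact measure_eq_zero_iff_ae_notMem.mp hdiag
  filter_upwards [h2] with x hx hgx
  exfalso
  apply hx
  change x 1 = x g⁻¹
  have h3 : (g • x) 1 = x 1 := by rw [hgx]
  change x (g⁻¹ * 1) = x 1 at h3
  rw [mul_one] at h3
  exact h3.symm

/-- equivariant measure preserving maps -/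
structure PMP.Fac {G : Type} [Group G] (X Y : PMP G) where
  /-- the map -/
  f : X.X → Y.X
  mp : MeasurePreserving f X.μ Y.μ
  eqv : ∀ (g : G) (x : X.X), f (g • x) = g • f x

/-- a product with the shift is essentially free -/
noncomputable def PMP.toStd {G : Type} [Group G] [Countable G] (Y : PMP G) : StdAction G where
  toPMP := PMP.prod Y (PMP.shift G)
  free := by
    have hq : Measure.QuasiMeasurePreserving (Prod.snd : Y.X × (PMP.shift G).X → (PMP.shift G).X)
        (Y.μ.prod (PMP.shift G).μ) (PMP.shift G).μ := Measure.quasiMeasurePreserving_snd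
    have h := hq.ae (PMP.shift_free G)
    have h' : ∀ᵐ x ∂(PMP.prod Y (PMP.shift G)).μ, ∀ g : G, g • x.2 = x.2 → g = 1 := h
    filter_upwards [h'] with x hx g hg
    exact hx g (congrArg Prod.snd hg)

theorem PMP.toStd_fac {G : Type} [Group G] [Countable G] (Y : PMP G) :
    Nonempty (PMP.Fac Y.toStd.toPMP Y) :=
  ⟨⟨Prod.fst, measurePreserving_fst, fun _ _ => rfl⟩⟩

/-- first projection -/
def PMP.p1 {G : Type} [Group G] (Y Z : PMP G) : (PMP.prod Y Z).X → Y.X := Prod.fst

/-- second projection -/
def PMP.p2 {G : Type} [Group G] (Y Z : PMP G) : (PMP.prod Y Z).X → Z.X := Prod.snd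

theorem PMP.p1_mp {G : Type} [Group G] (Y Z : PMP G) :
    MeasurePreserving (PMP.p1 Y Z) (PMP.prod Y Z).μ Y.μ := measurePreserving_fst

theorem PMP.p2_mp {G : Type} [Group G] (Y Z : PMP G) :
    MeasurePreserving (PMP.p2 Y Z) (PMP.prod Y Z).μ Z.μ := measurePreserving_snd

theorem PMP.prod_fac_left {G : Type} [Group G] (Y Z : PMP G) : Nonempty (PMP.Fac (PMP.prod Y Z) Y) :=
  ⟨⟨Prod.fst, measurePreserving_fst, fun _ _ => rfl⟩⟩

theorem PMP.prod_fac_right {G : Type} [Group G] (Y Z : PMP G) : Nonempty (PMP.Fac (PMP.prod Y Z) Z) :=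
  ⟨⟨Prod.snd, measurePreserving_snd, fun _ _ => rfl⟩⟩

end Pool.Agent.COST
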