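import Pool.Agent.COST.E1
import Pool.Agent.COST.E2
import Pool.Agent.COST.Free

section

open scoped ENNReal InnerProductSpace
open MeasureTheory

namespace Pool.Agent.COST

/-- all entries are measurable -/
def EM {X Ω Ω' : Type} [MeasurableSpace X] (A : X → (L2 Ω →L[ℂ] L2 Ω')) : Prop :=
  ∀ ω ω', Measurable fun z => (A z (dl ω)) ω'

/-- PROOF: `(A z (B z (dl ω))) ω''` is the sum of the family
`(B z (dl ω)) ω' * (A z (dl ω')) ω''` (`hasSum_dl`, continuity of `A z` and of the evaluation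
`⟪dl ω'', ·⟫`, `inner_dl`); a pointwise limit of measurable functions along the countably
generated filter `atTop` on `Finset Ω'` (`measurable_of_tendsto_metrizable'`). -/
theorem EM.comp {X Ω Ω' Ω'' : Type} [MeasurableSpace X] [Countable Ω']
    {A : X → (L2 Ω' →L[ℂ] L2 Ω'')} {B : X → (L2 Ω →L[ℂ] L2 Ω')} (hA : EM A) (hB : EM B) :
    EM fun z => A z ∘L B z := by
  intro ω ω''
  have hsum : ∀ z, HasSum (fun ω' : Ω' => (B z (dl ω)) ω' * (A z (dl ω')) ω'')
      ((A z (B z (dl ω))) ω'') := by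
    intro z
    have h1 := (hasSum_dl (B z (dl ω))).mapL (A z)
    have h2 := h1.mapL (innerSL ℂ (dl ω'' : L2 Ω''))
    simp only [map_smul, innerSL_apply_apply, inner_dl, smul_eq_mul] at h2
    exact h2
  have hlim : Filter.Tendsto (fun (s : Finset Ω') (z : X) =>
      ∑ ω' ∈ s, (B z (dl ω)) ω' * (A z (dl ω')) ω'') Filter.atTop
      (nhds fun z => (A z (B z (dl ω))) ω'') := by
    rw [tendsto_pi_nhds]
    intro z
    exact hsum z
  refine measurable_of_tendsto_metrizable' Filter.atTop (fun s => ?_) hlim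
  exact Finset.measurable_sum s fun ω' _ => (hB ω ω').mul (hA ω' ω'')

/-- PROOF: `((A z).adjoint (dl ω')) ω = ⟪dl ω, (A z).adjoint (dl ω')⟫ = ⟪A z (dl ω), dl ω'⟫
= conj ((A z (dl ω)) ω')`. -/
theorem EM.adj {X Ω Ω' : Type} [MeasurableSpace X] {A : X → (L2 Ω →L[ℂ] L2 Ω')} (hA : EM A) :
    EM fun z => (A z).adjoint := by
  intro ω' ω
  have h1 : (fun z => ((A z).adjoint (dl ω')) ω) =
      fun z => (starRingEnd ℂ) ((A z (dl ω)) ω') := by
    funext z
    rw [← inner_dl ω, ContinuousLinearMap.adjoint_inner_right, ← inner_dl ω' (A z (dl ω)),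
      inner_conj_symm]
  rw [h1]
  exact (Complex.continuous_conj.measurable).comp (hA ω ω')

theorem e3_1_one {X Ω : Type} [MeasurableSpace X] : EM fun _ : X => (1 : L2 Ω →L[ℂ] L2 Ω) :=
  fun _ _ => measurable_const

theorem e3_1_smul {X Ω Ω' : Type} [MeasurableSpace X] {A : X → (L2 Ω →L[ℂ] L2 Ω')} (hA : EM A)
    (c : ℂ) : EM fun z => c • A z := by
  intro ω ω'
  exact (hA ω ω').const_mul c

theorem e3_1_sub {X Ω Ω' : Type} [MeasurableSpace X] {A B : X → (L2 Ω →L[ℂ] L2 Ω')} (hA : EM A)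
    (hB : EM B) : EM fun z => A z - B z := by
  intro ω ω'
  exact (hA ω ω').sub (hB ω ω')

theorem e3_1_pow {X Ω : Type} [MeasurableSpace X] [Countable Ω] {A : X → (L2 Ω →L[ℂ] L2 Ω)}
    (hA : EM A) (n : ℕ) : EM fun z => (A z) ^ n := by
  induction n with
  | zero =>
    have h1 : (fun z => (A z) ^ 0) = fun _ : X => (1 : L2 Ω →L[ℂ] L2 Ω) := by
      funext z
      rw [pow_zero]
    rw [h1]
    exact e3_1_one
  | succ n ih =>
    have h1 : (fun z => (A z) ^ (n + 1)) = fun z => ((A z) ^ n) ∘L (A z) := by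
      funext z
      rw [pow_succ]
      rfl
    rw [h1]
    exact EM.comp ih hA

theorem e3_1_sum {X Ω Ω' ι : Type} [MeasurableSpace X] (s : Finset ι)
    {A : ι → X → (L2 Ω →L[ℂ] L2 Ω')} (hA : ∀ i ∈ s, EM (A i)) : EM fun z => ∑ i ∈ s, A i z := by
  classical
  intro ω ω'
  have h1 : (fun z => ((∑ i ∈ s, A i z) (dl ω)) ω') = fun z => ∑ i ∈ s, (A i z (dl ω)) ω' := by
    funext z
    rw [_root_.sum_apply, lp.coeFn_sum, Finset.sum_apply]
  rw [h1]
  exact Finset.measurable_sum s fun i hi => hA i hi ω ω'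

/-- PROOF: `EM` is stable under constants, sums, scalar multiples (entrywise) and products
(`EM.comp`), hence under powers and finite sums. -/
theorem EM.bk {X Ω Ω' : Type} [MeasurableSpace X] [Countable Ω] [Countable Ω']
    {T : X → (L2 Ω →L[ℂ] L2 Ω')} (hT : EM T) (c : ℝ) (n : ℕ) : EM fun z => bk c n (T z) := by
  unfold Pool.Agent.COST.bk
  have h0 : EM fun z => (T z).adjoint := hT.adj
  refine EM.comp (e3_1_smul (e3_1_sum (Finset.range n) fun j _ => ?_) (c : ℂ)) h0
  exact e3_1_pow (e3_1_sub e3_1_one (e3_1_smul (EM.comp h0 hT) (c : ℂ))) j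

end Pool.Agent.COST

end

section

open scoped ENNReal InnerProductSpace
open MeasureTheory

namespace Pool.Agent.COST

/-- equivariant families of operators -/
def Eqv {H I J : Type} [Group H] (X : PMP H) (A : X.X → (L2 (H × I) →L[ℂ] L2 (H × J))) : Prop :=
  ∀ (g : H) (z : X.X) (f : L2 (H × I)), A (g • z) (tr g f) = tr g (A z f)

theorem Eqv.comp {H I J K : Type} [Group H] {X : PMP H} {A : X.X → (L2 (H × J) →L[ℂ] L2 (H × K))}
    {B : X.X → (L2 (H × I) →L[ℂ] L2 (H × J))} (hA : Eqv X A) (hB : Eqv X B) :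
    Eqv X fun z => A z ∘L B z := by
  intro g z f
  change A (g • z) (B (g • z) (tr g f)) = tr g (A z (B z f))
  rw [hB, hA]

/-- PROOF: `tr g` is unitary with inverse `tr g⁻¹`: test with `⟪tr g f, ·⟫`
(`LinearIsometryEquiv.inner_map_map`, `ContinuousLinearMap.adjoint_inner_left`). -/
theorem Eqv.adj {H I J : Type} [Group H] {X : PMP H} {A : X.X → (L2 (H × I) →L[ℂ] L2 (H × J))}
    (hA : Eqv X A) : Eqv X fun z => (A z).adjoint := by
  intro g z f
  refine ext_inner_left ℂ fun y => ?_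
  have h1 : tr g (tr g⁻¹ y) = y := by
    rw [← tr_mul, mul_inv_cancel, tr_one]
  rw [ContinuousLinearMap.adjoint_inner_right, ← h1, hA, LinearIsometryEquiv.inner_map_map,
    LinearIsometryEquiv.inner_map_map, ContinuousLinearMap.adjoint_inner_right]

theorem e3_2_one {H I : Type} [Group H] {X : PMP H} :
    Eqv X fun _ : X.X => (1 : L2 (H × I) →L[ℂ] L2 (H × I)) := fun _ _ _ => rfl

theorem e3_2_smul {H I J : Type} [Group H] {X : PMP H}
    {A : X.X → (L2 (H × I) →L[ℂ] L2 (H × J))} (hA : Eqv X A) (c : ℂ) :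
    Eqv X fun z => c • A z := by
  intro g z f
  change c • A (g • z) (tr g f) = tr g (c • A z f)
  rw [hA, map_smul]

theorem e3_2_sub {H I J : Type} [Group H] {X : PMP H}
    {A B : X.X → (L2 (H × I) →L[ℂ] L2 (H × J))} (hA : Eqv X A) (hB : Eqv X B) :
    Eqv X fun z => A z - B z := by
  intro g z f
  change A (g • z) (tr g f) - B (g • z) (tr g f) = tr g (A z f - B z f)
  rw [hA, hB, map_sub]

theorem e3_2_pow {H I : Type} [Group H] {X : PMP H}
    {A : X.X → (L2 (H × I) →L[ℂ] L2 (H × I))} (hA : Eqv X A) (n : ℕ) :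
    Eqv X fun z => (A z) ^ n := by
  induction n with
  | zero =>
    have h1 : (fun z => (A z) ^ 0) = fun _ : X.X => (1 : L2 (H × I) →L[ℂ] L2 (H × I)) := by
      funext z
      rw [pow_zero]
    rw [h1]
    exact e3_2_one
  | succ n ih =>
    have h1 : (fun z => (A z) ^ (n + 1)) = fun z => ((A z) ^ n) ∘L (A z) := by
      funext z
      rw [pow_succ]
      rfl
    rw [h1]
    exact Eqv.comp ih hA

theorem e3_2_sum {H I J ι : Type} [Group H] {X : PMP H} (s : Finset ι)
    {A : ι → X.X → (L2 (H × I) →L[ℂ] L2 (H × J))} (hA : ∀ i ∈ s, Eqv X (A i)) :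
    Eqv X fun z => ∑ i ∈ s, A i z := by
  intro g z f
  change (∑ i ∈ s, A i (g • z)) (tr g f) = tr g ((∑ i ∈ s, A i z) f)
  rw [_root_.sum_apply, _root_.sum_apply, map_sum]
  exact Finset.sum_congr rfl fun i hi => hA i hi g z f

/-- PROOF: `Eqv` is stable under constants `1`, sums, scalar multiples, products, powers. -/
theorem Eqv.bk {H I J : Type} [Group H] {X : PMP H} {T : X.X → (L2 (H × I) →L[ℂ] L2 (H × J))}
    (hT : Eqv X T) (c : ℝ) (n : ℕ) : Eqv X fun z => bk c n (T z) := by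
  unfold Pool.Agent.COST.bk
  have h0 : Eqv X fun z => (T z).adjoint := hT.adj
  refine Eqv.comp (e3_2_smul (e3_2_sum (Finset.range n) fun j _ => ?_) (c : ℂ)) h0
  exact e3_2_pow (e3_2_sub e3_2_one (e3_2_smul (Eqv.comp h0 hT) (c : ℂ))) j

/-- PROOF: `‖(1 - c T* T) ^ j‖ ≤ (1 + c * C ^ 2) ^ j`. -/
theorem bk_norm {E F : Type} [NormedAddCommGroup E] [InnerProductSpace ℂ E] [CompleteSpace E]
    [NormedAddCommGroup F] [InnerProductSpace ℂ F] [CompleteSpace F] (c C : ℝ) (hc : 0 ≤ c)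
    (hC : 0 ≤ C) (n : ℕ) :
    ∃ M : ℝ, ∀ T : E →L[ℂ] F, ‖T‖ ≤ C → ‖bk c n T‖ ≤ M := by
  refine ⟨c * (∑ j ∈ Finset.range n, (1 + c * (C * C)) ^ j) * C, fun T hT => ?_⟩
  have hadj : ‖T.adjoint‖ ≤ C := by
    rw [LinearIsometryEquiv.norm_map]
    exact hT
  have h1 : ‖T.adjoint ∘L T‖ ≤ C * C :=
    (ContinuousLinearMap.opNorm_comp_le _ _).trans
      (mul_le_mul hadj hT (norm_nonneg _) hC)
  have hcn : ‖(c : ℂ)‖ = c := by
    rw [Complex.norm_real, Real.norm_of_nonneg hc]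
  have h2 : ‖(1 : E →L[ℂ] E) - (c : ℂ) • (T.adjoint ∘L T)‖ ≤ 1 + c * (C * C) := by
    refine (norm_sub_le _ _).trans (add_le_add ContinuousLinearMap.norm_id_le ?_)
    rw [norm_smul, hcn]
    exact mul_le_mul_of_nonneg_left h1 hc
  have hone : ∀ j : ℕ, ‖((1 : E →L[ℂ] E) - (c : ℂ) • (T.adjoint ∘L T)) ^ j‖ ≤
      (1 + c * (C * C)) ^ j := by
    intro j
    induction j with
    | zero =>
      rw [pow_zero, pow_zero]
      exact ContinuousLinearMap.norm_id_le
    | succ j ih =>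
      rw [pow_succ, pow_succ]
      exact (norm_mul_le _ _).trans (mul_le_mul ih h2 (norm_nonneg _) (by positivity))
  have h3 : ‖(c : ℂ) • ∑ j ∈ Finset.range n, ((1 : E →L[ℂ] E) -
      (c : ℂ) • (T.adjoint ∘L T)) ^ j‖ ≤ c * (∑ j ∈ Finset.range n, (1 + c * (C * C)) ^ j) := by
    rw [norm_smul, hcn]
    exact mul_le_mul_of_nonneg_left
      ((norm_sum_le _ _).trans (Finset.sum_le_sum fun j _ => hone j)) hc
  unfold Pool.Agent.COST.bk
  refine (ContinuousLinearMap.opNorm_comp_le _ _).trans (mul_le_mul h3 hadj (norm_nonneg _) ?_)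
  exact mul_nonneg hc (Finset.sum_nonneg fun j _ => by positivity)

end Pool.Agent.COST

end

section

open scoped ENNReal InnerProductSpace
open MeasureTheory

namespace Pool.Agent.COST

open Classical in
/-- PROOF: the operators of `gen_op` for the sets `{g | g⁻¹ • z ∈ A s}`. Entries:
`(T z (dl (g, s))) (h, i) = if g⁻¹ • z ∈ A s then ξ s (g⁻¹ * h, i) else 0` (`tr_toL2`), measurable in
`z`. Equivariance: check on `dl (k, s)` (`clm_ext` after composing with `tr`), `tr_dl`, `tr_mul`,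
`(g * k)⁻¹ • g • z = k⁻¹ • z`. Finite range: if the entry is not `0` then `(g⁻¹ * h, i)` is in the
support of `ξ s`. -/
theorem gen_fam {H I S : Type} [Group H] [Fintype S] (X : PMP H) (ξ : S → H × I →₀ ℂ)
    (A : S → Set X.X) (hA : ∀ s, MeasurableSet (A s)) :
    ∃ (C : ℝ) (T : X.X → (L2 (H × S) →L[ℂ] L2 (H × I))) (F : Finset H), 0 ≤ C ∧
      (∀ z, ‖T z‖ ≤ C) ∧ EM T ∧ Eqv X T ∧
      (∀ z g s, T z (dl (g, s)) = if g⁻¹ • z ∈ A s then tr g (toL2 (ξ s)) else 0) ∧
      ∀ z g s h i, (T z (dl (g, s))) (h, i) ≠ 0 → h⁻¹ * g ∈ F := by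
  obtain ⟨C, hC, hop⟩ := gen_op ξ
  choose T0 hT1 hT2 using hop
  have hval : ∀ (z : X.X) (g : H) (s : S),
      T0 (fun s => {g : H | g⁻¹ • z ∈ A s}) (dl (g, s)) =
        if g⁻¹ • z ∈ A s then tr g (toL2 (ξ s)) else 0 := by
    intro z g s
    rw [hT2]
    by_cases hz : g⁻¹ • z ∈ A s
    · have hz' : g ∈ {g : H | g⁻¹ • z ∈ A s} := hz
      rw [if_pos hz, if_pos hz']
    · have hz' : g ∉ {g : H | g⁻¹ • z ∈ A s} := hz
      rw [if_neg hz, if_neg hz']
  have hentry : ∀ (z : X.X) (g : H) (s : S) (h : H) (i : I),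
      (T0 (fun s => {g : H | g⁻¹ • z ∈ A s}) (dl (g, s))) (h, i) =
        if g⁻¹ • z ∈ A s then ξ s (g⁻¹ * h, i) else 0 := by
    intro z g s h i
    rw [hval]
    by_cases hz : g⁻¹ • z ∈ A s
    · rw [if_pos hz, if_pos hz, tr_toL2]
    · rw [if_neg hz, if_neg hz]
      rfl
  refine ⟨C, fun z => T0 (fun s => {g : H | g⁻¹ • z ∈ A s}),
    Finset.univ.biUnion fun s => (ξ s).support.image fun p => p.1⁻¹, hC, fun z => hT1 _, ?_, ?_,
    hval, ?_⟩
  · rintro ⟨g, s⟩ ⟨h, i⟩
    have h1 : (fun z : X.X => (T0 (fun s => {g : H | g⁻¹ • z ∈ A s}) (dl (g, s))) (h, i)) =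
        fun z => if g⁻¹ • z ∈ A s then ξ s (g⁻¹ * h, i) else 0 := by
      funext z
      exact hentry z g s h i
    rw [h1]
    refine Measurable.ite ?_ measurable_const measurable_const
    exact (X.mp g⁻¹).measurable (hA s)
  · intro g z f
    have h1 : (T0 fun s => {g' : H | g'⁻¹ • (g • z) ∈ A s}) ∘L
        ((tr g : L2 (H × S) ≃ₗᵢ[ℂ] L2 (H × S)).toContinuousLinearEquiv :
          L2 (H × S) →L[ℂ] L2 (H × S)) =
        ((tr g : L2 (H × I) ≃ₗᵢ[ℂ] L2 (H × I)).toContinuousLinearEquiv :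
          L2 (H × I) →L[ℂ] L2 (H × I)) ∘L (T0 fun s => {g' : H | g'⁻¹ • z ∈ A s}) := by
      refine clm_ext fun ω => ?_
      obtain ⟨k, s⟩ := ω
      change (T0 fun s => {g' : H | g'⁻¹ • (g • z) ∈ A s}) (tr g (dl (k, s))) =
        tr g ((T0 fun s => {g' : H | g'⁻¹ • z ∈ A s}) (dl (k, s)))
      rw [tr_dl, hval, hval]
      have h2 : (g * k)⁻¹ • g • z = k⁻¹ • z := by
        rw [smul_smul, mul_inv_rev, mul_assoc, inv_mul_cancel, mul_one]
      rw [h2]
      by_cases hz : k⁻¹ • z ∈ A s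
      · rw [if_pos hz, if_pos hz, tr_mul]
      · rw [if_neg hz, if_neg hz, map_zero]
    exact DFunLike.congr_fun h1 f
  · intro z g s h i hne
    rw [hentry] at hne
    have hne2 : ξ s (g⁻¹ * h, i) ≠ 0 := by
      intro h0
      rw [h0, ite_self] at hne
      exact hne rfl
    rw [Finset.mem_biUnion]
    refine ⟨s, Finset.mem_univ s, ?_⟩
    rw [Finset.mem_image]
    refine ⟨(g⁻¹ * h, i), Finsupp.mem_support_iff.mpr hne2, ?_⟩
    rw [mul_inv_rev, inv_inv]

end Pool.Agent.COST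

end

section

open scoped ENNReal InnerProductSpace
open MeasureTheory

namespace Pool.Agent.COST

theorem e3_4_expand {H I S : Type} [Group H] [Fintype S]
    (A : L2 (H × S) →L[ℂ] L2 (H × I)) (f : L2 (H × S)) (x : H × I) (F : Finset H)
    (hF : ∀ g s, (A (dl (g, s))) x ≠ 0 → f (g, s) ≠ 0 → g ∈ F) :
    (A f) x = ∑ g ∈ F, ∑ s, f (g, s) * (A (dl (g, s))) x := by
  classical
  have h1 := ((hasSum_dl f).mapL A).mapL (innerSL ℂ (dl x))
  have h2 : HasSum (fun ω : H × S => f ω * (A (dl ω)) x) ((A f) x) := by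
    have h3 : (fun ω : H × S => f ω * (A (dl ω)) x) =
        fun ω : H × S => (innerSL ℂ (dl x)) (A (f ω • dl ω)) := by
      funext ω
      rw [map_smul, map_smul, innerSL_apply_apply, inner_dl]
      rfl
    have h4 : (A f) x = (innerSL ℂ (dl x)) (A f) := by
      rw [innerSL_apply_apply, inner_dl]
    rw [h3, h4]
    exact h1
  have h5 : HasSum (fun ω : H × S => f ω * (A (dl ω)) x)
      (∑ ω ∈ F ×ˢ Finset.univ, f ω * (A (dl ω)) x) := by
    apply hasSum_sum_of_ne_finset_zero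
    rintro ⟨g, s⟩ hne
    by_contra h6
    apply hne
    rw [Finset.mem_product]
    refine ⟨hF g s ?_ ?_, Finset.mem_univ _⟩
    · intro h7
      apply h6
      rw [h7, mul_zero]
    · intro h7
      apply h6
      rw [h7, zero_mul]
  rw [h2.unique h5, Finset.sum_product]

theorem e3_4_entry {Ω Ω' : Type} (A : L2 Ω →L[ℂ] L2 Ω') (C : ℝ) (hC : ‖A‖ ≤ C) (ω : Ω) (ω' : Ω') :
    ‖(A (dl ω)) ω'‖ ≤ C := by
  rw [← inner_dl]
  refine (norm_inner_le_norm _ _).trans ?_
  rw [norm_dl, one_mul]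
  refine (A.le_opNorm _).trans ?_
  rw [norm_dl, mul_one]
  exact hC

/-- Trace property. PROOF. Put `a z x y = (A z (dl y)) x`, `b z x y = (B z (dl y)) x`.
`(A z (B z (dl (1, i)))) (1, i) = ∑ g ∈ F, ∑ s, b z (g, s) (1, i) * a z (1, i) (g, s)`: the family
`(B z f) y • A z (dl y)` has sum `A z (B z f)` (`hasSum_dl`), evaluate at `(1, i)`, only the `(g, s)`
with `g ∈ F` contribute. Integrate (bounded measurable functions). By equivariance
`a z (1, i) (g, s) = a (g⁻¹ • z) (g⁻¹, i) (1, s)` and the same for `b`, so by invariance of the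
measure the integral of `b z (g, s) (1, i) * a z (1, i) (g, s)` is the integral of
`b z (1, s) (g⁻¹, i) * a z (g⁻¹, i) (1, s)`. In the same way
`(B z (A z (dl (1, s)))) (1, s) = ∑ g ∈ F, ∑ i, a z (g⁻¹, i) (1, s) * b z (1, s) (g⁻¹, i)`. -/
theorem trace_swap {H I S : Type} [Group H] [Countable H] [Fintype I] [Fintype S] (X : PMP H)
    (A : X.X → (L2 (H × S) →L[ℂ] L2 (H × I))) (B : X.X → (L2 (H × I) →L[ℂ] L2 (H × S)))
    (hA : EM A) (hB : EM B) (eA : Eqv X A) (eB : Eqv X B) (CA CB : ℝ) (bA : ∀ z, ‖A z‖ ≤ CA)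
    (bB : ∀ z, ‖B z‖ ≤ CB) (F : Finset H)
    (hF : ∀ z g s h i, (A z (dl (g, s))) (h, i) ≠ 0 → h⁻¹ * g ∈ F) :
    ∑ i, ∫ z, (A z (B z (dl ((1 : H), i)))) (1, i) ∂X.μ =
      ∑ s, ∫ z, (B z (A z (dl ((1 : H), s)))) (1, s) ∂X.μ := by
  classical
  let a : X.X → H × I → H × S → ℂ := fun z x y => (A z (dl y)) x
  let b : X.X → H × S → H × I → ℂ := fun z x y => (B z (dl y)) x
  have h1 : ∀ z i, (A z (B z (dl ((1 : H), i)))) (1, i) =
      ∑ g ∈ F, ∑ s, b z (g, s) (1, i) * a z (1, i) (g, s) := by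
    intro z i
    apply e3_4_expand
    intro g s hne _
    have := hF z g s 1 i hne
    simpa using this
  have h2 : ∀ z s, (B z (A z (dl ((1 : H), s)))) (1, s) =
      ∑ g ∈ F, ∑ i, a z (g⁻¹, i) (1, s) * b z (1, s) (g⁻¹, i) := by
    intro z s
    rw [e3_4_expand (B z) (A z (dl ((1 : H), s))) (1, s) (F.image fun g => g⁻¹)]
    · rw [Finset.sum_image fun x _ y _ hxy => inv_injective hxy]
    · intro g i _ hne
      have := hF z 1 s g i hne
      rw [mul_one] at this
      exact Finset.mem_image.mpr ⟨g⁻¹, this, inv_inv g⟩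
  let ψ : H → S → I → X.X → ℂ := fun g s i z => b z (1, s) (g⁻¹, i) * a z (g⁻¹, i) (1, s)
  have hψm : ∀ g s i, Measurable (ψ g s i) := fun g s i => (hB _ _).mul (hA _ _)
  have hψb : ∀ g s i z, ‖ψ g s i z‖ ≤ CB * CA := by
    intro g s i z
    change ‖b z (1, s) (g⁻¹, i) * a z (g⁻¹, i) (1, s)‖ ≤ _
    rw [norm_mul]
    have h3 := e3_4_entry (B z) CB (bB z) (g⁻¹, i) (1, s)
    have h4 := e3_4_entry (A z) CA (bA z) (1, s) (g⁻¹, i)
    exact mul_le_mul h3 h4 (norm_nonneg _) ((norm_nonneg _).trans h3)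
  have hψi : ∀ g s i, Integrable (ψ g s i) X.μ := fun g s i =>
    Integrable.of_bound (hψm g s i).aestronglyMeasurable (CB * CA)
      (Filter.Eventually.of_forall (hψb g s i))
  have heq : ∀ g s i z, b z (g, s) (1, i) * a z (1, i) (g, s) = ψ g s i (g⁻¹ • z) := by
    intro g s i z
    change _ = b (g⁻¹ • z) (1, s) (g⁻¹, i) * a (g⁻¹ • z) (g⁻¹, i) (1, s)
    have h3 : b (g⁻¹ • z) (1, s) (g⁻¹, i) = b z (g, s) (1, i) := by
      have h4 := eB g⁻¹ z (dl ((1 : H), i))
      rw [tr_dl, mul_one] at h4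
      change (B (g⁻¹ • z) (dl (g⁻¹, i))) (1, s) = _
      rw [h4, tr_apply, inv_inv, mul_one]
    have h5 : a (g⁻¹ • z) (g⁻¹, i) (1, s) = a z (1, i) (g, s) := by
      have h4 := eA g⁻¹ z (dl (g, s))
      rw [tr_dl, inv_mul_cancel] at h4
      change (A (g⁻¹ • z) (dl ((1 : H), s))) (g⁻¹, i) = _
      rw [h4, tr_apply, inv_inv, mul_inv_cancel]
    rw [h3, h5]
  have hinv : ∀ g s i, ∫ z, ψ g s i (g⁻¹ • z) ∂X.μ = ∫ z, ψ g s i z ∂X.μ := by
    intro g s i
    have h3 := (X.mp g⁻¹).map_eq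
    have h4 : ∫ z, ψ g s i z ∂(Measure.map (fun x : X.X => g⁻¹ • x) X.μ) =
        ∫ z, ψ g s i (g⁻¹ • z) ∂X.μ :=
      integral_map (X.mp g⁻¹).measurable.aemeasurable (hψm g s i).aestronglyMeasurable
    rw [h3] at h4
    exact h4.symm
  have hψi2 : ∀ g s i, Integrable (fun z => ψ g s i (g⁻¹ • z)) X.μ := fun g s i =>
    Integrable.of_bound ((hψm g s i).comp (X.mp g⁻¹).measurable).aestronglyMeasurable (CB * CA)
      (Filter.Eventually.of_forall fun z => hψb g s i _)
  have hL : ∀ i, ∫ z, (A z (B z (dl ((1 : H), i)))) (1, i) ∂X.μ =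
      ∑ g ∈ F, ∑ s, ∫ z, ψ g s i z ∂X.μ := by
    intro i
    have h3 : (fun z => (A z (B z (dl ((1 : H), i)))) (1, i)) =
        fun z => ∑ g ∈ F, ∑ s, ψ g s i (g⁻¹ • z) := by
      funext z
      rw [h1]
      exact Finset.sum_congr rfl fun g _ => Finset.sum_congr rfl fun s _ => heq g s i z
    rw [h3, integral_finsetSum _ fun g _ => integrable_finsetSum _ fun s _ => hψi2 g s i]
    apply Finset.sum_congr rfl
    intro g _
    rw [integral_finsetSum _ fun s _ => hψi2 g s i]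
    exact Finset.sum_congr rfl fun s _ => hinv g s i
  have hR : ∀ s, ∫ z, (B z (A z (dl ((1 : H), s)))) (1, s) ∂X.μ =
      ∑ g ∈ F, ∑ i, ∫ z, ψ g s i z ∂X.μ := by
    intro s
    have h3 : (fun z => (B z (A z (dl ((1 : H), s)))) (1, s)) =
        fun z => ∑ g ∈ F, ∑ i, ψ g s i z := by
      funext z
      rw [h2]
      exact Finset.sum_congr rfl fun g _ => Finset.sum_congr rfl fun i _ => mul_comm _ _
    rw [h3, integral_finsetSum _ fun g _ => integrable_finsetSum _ fun i _ => hψi g s i]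
    apply Finset.sum_congr rfl
    intro g _
    rw [integral_finsetSum _ fun i _ => hψi g s i]
  rw [Finset.sum_congr rfl fun i _ => hL i, Finset.sum_congr rfl fun s _ => hR s,
    Finset.sum_comm, Finset.sum_comm (s := Finset.univ) (t := F)]
  apply Finset.sum_congr rfl
  intro g _
  exact Finset.sum_comm

end Pool.Agent.COST

end

section

open scoped ENNReal InnerProductSpace
open MeasureTheory

namespace Pool.Agent.COST

/-- The dimension bound. PROOF. `C`, `T`, `F` from `gen_fam`, `c = 1 / (C ^ 2 + 1)`, so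
`c * ‖T z‖ ^ 2 ≤ 1`. For every `n` let `B z = bk c n (T z)`: `T z ∘ B z = pk (T T*)`,
`B z ∘ T z = pk (T* T)`. Let `f n z = ∑ i, re ⟪dl (1, i), pk c n (T z ∘L (T z).adjoint) (dl (1, i))⟫`.
`trace_swap` (with `inner_dl`) gives `∫ f n = ∑ s, ∫ re ⟪dl (1, s), pk c n (T* T) (dl (1, s))⟫`,
and this integrand is `≤ 1` everywhere (`op_bounds'`, `norm_dl`) and `0` for `z ∉ A s`
(`op_kernel`): `∫ f n ≤ ∑ s, μ (A s)`. For every `z`, `V` is contained in the closure of the range
of `T z`, so by `op_lower` for every `η > 0` eventually `vd V - η ≤ f n z`; hence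
`min (f n z) (vd V) → vd V` for every `z`; dominated convergence
(`0 ≤ f n ≤ |I|`, measurable) gives `vd V = lim ∫ min (f n) (vd V) ≤ ∑ s, μ (A s)`. -/
theorem gen {H I S : Type} [Group H] [Countable H] [Fintype I] [Fintype S] (X : PMP H)
    (ξ : S → H × I →₀ ℂ) (A : S → Set X.X) (hA : ∀ s, MeasurableSet (A s))
    (V : Submodule ℂ (L2 (H × I)))
    (hV : ∀ z : X.X, ∀ v ∈ V, v ∈ closure ((Submodule.span ℂ
      {f : L2 (H × I) | ∃ g s, g⁻¹ • z ∈ A s ∧ f = tr g (toL2 (ξ s))} :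
        Submodule ℂ (L2 (H × I))) : Set (L2 (H × I)))) :
    vd V ≤ ∑ s, (X.μ (A s)).toReal := by
  classical
  obtain ⟨C, T, F, hC, hTC, hEM, hEqv, hT, hF⟩ := gen_fam X ξ A hA
  let c : ℝ := 1 / (C ^ 2 + 1)
  have hc : 0 < c := by positivity
  have hcT : ∀ z, c * ‖T z‖ ^ 2 ≤ 1 := by
    intro z
    have h1 : ‖T z‖ ^ 2 ≤ C ^ 2 := by
      have := hTC z
      gcongr
    calc c * ‖T z‖ ^ 2 ≤ c * (C ^ 2 + 1) := by
          apply mul_le_mul_of_nonneg_left _ hc.le
          linarith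
      _ = 1 := by
          change 1 / (C ^ 2 + 1) * (C ^ 2 + 1) = 1
          field_simp
  let f : ℕ → X.X → ℝ := fun n z =>
    ∑ i, (⟪dl ((1 : H), i), pk c n (T z ∘L (T z).adjoint) (dl ((1 : H), i))⟫_ℂ).re
  let g : ℕ → X.X → ℝ := fun n z =>
    ∑ s, (⟪dl ((1 : H), s), pk c n ((T z).adjoint ∘L T z) (dl ((1 : H), s))⟫_ℂ).re
  -- measurability
  have hEMB : ∀ n, EM fun z => bk c n (T z) := fun n => hEM.bk c n
  have m1 : ∀ n i, Measurable fun z =>
      ⟪dl ((1 : H), i), pk c n (T z ∘L (T z).adjoint) (dl ((1 : H), i))⟫_ℂ := by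
    intro n i
    have h1 := (hEM.comp (hEMB n)) ((1 : H), i) ((1 : H), i)
    have h2 : (fun z => ⟪dl ((1 : H), i), pk c n (T z ∘L (T z).adjoint) (dl ((1 : H), i))⟫_ℂ) =
        fun z => ((T z ∘L bk c n (T z)) (dl ((1 : H), i))) ((1 : H), i) := by
      funext z
      rw [inner_dl, comp_bk]
    rw [h2]
    exact h1
  have m2 : ∀ n s, Measurable fun z =>
      ⟪dl ((1 : H), s), pk c n ((T z).adjoint ∘L T z) (dl ((1 : H), s))⟫_ℂ := by
    intro n s
    have h1 := ((hEMB n).comp hEM) ((1 : H), s) ((1 : H), s)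
    have h2 : (fun z => ⟪dl ((1 : H), s), pk c n ((T z).adjoint ∘L T z) (dl ((1 : H), s))⟫_ℂ) =
        fun z => ((bk c n (T z) ∘L T z) (dl ((1 : H), s))) ((1 : H), s) := by
      funext z
      rw [inner_dl, bk_comp]
    rw [h2]
    exact h1
  obtain ⟨M, hM⟩ : ∃ M : ℕ → ℝ, ∀ n z, ‖bk c n (T z)‖ ≤ M n := by
    have h1 : ∀ n, ∃ M : ℝ, ∀ T' : L2 (H × S) →L[ℂ] L2 (H × I), ‖T'‖ ≤ C → ‖bk c n T'‖ ≤ M :=
      fun n => bk_norm c C hc.le hC n
    choose M hM using h1
    exact ⟨M, fun n z => hM n (T z) (hTC z)⟩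
  -- integrals
  have hbd1 : ∀ n i, Integrable (fun z =>
      ⟪dl ((1 : H), i), pk c n (T z ∘L (T z).adjoint) (dl ((1 : H), i))⟫_ℂ) X.μ := by
    intro n i
    refine Integrable.of_bound (m1 n i).aestronglyMeasurable (C * M n) ?_
    refine Filter.Eventually.of_forall fun z => ?_
    rw [← comp_bk]
    refine (norm_inner_le_norm _ _).trans ?_
    rw [norm_dl, one_mul]
    calc ‖(T z ∘L bk c n (T z)) (dl ((1 : H), i))‖ ≤ ‖T z ∘L bk c n (T z)‖ * ‖dl ((1 : H), i)‖ :=
          ContinuousLinearMap.le_opNorm _ _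
      _ ≤ (‖T z‖ * ‖bk c n (T z)‖) * 1 := by
          rw [norm_dl]
          gcongr
          exact ContinuousLinearMap.opNorm_comp_le _ _
      _ ≤ (C * M n) := by
          rw [mul_one]
          exact mul_le_mul (hTC z) (hM n z) (norm_nonneg _) hC
  have hbd2 : ∀ n s, Integrable (fun z =>
      ⟪dl ((1 : H), s), pk c n ((T z).adjoint ∘L T z) (dl ((1 : H), s))⟫_ℂ) X.μ := by
    intro n s
    refine Integrable.of_bound (m2 n s).aestronglyMeasurable (M n * C) ?_
    refine Filter.Eventually.of_forall fun z => ?_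
    rw [← bk_comp]
    refine (norm_inner_le_norm _ _).trans ?_
    rw [norm_dl, one_mul]
    have hM0 : 0 ≤ M n := (norm_nonneg _).trans (hM n z)
    calc ‖(bk c n (T z) ∘L T z) (dl ((1 : H), s))‖ ≤ ‖bk c n (T z) ∘L T z‖ * ‖dl ((1 : H), s)‖ :=
          ContinuousLinearMap.le_opNorm _ _
      _ ≤ (‖bk c n (T z)‖ * ‖T z‖) * 1 := by
          rw [norm_dl]
          gcongr
          exact ContinuousLinearMap.opNorm_comp_le _ _
      _ ≤ (M n * C) := by
          rw [mul_one]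
          exact mul_le_mul (hM n z) (hTC z) (norm_nonneg _) hM0
  have hre1 : ∀ n i, Integrable (fun z =>
      (⟪dl ((1 : H), i), pk c n (T z ∘L (T z).adjoint) (dl ((1 : H), i))⟫_ℂ).re) X.μ :=
    fun n i => (hbd1 n i).re
  have hre2 : ∀ n s, Integrable (fun z =>
      (⟪dl ((1 : H), s), pk c n ((T z).adjoint ∘L T z) (dl ((1 : H), s))⟫_ℂ).re) X.μ :=
    fun n s => (hbd2 n s).re
  have hsw : ∀ n, ∫ z, f n z ∂X.μ = ∫ z, g n z ∂X.μ := by
    intro n
    have h1 := trace_swap X T (fun z => bk c n (T z)) hEM (hEMB n) hEqv (hEqv.bk c n) C (M n)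
      hTC (hM n) F hF
    have h2 : ∀ i, ∫ z, (T z (bk c n (T z) (dl ((1 : H), i)))) (1, i) ∂X.μ =
        ∫ z, ⟪dl ((1 : H), i), pk c n (T z ∘L (T z).adjoint) (dl ((1 : H), i))⟫_ℂ ∂X.μ := by
      intro i
      apply integral_congr_ae
      refine Filter.Eventually.of_forall fun z => ?_
      change _ = ⟪dl ((1 : H), i), pk c n (T z ∘L (T z).adjoint) (dl ((1 : H), i))⟫_ℂ
      rw [← comp_bk, inner_dl]
      rfl
    have h3 : ∀ s, ∫ z, (bk c n (T z) (T z (dl ((1 : H), s)))) (1, s) ∂X.μ =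
        ∫ z, ⟪dl ((1 : H), s), pk c n ((T z).adjoint ∘L T z) (dl ((1 : H), s))⟫_ℂ ∂X.μ := by
      intro s
      apply integral_congr_ae
      refine Filter.Eventually.of_forall fun z => ?_
      change _ = ⟪dl ((1 : H), s), pk c n ((T z).adjoint ∘L T z) (dl ((1 : H), s))⟫_ℂ
      rw [← bk_comp, inner_dl]
      rfl
    simp only [h2, h3] at h1
    have h4 := congrArg Complex.re h1
    rw [Complex.re_sum, Complex.re_sum] at h4
    have h5 : ∀ (u : X.X → ℂ), Integrable u X.μ → (∫ z, u z ∂X.μ).re = ∫ z, (u z).re ∂X.μ := by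
      intro u hu
      exact (integral_re hu).symm
    rw [Finset.sum_congr rfl fun i _ => h5 _ (hbd1 n i),
      Finset.sum_congr rfl fun s _ => h5 _ (hbd2 n s)] at h4
    change ∫ z, ∑ i, (⟪dl ((1 : H), i), pk c n (T z ∘L (T z).adjoint) (dl ((1 : H), i))⟫_ℂ).re ∂X.μ =
      ∫ z, ∑ s, (⟪dl ((1 : H), s), pk c n ((T z).adjoint ∘L T z) (dl ((1 : H), s))⟫_ℂ).re ∂X.μ
    rw [integral_finsetSum _ fun i _ => hre1 n i, integral_finsetSum _ fun s _ => hre2 n s]
    exact h4
  have hf_meas : ∀ n, Measurable (f n) := fun n =>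
    Finset.measurable_sum _ fun i _ => Complex.measurable_re.comp (m1 n i)
  have hg_meas : ∀ n, Measurable (g n) := fun n =>
    Finset.measurable_sum _ fun i _ => Complex.measurable_re.comp (m2 n i)
  have hgle : ∀ n, ∫ z, g n z ∂X.μ ≤ ∑ s, (X.μ (A s)).toReal := by
    intro n
    have h1 : ∀ z, g n z ≤ ∑ s, (A s).indicator (fun _ => (1 : ℝ)) z := by
      intro z
      apply Finset.sum_le_sum
      intro s _
      by_cases hz : z ∈ A s
      · rw [Set.indicator_of_mem hz]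
        have h2 := (op_bounds' (T z) c hc (hcT z) n (dl ((1 : H), s))).2
        rw [norm_dl] at h2
        simpa using h2
      · rw [Set.indicator_of_notMem hz]
        have h3 : T z (dl ((1 : H), s)) = 0 := by
          rw [hT z 1 s, if_neg]
          rw [inv_one, one_smul]
          exact hz
        rw [op_kernel (T z) c n _ h3]
        simp
    have h2 : Integrable (fun z => ∑ s, (A s).indicator (fun _ => (1 : ℝ)) z) X.μ :=
      integrable_finsetSum _ fun s _ => (integrable_const (1 : ℝ)).indicator (hA s)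
    calc ∫ z, g n z ∂X.μ ≤ ∫ z, ∑ s, (A s).indicator (fun _ => (1 : ℝ)) z ∂X.μ :=
          integral_mono (integrable_finsetSum _ fun s _ => (hbd2 n s).re) h2 h1
      _ = ∑ s, (X.μ (A s)).toReal := by
          rw [integral_finsetSum _ fun s _ => (integrable_const (1 : ℝ)).indicator (hA s)]
          apply Finset.sum_congr rfl
          intro s _
          rw [integral_indicator (hA s), setIntegral_const, smul_eq_mul, mul_one]
          rfl
  -- pointwise lower bound
  have hlow : ∀ z (η : ℝ), 0 < η → ∀ᶠ n : ℕ in Filter.atTop, vd V - η ≤ f n z := by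
    intro z η hη
    have hV2 : ∀ v ∈ V, v ∈ closure (Set.range (T z)) := by
      intro v hv
      refine closure_mono ?_ (hV z v hv)
      intro w hw
      have h1 : (Submodule.span ℂ
          {f : L2 (H × I) | ∃ g s, g⁻¹ • z ∈ A s ∧ f = tr g (toL2 (ξ s))} :
          Submodule ℂ (L2 (H × I))) ≤ LinearMap.range (T z).toLinearMap := by
        rw [Submodule.span_le]
        rintro _ ⟨g, s, hg, rfl⟩
        refine ⟨dl (g, s), ?_⟩
        change T z (dl (g, s)) = _
        rw [hT z g s, if_pos hg]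
      obtain ⟨u, hu⟩ := h1 hw
      exact ⟨u, hu⟩
    have h2 : ∀ i : I, ∀ᶠ n : ℕ in Filter.atTop,
        ‖V.topologicalClosure.starProjection (dl ((1 : H), i))‖ ^ 2 - η / (Fintype.card I + 1) ≤
        (⟪dl ((1 : H), i), pk c n (T z ∘L (T z).adjoint) (dl ((1 : H), i))⟫_ℂ).re :=
      fun i => op_lower (T z) c hc (hcT z) V hV2 _ _ (by positivity)
    have h3 := Filter.eventually_all.mpr h2
    filter_upwards [h3] with n hn
    have h4 := Finset.sum_le_sum fun (i : I) (_ : i ∈ Finset.univ) => hn i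
    rw [Finset.sum_sub_distrib, Finset.sum_const, Finset.card_univ, nsmul_eq_mul] at h4
    have h5 : (Fintype.card I : ℝ) * (η / (Fintype.card I + 1)) ≤ η := by
      rw [mul_div_assoc', div_le_iff₀ (by positivity)]
      nlinarith [(Nat.cast_nonneg (Fintype.card I) : (0 : ℝ) ≤ Fintype.card I)]
    change vd V - η ≤ ∑ i, _
    unfold vd
    linarith
  have hlim : ∀ z, Filter.Tendsto (fun n => min (f n z) (vd V)) Filter.atTop (nhds (vd V)) := by
    intro z
    rw [Metric.tendsto_atTop]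
    intro η hη
    obtain ⟨N, hN⟩ := Filter.eventually_atTop.mp (hlow z (η / 2) (by positivity))
    refine ⟨N, fun n hn => ?_⟩
    have h1 := hN n hn
    rw [Real.dist_eq, abs_lt]
    constructor
    · rcases le_total (f n z) (vd V) with h | h
      · rw [min_eq_left h]; linarith
      · rw [min_eq_right h]; linarith
    · have := min_le_right (f n z) (vd V)
      linarith
  have hf0 : ∀ n z, 0 ≤ f n z := fun n z =>
    Finset.sum_nonneg fun i _ => (op_bounds (T z) c hc (hcT z) n _).1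
  have hvd0 : 0 ≤ vd V := Finset.sum_nonneg fun i _ => by positivity
  have hdc : Filter.Tendsto (fun n => ∫ z, min (f n z) (vd V) ∂X.μ) Filter.atTop
      (nhds (∫ _, vd V ∂X.μ)) := by
    refine tendsto_integral_of_dominated_convergence (fun _ => vd V) ?_ (integrable_const _) ?_ ?_
    · intro n
      exact ((hf_meas n).min measurable_const).aestronglyMeasurable
    · intro n
      refine Filter.Eventually.of_forall fun z => ?_
      rw [Real.norm_eq_abs, abs_of_nonneg (le_min (hf0 n z) hvd0)]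
      exact min_le_right _ _
    · exact Filter.Eventually.of_forall hlim
  rw [integral_const] at hdc
  simp only [probReal_univ, one_smul] at hdc
  refine le_of_tendsto' hdc fun n => ?_
  calc ∫ z, min (f n z) (vd V) ∂X.μ ≤ ∫ z, f n z ∂X.μ := by
        apply integral_mono
        · refine Integrable.of_bound ((hf_meas n).min measurable_const).aestronglyMeasurable (vd V) ?_
          refine Filter.Eventually.of_forall fun z => ?_
          rw [Real.norm_eq_abs, abs_of_nonneg (le_min (hf0 n z) hvd0)]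
          exact min_le_right _ _
        · exact integrable_finsetSum _ fun i _ => (hbd1 n i).re
        · intro z
          exact min_le_left _ _
    _ = ∫ z, g n z ∂X.μ := hsw n
    _ ≤ _ := hgle n

end Pool.Agent.COST

end
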