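import Pool.Agent.COST.J11

section

open Set MeasureTheory
open scoped ENNReal

namespace Pool.Agent.COST

variable {H : Type} [Group H] {S : JS H}

theorem j12_1_list {ι : Type} (l : List ι) (P : ι → Prop) [DecidablePred P] (f : ι → ℂ) :
    (l.map f).sum = ((l.filter fun i => P i).map f).sum + (l.map fun i => if P i then 0 else f i).sum := by
  induction l with
  | nil => simp
  | cons i l ih =>
    rw [List.map_cons, List.sum_cons, ih, List.map_cons, List.sum_cons]
    by_cases h : P i
    · rw [List.filter_cons_of_pos (by simpa using h), List.map_cons, List.sum_cons, if_pos h]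
      ring
    · rw [List.filter_cons_of_neg (by simpa using h), if_neg h]
      ring

theorem j12_1_zero (x : H → ℂ) (y : H) : rc x 0 y = 0 := by
  simp [rc]

open Classical in
/-- A family of linear equations with tame coefficients gives relations.
PROOF. The terms are the pairs `(x i, c i)` with `x i` of infinite support and `c i ≠ 0` (a list
obtained from `(Finset.univ : Finset (Fin n)).toList.filter` or `List.finRange n`), the finite part is
`c0` plus the sum of the `rc (x i) (c i)` with `x i` of finite support (a Finsupp, `rc_finite`).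
The totals agree by `trunc_fin`; the pairs with `c i = 0` contribute `0`. -/
theorem rel_of {n : ℕ} (x : Fin n → H → ℂ) (c : Fin n → H →₀ ℂ) (c0 : H →₀ ℂ)
    (hx : ∀ i, Tame S (x i)) (h : ∀ h, c0 h + ∑ i, rc (x i) (c i) h = 0) :
    ∃ ρ : Rel S, ∀ (N : S.Λ → ℕ) (A : Sys S N) (z : A.X.X) (y : H),
      ρ.c0 y + (ρ.tm.map fun p => rc (trunc A z p.1) p.2 y).sum =
        c0 y + ∑ i, rc (trunc A z (x i)) (c i) y := by
  let P : Fin n → Prop := fun i => ¬ (Function.support (x i)).Finite ∧ c i ≠ 0
  -- the finite part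
  let d : Fin n → H → ℂ := fun i => if P i then 0 else rc (x i) (c i)
  have hd : ∀ i, (Function.support (d i)).Finite := by
    intro i
    show (Function.support (if P i then 0 else rc (x i) (c i))).Finite
    by_cases hP : P i
    · rw [if_pos hP]
      simp
    · rw [if_neg hP]
      by_cases hx1 : (Function.support (x i)).Finite
      · exact rc_finite hx1 (c i)
      · have hc : c i = 0 := by
          by_contra hc
          exact hP ⟨hx1, hc⟩
        have h1 : rc (x i) (c i) = 0 := by
          funext y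
          rw [hc, j12_1_zero]
          rfl
        rw [h1]
        simp
  have hfin : (Function.support (fun y => c0 y + ∑ i, d i y)).Finite := by
    refine (c0.hasFiniteSupport.union (Set.finite_iUnion hd)).subset ?_
    intro y hy
    by_contra hcon
    rw [Set.mem_union, not_or, Set.mem_iUnion, not_exists] at hcon
    apply hy
    have h1 : c0 y = 0 := by
      by_contra h2
      exact hcon.1 h2
    have h2 : ∀ i, d i y = 0 := by
      intro i
      by_contra h3
      exact hcon.2 i h3
    show c0 y + ∑ i, d i y = 0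
    rw [h1, Finset.sum_congr rfl (fun i _ => h2 i), Finset.sum_const_zero, add_zero]
  let e : H →₀ ℂ := Finsupp.ofSupportFinite (fun y => c0 y + ∑ i, d i y) hfin
  have he : ∀ y, e y = c0 y + ∑ i, d i y := fun y => rfl
  -- the sums
  have hsum : ∀ (X : Fin n → H → ℂ), (∀ i, ¬ P i → rc (X i) (c i) = rc (x i) (c i)) → ∀ y,
      e y + (((List.finRange n).filter fun i => P i).map fun i => rc (X i) (c i) y).sum =
        c0 y + ∑ i, rc (X i) (c i) y := by
    intro X hX y
    have h1 : ∑ i, rc (X i) (c i) y = ((List.finRange n).map fun i => rc (X i) (c i) y).sum := by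
      rw [← List.ofFn_eq_map, List.sum_ofFn]
    have h2 : ∑ i, d i y = ((List.finRange n).map fun i => if P i then 0 else rc (X i) (c i) y).sum := by
      rw [← List.ofFn_eq_map, List.sum_ofFn]
      refine Finset.sum_congr rfl (fun i _ => ?_)
      show (if P i then 0 else rc (x i) (c i)) y = _
      by_cases hP : P i
      · rw [if_pos hP, if_pos hP]
        rfl
      · rw [if_neg hP, if_neg hP, hX i hP]
    rw [he, h1, h2, j12_1_list (List.finRange n) P (fun i => rc (X i) (c i) y)]
    ring
  refine ⟨{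
    c0 := e
    tm := ((List.finRange n).filter fun i => P i).map fun i => (x i, c i)
    tame := ?_
    inf := ?_
    nz := ?_
    eq := ?_ }, ?_⟩
  · intro p hp
    obtain ⟨i, _, rfl⟩ := List.mem_map.1 hp
    exact hx i
  · intro p hp
    obtain ⟨i, hi, rfl⟩ := List.mem_map.1 hp
    have h1 : P i := by simpa using (List.mem_filter.1 hi).2
    exact h1.1
  · intro p hp
    obtain ⟨i, hi, rfl⟩ := List.mem_map.1 hp
    have h1 : P i := by simpa using (List.mem_filter.1 hi).2
    exact h1.2
  · intro y
    rw [List.map_map]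
    exact (hsum x (fun _ _ => rfl) y).trans (h y)
  · intro N A z y
    show e y + ((((List.finRange n).filter fun i => P i).map fun i => (x i, c i)).map
      fun p => rc (trunc A z p.1) p.2 y).sum = _
    rw [List.map_map]
    refine hsum (fun i => trunc A z (x i)) ?_ y
    intro i hP
    by_cases hx1 : (Function.support (x i)).Finite
    · rw [trunc_fin A z hx1]
    · have hc : c i = 0 := by
        by_contra hc
        exact hP ⟨hx1, hc⟩
      funext y
      rw [hc, j12_1_zero, j12_1_zero]

end Pool.Agent.COST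

end

section

open Set MeasureTheory
open scoped ENNReal

namespace Pool.Agent.COST

variable {H : Type} [Group H] {S : JS H}

/-- PROOF: `rel_of` for every `k`, `star` for the list of the relations (`Finset.univ.toList`) with
`ε / (card K + 1)`; `T`, `T'` are the unions over `k`. -/
theorem star_fam {K : Type} [Finite K] {n : ℕ} (x : K → Fin n → H → ℂ)
    (c : K → Fin n → H →₀ ℂ) (c0 : K → H →₀ ℂ) (hx : ∀ k i, Tame S (x k i))
    (h : ∀ k h, c0 k h + ∑ i, rc (x k i) (c k i) h = 0) (ε : ℝ≥0∞) (hε : ε ≠ 0) :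
    ∃ N : S.Λ → ℕ, (∀ a, 0 < N a) ∧ ∀ A : Sys S N, ∃ T T' : Set A.X.X,
      MeasurableSet T ∧ MeasurableSet T' ∧ A.X.μ T + A.X.μ T' ≤ ε ∧
      ∀ k z, z ∉ T' → ∀ y, c0 k y + ∑ i, rc (trunc A z (x k i)) (c k i) y ≠ 0 → y⁻¹ • z ∈ T := by
  classical
  have hfin := Fintype.ofFinite K
  have hr := fun k => rel_of (x k) (c k) (c0 k) (hx k) (h k)
  choose ρ hρ using hr
  have hε' : ε / (Fintype.card K + 1 : ℕ) ≠ 0 :=
    (ENNReal.div_pos hε (ENNReal.natCast_ne_top _)).ne'
  obtain ⟨N, hN, hA⟩ := star (Finset.univ.toList.map ρ) (ε / (Fintype.card K + 1 : ℕ)) hε'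
  refine ⟨N, hN, fun A => ?_⟩
  have hA' : ∀ k, ∃ T T' : Set A.X.X, MeasurableSet T ∧ MeasurableSet T' ∧
      A.X.μ T + A.X.μ T' ≤ ε / (Fintype.card K + 1 : ℕ) ∧ (ρ k).Good A T T' := fun k =>
    hA A (ρ k) (List.mem_map.2 ⟨k, by simp, rfl⟩)
  choose T T' hT hT' hm hg using hA'
  refine ⟨⋃ k, T k, ⋃ k, T' k, MeasurableSet.iUnion hT, MeasurableSet.iUnion hT', ?_, ?_⟩
  · calc A.X.μ (⋃ k, T k) + A.X.μ (⋃ k, T' k) ≤ (∑ k, A.X.μ (T k)) + ∑ k, A.X.μ (T' k) :=
          add_le_add (measure_iUnion_fintype_le _ _) (measure_iUnion_fintype_le _ _)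
      _ = ∑ k, (A.X.μ (T k) + A.X.μ (T' k)) := Finset.sum_add_distrib.symm
      _ ≤ ∑ _k : K, ε / (Fintype.card K + 1 : ℕ) := Finset.sum_le_sum fun k _ => hm k
      _ = (Fintype.card K : ℝ≥0∞) * (ε / (Fintype.card K + 1 : ℕ)) := by
          rw [Finset.sum_const, Finset.card_univ, nsmul_eq_mul]
      _ ≤ ((Fintype.card K + 1 : ℕ) : ℝ≥0∞) * (ε / (Fintype.card K + 1 : ℕ)) := by
          gcongr
          exact Nat.le_succ _
      _ ≤ ε := ENNReal.mul_div_le
  · intro k z hz y hy
    rw [Set.mem_iUnion]
    refine ⟨k, hg k z (fun h0 => hz (Set.mem_iUnion.2 ⟨k, h0⟩)) y ?_⟩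
    rw [hρ k N A z y]
    exact hy

end Pool.Agent.COST

end
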