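import Pool.Agent.COST.J2

open Set

namespace Pool.Agent.COST

variable {H : Type} [Group H] {S : JS H} {N : S.Λ → ℕ} (A : Sys S N) (z : A.X.X)

theorem trunc_fin {x : H → ℂ} (hx : (Function.support x).Finite) : trunc A z x = x := by
  funext h
  unfold trunc
  split_ifs with hk
  · rfl
  · by_contra hne
    exact hk (Kept.fin x h hx (fun h0 => hne h0.symm))

theorem trunc_zero : trunc A z (0 : H → ℂ) = 0 := trunc_fin A z (by simp)

theorem trunc_ne {x : H → ℂ} {h : H} (hh : trunc A z x h ≠ 0) : Kept A z x h ∧ x h ≠ 0 := by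
  unfold trunc at hh
  split_ifs at hh with hk
  · exact ⟨hk, hh⟩
  · exact absurd rfl hh

open Classical in
theorem trunc_node {x : H → ℂ} (hinf : ¬ (Function.support x).Finite) {p : S.Λ × H}
    (hn : nd S x = some p) (h : H) :
    trunc A z x h = if S.v (h * p.2⁻¹) ≤ p.1 ∧ S.ψ p.1 (h * p.2⁻¹) ≤ A.l p.1 z then
      trunc A z (piece S p.1 p.2 (S.ψ p.1 (h * p.2⁻¹)) x) h else 0 := by
  have hiff : Kept A z x h ↔ (S.v (h * p.2⁻¹) ≤ p.1 ∧ S.ψ p.1 (h * p.2⁻¹) ≤ A.l p.1 z) ∧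
      Kept A z (piece S p.1 p.2 (S.ψ p.1 (h * p.2⁻¹)) x) h := by
    constructor
    · intro hk
      rcases hk with ⟨_, _, hx, hh⟩ | ⟨_, _, a, g, hx, hn', h1, h2, h3⟩
      · exact absurd hx hinf
      · rw [hn] at hn'
        simp only [Option.some.injEq] at hn'
        subst hn'
        exact ⟨⟨h1, h2⟩, h3⟩
    · rintro ⟨⟨h1, h2⟩, h3⟩
      exact Kept.node x h p.1 p.2 hinf hn h1 h2 h3
  unfold trunc
  by_cases hc : S.v (h * p.2⁻¹) ≤ p.1 ∧ S.ψ p.1 (h * p.2⁻¹) ≤ A.l p.1 z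
  · rw [if_pos hc]
    have hp : piece S p.1 p.2 (S.ψ p.1 (h * p.2⁻¹)) x h = x h :=
      piece_of S p.1 p.2 _ x h hc.1 rfl
    by_cases hk : Kept A z x h
    · rw [if_pos hk, if_pos (hiff.mp hk).2, hp]
    · rw [if_neg hk, if_neg fun h3 => hk (hiff.mpr ⟨hc, h3⟩)]
  · rw [if_neg hc, if_neg fun hk => hc (hiff.mp hk).1]

end Pool.Agent.COST
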