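import Pool.Agent.COST.J3
import Pool.Agent.COST.J4

section

open Set

namespace Pool.Agent.COST

variable {H : Type} [Group H] {S : JS H} {N : S.Λ → ℕ}

theorem j5_1_ne {A : Sys S N} {z : A.X.X} {x : H → ℂ} {h : H} (hk : Kept A z x h) : x h ≠ 0 := by
  induction hk with
  | fin x h hx hh => exact hh
  | node x h a g hx hn h1 h2 h3 ih => exact (piece_ne S a g _ x h ih).1

/-- PROOF: induction on `acc_child S hx` (generalize `hx : Tame S x`; pieces stay tame by
`tame_piece` and `nd_isNode`). Finite support: kept points are support points. Infinite support: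
`nd_spec` gives `p`; a kept `h` is a kept point of `piece S p.1 p.2 r x` with
`0 ≤ r = S.ψ p.1 (h * p.2⁻¹) ≤ A.l p.1 z < N p.1`, and this piece is nonzero: by `LocFin` there
are finitely many such `r`, for each of them finitely many `h` by induction. -/
theorem kept_finite (A : Sys S N) {x : H → ℂ} (hx : Tame S x) :
    {h : H | ∃ z, Kept A z x h}.Finite := by
  have hacc := acc_child S hx
  induction hacc with
  | intro x _ ih =>
    by_cases hfin : (Function.support x).Finite
    · refine hfin.subset ?_
      rintro h ⟨z, hk⟩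
      exact j5_1_ne hk
    · obtain ⟨p, hn, hnode⟩ := nd_spec S hx hfin
      have hL : {r : ℝ | r ≤ N p.1 ∧ piece S p.1 p.2 r x ≠ 0}.Finite := hnode.2.1 (N p.1)
      refine (hL.biUnion (t := fun r => {h : H | ∃ z, Kept A z (piece S p.1 p.2 r x) h}) fun r _ => ?_).subset ?_
      · exact ih _ ⟨hfin, p.1, p.2, r, hn, rfl⟩ ((tame_piece S hx p.1 p.2 hnode.1).2 r)
      · rintro h ⟨z, hk⟩
        rcases hk with ⟨_, _, hx', hh⟩ | ⟨_, _, a, g, hx', hn', h1, h2, h3⟩
        · exact absurd hx' hfin
        · rw [hn] at hn'
          simp only [Option.some.injEq] at hn'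
          subst hn'
          rw [Set.mem_iUnion₂]
          refine ⟨_, ⟨h2.trans (A.lt _ z).le, ?_⟩, z, h3⟩
          intro h0
          exact j5_1_ne h3 (by rw [h0]; rfl)

end Pool.Agent.COST

end

section

open Set

namespace Pool.Agent.COST

variable {H : Type} [Group H] {S : JS H} {N : S.Λ → ℕ}

theorem trunc_finite (A : Sys S N) (z : A.X.X) {x : H → ℂ} (hx : Tame S x) :
    (Function.support (trunc A z x)).Finite :=
  (kept_finite A hx).subset fun _ hh => ⟨z, (trunc_ne A z hh).1⟩

end Pool.Agent.COST

end
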