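import Pool.Agent.COST.J13
import Pool.Agent.COST.J12
import Pool.Agent.COST.J5

section

open Set MeasureTheory
open scoped ENNReal

namespace Pool.Agent.COST

open Classical in
/-- the function which is `1` at the identity if `t = t'` -/
noncomputable def kron {H : Type} [Group H] {n : ℕ} (t t' : Fin n) (h : H) : ℂ :=
  if t = t' ∧ h = 1 then 1 else 0

/-- Linear algebra data of a set `W` of vectors over the group algebra: `w` is a basis of the span
of `W` over the division ring of tame functions, `J` are coordinates such that the minor is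
invertible with inverse `B`. -/
structure LinData {H : Type} [Group H] (S : JS H) {I : Type} [Fintype I]
    (W : Set (I → H →₀ ℂ)) where
  /-- rank -/
  r : ℕ
  /-- basis -/
  w : Fin r → I → H →₀ ℂ
  mem : ∀ i, w i ∈ W
  /-- coordinates -/
  J : Fin r → I
  inj : Function.Injective J
  /-- inverse of the minor -/
  B : Fin r → Fin r → H → ℂ
  tameB : ∀ t i, Tame S (B t i)
  hB : ∀ t t' h, ∑ i, rc (B t i) (w i (J t')) h = kron t t' h
  span : ∀ v ∈ W, ∃ d : Fin r → H → ℂ, (∀ i, Tame S (d i)) ∧
    ∀ j h, ∑ i, rc (d i) (w i j) h = v j h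

/-- action of finitely supported functions on functions on an `H`-set -/
noncomputable def fact {H Y : Type} [Group H] [MulAction H Y] (x : H → ℂ) (f : Y → ℂ) (z : Y) : ℂ :=
  ∑ᶠ h : H, x h * f (h⁻¹ • z)

/-- PROOF: both sides are `∑ x u * c s * f (s⁻¹ • u⁻¹ • z)` over `u ∈ supp x`, `s ∈ supp c`;
`rc x c h = ∑ s, x (h * s⁻¹) * c s`, `h = u * s`. Write the `finsum`s as finite sums
(`rc_finite`). -/
theorem fact_rc {H Y : Type} [Group H] [MulAction H Y] {x : H → ℂ}
    (hx : (Function.support x).Finite) (c : H →₀ ℂ) (f : Y → ℂ) (z : Y) :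
    fact (rc x c) f z = fact x (fact (fun h => c h) f) z := by
  have e1 : ∀ u : H, fact (fun h => c h) f (u⁻¹ • z) =
      ∑ s ∈ c.support, c s * f (s⁻¹ • u⁻¹ • z) := by
    intro u
    unfold fact
    refine finsum_eq_sum_of_support_subset _ ?_
    intro s hs
    rw [Finset.mem_coe, Finsupp.mem_support_iff]
    intro h0
    apply hs
    show c s * f (s⁻¹ • u⁻¹ • z) = 0
    rw [h0, zero_mul]
  have e2 : fact x (fact (fun h => c h) f) z =
      ∑ᶠ u : H, ∑ s ∈ c.support, x u * (c s * f (s⁻¹ • u⁻¹ • z)) := by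
    unfold fact
    refine finsum_congr fun u => ?_
    have h1 := e1 u
    unfold fact at h1
    rw [h1, Finset.mul_sum]
  have e3 : fact (rc x c) f z =
      ∑ᶠ h : H, ∑ s ∈ c.support, x (h * s⁻¹) * (c s * f (h⁻¹ • z)) := by
    unfold fact
    refine finsum_congr fun h => ?_
    show (∑ s ∈ c.support, x (h * s⁻¹) * c s) * f (h⁻¹ • z) = _
    rw [Finset.sum_mul]
    exact Finset.sum_congr rfl fun s _ => mul_assoc _ _ _
  rw [e2, e3, finsum_sum_comm, finsum_sum_comm]
  · refine Finset.sum_congr rfl fun s _ => ?_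
    rw [← finsum_comp_equiv (Equiv.mulRight s)]
    refine finsum_congr fun u => ?_
    have h1 : (Equiv.mulRight s) u = u * s := rfl
    have h2 : (u * s)⁻¹ • z = s⁻¹ • u⁻¹ • z := by
      rw [mul_inv_rev, mul_smul]
    rw [h1, h2, mul_inv_cancel_right]
  · intro s _
    refine hx.subset ?_
    intro u hu h0
    apply hu
    show x u * (c s * f (s⁻¹ • u⁻¹ • z)) = 0
    rw [h0, zero_mul]
  · intro s _
    refine (hx.preimage (f := fun h => h * s⁻¹) (fun a _ b _ hab => mul_right_cancel hab)).subset ?_
    intro h hh h0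
    apply hh
    show x (h * s⁻¹) * (c s * f (h⁻¹ • z)) = 0
    have h1 : x (h * s⁻¹) = 0 := h0
    rw [h1, zero_mul]

/-- PROOF: `finsum_add_distrib`, `finsum_sum_comm`; all supports are finite. -/
theorem fact_sum {H Y ι : Type} [Group H] [MulAction H Y] (s : Finset ι) (x : ι → H → ℂ)
    (hx : ∀ i ∈ s, (Function.support (x i)).Finite) (f : Y → ℂ) (z : Y) :
    fact (fun h => ∑ i ∈ s, x i h) f z = ∑ i ∈ s, fact (x i) f z := by
  unfold fact
  rw [← finsum_sum_comm]
  · exact finsum_congr fun h => Finset.sum_mul _ _ _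
  · intro i hi
    refine (hx i hi).subset ?_
    intro u hu h0
    apply hu
    show x i u * f (u⁻¹ • z) = 0
    rw [h0, zero_mul]

theorem fact_sum' {H Y ι : Type} [Group H] [MulAction H Y] (s : Finset ι) {x : H → ℂ}
    (hx : (Function.support x).Finite) (f : ι → Y → ℂ) (z : Y) :
    fact x (fun y => ∑ i ∈ s, f i y) z = ∑ i ∈ s, fact x (f i) z := by
  unfold fact
  rw [← finsum_sum_comm]
  · exact finsum_congr fun h => Finset.mul_sum _ _ _
  · intro i _
    refine hx.subset ?_
    intro u hu h0
    apply hu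
    show x u * f i (u⁻¹ • z) = 0
    rw [h0, zero_mul]

end Pool.Agent.COST

end

section

open Set MeasureTheory
open scoped ENNReal

namespace Pool.Agent.COST

/-- the pure algebra: the coordinate `t` is determined by the equations -/
theorem k0_2_alg {H Y I : Type} [Group H] [MulAction H Y] [Fintype I] {n : ℕ}
    (w : Fin n → I → H →₀ ℂ) (J : Fin n → I) (hJ : Function.Injective J) (b : Fin n → H → ℂ)
    (hb : ∀ i, (Function.support (b i)).Finite) (φ : I → Y → ℂ)
    (h1 : ∀ i z, ∑ j, fact (fun h => w i j h) (φ j) z = 0)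
    (h0 : ∀ j, j ∉ Set.range J → φ j = 0) (t : Fin n) (z : Y)
    (h2 : ∀ t' y, (∑ i, rc (b i) (w i (J t')) y) * φ (J t') (y⁻¹ • z) =
      kron t t' y * φ (J t') (y⁻¹ • z)) : φ (J t) z = 0 := by
  classical
  have hfin : ∀ t' i, (Function.support (rc (b i) (w i (J t')))).Finite := fun t' i =>
    rc_finite (hb i) _
  have ea : ∑ t', ∑ i, fact (rc (b i) (w i (J t'))) (φ (J t')) z = φ (J t) z := by
    have e1 : ∀ t', ∑ i, fact (rc (b i) (w i (J t'))) (φ (J t')) z =
        if t = t' then φ (J t') z else 0 := by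
      intro t'
      rw [← fact_sum Finset.univ (fun i => rc (b i) (w i (J t'))) (fun i _ => hfin t' i)]
      unfold fact
      rw [finsum_congr (h2 t')]
      by_cases htt : t = t'
      · rw [if_pos htt, finsum_eq_single _ (1 : H)]
        · unfold kron
          rw [if_pos ⟨htt, rfl⟩, one_mul, inv_one, one_smul]
        · intro y hy
          unfold kron
          rw [if_neg (fun hc => hy hc.2), zero_mul]
      · rw [if_neg htt]
        have e2 : ∀ y : H, kron t t' y * φ (J t') (y⁻¹ • z) = 0 := by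
          intro y
          unfold kron
          rw [if_neg (fun hc => htt hc.1), zero_mul]
        rw [finsum_congr e2, finsum_zero]
    rw [Finset.sum_congr rfl fun t' _ => e1 t', Finset.sum_ite_eq Finset.univ t,
      if_pos (Finset.mem_univ _)]
  have hz : ∀ (c : H → ℂ) (y : Y), fact c (0 : Y → ℂ) y = 0 := by
    intro c y
    unfold fact
    have e2 : ∀ h : H, c h * (0 : Y → ℂ) (h⁻¹ • y) = 0 := fun h => mul_zero _
    rw [finsum_congr e2, finsum_zero]
  have eb : ∑ t', ∑ i, fact (rc (b i) (w i (J t'))) (φ (J t')) z = 0 := by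
    rw [Finset.sum_comm]
    refine Finset.sum_eq_zero fun i _ => ?_
    have e1 : ∀ t', fact (rc (b i) (w i (J t'))) (φ (J t')) z =
        fact (b i) (fact (fun h => w i (J t') h) (φ (J t'))) z := fun t' =>
      fact_rc (hb i) _ _ _
    rw [Finset.sum_congr rfl fun t' _ => e1 t',
      ← fact_sum' Finset.univ (hb i) (fun t' => fact (fun h => w i (J t') h) (φ (J t')))]
    have e2 : (fun y => ∑ t', fact (fun h => w i (J t') h) (φ (J t')) y) = (0 : Y → ℂ) := by
      funext y
      have e3 : ∑ t', fact (fun h => w i (J t') h) (φ (J t')) y =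
          ∑ j ∈ Finset.univ.image J, fact (fun h => w i j h) (φ j) y := by
        rw [Finset.sum_image (fun a _ b _ hab => hJ hab)]
      have e4 : ∑ j ∈ Finset.univ.image J, fact (fun h => w i j h) (φ j) y =
          ∑ j, fact (fun h => w i j h) (φ j) y := by
        refine Finset.sum_subset (Finset.subset_univ _) ?_
        intro j _ hj
        have h3 : φ j = 0 := by
          apply h0
          rintro ⟨t', ht'⟩
          exact hj (Finset.mem_image.2 ⟨t', Finset.mem_univ _, ht'⟩)
        rw [h3]
        exact hz _ _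
      show ∑ t', fact (fun h => w i (J t') h) (φ (J t')) y = 0
      rw [e3, e4, h1]
    rw [e2]
    exact hz _ _
  rw [← ea, eb]

/-- Uniqueness. PROOF. Families of equations indexed by `(t, t')`:
`- kron t t' + ∑ i, rc (B t i) (w i (J t')) = 0` (a Finsupp `c0 = - single 1 1` or `0`).
`star_fam` with `ε' = ε / (r + 1)` gives `N`, `sys_exists` a system `A` and sets `T`, `T'`.
Put `X = A.X`, `T_i = T ∪ T'` if `i = J t` for some `t`, and `T_i = univ` otherwise. The sum of the
measures is at most `(|I| - r) + r * ε'`, so `∑ μ (T_i) + r ≤ |I| + ε`.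
Let `Y`, `π`, `φ` be as in the statement, `z : Y`. `φ i = 0` for `i` not in the range of `J`. For
`i = J t`: if `π z ∈ T'` then `φ i z = 0`. Otherwise put `b i = trunc A (π z) (B t i)` (finite
support, `trunc_finite`). Then `∑ t', ∑ i, fact (rc (b i) (w i (J t'))) (φ (J t')) z` is on the
one hand (`fact_rc`, `fact_sum'`, the coordinates outside `J` may be added since their `φ` is `0`)
`∑ i, fact (b i) (fun y => ∑ j, fact (w i j) (φ j) y) z = 0`. On the other hand for each `t'`
`∑ i, rc (b i) (w i (J t')) = kron t t' + err`, where `err y ≠ 0` implies `y⁻¹ • π z ∈ T`,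
i.e. `π (y⁻¹ • z) ∈ T`, so `φ (J t') (y⁻¹ • z) = 0`: the sum is `φ (J t) z`. -/
theorem m1 {H : Type} [Group H] [Countable H] {S : JS H} {I : Type} [Fintype I]
    {W : Set (I → H →₀ ℂ)} (D : LinData S W) (ε : ℝ≥0∞) (hε : ε ≠ 0) :
    ∃ (X : PMP H) (T : I → Set X.X), (∀ i, MeasurableSet (T i)) ∧
      ∑ i, X.μ (T i) + D.r ≤ Fintype.card I + ε ∧
      ∀ (Y : Type) [MulAction H Y] (π : Y → X.X), (∀ (g : H) (y : Y), π (g • y) = g • π y) →
        ∀ φ : I → Y → ℂ,
          (∀ w ∈ W, ∀ z, ∑ i, fact (fun h => w i h) (φ i) z = 0) →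
          (∀ i z, π z ∈ T i → φ i z = 0) → ∀ i z, φ i z = 0 := by
  classical
  have hε' : ε / ((D.r : ℝ≥0∞) + 1) ≠ 0 := by
    refine ENNReal.div_ne_zero.2 ⟨hε, ?_⟩
    exact ENNReal.add_ne_top.2 ⟨ENNReal.natCast_ne_top _, ENNReal.one_ne_top⟩
  obtain ⟨N, hN, hA⟩ := star_fam (S := S) (K := Fin D.r × Fin D.r) (n := D.r)
    (fun k i => D.B k.1 i) (fun k i => D.w i (D.J k.2))
    (fun k => if k.1 = k.2 then -Finsupp.single (1 : H) (1 : ℂ) else 0)
    (fun k i => D.tameB k.1 i) (by
      intro k h
      rw [D.hB]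
      unfold kron
      by_cases hk : k.1 = k.2
      · rw [if_pos hk]
        by_cases hh : h = 1
        · rw [if_pos ⟨hk, hh⟩, hh, Finsupp.neg_apply, Finsupp.single_eq_same]
          ring
        · rw [if_neg (fun hc => hh hc.2), Finsupp.neg_apply, Finsupp.single_apply,
            if_neg (fun hc => hh hc.symm)]
          ring
      · rw [if_neg hk, if_neg (fun hc => hk hc.1), Finsupp.zero_apply, add_zero])
    (ε / ((D.r : ℝ≥0∞) + 1)) hε'
  obtain ⟨A⟩ := sys_exists S N hN
  obtain ⟨T0, T1, hT0, hT1, hμ, hgood⟩ := hA A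
  refine ⟨A.X, fun i => if i ∈ Set.range D.J then T0 ∪ T1 else Set.univ, ?_, ?_, ?_⟩
  · intro i
    show MeasurableSet (if i ∈ Set.range D.J then T0 ∪ T1 else Set.univ)
    split_ifs
    · exact hT0.union hT1
    · exact MeasurableSet.univ
  · have e1 : ∑ i, A.X.μ (if i ∈ Set.range D.J then T0 ∪ T1 else Set.univ) =
        (D.r : ℝ≥0∞) * A.X.μ (T0 ∪ T1) + (((Finset.univ.image D.J)ᶜ.card : ℕ) : ℝ≥0∞) := by
      rw [← Finset.sum_add_sum_compl (Finset.univ.image D.J)]
      congr 1
      · have e2 : ∀ i ∈ Finset.univ.image D.J,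
            A.X.μ (if i ∈ Set.range D.J then T0 ∪ T1 else Set.univ) = A.X.μ (T0 ∪ T1) := by
          intro i hi
          obtain ⟨t, _, ht⟩ := Finset.mem_image.1 hi
          rw [if_pos ⟨t, ht⟩]
        rw [Finset.sum_congr rfl e2, Finset.sum_const, Finset.card_image_of_injective _ D.inj,
          Finset.card_univ, Fintype.card_fin, nsmul_eq_mul]
      · have e2 : ∀ i ∈ (Finset.univ.image D.J)ᶜ,
            A.X.μ (if i ∈ Set.range D.J then T0 ∪ T1 else Set.univ) = 1 := by
          intro i hi
          rw [Finset.mem_compl] at hi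
          rw [if_neg, measure_univ]
          rintro ⟨t, ht⟩
          exact hi (Finset.mem_image.2 ⟨t, Finset.mem_univ _, ht⟩)
        rw [Finset.sum_congr rfl e2, Finset.sum_const, nsmul_eq_mul, mul_one]
    have e3 : (Finset.univ.image D.J)ᶜ.card + D.r = Fintype.card I := by
      have h1 := Finset.card_compl_add_card (Finset.univ.image D.J)
      rw [Finset.card_image_of_injective _ D.inj, Finset.card_univ, Fintype.card_fin] at h1
      exact h1
    have e4 : (D.r : ℝ≥0∞) * A.X.μ (T0 ∪ T1) ≤ ε := by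
      have h1 : A.X.μ (T0 ∪ T1) ≤ ε / ((D.r : ℝ≥0∞) + 1) := (measure_union_le _ _).trans hμ
      calc (D.r : ℝ≥0∞) * A.X.μ (T0 ∪ T1)
          ≤ ((D.r : ℝ≥0∞) + 1) * (ε / ((D.r : ℝ≥0∞) + 1)) := by
            refine mul_le_mul' ?_ h1
            exact le_self_add
        _ = ε := by
            refine ENNReal.mul_div_cancel ?_ ?_
            · exact (lt_of_lt_of_le zero_lt_one le_add_self).ne'
            · exact ENNReal.add_ne_top.2 ⟨ENNReal.natCast_ne_top _, ENNReal.one_ne_top⟩
    rw [e1, add_assoc]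
    have e5 : (((Finset.univ.image D.J)ᶜ.card : ℕ) : ℝ≥0∞) + (D.r : ℝ≥0∞) =
        (Fintype.card I : ℝ≥0∞) := by
      rw [← Nat.cast_add, e3]
    rw [e5, add_comm]
    exact add_le_add le_rfl e4
  · intro Y _ π hπ φ hφ hT
    have h0 : ∀ j, j ∉ Set.range D.J → φ j = 0 := by
      intro j hj
      funext z
      refine hT j z ?_
      show π z ∈ (if j ∈ Set.range D.J then T0 ∪ T1 else Set.univ)
      rw [if_neg hj]
      exact Set.mem_univ _
    have hmem : ∀ t z, π z ∈ T0 ∪ T1 → φ (D.J t) z = 0 := by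
      intro t z hz
      refine hT (D.J t) z ?_
      show π z ∈ (if D.J t ∈ Set.range D.J then T0 ∪ T1 else Set.univ)
      rw [if_pos ⟨t, rfl⟩]
      exact hz
    intro i z
    by_cases hi : i ∈ Set.range D.J
    · obtain ⟨t, rfl⟩ := hi
      by_cases hz : π z ∈ T1
      · exact hmem t z (Or.inr hz)
      · refine k0_2_alg D.w D.J D.inj (fun i => trunc A (π z) (D.B t i))
          (fun i => trunc_finite A (π z) (D.tameB t i)) φ (fun i z => hφ _ (D.mem i) z) h0 t z ?_
        intro t' y
        by_cases hy : y⁻¹ • π z ∈ T0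
        · have h3 : φ (D.J t') (y⁻¹ • z) = 0 := by
            apply hmem
            rw [hπ]
            exact Or.inl hy
          rw [h3, mul_zero, mul_zero]
        · congr 1
          have h4 := hgood (t, t') (π z) hz y
          have h5 : (if (t, t').1 = (t, t').2 then -Finsupp.single (1 : H) (1 : ℂ) else 0) y +
              ∑ i, rc (trunc A (π z) (D.B t i)) (D.w i (D.J t')) y = 0 := by
            by_contra hne
            exact hy (h4 hne)
          have h6 : (if (t, t').1 = (t, t').2 then -Finsupp.single (1 : H) (1 : ℂ) else 0) y =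
              - kron t t' y := by
            unfold kron
            by_cases hk : t = t'
            · rw [if_pos hk]
              by_cases hh : y = 1
              · rw [if_pos ⟨hk, hh⟩, hh, Finsupp.neg_apply, Finsupp.single_eq_same]
              · rw [if_neg (fun hc => hh hc.2), Finsupp.neg_apply, Finsupp.single_apply,
                  if_neg (fun hc => hh hc.symm)]
            · rw [if_neg hk, if_neg (fun hc => hk hc.1), Finsupp.zero_apply, neg_zero]
          rw [h6] at h5
          linear_combination h5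
    · rw [h0 i hi]
      rfl

end Pool.Agent.COST

end
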