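import Pool.Agent.COST.E3
import Pool.Agent.COST.K0

section

open scoped ENNReal InnerProductSpace
open MeasureTheory

namespace Pool.Agent.COST

open Classical in
/-- a vector over the group algebra as a finitely supported function on `H × I` -/
noncomputable def vecF {H I : Type} [Fintype I] (w : I → H →₀ ℂ) : H × I →₀ ℂ :=
  Finsupp.onFinset (Finset.univ.biUnion fun i => (w i).support.image fun h => (h, i))
    (fun p => w p.2 p.1) (by
      rintro ⟨h, i⟩ hne
      simp only [Finset.mem_biUnion, Finset.mem_univ, true_and, Finset.mem_image,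
        Finsupp.mem_support_iff]
      exact ⟨i, h, hne, rfl⟩)

theorem vecF_apply {H I : Type} [Fintype I] (w : I → H →₀ ℂ) (h : H) (i : I) :
    vecF w (h, i) = w i h := rfl

theorem e4_1_sq {Ω : Type} (V : Submodule ℂ (L2 Ω)) (x : L2 Ω) :
    ‖V.topologicalClosure.starProjection x‖ ^ 2 =
      ‖x‖ ^ 2 - ‖x - V.topologicalClosure.starProjection x‖ ^ 2 := by
  have h1 := Submodule.norm_sq_eq_add_norm_sq_starProjection x V.topologicalClosure
  rw [Submodule.starProjection_orthogonal_val] at h1
  linarith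

theorem e4_1_near {Ω : Type} (V : Submodule ℂ (L2 Ω)) (x v : L2 Ω) (hv : v ∈ V) :
    ‖x - V.topologicalClosure.starProjection x‖ ≤ ‖x - v‖ := by
  rw [Submodule.starProjection_minimal]
  exact ciInf_le ⟨0, by rintro _ ⟨y, rfl⟩; exact norm_nonneg _⟩
    (⟨v, V.le_topologicalClosure hv⟩ : V.topologicalClosure)

/-- monotonicity. PROOF: `‖P_V x‖ ≤ ‖P_V' x‖` for closed `V ≤ V'`
(`Submodule.topologicalClosure_mono`, `P_V x = P_V (P_V' x)`). -/
theorem vd_mono {H J : Type} [Group H] [Fintype J] {V V' : Submodule ℂ (L2 (H × J))}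
    (h : V ≤ V') : vd V ≤ vd V' := by
  apply Finset.sum_le_sum
  intro j _
  have h1 := Submodule.starProjection_comp_starProjection_of_le
    (Submodule.topologicalClosure_mono h)
  have h2 : V.topologicalClosure.starProjection (dl ((1 : H), j)) =
      V.topologicalClosure.starProjection
        (V'.topologicalClosure.starProjection (dl ((1 : H), j))) := by
    conv_lhs => rw [← h1]
    rfl
  have h3 : ‖V.topologicalClosure.starProjection (dl ((1 : H), j))‖ ≤
      ‖V'.topologicalClosure.starProjection (dl ((1 : H), j))‖ := by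
    rw [h2]
    exact Submodule.norm_starProjection_apply_le _ _
  gcongr

/-- PROOF: `P_V (dl (1, i))` lies in the closure of `V`; choose `v i ∈ V` with
`‖P_V (dl (1, i)) - v i‖ ≤ δ`. If `v i ∈ V'` for all `i` then
`‖dl - P_V' dl‖ ≤ ‖dl - v i‖ ≤ ‖dl - P_V dl‖ + δ` (`P_V'` is the nearest point of the closure of
`V'`), and `‖P x‖ ^ 2 = ‖x‖ ^ 2 - ‖x - P x‖ ^ 2`, all norms are `≤ 1`:
`‖P_V dl‖ ^ 2 ≤ ‖P_V' dl‖ ^ 2 + 2 δ + δ ^ 2`. Sum over `i`, choose `δ` small. -/
theorem vd_approx {H J : Type} [Group H] [Fintype J] (V : Submodule ℂ (L2 (H × J))) (η : ℝ)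
    (hη : 0 < η) : ∃ v : J → L2 (H × J), (∀ i, v i ∈ V) ∧
      ∀ V' : Submodule ℂ (L2 (H × J)), (∀ i, v i ∈ V') → vd V ≤ vd V' + η := by
  let δ : ℝ := min 1 (η / (3 * (Fintype.card J + 1)))
  have hδ : 0 < δ := lt_min one_pos (by positivity)
  have hδ1 : δ ≤ 1 := min_le_left _ _
  have hδ2 : δ ≤ η / (3 * (Fintype.card J + 1)) := min_le_right _ _
  have h1 : ∀ i : J, ∃ v ∈ V,
      dist (V.topologicalClosure.starProjection (dl ((1 : H), i))) v < δ := by
    intro i
    have h2 : V.topologicalClosure.starProjection (dl ((1 : H), i)) ∈ V.topologicalClosure :=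
      Submodule.starProjection_apply_mem _ _
    exact Metric.mem_closure_iff.mp h2 δ hδ
  choose v hv hvd using h1
  refine ⟨v, hv, ?_⟩
  intro V' hV'
  have key : ∀ i : J, ‖V.topologicalClosure.starProjection (dl ((1 : H), i))‖ ^ 2 ≤
      ‖V'.topologicalClosure.starProjection (dl ((1 : H), i))‖ ^ 2 + 3 * δ := by
    intro i
    rw [e4_1_sq, e4_1_sq, norm_dl]
    have h3 := e4_1_near V' (dl ((1 : H), i)) (v i) (hV' i)
    have h4 : ‖dl ((1 : H), i) - v i‖ ≤
        ‖dl ((1 : H), i) - V.topologicalClosure.starProjection (dl ((1 : H), i))‖ + δ := by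
      have h5 := hvd i
      rw [dist_eq_norm] at h5
      calc ‖dl ((1 : H), i) - v i‖ = ‖(dl ((1 : H), i) -
            V.topologicalClosure.starProjection (dl ((1 : H), i))) +
            (V.topologicalClosure.starProjection (dl ((1 : H), i)) - v i)‖ := by
              rw [sub_add_sub_cancel]
        _ ≤ _ := (norm_add_le _ _).trans (by linarith)
    have h6 : ‖dl ((1 : H), i) - V.topologicalClosure.starProjection (dl ((1 : H), i))‖ ≤ 1 := by
      have h7 := e4_1_near V (dl ((1 : H), i)) 0 V.zero_mem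
      rw [sub_zero, norm_dl] at h7
      exact h7
    have h8 := norm_nonneg (dl ((1 : H), i) - V.topologicalClosure.starProjection (dl ((1 : H), i)))
    have h9 := norm_nonneg (dl ((1 : H), i) -
      V'.topologicalClosure.starProjection (dl ((1 : H), i)))
    nlinarith
  have h10 := Finset.sum_le_sum fun (i : J) (_ : i ∈ Finset.univ) => key i
  rw [Finset.sum_add_distrib, Finset.sum_const, Finset.card_univ, nsmul_eq_mul] at h10
  have h11 : (Fintype.card J : ℝ) * (3 * δ) ≤ η := by
    have h12 : (0 : ℝ) ≤ Fintype.card J := Nat.cast_nonneg _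
    rw [le_div_iff₀ (by positivity)] at hδ2
    nlinarith
  unfold vd
  linarith

end Pool.Agent.COST

end

section

open scoped ENNReal InnerProductSpace
open MeasureTheory

namespace Pool.Agent.COST

theorem e4_2_rc {H : Type} [Group H] {x : H → ℂ} (hx : (Function.support x).Finite) (c : H →₀ ℂ)
    (y : H) : rc x c y = ∑ u ∈ hx.toFinset, x u * c (u⁻¹ * y) := by
  classical
  have h1 : rc x c y = ∑ᶠ s : H, x (y * s⁻¹) * c s := by
    rw [finsum_eq_sum_of_support_subset (s := c.support)]
    · rfl
    · intro s hs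
      rw [Finset.mem_coe, Finsupp.mem_support_iff]
      intro h0
      apply hs
      change x (y * s⁻¹) * c s = 0
      rw [h0, mul_zero]
  have h2 : ∑ᶠ s : H, x (y * s⁻¹) * c s = ∑ᶠ u : H, x u * c (u⁻¹ * y) := by
    rw [← finsum_comp_equiv ((Equiv.inv H).trans (Equiv.mulLeft y))
      (f := fun u => x u * c (u⁻¹ * y))]
    apply finsum_congr
    intro s
    change x (y * s⁻¹) * c s = x (y * s⁻¹) * c ((y * s⁻¹)⁻¹ * y)
    have h3 : (y * s⁻¹)⁻¹ * y = s := by group
    rw [h3]
  rw [h1, h2, finsum_eq_sum_of_support_subset]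
  intro u hu
  rw [Set.Finite.coe_toFinset]
  intro h0
  apply hu
  change x u * c (u⁻¹ * y) = 0
  rw [h0, zero_mul]

/-- The inclusion. PROOF. Evaluate both sides at `(k, j)` with `k = g * y`:
the left side is `v j y` where `y = g⁻¹ * k`. By `hv`, `v j y = ∑ i, rc (b i) (w i j) y - err j y`
where `err j y := - v j y + ∑ i, rc (b i) (w i j) y`, and
`rc (b i) (w i j) y = ∑ u ∈ supp (b i), b i u * w i j (u⁻¹ * y)`. So
`tr g (toL2 (vecF v)) = ∑ i, ∑ u ∈ supp (b i), b i u • tr (g * u) (toL2 (vecF (w i)))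
- ∑ j, ∑ y ∈ F, err j y • dl (g * y, j)` with `F` a finite set containing the supports of all
`err j` (finite: `rc_finite`). The first elements are in the span by `h1`. If `err j y ≠ 0` then
`dl (g * y, j) = tr (g * y) (dl (1, j))` is in the span by `h2`. -/
theorem m2_incl {H I : Type} [Group H] [Fintype I] {r : ℕ} (w : Fin r → I → H →₀ ℂ)
    (v : I → H →₀ ℂ) (b : Fin r → H → ℂ) (hb : ∀ i, (Function.support (b i)).Finite) (g : H)
    (N : Submodule ℂ (L2 (H × I))) (h1 : ∀ i u, tr (g * u) (toL2 (vecF (w i))) ∈ N)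
    (h2 : ∀ j y, - v j y + ∑ i, rc (b i) (w i j) y ≠ 0 → dl (g * y, j) ∈ N) :
    tr g (toL2 (vecF v)) ∈ N := by
  classical
  let err : I → H → ℂ := fun j y => - v j y + ∑ i, rc (b i) (w i j) y
  have hfin : (⋃ j : I, ((v j).support : Set H) ∪ ⋃ i : Fin r,
      Function.support (rc (b i) (w i j))).Finite := by
    apply Set.finite_iUnion
    intro j
    exact (v j).support.finite_toSet.union (Set.finite_iUnion fun i => rc_finite (hb i) (w i j))
  let K : Finset H := hfin.toFinset
  have hK : ∀ j y, y ∉ K → err j y = 0 := by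
    intro j y hy
    have h3 : y ∉ (⋃ j : I, ((v j).support : Set H) ∪ ⋃ i : Fin r,
      Function.support (rc (b i) (w i j))) := fun h => hy (hfin.mem_toFinset.mpr h)
    rw [Set.mem_iUnion] at h3
    push Not at h3
    have h4 := h3 j
    rw [Set.mem_union] at h4
    push Not at h4
    obtain ⟨h5, h6⟩ := h4
    rw [Set.mem_iUnion] at h6
    push Not at h6
    have h7 : v j y = 0 := by
      by_contra h
      exact h5 (Finset.mem_coe.mpr (Finsupp.mem_support_iff.mpr h))
    have h8 : ∀ i, rc (b i) (w i j) y = 0 := by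
      intro i
      by_contra h
      exact h6 i h
    change - v j y + ∑ i, rc (b i) (w i j) y = 0
    rw [h7, Finset.sum_eq_zero fun i _ => h8 i]
    simp
  have key : tr g (toL2 (vecF v)) = ∑ i, ∑ u ∈ (hb i).toFinset,
      b i u • tr (g * u) (toL2 (vecF (w i))) - ∑ j, ∑ y ∈ K, err j y • dl (g * y, j) := by
    apply L2.ext
    rintro ⟨k, j⟩
    have e1 : (∑ i, ∑ u ∈ (hb i).toFinset, b i u • tr (g * u) (toL2 (vecF (w i))) :
        L2 (H × I)) (k, j) = ∑ i, rc (b i) (w i j) (g⁻¹ * k) := by
      rw [lp.coeFn_sum, Finset.sum_apply]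
      apply Finset.sum_congr rfl
      intro i _
      rw [lp.coeFn_sum, Finset.sum_apply, e4_2_rc (hb i)]
      apply Finset.sum_congr rfl
      intro u _
      change b i u * (tr (g * u) (toL2 (vecF (w i)))) (k, j) = _
      rw [tr_toL2, vecF_apply, mul_inv_rev, mul_assoc]
    have e2 : (∑ j', ∑ y ∈ K, err j' y • dl (g * y, j') : L2 (H × I)) (k, j) =
        err j (g⁻¹ * k) := by
      rw [lp.coeFn_sum, Finset.sum_apply, Finset.sum_eq_single j]
      · rw [lp.coeFn_sum, Finset.sum_apply]
        by_cases hy : g⁻¹ * k ∈ K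
        · rw [Finset.sum_eq_single (g⁻¹ * k)]
          · change err j (g⁻¹ * k) * (dl (g * (g⁻¹ * k), j) : L2 (H × I)) (k, j) = _
            rw [mul_inv_cancel_left, dl_self, mul_one]
          · intro y _ hne
            change err j y * (dl (g * y, j) : L2 (H × I)) (k, j) = 0
            rw [dl_ne, mul_zero]
            intro h
            apply hne
            have h3 := congrArg Prod.fst h
            change k = g * y at h3
            rw [h3, inv_mul_cancel_left]
          · intro h
            exact absurd hy h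
        · rw [hK j _ hy]
          apply Finset.sum_eq_zero
          intro y hyK
          change err j y * (dl (g * y, j) : L2 (H × I)) (k, j) = 0
          rw [dl_ne, mul_zero]
          intro h
          apply hy
          have h3 := congrArg Prod.fst h
          change k = g * y at h3
          rw [h3, inv_mul_cancel_left]
          exact hyK
      · intro j' _ hne
        rw [lp.coeFn_sum, Finset.sum_apply]
        apply Finset.sum_eq_zero
        intro y _
        change err j' y * (dl (g * y, j') : L2 (H × I)) (k, j) = 0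
        rw [dl_ne, mul_zero]
        intro h
        exact hne (congrArg Prod.snd h).symm
      · intro h
        exact absurd (Finset.mem_univ _) h
    rw [lp.coeFn_sub, Pi.sub_apply, e1, e2, tr_toL2, vecF_apply]
    change v j (g⁻¹ * k) = ∑ i, rc (b i) (w i j) (g⁻¹ * k) -
      (- v j (g⁻¹ * k) + ∑ i, rc (b i) (w i j) (g⁻¹ * k))
    ring
  rw [key]
  apply N.sub_mem
  · exact N.sum_mem fun i _ => N.sum_mem fun u _ => N.smul_mem _ (h1 i u)
  · refine N.sum_mem fun j _ => N.sum_mem fun y _ => ?_
    by_cases hy : err j y = 0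
    · rw [hy, zero_smul]
      exact N.zero_mem
    · exact N.smul_mem _ (h2 j y hy)

end Pool.Agent.COST

end

section

open scoped ENNReal InnerProductSpace
open MeasureTheory

namespace Pool.Agent.COST

/-- Dimension bound for the span. PROOF. Let `V` be the span; let `η > 0`. `vd_approx` gives
vectors `v i ∈ V`; they lie in the span `V'` of `tr g (toL2 (vecF w))`, `g : H`, `w ∈ F`, for a
finite `F ⊆ W` (`Submodule.mem_span_iff_exists_finset_subset` or induction). So
`vd V ≤ vd V' + η`. For every `v ∈ F` choose `d v : Fin r → H → ℂ` with `D.span`. Apply `star_fam`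
to the relations `- v j + ∑ i, rc (d v i) (w i j) = 0` indexed by `(v, j)`, `v ∈ F`, `j : I`, and
`ε' = η / (|F| + |I| + 1)`; `sys_exists` gives a system `A`, and sets `T`, `T'`. Apply `gen` with
`X = A.X` and the generators: `vecF (w i)` on `univ` (`i : Fin r`), `vecF v` on `T'` (`v ∈ F`),
`Finsupp.single (1, j) 1` on `T` (`j : I`). Hypothesis of `gen` for `V'` at `z`: let `v ∈ F`,
`g : H`. If `g⁻¹ • z ∈ T'` it is a generator. Otherwise use `m2_incl` with
`b i = trunc A (g⁻¹ • z) (d v i)` (finite support: `trunc_finite`); `h2`: if the error at `y` is not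
`0` then `y⁻¹ • g⁻¹ • z ∈ T`, so `(g * y)⁻¹ • z ∈ T` and `dl (g * y, j) = tr (g * y) (dl (1, j))` is
a generator. Result: `vd V' ≤ r + |F| * μ T' + |I| * μ T ≤ r + η`, so `vd V ≤ r + 2 η`. -/
theorem m2 {H : Type} [Group H] [Countable H] {S : JS H} {I : Type} [Fintype I]
    {W : Set (I → H →₀ ℂ)} (D : LinData S W) :
    vd (Submodule.span ℂ {f : L2 (H × I) | ∃ w ∈ W, ∃ g : H, f = tr g (toL2 (vecF w))}) ≤ D.r := by
  classical
  apply le_of_forall_pos_le_add
  intro η hη
  obtain ⟨v, hv, happ⟩ := vd_approx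
    (Submodule.span ℂ {f : L2 (H × I) | ∃ w ∈ W, ∃ g : H, f = tr g (toL2 (vecF w))}) (η / 2)
    (by positivity)
  -- a finite part
  have h1 : ∀ i, ∃ T : Finset (L2 (H × I)),
      (T : Set (L2 (H × I))) ⊆ {f : L2 (H × I) | ∃ w ∈ W, ∃ g : H, f = tr g (toL2 (vecF w))} ∧
      v i ∈ Submodule.span ℂ (T : Set (L2 (H × I))) := by
    intro i
    exact Submodule.mem_span_finite_of_mem_span (hv i)
  choose U0 hU0 hU1 using h1
  let U : Finset (L2 (H × I)) := Finset.univ.biUnion U0
  have hU : ∀ t : U, ∃ w ∈ W, ∃ g : H, (t : L2 (H × I)) = tr g (toL2 (vecF w)) := by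
    rintro ⟨t, ht⟩
    obtain ⟨i, _, hi⟩ := Finset.mem_biUnion.mp ht
    exact hU0 i hi
  choose wK hwK gK hgK using hU
  let V' : Submodule ℂ (L2 (H × I)) :=
    Submodule.span ℂ {f : L2 (H × I) | ∃ t : U, ∃ g : H, f = tr g (toL2 (vecF (wK t)))}
  have hvV' : ∀ i, v i ∈ V' := by
    intro i
    refine Submodule.span_mono ?_ (hU1 i)
    intro t ht
    have h2 : t ∈ U := Finset.mem_biUnion.mpr ⟨i, Finset.mem_univ _, ht⟩
    exact ⟨⟨t, h2⟩, gK ⟨t, h2⟩, hgK ⟨t, h2⟩⟩
  have hV' := happ V' hvV'
  -- coefficients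
  have h3 : ∀ t : U, ∃ d : Fin D.r → H → ℂ, (∀ i, Tame S (d i)) ∧
      ∀ j h, ∑ i, rc (d i) (D.w i j) h = wK t j h := fun t => D.span (wK t) (hwK t)
  choose dK hdK hdK2 using h3
  let ε : ℝ := η / 2 / (Fintype.card U + Fintype.card I + 1)
  have hε : 0 < ε := by positivity
  obtain ⟨N, hN, hstar⟩ := star_fam (S := S) (K := U × I) (n := D.r)
    (fun k i => dK k.1 i) (fun k i => D.w i k.2) (fun k => - wK k.1 k.2)
    (fun k i => hdK k.1 i) (by
      rintro ⟨t, j⟩ h
      change - wK t j h + ∑ i, rc (dK t i) (D.w i j) h = 0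
      rw [hdK2 t j h]
      ring) (ENNReal.ofReal ε) (by simpa using hε)
  obtain ⟨A⟩ := sys_exists S N hN
  obtain ⟨T, T', hT, hT', hμ, hgood⟩ := hstar A
  have hgen := gen (S := Fin D.r ⊕ U ⊕ I) A.X
    (Sum.elim (fun i => vecF (D.w i)) (Sum.elim (fun t => vecF (wK t))
      (fun j => Finsupp.single ((1 : H), j) 1)))
    (Sum.elim (fun _ => Set.univ) (Sum.elim (fun _ => T') (fun _ => T))) (by
      rintro (i | t | j)
      · exact MeasurableSet.univ
      · exact hT'
      · exact hT) V' (by
      intro z x hx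
      apply subset_closure
      refine (?_ : V' ≤ _) hx
      rw [Submodule.span_le]
      rintro _ ⟨t, g, rfl⟩
      by_cases hz : g⁻¹ • z ∈ T'
      · exact Submodule.subset_span ⟨g, Sum.inr (Sum.inl t), hz, rfl⟩
      · refine m2_incl D.w (wK t) (fun i => trunc A (g⁻¹ • z) (dK t i))
          (fun i => trunc_finite A _ (hdK t i)) g _ ?_ ?_
        · intro i u
          exact Submodule.subset_span ⟨g * u, Sum.inl i, trivial, rfl⟩
        · intro j y hy
          have h4 := hgood (t, j) (g⁻¹ • z) hz y hy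
          refine Submodule.subset_span ⟨g * y, Sum.inr (Sum.inr j), ?_, ?_⟩
          · change (g * y)⁻¹ • z ∈ T
            rw [mul_inv_rev, mul_smul]
            exact h4
          · change dl (g * y, j) = tr (g * y) (toL2 (Finsupp.single ((1 : H), j) 1))
            rw [toL2_single, one_smul, tr_dl, mul_one])
  have hμ2 : (A.X.μ T).toReal ≤ ε ∧ (A.X.μ T').toReal ≤ ε := by
    constructor
    · apply ENNReal.toReal_le_of_le_ofReal hε.le
      exact le_self_add.trans hμ
    · apply ENNReal.toReal_le_of_le_ofReal hε.le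
      exact le_add_self.trans hμ
  have hsum : ∑ s : Fin D.r ⊕ U ⊕ I, (A.X.μ (Sum.elim (fun _ => Set.univ)
      (Sum.elim (fun _ => T') (fun _ => T)) s)).toReal ≤ D.r + η / 2 := by
    rw [Fintype.sum_sum_type, Fintype.sum_sum_type]
    simp only [Sum.elim_inl, Sum.elim_inr, measure_univ, ENNReal.toReal_one, Finset.sum_const,
      Finset.card_univ, Fintype.card_fin, nsmul_eq_mul, mul_one]
    have h5 : (Fintype.card U : ℝ) * (A.X.μ T').toReal + (Fintype.card I : ℝ) * (A.X.μ T).toReal ≤
        η / 2 := by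
      calc (Fintype.card U : ℝ) * (A.X.μ T').toReal + (Fintype.card I : ℝ) * (A.X.μ T).toReal
          ≤ (Fintype.card U : ℝ) * ε + (Fintype.card I : ℝ) * ε := by
            gcongr
            · exact hμ2.2
            · exact hμ2.1
        _ = (Fintype.card U + Fintype.card I) * ε := by ring
        _ ≤ (Fintype.card U + Fintype.card I + 1) * ε := by
            apply mul_le_mul_of_nonneg_right _ hε.le
            linarith
        _ = η / 2 := by
            change (Fintype.card U + Fintype.card I + 1 : ℝ) *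
              (η / 2 / (Fintype.card U + Fintype.card I + 1)) = η / 2
            field_simp
    linarith
  linarith

end Pool.Agent.COST

end
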