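import Pool.Agent.COST.E3

section

open scoped ENNReal InnerProductSpace
open MeasureTheory

namespace Pool.Agent.COST

/-- Square summable 1-cycles of the Cayley graph with respect to the tuple `s`: the edge
`(g, j)` goes from `g` to `g * s j`. -/
noncomputable def cycles {G : Type} [Group G] {d : ℕ} (s : Fin d → G) :
    Submodule ℂ (L2 (G × Fin d)) where
  carrier := {f | ∀ g : G, ∑ j, (f (g * (s j)⁻¹, j) - f (g, j)) = 0}
  add_mem' := by
    intro a b ha hb g
    have h : ∀ p : G × Fin d, (a + b : L2 (G × Fin d)) p = a p + b p := fun p => rfl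
    simp only [h]
    have h1 : ∑ j, (a (g * (s j)⁻¹, j) + b (g * (s j)⁻¹, j) - (a (g, j) + b (g, j))) =
        ∑ j, (a (g * (s j)⁻¹, j) - a (g, j)) + ∑ j, (b (g * (s j)⁻¹, j) - b (g, j)) := by
      rw [← Finset.sum_add_distrib]
      apply Finset.sum_congr rfl
      intro j _
      ring
    rw [h1, ha g, hb g, add_zero]
  zero_mem' := by
    intro g
    have h : ∀ p : G × Fin d, (0 : L2 (G × Fin d)) p = 0 := fun p => rfl
    simp [h]
  smul_mem' := by
    intro c a ha g
    have h : ∀ p : G × Fin d, (c • a : L2 (G × Fin d)) p = c * a p := fun p => rfl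
    simp only [h]
    rw [← Finset.sum_congr rfl fun j _ => mul_sub c (a (g * (s j)⁻¹, j)) (a (g, j)),
      ← Finset.mul_sum, ha g, mul_zero]

/-- Finitely supported 1-cycles. -/
noncomputable def finCycles {G : Type} [Group G] {d : ℕ} (s : Fin d → G) :
    Submodule ℂ (L2 (G × Fin d)) where
  carrier := {f | f ∈ cycles s ∧ (Function.support (f : G × Fin d → ℂ)).Finite}
  add_mem' := by
    rintro a b ⟨ha, ha'⟩ ⟨hb, hb'⟩
    refine ⟨(cycles s).add_mem ha hb, (ha'.union hb').subset ?_⟩
    exact Function.support_add (a : G × Fin d → ℂ) (b : G × Fin d → ℂ)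
  zero_mem' := by
    refine ⟨(cycles s).zero_mem, ?_⟩
    have h : ((0 : L2 (G × Fin d)) : G × Fin d → ℂ) = 0 := rfl
    rw [h, Function.support_zero]
    exact Set.finite_empty
  smul_mem' := by
    rintro c a ⟨ha, ha'⟩
    refine ⟨(cycles s).smul_mem c ha, ha'.subset ?_⟩
    exact Function.support_const_smul_subset c (a : G × Fin d → ℂ)

/-- First l2-Betti number of the group generated by `s`: von Neumann dimension of the square
summable cycles minus that of the closure of the finitely supported cycles. -/
noncomputable def bettiOne {G : Type} [Group G] {d : ℕ} (s : Fin d → G) : ℝ :=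
  vd (cycles s) - vd (finCycles s)

/-- PROOF. Let `ζ = ∑ j, (single ((s j)⁻¹, j) 1 - single (1, j) 1)`, a finitely supported
function. `⟪tr g (toL2 ζ), f⟫ = ∑ j, (f (g * (s j)⁻¹, j) - f (g, j))` (`tr_dl`, `inner_dl`). So
`cycles s` is the orthogonal complement of `U = span {tr g (toL2 ζ)}`, it is closed and
`‖P_U x‖ ^ 2 + ‖P_(cycles) x‖ ^ 2 = ‖x‖ ^ 2` for the closure of `U`. `gen` for the one point space
`PMP.point G`, `S = Unit`, `A = univ` gives `vd U ≤ 1`. Hence `vd (cycles s) = d - vd U ≥ d - 1`. -/
theorem cycles_lower {G : Type} [Group G] [Countable G] {d : ℕ} (s : Fin d → G) :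
    (d : ℝ) - 1 ≤ vd (cycles s) := by
  classical
  let ζ : G × Fin d →₀ ℂ :=
    ∑ j, (Finsupp.single ((s j)⁻¹, j) 1 - Finsupp.single ((1 : G), j) 1)
  let U : Submodule ℂ (L2 (G × Fin d)) :=
    Submodule.span ℂ {f : L2 (G × Fin d) | ∃ g : G, f = tr g (toL2 ζ)}
  have hζ : toL2 ζ = ∑ j, (dl ((s j)⁻¹, j) - dl ((1 : G), j)) := by
    let T : (G × Fin d →₀ ℂ) →+ L2 (G × Fin d) := AddMonoidHom.mk' toL2 toL2_add
    have h1 : toL2 ζ = T ζ := rfl
    rw [h1]
    change T (∑ j, (Finsupp.single ((s j)⁻¹, j) 1 - Finsupp.single ((1 : G), j) 1)) = _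
    rw [map_sum]
    apply Finset.sum_congr rfl
    intro j _
    rw [map_sub]
    change toL2 (Finsupp.single ((s j)⁻¹, j) 1) - toL2 (Finsupp.single ((1 : G), j) 1) = _
    rw [toL2_single, toL2_single, one_smul, one_smul]
  have hinner : ∀ (g : G) (f : L2 (G × Fin d)), ⟪tr g (toL2 ζ), f⟫_ℂ =
      ∑ j, (f (g * (s j)⁻¹, j) - f (g, j)) := by
    intro g f
    rw [hζ, map_sum, sum_inner]
    apply Finset.sum_congr rfl
    intro j _
    rw [map_sub, tr_dl, tr_dl, inner_sub_left, inner_dl, inner_dl, mul_one]
  have hU1 : vd U ≤ 1 := by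
    have h1 := gen (S := Unit) (PMP.point G) (fun _ => ζ) (fun _ => Set.univ)
      (fun _ => MeasurableSet.univ) U (by
        intro z v hv
        apply subset_closure
        refine Submodule.span_mono ?_ hv
        rintro _ ⟨g, rfl⟩
        exact ⟨g, (), trivial, rfl⟩)
    simpa using h1
  have hperp : cycles s ≤ U.topologicalClosureᗮ := by
    rw [Submodule.orthogonal_closure]
    intro f hf
    rw [Submodule.mem_orthogonal]
    intro u hu
    refine Submodule.span_induction (p := fun u _ => ⟪u, f⟫_ℂ = 0) ?_ ?_ ?_ ?_ hu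
    · rintro _ ⟨g, rfl⟩
      rw [hinner]
      exact hf g
    · exact inner_zero_left _
    · intro x y _ _ hx hy
      rw [inner_add_left, hx, hy, add_zero]
    · intro a x _ hx
      rw [inner_smul_left, hx, mul_zero]
  have hperp2 : U.topologicalClosureᗮ ≤ cycles s := by
    intro f hf g
    rw [← hinner]
    exact Submodule.inner_right_of_mem_orthogonal
      (U.le_topologicalClosure (Submodule.subset_span ⟨g, rfl⟩)) hf
  have hclosed : (cycles s).topologicalClosure ≤ U.topologicalClosureᗮ :=
    Submodule.topologicalClosure_minimal _ hperp (Submodule.isClosed_orthogonal _)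
  have key : ∀ x : L2 (G × Fin d), ‖(cycles s).topologicalClosure.starProjection x‖ ^ 2 =
      ‖x‖ ^ 2 - ‖U.topologicalClosure.starProjection x‖ ^ 2 := by
    intro x
    have h1 : (cycles s).topologicalClosure.starProjection x =
        x - U.topologicalClosure.starProjection x := by
      apply Submodule.eq_starProjection_of_mem_of_inner_eq_zero
      · apply Submodule.le_topologicalClosure
        apply hperp2
        exact Submodule.sub_starProjection_mem_orthogonal x
      · intro w hw
        rw [sub_sub_cancel]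
        exact Submodule.inner_right_of_mem_orthogonal (Submodule.starProjection_apply_mem _ _)
          (hclosed hw)
    have h2 := Submodule.norm_sq_eq_add_norm_sq_starProjection x U.topologicalClosure
    rw [Submodule.starProjection_orthogonal_val] at h2
    rw [h1]
    linarith
  have h3 : vd (cycles s) = d - vd U := by
    unfold vd
    rw [Finset.sum_congr rfl fun j _ => key (dl ((1 : G), j)), Finset.sum_sub_distrib]
    simp only [norm_dl, one_pow, Finset.sum_const, Finset.card_univ, Fintype.card_fin,
      nsmul_eq_mul, mul_one]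
  rw [h3]
  linarith

end Pool.Agent.COST

end

section

open scoped ENNReal InnerProductSpace
open MeasureTheory

namespace Pool.Agent.COST

/-- PROOF: `tr g f` satisfies the same equations (shift of the argument) and has finite support. -/
theorem finCycles_tr {G : Type} [Group G] {d : ℕ} (s : Fin d → G) (g : G) (f : L2 (G × Fin d))
    (hf : f ∈ finCycles s) : tr g f ∈ finCycles s := by
  obtain ⟨h1, h2⟩ := hf
  refine ⟨?_, ?_⟩
  · intro k
    have h3 := h1 (g⁻¹ * k)
    rw [← h3]
    apply Finset.sum_congr rfl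
    intro j _
    rw [tr_apply, tr_apply, mul_assoc]
  · have h3 : Function.Injective (fun p : G × Fin d => ((g⁻¹ * p.1, p.2) : G × Fin d)) := by
      rintro ⟨a, j⟩ ⟨b, j'⟩ hab
      have h4 := congrArg Prod.fst hab
      have h5 := congrArg Prod.snd hab
      change g⁻¹ * a = g⁻¹ * b at h4
      change j = j' at h5
      rw [mul_left_cancel h4, h5]
    refine (h2.preimage h3.injOn).subset ?_
    rintro ⟨a, j⟩ hp
    change f (g⁻¹ * a, j) ≠ 0
    rw [← tr_apply]
    exact hp

theorem e5_2_closure {G J : Type} [Group G] (U : Submodule ℂ (L2 (G × J)))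
    (hU : ∀ (g : G) (f : L2 (G × J)), f ∈ U → tr g f ∈ U) (g : G) (f : L2 (G × J))
    (hf : f ∈ U.topologicalClosure) : tr g f ∈ U.topologicalClosure :=
  map_mem_closure (tr g).continuous hf fun x hx => hU g x hx

/-- PROOF: `tr g` is a unitary which maps the closure of `U` onto itself, so it commutes with the
projection (`LinearIsometry.map_starProjection` or uniqueness of the projection), and
`dl (g, j) = tr g (dl (1, j))`. -/
theorem proj_tr {G J : Type} [Group G] (U : Submodule ℂ (L2 (G × J)))
    (hU : ∀ (g : G) (f : L2 (G × J)), f ∈ U → tr g f ∈ U) (g : G) (j : J) :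
    ‖U.topologicalClosure.starProjection (dl (g, j))‖ =
      ‖U.topologicalClosure.starProjection (dl ((1 : G), j))‖ := by
  have h1 : U.topologicalClosure.starProjection (dl (g, j)) =
      tr g (U.topologicalClosure.starProjection (dl ((1 : G), j))) := by
    apply Submodule.eq_starProjection_of_mem_of_inner_eq_zero
    · exact e5_2_closure U hU g _ (Submodule.starProjection_apply_mem _ _)
    · intro w hw
      have h2 : (dl (g, j) : L2 (G × J)) = tr g (dl ((1 : G), j)) := by
        rw [tr_dl, mul_one]
      have h3 : w = tr g (tr g⁻¹ w) := by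
        rw [← tr_mul, mul_inv_cancel, tr_one]
      rw [h2, ← map_sub, h3, LinearIsometryEquiv.inner_map_map]
      exact Submodule.starProjection_inner_eq_zero _ _ (e5_2_closure U hU g⁻¹ w hw)
  rw [h1, LinearIsometryEquiv.norm_map]

end Pool.Agent.COST

end

section

open scoped ENNReal InnerProductSpace
open MeasureTheory

namespace Pool.Agent.COST

/-- left cosets coordinates: `g = h * c.out⁻¹` -/
noncomputable def cosEquiv {G : Type} [Group G] (H : Subgroup G) : G ≃ H × (G ⧸ H) where
  toFun g := (⟨g * ((g⁻¹ : G) : G ⧸ H).out, by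
    have h := QuotientGroup.out_eq' ((g⁻¹ : G) : G ⧸ H)
    have h2 := QuotientGroup.eq.mp h.symm
    simpa using h2⟩, ((g⁻¹ : G) : G ⧸ H))
  invFun p := (p.1 : G) * p.2.out⁻¹
  left_inv g := by simp
  right_inv := by
    rintro ⟨h, c⟩
    have hc : (((h : G) * c.out⁻¹)⁻¹ : G) = ((c.out * (h : G)⁻¹ : G)) := by group
    have hc2 : ((((h : G) * c.out⁻¹)⁻¹ : G) : G ⧸ H) = c := by
      rw [hc]
      conv_rhs => rw [← QuotientGroup.out_eq' c]
      rw [QuotientGroup.eq]
      simp
    apply Prod.ext
    · apply Subtype.ext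
      change (h : G) * c.out⁻¹ * ((((h : G) * c.out⁻¹)⁻¹ : G) : G ⧸ H).out = h
      rw [hc2]
      group
    · exact hc2

theorem cosEquiv_mul {G : Type} [Group G] (H : Subgroup G) (k : H) (g : G) :
    cosEquiv H ((k : G) * g) = (k * (cosEquiv H g).1, (cosEquiv H g).2) := by
  have h1 : ((((k : G) * g)⁻¹ : G) : G ⧸ H) = ((g⁻¹ : G) : G ⧸ H) := by
    rw [QuotientGroup.eq]
    simp
  apply Prod.ext
  · apply Subtype.ext
    change (k : G) * g * ((((k : G) * g)⁻¹ : G) : G ⧸ H).out = (k : G) * (g * ((g⁻¹ : G) : G ⧸ H).out)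
    rw [h1, mul_assoc]
  · exact h1

/-- the bijection of the index sets -/
noncomputable def idxEquiv {G : Type} [Group G] (H : Subgroup G) (d : ℕ) :
    G × Fin d ≃ H × (Fin d × (G ⧸ H)) where
  toFun p := ((cosEquiv H p.1).1, (p.2, (cosEquiv H p.1).2))
  invFun q := ((cosEquiv H).symm (q.1, q.2.2), q.2.1)
  left_inv p := by simp
  right_inv q := by simp

theorem e5_3_proj {Ω Ω' : Type} (R : L2 Ω ≃ₗᵢ[ℂ] L2 Ω') (U : Submodule ℂ (L2 Ω)) (x : L2 Ω) :
    ‖(U.map R.toLinearEquiv.toLinearMap).topologicalClosure.starProjection (R x)‖ =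
      ‖U.topologicalClosure.starProjection x‖ := by
  have h1 : (U.map R.toLinearEquiv.toLinearMap).topologicalClosure.starProjection (R x) =
      R (U.topologicalClosure.starProjection x) := by
    apply Submodule.eq_starProjection_of_mem_of_inner_eq_zero
    · exact map_mem_closure (t := (U.map R.toLinearEquiv.toLinearMap : Set (L2 Ω'))) R.continuous
        (Submodule.starProjection_apply_mem U.topologicalClosure x)
        (fun y hy => ⟨y, hy, rfl⟩)
    · intro w hw
      have h2 : R.symm w ∈ U.topologicalClosure :=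
        map_mem_closure (t := (U : Set (L2 Ω))) R.symm.continuous hw (by
          rintro _ ⟨y, hy, rfl⟩
          change R.symm (R y) ∈ U
          rw [LinearIsometryEquiv.symm_apply_apply]
          exact hy)
      have h3 : w = R (R.symm w) := (R.apply_symm_apply w).symm
      rw [← map_sub, h3, LinearIsometryEquiv.inner_map_map]
      exact Submodule.starProjection_inner_eq_zero _ _ h2
  rw [h1, LinearIsometryEquiv.norm_map]

/-- PROOF: `reix` is a unitary, so it maps the projection to the projection
(`LinearIsometry.map_starProjection` or `starProjection_map_apply`; the closure of the image is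
the image of the closure). `dl (1, (j, c)) = reix (idxEquiv H d) (dl (c.out⁻¹, j))`, `proj_tr`, and the
number of cosets is `H.index`. -/
theorem vd_index {G : Type} [Group G] (H : Subgroup G) [H.FiniteIndex] [Fintype (G ⧸ H)] {d : ℕ}
    (U : Submodule ℂ (L2 (G × Fin d)))
    (hU : ∀ (g : G) (f : L2 (G × Fin d)), f ∈ U → tr g f ∈ U) :
    vd (U.map (reix (idxEquiv H d)).toLinearEquiv.toLinearMap) = H.index * vd U := by
  have h1 : ∀ (j : Fin d) (c : G ⧸ H), (dl ((1 : H), (j, c)) : L2 (H × (Fin d × (G ⧸ H)))) =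
      reix (idxEquiv H d) (dl (c.out⁻¹, j)) := by
    intro j c
    rw [reix_dl]
    apply congrArg
    have h2 : (idxEquiv H d).symm ((1 : H), (j, c)) = (c.out⁻¹, j) := by
      change ((1 : H) * c.out⁻¹, j) = (c.out⁻¹, j)
      simp
    rw [← h2, Equiv.apply_symm_apply]
  have h3 : (Fintype.card (G ⧸ H) : ℝ) = H.index := by
    rw [← Nat.card_eq_fintype_card (α := G ⧸ H), ← Subgroup.index_eq_card]
  unfold vd
  rw [Fintype.sum_prod_type, Finset.mul_sum]
  apply Finset.sum_congr rfl
  intro j _
  rw [Finset.sum_congr rfl fun c _ => by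
    rw [h1 j c, e5_3_proj, proj_tr U hU], Finset.sum_const, Finset.card_univ, nsmul_eq_mul, h3]

end Pool.Agent.COST

end
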