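import Pool.Agent.COST.Walk

open MeasureTheory Set
open scoped ENNReal

namespace Pool.Agent.COST

/-- graphing by restrictions of group elements -/
noncomputable def Graphing.ofFam {G : Type} [Group G] (α : StdAction G) (g : ℕ → G)
    (S : ℕ → Set α.X) (hS : ∀ i, MeasurableSet (S i))
    (hgen : ∀ᵐ x ∂α.μ, ∀ k : G,
      Relation.EqvGen (fun a b => ∃ i, a ∈ S i ∧ b = g i • a) x (k • x)) : Graphing α where
  A := S
  B := fun i => (fun y => (g i)⁻¹ • y) ⁻¹' (S i)
  φ := fun i x => g i • x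
  measA := hS
  measB := fun i => (α.mp (g i)⁻¹).measurable (hS i)
  meas := fun i => (α.mp (g i)).measurable
  bij := fun i => by
    refine ⟨?_, ?_, ?_⟩
    · intro x hx
      change (g i)⁻¹ • g i • x ∈ S i
      rwa [inv_smul_smul]
    · intro x _ y _ hxy
      exact smul_left_cancel (g i) hxy
    · intro y hy
      exact ⟨(g i)⁻¹ • y, hy, smul_inv_smul _ _⟩
  pres := fun i E _ hE => by
    have : (fun x => g i • x) '' E = (fun y => (g i)⁻¹ • y) ⁻¹' E := by
      ext y
      constructor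
      · rintro ⟨x, hx, rfl⟩
        change (g i)⁻¹ • g i • x ∈ E
        rwa [inv_smul_smul]
      · intro hy
        exact ⟨(g i)⁻¹ • y, hy, smul_inv_smul _ _⟩
    rw [this]
    exact (α.mp (g i)⁻¹).measure_preimage hE.nullMeasurableSet
  rel := fun i x _ => ⟨g i, rfl⟩
  gen := hgen

theorem cost_le_fam {G : Type} [Group G] (α : StdAction G) {J : Type} [Countable J] (g : J → G)
    (S : J → Set α.X) (hS : ∀ j, MeasurableSet (S j))
    (hgen : ∀ᵐ x ∂α.μ, ∀ k : G,
      Relation.EqvGen (fun a b => ∃ j, a ∈ S j ∧ b = g j • a) x (k • x)) :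
    α.cost ≤ ∑' j, α.μ (S j) := by
  classical
  obtain ⟨enc, henc⟩ := Countable.exists_injective_nat J
  let dec : ℕ → Option J := fun i => if h : ∃ j, enc j = i then some h.choose else none
  have hdec : ∀ j, dec (enc j) = some j := by
    intro j
    have h : ∃ j', enc j' = enc j := ⟨j, rfl⟩
    simp only [dec, h, dif_pos]
    exact congrArg some (henc h.choose_spec)
  have hdec2 : ∀ i, i ∉ range enc → dec i = none := by
    intro i hi
    have h : ¬ ∃ j, enc j = i := fun ⟨j, hj⟩ => hi ⟨j, hj⟩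
    simp only [dec, h]
    simp
  let g' : ℕ → G := fun i => (dec i).elim 1 g
  let S' : ℕ → Set α.X := fun i => (dec i).elim ∅ S
  have hg' : ∀ j, g' (enc j) = g j := fun j => by simp only [g', hdec]; rfl
  have hS' : ∀ j, S' (enc j) = S j := fun j => by simp only [S', hdec]; rfl
  have hSm : ∀ i, MeasurableSet (S' i) := by
    intro i
    by_cases hi : i ∈ range enc
    · obtain ⟨j, rfl⟩ := hi
      rw [hS']
      exact hS j
    · have : S' i = ∅ := by simp only [S', hdec2 i hi]; rfl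
      rw [this]
      exact MeasurableSet.empty
  have hgen' : ∀ᵐ x ∂α.μ, ∀ k : G,
      Relation.EqvGen (fun a b => ∃ i, a ∈ S' i ∧ b = g' i • a) x (k • x) := by
    filter_upwards [hgen] with x hx k
    refine Relation.EqvGen.mono ?_ _ _ (hx k)
    rintro a b ⟨j, hj, rfl⟩
    exact ⟨enc j, by rw [hS']; exact hj, by rw [hg']⟩
  have h1 : α.cost ≤ (Graphing.ofFam α g' S' hSm hgen').cost := iInf_le _ _
  refine h1.trans (le_of_eq ?_)
  change ∑' i, α.μ (S' i) = _
  have h2 := henc.tsum_eq (f := fun i => α.μ (S' i)) (by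
    intro i hi
    by_contra hi'
    apply hi
    have : S' i = ∅ := by simp only [S', hdec2 i hi']; rfl
    simp [this])
  rw [← h2]
  simp only [hS']

/-- Splitting of a graphing into restrictions of group elements. -/
theorem Graphing.split {H : Type} [Group H] [Countable H] {Y : StdAction H} (Φ : Graphing Y) :
    ∃ D : ℕ × H → Set Y.X, (∀ j, MeasurableSet (D j)) ∧ (∑' j, Y.μ (D j) = Φ.cost) ∧
      ∀ i, ∀ y ∈ Φ.A i, ∃ h : H, y ∈ D (i, h) ∧ h • y = Φ.φ i y := by
  classical
  obtain ⟨enc, henc⟩ := Countable.exists_injective_nat H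
  let E : ℕ → H → Set Y.X := fun i h => {y | h • y = Φ.φ i y}
  have hE : ∀ i h, MeasurableSet (E i h) := fun i h =>
    measurableSet_eq_fun (Y.mp h).measurable (Φ.meas i)
  let D : ℕ × H → Set Y.X := fun j => (Φ.A j.1 ∩ E j.1 j.2) \ ⋃ h' : {h' : H // enc h' < enc j.2}, E j.1 h'.1
  have hD : ∀ j, MeasurableSet (D j) := by
    intro j
    refine ((Φ.measA _).inter (hE _ _)).diff (MeasurableSet.iUnion fun h' => hE _ _)
  have hex : ∀ i, ∀ y ∈ Φ.A i, ∃ h : H, y ∈ D (i, h) ∧ h • y = Φ.φ i y := by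
    intro i y hy
    have hne : ∃ n, ∃ h, enc h = n ∧ h • y = Φ.φ i y := by
      obtain ⟨h, hh⟩ := Φ.rel i y hy
      exact ⟨enc h, h, rfl, hh⟩
    obtain ⟨h, hn, hh⟩ := Nat.find_spec hne
    refine ⟨h, ⟨⟨hy, hh⟩, ?_⟩, hh⟩
    simp only [mem_iUnion, not_exists]
    rintro ⟨h', hlt⟩ hmem
    exact Nat.find_min hne (by rw [← hn]; exact hlt) ⟨h', rfl, hmem⟩
  refine ⟨D, hD, ?_, hex⟩
  rw [ENNReal.tsum_prod']
  unfold Graphing.cost
  apply tsum_congr
  intro i
  have hunion : Φ.A i = ⋃ h : H, D (i, h) := by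
    ext y
    simp only [mem_iUnion]
    constructor
    · intro hy
      obtain ⟨h, hh, _⟩ := hex i y hy
      exact ⟨h, hh⟩
    · rintro ⟨h, hh⟩
      exact hh.1.1
  rw [hunion, measure_iUnion]
  · intro h h' hne
    rw [Function.onFun, Set.disjoint_left]
    intro y hy hy'
    rcases lt_trichotomy (enc h) (enc h') with hlt | heq | hlt
    · exact hy'.2 (mem_iUnion.mpr ⟨⟨h, hlt⟩, hy.1.2⟩)
    · exact hne (henc heq)
    · exact hy.2 (mem_iUnion.mpr ⟨⟨h', hlt⟩, hy'.1.2⟩)
  · intro h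
    exact hD _

/-- Lifting paths. -/
theorem lift_path {H X Y : Type} [Group H] [MulAction H X] [MulAction H Y] (π : X → Y)
    (hπ : ∀ (h : H) z, π (h • z) = h • π z) (rY : Y → Y → Prop) (r : X → X → Prop)
    (hr : Equivalence r)
    (hrel : ∀ a b, rY a b → ∃ h : H, b = h • a ∧ ∀ z, π z = a → r z (h • z)) :
    ∀ a b, Relation.EqvGen rY a b → ∃ h : H, b = h • a ∧ ∀ z, π z = a → r z (h • z) := by
  intro a b hab
  induction hab with
  | rel a b h => exact hrel a b h
  | refl a => exact ⟨1, by simp, fun z _ => by rw [one_smul]; exact hr.refl z⟩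
  | symm a b _ ih =>
    obtain ⟨h, rfl, hz⟩ := ih
    refine ⟨h⁻¹, by rw [inv_smul_smul], fun z hπz => ?_⟩
    have := hz (h⁻¹ • z) (by rw [hπ, hπz, inv_smul_smul])
    rw [smul_inv_smul] at this
    exact hr.symm this
  | trans a b c _ _ ih1 ih2 =>
    obtain ⟨h, rfl, hz⟩ := ih1
    obtain ⟨h', rfl, hz'⟩ := ih2
    refine ⟨h' * h, by rw [mul_smul], fun z hπz => ?_⟩
    have a1 := hz z hπz
    have a2 := hz' (h • z) (by rw [hπ, hπz])
    rw [mul_smul]
    exact hr.trans a1 a2

end Pool.Agent.COST
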