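import Pool.Agent.COST.E4
import Pool.Agent.COST.E5
import Pool.Agent.COST.Lift

section

open scoped ENNReal InnerProductSpace
open MeasureTheory

namespace Pool.Agent.COST

/-- the finite space of cosets -/
theorem e6_1_quot {G : Type} [Group G] (H : Subgroup G) [H.FiniteIndex] :
    ∃ (X : PMP G) (q : X.X → G ⧸ H), (∀ (g : G) x, q (g • x) = g • q x) ∧
      ∀ c, MeasurableSet {x | q x = c} ∧ X.μ {x | q x = c} = (H.index : ℝ≥0∞)⁻¹ := by
  classical
  let _ : MeasurableSpace (G ⧸ H) := ⊤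
  let _ : Fintype (G ⧸ H) := Fintype.ofFinite _
  have hd : DiscreteMeasurableSpace (G ⧸ H) := ⟨fun _ => trivial⟩
  have hm0 : H.index ≠ 0 := Subgroup.FiniteIndex.index_ne_zero
  have hcard : Fintype.card (G ⧸ H) = H.index := by
    rw [Subgroup.index_eq_card, Nat.card_eq_fintype_card]
  refine ⟨{ X := G ⧸ H, ms := ⊤, sb := inferInstance, act := inferInstance,
            μ := ((H.index : ℝ≥0∞)⁻¹) • (@Measure.count (G ⧸ H) ⊤),
            prob := ?_, mp := ?_ }, id, ?_, ?_⟩
  · refine ⟨?_⟩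
    change (H.index : ℝ≥0∞)⁻¹ * Measure.count (Set.univ : Set (G ⧸ H)) = 1
    rw [Measure.count_apply MeasurableSet.univ]
    rw [Set.encard_univ, ENat.card_eq_coe_fintype_card, hcard]
    simp only [ENat.toENNReal_coe]
    exact ENNReal.inv_mul_cancel (by simpa using hm0) (by simp)
  · intro g
    refine ⟨measurable_from_top, ?_⟩
    ext t ht
    rw [Measure.map_apply measurable_from_top ht]
    change (H.index : ℝ≥0∞)⁻¹ * Measure.count _ = (H.index : ℝ≥0∞)⁻¹ * Measure.count t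
    apply congrArg
    rw [Measure.count_apply ht, Measure.count_apply MeasurableSpace.measurableSet_top]
    apply congrArg
    exact Set.encard_preimage_of_bijective (MulAction.bijective g) t
  · intro g x
    rfl
  · intro c
    refine ⟨trivial, ?_⟩
    change (H.index : ℝ≥0∞)⁻¹ * Measure.count {x : G ⧸ H | x = c} = _
    rw [show {x : G ⧸ H | x = c} = {c} from rfl, Measure.count_singleton, mul_one]

/-- The space. PROOF. The finite set `G ⧸ H` with the discrete σ-algebra, the left action and the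
uniform probability measure (compare `PMP.cyc`) is a `PMP G`; take
`α = PMP.toStd (PMP.prod (PMP.coind H Y) quot)`, `q` = the projection to `G ⧸ H`, `p` = the projection
to the co-induced space followed by `PMP.coind_proj`. The measure of
`{q x = 1, p x ∈ A}` is the product of the measures of the two conditions, because the measure of a
product space is the product measure. -/
theorem ind_space {G : Type} [Group G] [Countable G] (H : Subgroup G) [H.FiniteIndex]
    (Y : PMP H) :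
    ∃ (α : StdAction G) (q : α.X → G ⧸ H) (p : α.X → Y.X), (∀ (g : G) x, q (g • x) = g • q x) ∧
      (∀ (k : H) x, p ((k : G) • x) = k • p x) ∧
      ∀ A : Set Y.X, MeasurableSet A →
        MeasurableSet {x | q x = ((1 : G) : G ⧸ H) ∧ p x ∈ A} ∧
        α.μ {x | q x = ((1 : G) : G ⧸ H) ∧ p x ∈ A} = (H.index : ℝ≥0∞)⁻¹ * Y.μ A := by
  obtain ⟨X, q, hq, hμ⟩ := e6_1_quot H
  obtain ⟨p, hp1, hp2⟩ := PMP.coind_proj H Y
  obtain ⟨F⟩ := PMP.toStd_fac (PMP.prod (PMP.coind H Y) X)
  refine ⟨PMP.toStd (PMP.prod (PMP.coind H Y) X), fun x => q (F.f x).2, fun x => p (F.f x).1,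
    ?_, ?_, ?_⟩
  · intro g x
    have h1 := F.eqv g x
    change q (F.f (g • x)).2 = g • q (F.f x).2
    rw [h1, ← hq]
    rfl
  · intro k x
    have h1 := F.eqv (k : G) x
    change p (F.f ((k : G) • x)).1 = k • p (F.f x).1
    rw [h1, ← hp2]
    rfl
  · intro A hA
    have hset : {x | q (F.f x).2 = ((1 : G) : G ⧸ H) ∧ p (F.f x).1 ∈ A} =
        F.f ⁻¹' ((p ⁻¹' A) ×ˢ {x | q x = ((1 : G) : G ⧸ H)}) := by
      ext x
      simp only [Set.mem_setOf_eq, Set.mem_preimage, Set.mem_prod]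
      exact and_comm
    have hm : MeasurableSet ((p ⁻¹' A) ×ˢ {x | q x = ((1 : G) : G ⧸ H)}) :=
      (hp1.measurable hA).prod (hμ _).1
    have hm2 : MeasurableSet {x | q (F.f x).2 = ((1 : G) : G ⧸ H) ∧ p (F.f x).1 ∈ A} := by
      rw [hset]
      exact F.mp.measurable hm
    refine ⟨hm2, ?_⟩
    change (PMP.toStd (PMP.prod (PMP.coind H Y) X)).μ
      {x | q (F.f x).2 = ((1 : G) : G ⧸ H) ∧ p (F.f x).1 ∈ A} = _
    rw [hset, F.mp.measure_preimage hm.nullMeasurableSet]
    change ((PMP.coind H Y).μ.prod X.μ) _ = _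
    rw [Measure.prod_prod, hp1.measure_preimage hA.nullMeasurableSet, (hμ _).2, mul_comm]

end Pool.Agent.COST

end

section

open scoped ENNReal InnerProductSpace
open MeasureTheory

namespace Pool.Agent.COST

/-- finite cycles as vectors over the group algebra of the subgroup -/
def wcyc {G : Type} [Group G] (H : Subgroup G) {d : ℕ} (s : Fin d → G) :
    Set (Fin d × (G ⧸ H) → H →₀ ℂ) :=
  {w | ∀ g : G, ∑ j, (w (j, (cosEquiv H (g * (s j)⁻¹)).2) (cosEquiv H (g * (s j)⁻¹)).1 -
    w (j, (cosEquiv H g).2) (cosEquiv H g).1) = 0}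

/-- PROOF: `w (j, c) h = f ((cosEquiv H).symm (h, c), j)` (finite support), then
`reix (idxEquiv H d) f = toL2 (vecF w)` by evaluation (`reix_apply`, `toL2_apply`), and `w ∈ wcyc`
by the cycle equation. -/
theorem fin_wcyc {G : Type} [Group G] (H : Subgroup G) [Fintype (G ⧸ H)] {d : ℕ} (s : Fin d → G)
    (f : L2 (G × Fin d)) (hf : f ∈ finCycles s) :
    ∃ w ∈ wcyc H s, reix (idxEquiv H d) f = toL2 (vecF w) := by
  obtain ⟨h1, h2⟩ := hf
  have hfin : ∀ i : Fin d × (G ⧸ H),
      (Function.support fun h : H => f ((cosEquiv H).symm (h, i.2), i.1)).Finite := by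
    intro i
    refine Set.Finite.of_finite_image (f := fun h : H => ((cosEquiv H).symm (h, i.2), i.1))
      (h2.subset ?_) ?_
    · rintro _ ⟨h, hh, rfl⟩
      exact hh
    · intro a _ b _ hab
      have h3 := congrArg Prod.fst hab
      have h4 := (cosEquiv H).symm.injective h3
      exact congrArg Prod.fst h4
  let w : Fin d × (G ⧸ H) → H →₀ ℂ := fun i => Finsupp.ofSupportFinite _ (hfin i)
  have hw : ∀ i h, w i h = f ((cosEquiv H).symm (h, i.2), i.1) := fun i h => rfl
  have hw2 : ∀ (j : Fin d) (g : G), w (j, (cosEquiv H g).2) (cosEquiv H g).1 = f (g, j) := by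
    intro j g
    rw [hw]
    change f ((cosEquiv H).symm (cosEquiv H g), j) = f (g, j)
    rw [Equiv.symm_apply_apply]
  refine ⟨w, ?_, ?_⟩
  · intro g
    have h3 := h1 g
    rw [← h3]
    apply Finset.sum_congr rfl
    intro j _
    rw [hw2, hw2]
  · apply L2.ext
    rintro ⟨h, j, c⟩
    rw [reix_apply, toL2_apply, vecF_apply, hw]
    rfl

end Pool.Agent.COST

end

section

open scoped ENNReal InnerProductSpace
open MeasureTheory

namespace Pool.Agent.COST

theorem e6_3_regroup {G : Type} [Group G] (H : Subgroup G) [Fintype (G ⧸ H)] (u : (G ⧸ H) → H →₀ ℂ)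
    (F : G → ℂ) :
    (Function.support fun g : G => u (cosEquiv H g).2 (cosEquiv H g).1).Finite ∧
    ∑ c : G ⧸ H, ∑ᶠ h : H, u c h * F (h * c.out⁻¹) =
      ∑ᶠ g : G, u (cosEquiv H g).2 (cosEquiv H g).1 * F g := by
  classical
  let e : (G ⧸ H) × H ≃ G := (Equiv.prodComm (G ⧸ H) H).trans (cosEquiv H).symm
  have he : ∀ c h, e (c, h) = (h : G) * c.out⁻¹ := fun c h => rfl
  have he1 : ∀ p : (G ⧸ H) × H, cosEquiv H (e p) = (p.2, p.1) := by
    intro p
    change cosEquiv H ((cosEquiv H).symm (p.2, p.1)) = _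
    rw [Equiv.apply_symm_apply]
  have hfin : (Function.support fun g : G => u (cosEquiv H g).2 (cosEquiv H g).1).Finite := by
    have h1 : (⋃ c : G ⧸ H, (fun h : H => e (c, h)) '' ((u c).support : Set H)).Finite :=
      Set.finite_iUnion fun c => (u c).support.finite_toSet.image _
    refine h1.subset ?_
    intro g hg
    refine Set.mem_iUnion.mpr ⟨(cosEquiv H g).2, (cosEquiv H g).1, ?_, ?_⟩
    · exact Finsupp.mem_support_iff.mpr hg
    · change (cosEquiv H).symm ((cosEquiv H g).1, (cosEquiv H g).2) = g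
      simp
  refine ⟨hfin, ?_⟩
  rw [← finsum_comp_equiv e, finsum_curry, finsum_eq_sum_of_fintype]
  · apply Finset.sum_congr rfl
    intro c _
    apply finsum_congr
    intro h
    rw [he1, he]
  · refine (hfin.preimage e.injective.injOn).subset ?_
    intro p hp hz
    apply hp
    change u (cosEquiv H (e p)).2 (cosEquiv H (e p)).1 * F (e p) = 0
    have hz2 : u (cosEquiv H (e p)).2 (cosEquiv H (e p)).1 = 0 := hz
    rw [hz2, zero_mul]

/-- Cycle identity. PROOF. Put `v j g = w (j, (cosEquiv H g).2) (cosEquiv H g).1`, finitely many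
nonzero values. With `g = h * c.out⁻¹` (`cosEquiv`) the double sum over `c` and `h` of
`w (j, c) h * φ j (c.out • h⁻¹ • x)` is the sum over `g : G` of `v j g * φ j (g⁻¹ • x)`. Now
`φ j x = f ((s j)⁻¹ • x) - f x`: the sum is
`∑ j, ∑ᶠ g, v j g * f ((g * s j)⁻¹ • x) - ∑ j, ∑ᶠ g, v j g * f (g⁻¹ • x)
= ∑ᶠ g, (∑ j, (v j (g * (s j)⁻¹) - v j g)) * f (g⁻¹ • x) = 0`. -/
theorem cyc_identity {G Z : Type} [Group G] [MulAction G Z] (H : Subgroup G) [Fintype (G ⧸ H)]
    {d : ℕ} (s : Fin d → G) (w : Fin d × (G ⧸ H) → H →₀ ℂ) (hw : w ∈ wcyc H s) (f : Z → ℂ)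
    (x : Z) :
    ∑ i : Fin d × (G ⧸ H), ∑ᶠ h : H, w i h *
      (f ((s i.1)⁻¹ • i.2.out • (h : G)⁻¹ • x) - f (i.2.out • (h : G)⁻¹ • x)) = 0 := by
  classical
  let v : Fin d → G → ℂ := fun j g => w (j, (cosEquiv H g).2) (cosEquiv H g).1
  have hvfin : ∀ j, (Function.support (v j)).Finite := fun j =>
    (e6_3_regroup H (fun c => w (j, c)) (fun _ => 0)).1
  have h1 : ∀ j : Fin d, ∑ c : G ⧸ H, ∑ᶠ h : H, w (j, c) h *
      (f ((s j)⁻¹ • c.out • (h : G)⁻¹ • x) - f (c.out • (h : G)⁻¹ • x)) =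
      ∑ᶠ g : G, v j g * (f ((s j)⁻¹ • g⁻¹ • x) - f (g⁻¹ • x)) := by
    intro j
    have h2 := (e6_3_regroup H (fun c => w (j, c))
      (fun g => f ((s j)⁻¹ • g⁻¹ • x) - f (g⁻¹ • x))).2
    rw [← h2]
    apply Finset.sum_congr rfl
    intro c _
    apply finsum_congr
    intro h
    have h3 : ((h : G) * c.out⁻¹)⁻¹ • x = c.out • (h : G)⁻¹ • x := by
      rw [mul_inv_rev, inv_inv, mul_smul]
    change w (j, c) h * _ = w (j, c) h * (f ((s j)⁻¹ • ((h : G) * c.out⁻¹)⁻¹ • x) -
      f (((h : G) * c.out⁻¹)⁻¹ • x))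
    rw [h3]
  rw [Fintype.sum_prod_type]
  rw [Finset.sum_congr rfl fun j _ => h1 j]
  have hfin1 : ∀ (j : Fin d) (F : G → ℂ), (Function.support fun g => v j g * F g).Finite := by
    intro j F
    refine (hvfin j).subset ?_
    intro g hg hz
    apply hg
    change v j g * F g = 0
    rw [hz, zero_mul]
  have hfin2 : ∀ (j : Fin d) (F : G → ℂ),
      (Function.support fun g => v j (g * (s j)⁻¹) * F g).Finite := by
    intro j F
    refine ((hvfin j).preimage (f := fun g => g * (s j)⁻¹)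
      (mul_left_injective (s j)⁻¹).injOn).subset ?_
    intro g hg hz
    apply hg
    change v j (g * (s j)⁻¹) * F g = 0
    have hz2 : v j (g * (s j)⁻¹) = 0 := hz
    rw [hz2, zero_mul]
  have h4 : ∀ j : Fin d, ∑ᶠ g : G, v j g * (f ((s j)⁻¹ • g⁻¹ • x) - f (g⁻¹ • x)) =
      ∑ᶠ g : G, (v j (g * (s j)⁻¹) - v j g) * f (g⁻¹ • x) := by
    intro j
    have h5 : ∑ᶠ g : G, v j g * f ((s j)⁻¹ • g⁻¹ • x) =
        ∑ᶠ g : G, v j (g * (s j)⁻¹) * f (g⁻¹ • x) := by
      rw [← finsum_comp_equiv (Equiv.mulRight (s j)⁻¹)]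
      apply finsum_congr
      intro g
      change v j (g * (s j)⁻¹) * f ((s j)⁻¹ • (g * (s j)⁻¹)⁻¹ • x) = _
      rw [mul_inv_rev, inv_inv, mul_smul, inv_smul_smul]
    simp only [mul_sub, sub_mul]
    rw [finsum_sub_distrib (hfin1 j _) (hfin1 j _), finsum_sub_distrib (hfin2 j _) (hfin1 j _), h5]
  rw [Finset.sum_congr rfl fun j _ => h4 j, ← finsum_sum_comm]
  · apply finsum_eq_zero_of_forall_eq_zero
    intro g
    rw [← Finset.sum_mul, hw g, zero_mul]
  · intro j _
    simp only [sub_mul]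
    exact ((hfin2 j fun g => f (g⁻¹ • x)).union (hfin1 j fun g => f (g⁻¹ • x))).subset
      (Function.support_sub _ _)

end Pool.Agent.COST

end

section

open scoped ENNReal InnerProductSpace
open MeasureTheory

namespace Pool.Agent.COST

open Classical in
/-- Uniqueness. PROOF. Apply `huniq` to the `H`-set `Z`, the map `p` and
`φ (j, c) z = if q z = 1 then f ((s j)⁻¹ • c.out • z) - f (c.out • z) else 0`.
`H` stabilises the coset `1`, and `q (h • z) = 1 ↔ q z = 1`. The equations are `cyc_identity`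
(if `q z = 1`) or trivial. The vanishing on `T` is `hf`. So `φ = 0`. Let `z` be arbitrary,
`c = q z`, `z' = c.out⁻¹ • z`: `q z' = c.out⁻¹ • c = 1` and `φ (j, c) z' = 0` is
`f ((s j)⁻¹ • z) = f z`. -/
theorem uniq_fun {G Z Y : Type} [Group G] [MulAction G Z] (H : Subgroup G) [Fintype (G ⧸ H)]
    [MulAction H Y] {d : ℕ} (s : Fin d → G) (q : Z → G ⧸ H) (p : Z → Y)
    (hq : ∀ (g : G) z, q (g • z) = g • q z) (hp : ∀ (k : H) z, p ((k : G) • z) = k • p z)
    (T : Fin d × (G ⧸ H) → Set Y)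
    (huniq : ∀ φ : Fin d × (G ⧸ H) → Z → ℂ,
      (∀ w ∈ wcyc H s, ∀ z, ∑ i, fact (fun h : H => w i h) (φ i) z = 0) →
      (∀ i z, p z ∈ T i → φ i z = 0) → ∀ i z, φ i z = 0)
    (f : Z → ℂ)
    (hf : ∀ (j : Fin d) (c : G ⧸ H) z, q z = ((1 : G) : G ⧸ H) → p z ∈ T (j, c) →
      f ((s j)⁻¹ • c.out • z) = f (c.out • z)) :
    ∀ j z, f ((s j)⁻¹ • z) = f z := by
  have hstab : ∀ h : H, (h : G) • ((1 : G) : G ⧸ H) = ((1 : G) : G ⧸ H) := by
    intro h
    change (((h : G) * 1 : G) : G ⧸ H) = _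
    rw [QuotientGroup.eq]
    simp
  have hq1 : ∀ (h : H) (z : Z), q ((h : G)⁻¹ • z) = ((1 : G) : G ⧸ H) ↔ q z = ((1 : G) : G ⧸ H) := by
    intro h z
    rw [hq]
    constructor
    · intro h1
      have h2 := congrArg (fun c => (h : G) • c) h1
      simp only [smul_inv_smul] at h2
      rw [h2, hstab]
    · intro h1
      rw [h1]
      have h2 := hstab h⁻¹
      simpa using h2
  have key := huniq (fun i z => if q z = ((1 : G) : G ⧸ H) then
      f ((s i.1)⁻¹ • i.2.out • z) - f (i.2.out • z) else 0) ?_ ?_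
  · intro j z
    have h1 := key (j, q z) ((q z).out⁻¹ • z)
    have h2 : q ((q z).out⁻¹ • z) = ((1 : G) : G ⧸ H) := by
      rw [hq]
      have h4 : ((q z).out⁻¹ : G) • (((q z).out : G) : G ⧸ H) = ((1 : G) : G ⧸ H) := by
        change (((q z).out⁻¹ * (q z).out : G) : G ⧸ H) = _
        rw [inv_mul_cancel]
      have h5 : (((q z).out : G) : G ⧸ H) = q z := QuotientGroup.out_eq' _
      rw [h5] at h4
      exact h4
    simp only [h2, if_true, smul_inv_smul] at h1
    exact sub_eq_zero.mp h1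
  · intro w hw z
    by_cases hz : q z = ((1 : G) : G ⧸ H)
    · have h1 := cyc_identity H s w hw f z
      rw [← h1]
      apply Finset.sum_congr rfl
      intro i _
      unfold fact
      apply finsum_congr
      intro h
      have h2 : q (h⁻¹ • z) = ((1 : G) : G ⧸ H) := by
        have h3 := (hq1 h z).mpr hz
        exact h3
      simp only [h2, if_true]
      rfl
    · apply Finset.sum_eq_zero
      intro i _
      unfold fact
      apply finsum_eq_zero_of_forall_eq_zero
      intro h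
      have h2 : ¬ q (h⁻¹ • z) = ((1 : G) : G ⧸ H) := by
        intro h3
        exact hz ((hq1 h z).mp h3)
      simp only [h2, if_false, mul_zero]
  · intro i z hz
    by_cases h1 : q z = ((1 : G) : G ⧸ H)
    · simp only [h1, if_true]
      rw [hf i.1 i.2 z h1 hz, sub_self]
    · simp only [h1, if_false]

end Pool.Agent.COST

end

section

open scoped ENNReal InnerProductSpace
open MeasureTheory

namespace Pool.Agent.COST

/-- PROOF. `m1` for `D` and `ε`: `Y`, `T`. `ind_space` for `Y`: `α`, `q`, `p`. For `j : Fin d` let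
`B j = ⋃ c, {x | q (c.out⁻¹ • x) = 1 ∧ p (c.out⁻¹ • x) ∈ T (j, c)}`, measurable of measure at most
`∑ c, H.index⁻¹ * Y.μ (T (j, c))` (invariance of the measure). `cost_le_fam` with `J = Fin d`,
`g j = (s j)⁻¹`, `S = B`: `α.cost ≤ ∑ j, α.μ (B j) ≤ H.index⁻¹ * ∑ i, Y.μ (T i)`, and
`∑ i, Y.μ (T i) + r ≤ d * H.index + ε`. Generation: let `x` be any point, `r` the equivalence
relation `EqvGen`, `f z = if r x z then 1 else 0`. `uniq_fun` (with `huniq` from `m1`,
`π = p`): hypothesis `hf`: if `q z = 1`, `p z ∈ T (j, c)` then `c.out • z ∈ B j`, so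
`c.out • z` and `(s j)⁻¹ • c.out • z` are equivalent. So `f ((s j)⁻¹ • z) = f z` for all `z`, `j`,
hence `f` is invariant under the group generated by the `s j`, which is `G`
(`Subgroup.closure_induction`), and `f (k • x) = f x = 1`. -/
theorem cost_bound {G : Type} [Group G] [Countable G] (H : Subgroup G) [H.FiniteIndex]
    [Fintype (G ⧸ H)] {d : ℕ} (s : Fin d → G) (hs : Subgroup.closure (Set.range s) = ⊤)
    {S : JS H} (D : LinData S (wcyc H s)) (ε : ℝ≥0∞) (hε : ε ≠ 0) :
    groupCost G + (H.index : ℝ≥0∞)⁻¹ * D.r ≤ d + (H.index : ℝ≥0∞)⁻¹ * ε := by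
  classical
  obtain ⟨Y, T, hT, hsum, huniq⟩ := m1 D ε hε
  obtain ⟨α, q, p, hq, hp, hμ⟩ := ind_space H Y
  have hm0 : H.index ≠ 0 := Subgroup.FiniteIndex.index_ne_zero
  let E : Fin d → (G ⧸ H) → Set α.X := fun j c =>
    {x | q x = ((1 : G) : G ⧸ H) ∧ p x ∈ T (j, c)}
  let B : Fin d → Set α.X := fun j => ⋃ c : G ⧸ H, (fun x => c.out⁻¹ • x) ⁻¹' (E j c)
  have hBm : ∀ j, MeasurableSet (B j) := by
    intro j
    apply MeasurableSet.iUnion
    intro c
    exact (α.mp _).measurable (hμ _ (hT (j, c))).1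
  have hBμ : ∀ j, α.μ (B j) ≤ ∑ c : G ⧸ H, (H.index : ℝ≥0∞)⁻¹ * Y.μ (T (j, c)) := by
    intro j
    refine (measure_iUnion_fintype_le α.μ _).trans (le_of_eq ?_)
    apply Finset.sum_congr rfl
    intro c _
    rw [(α.mp _).measure_preimage (hμ _ (hT (j, c))).1.nullMeasurableSet]
    exact (hμ _ (hT (j, c))).2
  have hgen : ∀ x : α.X, ∀ k : G,
      Relation.EqvGen (fun a b => ∃ j, a ∈ B j ∧ b = (s j)⁻¹ • a) x (k • x) := by
    intro x
    let f : α.X → ℂ := fun z =>
      if Relation.EqvGen (fun a b => ∃ j, a ∈ B j ∧ b = (s j)⁻¹ • a) x z then 1 else 0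
    have hf1 : ∀ j z, f ((s j)⁻¹ • z) = f z := by
      refine uniq_fun H s q p hq hp T (fun φ h1 h2 => huniq α.X p (fun g y => hp g y) φ h1 h2) f ?_
      intro j c z h1 h2
      have h3 : c.out • z ∈ B j := by
        refine Set.mem_iUnion.mpr ⟨c, ?_⟩
        change c.out⁻¹ • c.out • z ∈ E j c
        rw [inv_smul_smul]
        exact ⟨h1, h2⟩
      have h4 : Relation.EqvGen (fun a b => ∃ j, a ∈ B j ∧ b = (s j)⁻¹ • a)
          (c.out • z) ((s j)⁻¹ • c.out • z) := Relation.EqvGen.rel _ _ ⟨j, h3, rfl⟩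
      change (if _ then (1 : ℂ) else 0) = if _ then (1 : ℂ) else 0
      have h5 : Relation.EqvGen (fun a b => ∃ j, a ∈ B j ∧ b = (s j)⁻¹ • a) x
          ((s j)⁻¹ • c.out • z) ↔
          Relation.EqvGen (fun a b => ∃ j, a ∈ B j ∧ b = (s j)⁻¹ • a) x (c.out • z) :=
        ⟨fun h => h.trans _ _ _ (h4.symm _ _), fun h => h.trans _ _ _ h4⟩
      simp only [h5]
    have hf2 : ∀ g : G, ∀ z, f (g • z) = f z := by
      intro g
      have hg : g ∈ Subgroup.closure (Set.range s) := by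
        rw [hs]
        trivial
      refine Subgroup.closure_induction (p := fun g _ => ∀ z, f (g • z) = f z) ?_ ?_ ?_ ?_ hg
      · rintro _ ⟨j, rfl⟩ z
        have h1 := hf1 j (s j • z)
        rw [inv_smul_smul] at h1
        exact h1.symm
      · intro z
        rw [one_smul]
      · intro a b _ _ ha hb z
        rw [mul_smul, ha, hb]
      · intro a _ ha z
        have h1 := ha (a⁻¹ • z)
        rw [smul_inv_smul] at h1
        exact h1.symm
    intro k
    have h1 := hf2 k x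
    have h2 : f x = 1 := if_pos (Relation.EqvGen.refl x)
    rw [h2] at h1
    by_contra hne
    have h3 : f (k • x) = 0 := if_neg hne
    rw [h3] at h1
    exact zero_ne_one h1
  have hcost : groupCost G ≤ (H.index : ℝ≥0∞)⁻¹ * ∑ i, Y.μ (T i) := by
    calc groupCost G ≤ α.cost := iInf_le _ α
      _ ≤ ∑' j, α.μ (B j) := cost_le_fam α (fun j => (s j)⁻¹) B hBm
          (Filter.Eventually.of_forall hgen)
      _ = ∑ j, α.μ (B j) := tsum_fintype _
      _ ≤ ∑ j, ∑ c : G ⧸ H, (H.index : ℝ≥0∞)⁻¹ * Y.μ (T (j, c)) :=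
          Finset.sum_le_sum fun j _ => hBμ j
      _ = (H.index : ℝ≥0∞)⁻¹ * ∑ i, Y.μ (T i) := by
          rw [Fintype.sum_prod_type, Finset.mul_sum]
          apply Finset.sum_congr rfl
          intro j _
          rw [Finset.mul_sum]
  have hcard : (Fintype.card (Fin d × (G ⧸ H)) : ℝ≥0∞) = d * H.index := by
    rw [Fintype.card_prod, Fintype.card_fin, ← Nat.card_eq_fintype_card (α := G ⧸ H),
      ← Subgroup.index_eq_card]
    push_cast
    rfl
  calc groupCost G + (H.index : ℝ≥0∞)⁻¹ * D.r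
      ≤ (H.index : ℝ≥0∞)⁻¹ * ∑ i, Y.μ (T i) + (H.index : ℝ≥0∞)⁻¹ * D.r := by gcongr
    _ = (H.index : ℝ≥0∞)⁻¹ * (∑ i, Y.μ (T i) + D.r) := by rw [mul_add]
    _ ≤ (H.index : ℝ≥0∞)⁻¹ * (Fintype.card (Fin d × (G ⧸ H)) + ε) := by gcongr
    _ = d + (H.index : ℝ≥0∞)⁻¹ * ε := by
        rw [hcard, mul_add]
        congr 1
        rw [mul_comm (d : ℝ≥0∞), ← mul_assoc, ENNReal.inv_mul_cancel (by simpa using hm0) (by simp),
          one_mul]

end Pool.Agent.COST

end

section

open scoped ENNReal InnerProductSpace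
open MeasureTheory

namespace Pool.Agent.COST

/-- The main theorem for a subgroup with a good jump system. PROOF: `cost_bound` for all `ε`
gives `groupCost G + r / m ≤ d`. By `m2`, `vd_mono`, `fin_wcyc` (with `tr_one`) and `vd_index`
(`finCycles_tr`): `m * vd (finCycles s) = vd (image) ≤ r`. `cycles_lower`: `d - 1 ≤ vd (cycles s)`.
So `groupCost G ≤ ofReal (d - r / m) ≤ ofReal (1 + vd (cycles s) - vd (finCycles s))`
(`d - r / m ≥ 0` from the first inequality, `ENNReal` arithmetic). -/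
theorem cost_le_of_linData {G : Type} [Group G] [Countable G] (H : Subgroup G) [H.FiniteIndex]
    {d : ℕ} (s : Fin d → G) (hs : Subgroup.closure (Set.range s) = ⊤) {S : JS H}
    (D : ∀ _ : Fintype (G ⧸ H), Nonempty (LinData S (wcyc H s))) :
    groupCost G ≤ ENNReal.ofReal (1 + bettiOne s) := by
  classical
  have hfin : Finite (G ⧸ H) := inferInstance
  let F : Fintype (G ⧸ H) := Fintype.ofFinite _
  obtain ⟨D⟩ := D F
  have hm0 : H.index ≠ 0 := Subgroup.FiniteIndex.index_ne_zero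
  have hmpos : (0 : ℝ) < H.index := by exact_mod_cast Nat.pos_of_ne_zero hm0
  -- the inequality of cost_bound in the limit
  have h1 : groupCost G + (H.index : ℝ≥0∞)⁻¹ * D.r ≤ d := by
    apply ENNReal.le_of_forall_pos_le_add
    intro ε hε _
    have hm1 : (1 : ℝ≥0∞) ≤ H.index := by exact_mod_cast Nat.pos_of_ne_zero hm0
    refine (cost_bound H s hs D (ε : ℝ≥0∞) (by simpa using hε.ne')).trans ?_
    gcongr
    calc (H.index : ℝ≥0∞)⁻¹ * (ε : ℝ≥0∞) ≤ 1 * (ε : ℝ≥0∞) := by
          gcongr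
          exact ENNReal.inv_le_one.mpr hm1
      _ = ε := one_mul _
  -- von Neumann side
  have h2 : (H.index : ℝ) * vd (finCycles s) ≤ D.r := by
    rw [← vd_index H (finCycles s) (fun g f hf => finCycles_tr s g f hf)]
    refine (vd_mono ?_).trans (m2 D)
    rintro _ ⟨f, hf, rfl⟩
    obtain ⟨w, hw, he⟩ := fin_wcyc H s f hf
    apply Submodule.subset_span
    refine ⟨w, hw, 1, ?_⟩
    rw [tr_one]
    exact he
  have h3 := cycles_lower s
  have hc : groupCost G ≠ ⊤ := by
    intro h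
    rw [h, top_add] at h1
    exact absurd h1 (by simp)
  have h4 : (groupCost G).toReal + (H.index : ℝ)⁻¹ * D.r ≤ d := by
    have h5 := ENNReal.toReal_mono (by simp) h1
    have h6 : (H.index : ℝ≥0∞)⁻¹ * (D.r : ℝ≥0∞) ≠ ⊤ :=
      ENNReal.mul_ne_top (by simpa using hm0) (by simp)
    rw [ENNReal.toReal_add hc h6, ENNReal.toReal_mul, ENNReal.toReal_inv] at h5
    simpa using h5
  rw [← ENNReal.ofReal_toReal hc]
  apply ENNReal.ofReal_le_ofReal
  unfold bettiOne
  have h7 : vd (finCycles s) ≤ (H.index : ℝ)⁻¹ * D.r := by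
    rw [inv_mul_eq_div, le_div_iff₀ hmpos]
    linarith
  linarith

end Pool.Agent.COST

end
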