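import Pool.Agent.COST.F0
import Pool.Agent.COST.K0
import Pool.Agent.COST.C0

section

open Set

namespace Pool.Agent.COST

variable {H : Type} [Group H] [LinearOrder H] [MulLeftMono H] [MulRightMono H]

/-- the ring of tame functions -/
noncomputable def tameSub (S : CJS H) : Subring (MN H) where
  carrier := {x | Tame S.toJS x.f}
  mul_mem' := fun {x y} hx hy => by
    change Tame S.toJS (x * y).f
    rw [MN.mul_f]
    exact tame_conv S hx hy
  one_mem' := Tame.fin _ (sg_finite 1 1)
  add_mem' := fun {x y} hx hy => by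
    change Tame S.toJS (x + y).f
    rw [MN.add_f]
    exact tame_add hx hy
  zero_mem' := by
    change Tame S.toJS (0 : MN H).f
    rw [MN.zero_f]
    exact Tame.zero S.toJS
  neg_mem' := fun {x} hx => by
    change Tame S.toJS (-x).f
    have h := tame_smul hx (-1)
    have h2 : (-x).f = fun h => (-1 : ℂ) * x.f h := by
      rw [MN.neg_f]
      funext h
      simp
    rw [h2]
    exact h

theorem tame_left_inv (S : CJS H) (x : tameSub S) (hx : x ≠ 0) : ∃ u : tameSub S, u * x = 1 := by
  have hne : x.1.f ≠ 0 := by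
    intro h
    exact hx (Subtype.ext (MN.ext h))
  obtain ⟨u, h1, h2⟩ := tame_inv S x.2 hne
  refine ⟨⟨MN.mk u (tame_pwo S h1), h1⟩, Subtype.ext (MN.ext ?_)⟩
  change conv u x.1.f = sg 1 1
  exact h2

theorem tame_one_ne (S : CJS H) : (1 : tameSub S) ≠ 0 := by
  intro h
  have h1 : (1 : tameSub S).1.f = (0 : tameSub S).1.f := by rw [h]
  have h2 : sg (1 : H) 1 1 = (0 : H → ℂ) 1 := congrFun h1 1
  simp [sg] at h2

theorem tame_unit (S : CJS H) (x : tameSub S) : IsUnit x ∨ x = 0 := by
  by_cases hx : x = 0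
  · exact Or.inr hx
  left
  obtain ⟨u, hu⟩ := tame_left_inv S x hx
  have hu0 : u ≠ 0 := by
    rintro rfl
    rw [zero_mul] at hu
    exact tame_one_ne S hu.symm
  obtain ⟨u', hu'⟩ := tame_left_inv S u hu0
  have h3 : u' = x := by
    calc u' = u' * (u * x) := by rw [hu, mul_one]
      _ = x := by rw [← mul_assoc, hu', one_mul]
  rw [h3] at hu'
  exact ⟨⟨x, u, hu', hu⟩, rfl⟩

/-- the division ring of tame functions -/
noncomputable abbrev tameDiv (S : CJS H) : DivisionRing (tameSub S) :=
  @DivisionRing.ofIsUnitOrEqZero (tameSub S) ⟨⟨1, 0, tame_one_ne S⟩⟩ inferInstance (tame_unit S)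

theorem f1_1_sum (S : CJS H) {ι : Type} (s : Finset ι) (x : ι → tameSub S) (h : H) :
    (∑ i ∈ s, x i).1.f h = ∑ i ∈ s, (x i).1.f h := by
  classical
  induction s using Finset.induction_on with
  | empty => rfl
  | insert a s ha ih =>
    rw [Finset.sum_insert ha, Finset.sum_insert ha, ← ih]
    rfl

omit [LinearOrder H] [MulLeftMono H] [MulRightMono H] in
theorem f1_1_fin (c : H →₀ ℂ) : (Function.support fun h => c h).Finite := c.hasFiniteSupport

/-- image of a finitely supported function -/
noncomputable def f1_1_em (S : CJS H) (c : H →₀ ℂ) : tameSub S :=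
  ⟨MN.mk (fun h => c h) (f1_1_fin c).isPWO, Tame.fin _ (f1_1_fin c)⟩

theorem f1_1_mul (S : CJS H) (x : tameSub S) (c : H →₀ ℂ) :
    (x * f1_1_em S c).1.f = rc x.1.f c := by
  change (x.1 * (f1_1_em S c).1).f = rc x.1.f c
  rw [MN.mul_f]
  exact conv_finsupp x.1.f c

/-- PROOF. `lin_alg` for `D = tameSub S` (instance `tameDiv S`, which has the ring structure of
`tameSub S`) and the image of `W` under `w ↦ fun i => ⟨MN.mk (w i) _, Tame.fin _ _⟩`. The basis
vectors are images of elements of `W` (choose them). `(B * w).f = conv B.f w.f = rc B.f w`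
(`MN.mul_f`, `conv_finsupp`), sums: the function of a finite sum is the sum of the functions;
`(1 : MN H).f = sg 1 1`. -/
theorem lin_data (S : CJS H) {I : Type} [Fintype I] (W : Set (I → H →₀ ℂ)) :
    Nonempty (LinData S.toJS W) := by
  obtain ⟨r, w, J, B, hw, hJ, hB, hspan⟩ := @lin_alg (tameSub S) (tameDiv S) I _
    ((fun v : I → H →₀ ℂ => fun i => f1_1_em S (v i)) '' W)
  choose w' hw'W hw' using hw
  have hww : ∀ t i, w t i = f1_1_em S (w' t i) := fun t i => (congrFun (hw' t) i).symm
  refine ⟨{
    r := r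
    w := w'
    mem := hw'W
    J := J
    inj := hJ
    B := fun t i => (B t i).1.f
    tameB := fun t i => (B t i).2
    hB := ?_
    span := ?_ }⟩
  · intro t t' h
    have h1 := hB t t'
    have h2 : ∀ i, rc (B t i).1.f (w' i (J t')) h = (B t i * w i (J t')).1.f h := by
      intro i
      rw [hww, f1_1_mul]
    simp only [h2]
    rw [← f1_1_sum, h1]
    unfold kron
    by_cases htt : t = t'
    · simp only [htt, true_and, if_true]
      change sg (1 : H) 1 h = _
      unfold sg
      by_cases hh : h = 1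
      · rw [if_pos hh, if_pos hh]
      · rw [if_neg hh, if_neg hh]
    · simp only [htt, false_and, if_false]
      rfl
  · intro v hv
    obtain ⟨d, hd⟩ := hspan _ ⟨v, hv, rfl⟩
    refine ⟨fun i => (d i).1.f, fun i => (d i).2, fun j h => ?_⟩
    have h2 : ∀ i, rc (d i).1.f (w' i j) h = (d i * w i j).1.f h := by
      intro i
      rw [hww, f1_1_mul]
    simp only [h2]
    rw [← f1_1_sum, hd j]
    rfl

end Pool.Agent.COST

end
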