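import Pool.Agent.COST.E6
import Pool.Agent.COST.F1

section

open scoped ENNReal

namespace Pool.Agent.COST

/-- A group is bi-orderable if it has a total order which is invariant under left and right
multiplication. -/
def BiOrderable (H : Type) [Group H] : Prop :=
  ∃ _ : LinearOrder H, (∀ a b c : H, a ≤ b → c * a ≤ c * b) ∧ ∀ a b c : H, a ≤ b → a * c ≤ b * c

theorem e7_1_countable {G : Type} [Group G] {d : ℕ} (s : Fin d → G)
    (hs : Subgroup.closure (Set.range s) = ⊤) : Countable G := by
  have h : Function.Surjective (FreeGroup.lift s) := by
    rw [← MonoidHom.range_eq_top, FreeGroup.range_lift_eq_closure]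
    exact hs
  exact h.countable

/-- PROOF: `H` is countable as a subgroup of the finitely generated group `G`
(`Subgroup.closure` of a finite set is countable, or a quotient of a free group on `Fin d`). The
order gives the instances `MulLeftMono`, `MulRightMono`, `cjs_exists` a `CJS`, `lin_data` the
linear algebra data; then `cost_le_of_linData`. -/
theorem cost_le_betti {G : Type} [Group G] (H : Subgroup G) [H.FiniteIndex] (hH : BiOrderable H)
    {d : ℕ} (s : Fin d → G) (hs : Subgroup.closure (Set.range s) = ⊤) :
    groupCost G ≤ ENNReal.ofReal (1 + bettiOne s) := by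
  have hcG : Countable G := e7_1_countable s hs
  obtain ⟨lo, hl, hr⟩ := hH
  have i1 : MulLeftMono H := ⟨fun c a b hab => hl a b c hab⟩
  have i2 : MulRightMono H := ⟨fun c a b hab => hr a b c hab⟩
  obtain ⟨S⟩ := cjs_exists (H := H)
  apply cost_le_of_linData H s hs (S := S.toJS)
  intro F
  exact lin_data S (wcyc H s)

end Pool.Agent.COST

end
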