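import Mathlib

section

open Set

namespace Pool.Agent.COST

theorem f0_1_dual {D : Type} [DivisionRing D] {I : Type} [Fintype I] :
    ∀ (r : ℕ) (w : Fin r → I → D), LinearIndependent D w →
      ∃ (J : Fin r → I) (e : Fin r → I → D),
        (∀ t, e t ∈ Submodule.span D (Set.range w)) ∧
        ∀ t t', e t (J t') = if t = t' then 1 else 0 := by
  intro r
  induction r with
  | zero =>
    intro w _
    exact ⟨fun t => t.elim0, fun t => t.elim0, fun t => t.elim0, fun t => t.elim0⟩
  | succ r ih =>
    intro w hw
    rw [linearIndependent_finSucc] at hw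
    obtain ⟨hw1, hw0⟩ := hw
    obtain ⟨J, e, he, hJ⟩ := ih (Fin.tail w) hw1
    have hsub : Submodule.span D (Set.range (Fin.tail w)) ≤ Submodule.span D (Set.range w) := by
      refine Submodule.span_mono ?_
      rintro _ ⟨t, rfl⟩
      exact ⟨t.succ, rfl⟩
    have hu : w 0 - ∑ t, (w 0 (J t)) • e t ≠ 0 := by
      intro h0
      apply hw0
      rw [sub_eq_zero.mp h0]
      exact Submodule.sum_mem _ fun t _ => Submodule.smul_mem _ _ (he t)
    obtain ⟨i, hi⟩ := Function.ne_iff.mp hu
    have huJ : ∀ t', (w 0 - ∑ t, (w 0 (J t)) • e t) (J t') = 0 := by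
      intro t'
      rw [Pi.sub_apply, Finset.sum_apply]
      have h1 : ∀ t, ((w 0 (J t)) • e t) (J t') = if t = t' then w 0 (J t) else 0 := by
        intro t
        rw [Pi.smul_apply, smul_eq_mul, hJ t t']
        split_ifs
        · rw [mul_one]
        · rw [mul_zero]
      simp only [h1, Finset.sum_ite_eq', Finset.mem_univ, if_true, sub_self]
    set u : I → D := w 0 - ∑ t, (w 0 (J t)) • e t with hudef
    have hui : u i ≠ 0 := hi
    have humem : u ∈ Submodule.span D (Set.range w) := by
      refine Submodule.sub_mem _ (Submodule.subset_span ⟨0, rfl⟩) ?_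
      exact Submodule.sum_mem _ fun t _ => Submodule.smul_mem _ _ (hsub (he t))
    refine ⟨Fin.cons i J, Fin.cons ((u i)⁻¹ • u) fun t => e t - (e t i) • ((u i)⁻¹ • u), ?_, ?_⟩
    · intro t
      refine Fin.cases ?_ (fun t => ?_) t
      · rw [Fin.cons_zero]
        exact Submodule.smul_mem _ _ humem
      · rw [Fin.cons_succ]
        exact Submodule.sub_mem _ (hsub (he t))
          (Submodule.smul_mem _ _ (Submodule.smul_mem _ _ humem))
    · have hf0 : ((u i)⁻¹ • u) i = 1 := by
        rw [Pi.smul_apply, smul_eq_mul, inv_mul_cancel₀ hui]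
      have hfJ : ∀ t', ((u i)⁻¹ • u) (J t') = 0 := by
        intro t'
        rw [Pi.smul_apply, smul_eq_mul, huJ t', mul_zero]
      intro t t'
      refine Fin.cases ?_ (fun t => ?_) t
      · refine Fin.cases ?_ (fun t' => ?_) t'
        · rw [Fin.cons_zero, Fin.cons_zero, if_pos rfl]
          exact hf0
        · rw [Fin.cons_zero, Fin.cons_succ, if_neg (Fin.succ_ne_zero t').symm]
          exact hfJ t'
      · refine Fin.cases ?_ (fun t' => ?_) t'
        · rw [Fin.cons_zero, Fin.cons_succ, if_neg (Fin.succ_ne_zero t), Pi.sub_apply,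
            Pi.smul_apply, hf0, smul_eq_mul, mul_one, sub_self]
        · rw [Fin.cons_succ, Fin.cons_succ, Pi.sub_apply, Pi.smul_apply, hfJ, smul_zero, sub_zero,
            hJ t t']
          simp only [Fin.succ_inj]

/-- Linear algebra over a division ring. PROOF. Let `V` be the span of `W` in `I → D` (left
`D`-module), finite dimensional, `r = finrank D V`, `w : Fin r → W` a basis of `V` chosen from `W`
(`exists_linearIndependent`, or `Module.Basis.ofSpan`...). Choose a finite set `J0` of coordinates, maximal
(for the cardinality) with the property that the restriction map `V → (J0 → D)` is surjective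
(`∅` has the property). It is injective: let `v ∈ V`, `v ≠ 0`, `v j = 0` for `j ∈ J0`; `v i ≠ 0` for
some `i`, which is not in `J0`; then `V → (insert i J0 → D)` is surjective: given a target `y` take
`v' ∈ V` with `v' = y` on `J0` and add `(y i - v' i) * (v i)⁻¹ • v`; contradiction. So it is a
linear equivalence, `|J0| = r`, and with `J : Fin r ≃ J0` there are `e t ∈ V` with
`e t (J t') = if t = t' then 1 else 0`; write `e t = ∑ i, B t i • w i`. -/
theorem lin_alg {D : Type} [DivisionRing D] {I : Type} [Fintype I] (W : Set (I → D)) :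
    ∃ (r : ℕ) (w : Fin r → I → D) (J : Fin r → I) (B : Fin r → Fin r → D),
      (∀ i, w i ∈ W) ∧ Function.Injective J ∧
      (∀ t t', ∑ i, B t i * w i (J t') = if t = t' then 1 else 0) ∧
      ∀ v ∈ W, ∃ d : Fin r → D, ∀ j, ∑ i, d i * w i j = v j := by
  obtain ⟨b, hbW, hbspan, hbind⟩ := exists_linearIndependent D W
  have hbfin : b.Finite := hbind.setFinite
  have : Fintype b := hbfin.fintype
  let σ : Fin (Fintype.card b) ≃ b := (Fintype.equivFin b).symm
  let w : Fin (Fintype.card b) → I → D := fun t => (σ t : I → D)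
  have hw : LinearIndependent D w := hbind.comp σ σ.injective
  have hrange : Set.range w = b := by
    ext v
    constructor
    · rintro ⟨t, rfl⟩
      exact (σ t).2
    · intro hv
      exact ⟨σ.symm ⟨v, hv⟩, by simp [w]⟩
  obtain ⟨J, e, he, hJ⟩ := f0_1_dual _ w hw
  have hB : ∀ t, ∃ c : Fin (Fintype.card b) → D, ∑ i, c i • w i = e t := fun t =>
    (Submodule.mem_span_range_iff_exists_fun D).mp (he t)
  choose B hB using hB
  refine ⟨Fintype.card b, w, J, B, fun i => hbW (σ i).2, ?_, ?_, ?_⟩
  · intro t t' htt
    by_contra hne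
    have h1 := hJ t t
    have h2 := hJ t t'
    rw [if_pos rfl] at h1
    rw [if_neg hne, ← htt, h1] at h2
    exact one_ne_zero h2
  · intro t t'
    rw [← hJ t t', ← hB t, Finset.sum_apply]
    rfl
  · intro v hv
    have h1 : v ∈ Submodule.span D (Set.range w) := by
      rw [hrange, hbspan]
      exact Submodule.subset_span hv
    obtain ⟨d, hd⟩ := (Submodule.mem_span_range_iff_exists_fun D).mp h1
    refine ⟨d, fun j => ?_⟩
    rw [← hd, Finset.sum_apply]
    rfl

end Pool.Agent.COST

end
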