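import Pool.Agent.COST.Free

/-!
Jump systems, pieces of functions, tame functions.
-/

open Set

namespace Pool.Agent.COST

/-- A jump system on a group: a valuation like function `v` with values in a countable linear
order (with an added bottom for the identity) and for each value `a` a homomorphism `ψ a` to the
reals of the subgroup `{v ≤ a}` with kernel `{v < a}`. -/
structure JS (H : Type) [Group H] where
  /-- index set of the jumps -/
  Λ : Type
  lo : LinearOrder Λ
  co : Countable Λ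
  /-- the jump of an element -/
  v : H → WithBot Λ
  v_bot : ∀ g, v g = ⊥ ↔ g = 1
  v_inv : ∀ g, v g⁻¹ = v g
  v_mul : ∀ g h, v (g * h) ≤ max (v g) (v h)
  /-- the homomorphisms -/
  ψ : Λ → H → ℝ
  ψ_mul : ∀ (a : Λ) (g h : H), v g ≤ a → v h ≤ a → ψ a (g * h) = ψ a g + ψ a h
  ψ_zero : ∀ (a : Λ) (g : H), v g ≤ a → (ψ a g = 0 ↔ v g < a)

attribute [instance] JS.lo JS.co

open Classical in
/-- The part of `x` in the right coset `{v (h g⁻¹) ≤ a}` at level `r`. -/
noncomputable def piece {H : Type} [Group H] (S : JS H) (a : S.Λ) (g : H) (r : ℝ) (x : H → ℂ) :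
    H → ℂ :=
  fun h => if S.v (h * g⁻¹) ≤ a ∧ S.ψ a (h * g⁻¹) = r then x h else 0

/-- all support points lie in the right coset of `{v ≤ a}` through `g` -/
def InCoset {H : Type} [Group H] (S : JS H) (a : S.Λ) (g : H) (x : H → ℂ) : Prop :=
  ∀ h, x h ≠ 0 → S.v (h * g⁻¹) ≤ a

/-- below any bound only finitely many levels occur -/
def LocFin {H : Type} [Group H] (S : JS H) (a : S.Λ) (g : H) (x : H → ℂ) : Prop :=
  ∀ R : ℝ, {r : ℝ | r ≤ R ∧ piece S a g r x ≠ 0}.Finite

/-- tame functions -/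
inductive Tame {H : Type} [Group H] (S : JS H) : (H → ℂ) → Prop
  | fin (x : H → ℂ) (hx : (Function.support x).Finite) : Tame S x
  | node (x : H → ℂ) (a : S.Λ) (g : H) (h1 : InCoset S a g x) (h2 : LocFin S a g x)
      (h3 : ∀ r, Tame S (piece S a g r x)) : Tame S x

/-- right multiplication of a function by an element of the group algebra -/
noncomputable def rc {H : Type} [Group H] (x : H → ℂ) (c : H →₀ ℂ) : H → ℂ :=
  fun h => c.sum fun s k => x (h * s⁻¹) * k

/-- `(a, g)` are node data of `x`: the support lies in the coset of `{v ≤ a}` through the support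
point `g`, which has the lowest level, two support points differ by jump exactly `a`, and the
levels are locally finite. -/
def IsNode {H : Type} [Group H] (S : JS H) (x : H → ℂ) (p : S.Λ × H) : Prop :=
  InCoset S p.1 p.2 x ∧ LocFin S p.1 p.2 x ∧ x p.2 ≠ 0 ∧
    (∀ h, x h ≠ 0 → 0 ≤ S.ψ p.1 (h * p.2⁻¹)) ∧ ∃ h, x h ≠ 0 ∧ S.v (h * p.2⁻¹) = p.1

open Classical in
/-- chosen node data -/
noncomputable def nd {H : Type} [Group H] (S : JS H) (x : H → ℂ) : Option (S.Λ × H) :=
  if h : ∃ p, IsNode S x p then some h.choose else none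

/-- `y` is a chosen piece of the function `x` of infinite support -/
def Child {H : Type} [Group H] (S : JS H) (y x : H → ℂ) : Prop :=
  ¬ (Function.support x).Finite ∧ ∃ a g r, nd S x = some (a, g) ∧ y = piece S a g r x

/-- A jump system with parameters: a pmp space with level functions. -/
structure Sys {H : Type} [Group H] (S : JS H) (N : S.Λ → ℕ) where
  /-- the space -/
  X : PMP H
  /-- the level functions -/
  l : S.Λ → X.X → ℝ
  meas : ∀ a, Measurable (l a)
  nonneg : ∀ a z, 0 ≤ l a z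
  lt : ∀ a z, l a z < N a
  eqv : ∀ (a : S.Λ) (g : H) (z : X.X), S.v g ≤ a →
    ∃ m : ℤ, l a (g • z) = l a z + S.ψ a g + m * N a
  unif : ∀ (a : S.Λ) (s t : ℝ), 0 ≤ s → s ≤ t → t ≤ N a →
    X.μ {z | s ≤ l a z ∧ l a z < t} ≤ ENNReal.ofReal ((t - s) / N a)

/-- points with level close to `0` or to `N a` -/
def Sys.edge {H : Type} [Group H] {S : JS H} {N : S.Λ → ℕ} (A : Sys S N) (a : S.Λ) (c : ℝ) :
    Set A.X.X :=
  {w | A.l a w < c ∨ (N a : ℝ) - c ≤ A.l a w}

/-- the support points which are kept at `z` -/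
inductive Kept {H : Type} [Group H] {S : JS H} {N : S.Λ → ℕ} (A : Sys S N) (z : A.X.X) :
    (H → ℂ) → H → Prop
  | fin (x : H → ℂ) (h : H) (hx : (Function.support x).Finite) (hh : x h ≠ 0) : Kept A z x h
  | node (x : H → ℂ) (h : H) (a : S.Λ) (g : H) (hx : ¬ (Function.support x).Finite)
      (hn : nd S x = some (a, g)) (h1 : S.v (h * g⁻¹) ≤ a) (h2 : S.ψ a (h * g⁻¹) ≤ A.l a z)
      (h3 : Kept A z (piece S a g (S.ψ a (h * g⁻¹)) x) h) : Kept A z x h

open Classical in
/-- truncation of a function at `z` -/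
noncomputable def trunc {H : Type} [Group H] {S : JS H} {N : S.Λ → ℕ} (A : Sys S N) (z : A.X.X)
    (x : H → ℂ) : H → ℂ :=
  fun h => if Kept A z x h then x h else 0

/-- A linear relation `c0 + Σ x_j c_j = 0` with tame `x_j` of infinite support. -/
structure Rel {H : Type} [Group H] (S : JS H) where
  /-- the finite part -/
  c0 : H →₀ ℂ
  /-- the terms -/
  tm : List ((H → ℂ) × (H →₀ ℂ))
  tame : ∀ p ∈ tm, Tame S p.1
  inf : ∀ p ∈ tm, ¬ (Function.support p.1).Finite
  nz : ∀ p ∈ tm, p.2 ≠ 0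
  eq : ∀ h, c0 h + (tm.map fun p => rc p.1 p.2 h).sum = 0

/-- the relation with truncated `x_j` holds outside `T'` up to coefficients at `T` -/
def Rel.Good {H : Type} [Group H] {S : JS H} (ρ : Rel S) {N : S.Λ → ℕ} (A : Sys S N)
    (T T' : Set A.X.X) : Prop :=
  ∀ z, z ∉ T' → ∀ y : H,
    ρ.c0 y + (ρ.tm.map fun p => rc (trunc A z p.1) p.2 y).sum ≠ 0 → y⁻¹ • z ∈ T

/-- all points of the relation lie in one right coset of `{v < a}` -/
def Rel.Below {H : Type} [Group H] {S : JS H} (ρ : Rel S) (a : S.Λ) : Prop :=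
  ∃ g : H, (∀ y, ρ.c0 y ≠ 0 → S.v (y * g⁻¹) < a) ∧
    ∀ p ∈ ρ.tm, ∀ h s, p.1 h ≠ 0 → p.2 s ≠ 0 → S.v (h * s * g⁻¹) < a

/-- all points of the relation lie in the right coset of `{v ≤ a}` through `g` -/
def Rel.Within {H : Type} [Group H] {S : JS H} (ρ : Rel S) (a : S.Λ) (g : H) : Prop :=
  (∀ y, ρ.c0 y ≠ 0 → S.v (y * g⁻¹) ≤ a) ∧
    ∀ p ∈ ρ.tm, ∀ h s, p.1 h ≠ 0 → p.2 s ≠ 0 → S.v (h * s * g⁻¹) ≤ a

open Classical in
/-- rank of a function in the child relation -/
noncomputable def rk {H : Type} [Group H] (S : JS H) (x : H → ℂ) : Ordinal.{0} :=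
  if h : Acc (Child S) x then h.rank else 0

/-- measure of a relation -/
noncomputable def Rel.ms {H : Type} [Group H] {S : JS H} (ρ : Rel S) :
    Multiset (Ordinal.{0} ×ₗ ℕ) :=
  toLex (0, ρ.c0.support.card) ::ₘ
    ((ρ.tm.map fun p => (toLex (rk S p.1 + 1, p.2.support.card) : Ordinal.{0} ×ₗ ℕ)) : Multiset _)

end Pool.Agent.COST
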