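import Pool.Agent.COST.J0

open Set

namespace Pool.Agent.COST

variable {H : Type} [Group H] (S : JS H)

theorem JS.v_one : S.v 1 = ⊥ := (S.v_bot 1).mpr rfl

theorem JS.le_mul {g h : H} {b : WithBot S.Λ} (h1 : S.v g ≤ b) (h2 : S.v h ≤ b) : S.v (g * h) ≤ b :=
  (S.v_mul g h).trans (max_le h1 h2)

theorem JS.lt_mul {g h : H} {b : WithBot S.Λ} (h1 : S.v g < b) (h2 : S.v h < b) : S.v (g * h) < b :=
  lt_of_le_of_lt (S.v_mul g h) (max_lt h1 h2)

theorem JS.le_tri {g h k : H} {b : WithBot S.Λ} (h1 : S.v (g * h⁻¹) ≤ b) (h2 : S.v (h * k⁻¹) ≤ b) :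
    S.v (g * k⁻¹) ≤ b := by
  have := S.le_mul h1 h2
  rwa [show g * h⁻¹ * (h * k⁻¹) = g * k⁻¹ by group] at this

theorem JS.lt_tri {g h k : H} {b : WithBot S.Λ} (h1 : S.v (g * h⁻¹) < b) (h2 : S.v (h * k⁻¹) < b) :
    S.v (g * k⁻¹) < b := by
  have := S.lt_mul h1 h2
  rwa [show g * h⁻¹ * (h * k⁻¹) = g * k⁻¹ by group] at this

theorem JS.v_symm (g h : H) : S.v (g * h⁻¹) = S.v (h * g⁻¹) := by
  rw [← S.v_inv (h * g⁻¹)]
  apply congrArg
  group

theorem JS.ψ_one (a : S.Λ) : S.ψ a 1 = 0 := by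
  rw [S.ψ_zero a 1 (by rw [S.v_one]; exact bot_le), S.v_one]
  exact WithBot.bot_lt_coe a

theorem JS.ψ_inv (a : S.Λ) (g : H) (h : S.v g ≤ a) : S.ψ a g⁻¹ = - S.ψ a g := by
  have h1 := S.ψ_mul a g g⁻¹ h (by rw [S.v_inv]; exact h)
  rw [mul_inv_cancel, S.ψ_one] at h1
  linarith

theorem JS.ψ_tri (a : S.Λ) {g h k : H} (h1 : S.v (g * h⁻¹) ≤ a) (h2 : S.v (h * k⁻¹) ≤ a) :
    S.ψ a (g * k⁻¹) = S.ψ a (g * h⁻¹) + S.ψ a (h * k⁻¹) := by
  rw [← S.ψ_mul a _ _ h1 h2]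
  apply congrArg
  group

theorem piece_of (a : S.Λ) (g : H) (r : ℝ) (x : H → ℂ) (h : H) (h1 : S.v (h * g⁻¹) ≤ a)
    (h2 : S.ψ a (h * g⁻¹) = r) : piece S a g r x h = x h := by
  simp [piece, h1, h2]

theorem piece_ne (a : S.Λ) (g : H) (r : ℝ) (x : H → ℂ) (h : H) (hh : piece S a g r x h ≠ 0) :
    x h ≠ 0 ∧ S.v (h * g⁻¹) ≤ a ∧ S.ψ a (h * g⁻¹) = r := by
  unfold piece at hh
  split_ifs at hh with h1
  · exact ⟨hh, h1.1, h1.2⟩
  · exact absurd rfl hh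

/-- change of the base point in the same coset -/
theorem piece_base (a : S.Λ) (g g' : H) (r : ℝ) (x : H → ℂ) (hg : S.v (g' * g⁻¹) ≤ a) :
    piece S a g' r x = piece S a g (r + S.ψ a (g' * g⁻¹)) x := by
  funext h
  unfold piece
  have h1 : S.v (h * g'⁻¹) ≤ a ↔ S.v (h * g⁻¹) ≤ a :=
    ⟨fun h1 => S.le_tri h1 hg, fun h1 => S.le_tri h1 (by rw [S.v_symm]; exact hg)⟩
  by_cases hc : S.v (h * g'⁻¹) ≤ a
  · have h2 := S.ψ_tri a hc hg
    have h3 : S.ψ a (h * g'⁻¹) = r ↔ S.ψ a (h * g⁻¹) = r + S.ψ a (g' * g⁻¹) := by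
      rw [h2]
      constructor
      · intro h; rw [h]
      · intro h; linarith
    simp only [h1.mp hc, hc, h3, true_and]
  · have h2 : ¬ S.v (h * g⁻¹) ≤ a := fun h => hc (h1.mpr h)
    simp [hc, h2]

theorem InCoset.base {a : S.Λ} {g g' : H} {x : H → ℂ} (h : InCoset S a g x)
    (hg : S.v (g' * g⁻¹) ≤ a) : InCoset S a g' x :=
  fun k hk => S.le_tri (h k hk) (by rw [S.v_symm]; exact hg)

theorem LocFin.base {a : S.Λ} {g g' : H} {x : H → ℂ} (h : LocFin S a g x)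
    (hg : S.v (g' * g⁻¹) ≤ a) : LocFin S a g' x := by
  intro R
  have h1 := h (R + S.ψ a (g' * g⁻¹))
  refine (h1.preimage (f := fun r => r + S.ψ a (g' * g⁻¹)) ?_).subset ?_
  · intro p _ q _ hpq
    exact add_right_cancel hpq
  · rintro r ⟨hr, hne⟩
    refine ⟨by simpa using hr, ?_⟩
    rw [← piece_base S a g g' r x hg]
    exact hne

/-- If all support points are at the same level then the piece at this level is everything. -/
theorem piece_all (a : S.Λ) (g : H) (r : ℝ) (x : H → ℂ)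
    (h : ∀ k, x k ≠ 0 → S.v (k * g⁻¹) ≤ a ∧ S.ψ a (k * g⁻¹) = r) : piece S a g r x = x := by
  funext k
  by_cases hk : x k = 0
  · unfold piece
    split_ifs
    · rfl
    · exact hk.symm
  · exact piece_of S a g r x k (h k hk).1 (h k hk).2

/-- If all support points are at the same level then the other pieces vanish. -/
theorem piece_none (a : S.Λ) (g : H) (r r' : ℝ) (x : H → ℂ)
    (h : ∀ k, x k ≠ 0 → S.v (k * g⁻¹) ≤ a ∧ S.ψ a (k * g⁻¹) = r) (hr : r' ≠ r) :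
    piece S a g r' x = 0 := by
  funext k
  by_contra hk
  obtain ⟨h1, _, h3⟩ := piece_ne S a g r' x k hk
  exact hr (h3.symm.trans (h k h1).2)

theorem piece_zero (a : S.Λ) (g : H) (r : ℝ) : piece S a g r (0 : H → ℂ) = 0 := by
  funext k
  simp [piece]

theorem Tame.zero : Tame S (0 : H → ℂ) := Tame.fin _ (by simp)

theorem piece_finite (a : S.Λ) (g : H) (r : ℝ) (x : H → ℂ) (hx : (Function.support x).Finite) :
    (Function.support (piece S a g r x)).Finite :=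
  hx.subset fun k hk => (piece_ne S a g r x k hk).1

end Pool.Agent.COST
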