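import Pool.Agent.COST.J7

section

open Set

namespace Pool.Agent.COST

variable {H : Type} [Group H] {S : JS H}

/-- A relation without terms is zero. PROOF: `ρ.eq`. -/
theorem rel_nil {ρ : Rel S} (h : ρ.tm = []) : ρ.c0 = 0 := by
  ext y
  have h1 := ρ.eq y
  rw [h] at h1
  simpa using h1

end Pool.Agent.COST

end

section

open Set

namespace Pool.Agent.COST

variable {H : Type} [Group H] {S : JS H}

/-- PROOF: by `rel_nil` there is no point at all. -/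
theorem below_nil {ρ : Rel S} (h : ρ.tm = []) (a : S.Λ) : ρ.Below a := by
  refine ⟨1, ?_, ?_⟩
  · intro y hy
    rw [rel_nil h] at hy
    exact absurd rfl hy
  · intro p hp
    rw [h] at hp
    simp at hp

end Pool.Agent.COST

end

section

open Set

namespace Pool.Agent.COST

variable {H : Type} [Group H] {S : JS H}

/-- the points of a relation -/
def j10_3_pt (ρ : Rel S) (y : H) : Prop :=
  ρ.c0 y ≠ 0 ∨ ∃ p ∈ ρ.tm, ∃ h s, p.1 h ≠ 0 ∧ p.2 s ≠ 0 ∧ y = h * s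

/-- the reference points of a relation -/
def j10_3_ref (ρ : Rel S) : Set H :=
  {y | ρ.c0 y ≠ 0} ∪ ⋃ p ∈ {p | p ∈ ρ.tm},
    {y | ∃ q s, nd S p.1 = some q ∧ p.2 s ≠ 0 ∧ y = q.2 * s}

theorem j10_3_ref_finite (ρ : Rel S) : (j10_3_ref ρ).Finite := by
  refine Set.Finite.union ?_ (Set.Finite.biUnion (List.finite_toSet ρ.tm) ?_)
  · exact ρ.c0.support.finite_toSet.subset fun y hy => by simpa using hy
  · intro p _
    rcases hq : nd S p.1 with _ | q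
    · refine Set.Finite.subset Set.finite_empty ?_
      rintro y ⟨q, s, h1, _⟩
      exact absurd h1 (by simp)
    · refine (p.2.support.finite_toSet.image fun s => q.2 * s).subset ?_
      rintro y ⟨q', s, h1, h2, h3⟩
      rw [Option.some.injEq] at h1
      exact ⟨s, by simpa using h2, by rw [h3, h1]⟩

theorem j10_3_ref_pt {ρ : Rel S} {y : H} (hy : y ∈ j10_3_ref ρ) : j10_3_pt ρ y := by
  rcases hy with hy | hy
  · exact Or.inl hy
  · simp only [Set.mem_iUnion] at hy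
    obtain ⟨p, hp, q, s, h1, h2, h3⟩ := hy
    exact Or.inr ⟨p, hp, q.2, s, (nd_isNode S h1).2.2.1, h2, h3⟩

/-- The largest jump of a relation. PROOF. Take `p0 ∈ ρ.tm`, its node data `q0` (`nd_spec`,
`ρ.tame`, `ρ.inf`), `s0` with `p0.2 s0 ≠ 0`, `g = q0.2 * s0`. Let `P` be the finite set of the
reference points `q.2 * s` (`p ∈ ρ.tm`, `q` its node data, `s ∈ supp p.2`) and of the support
points of `ρ.c0`. Let `a` be the largest element of the finite nonempty set of all `q.1`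
(`p ∈ ρ.tm`) and all `b` with `S.v (y * g⁻¹) = b`, `y ∈ P`.
Within: `y ∈ supp c0`: clear; `h * s * g⁻¹ = (h * q.2⁻¹) * (q.2 * s * g⁻¹)` with `p.1 h ≠ 0`:
`IsNode` (InCoset) and `le_mul`.
Not below: suppose `g'` is a base point for `Below a`. Then `v (y * y'⁻¹) < a` for all
points `y, y'` of `ρ` (`lt_tri`, `v_symm`). If `a = q.1`, take `h` with `p.1 h ≠ 0` and
`v (h * q.2⁻¹) = a` and the points `h * s`, `q.2 * s`. If `a = v (y * g⁻¹)`, take `y` and `g`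
(both are points of `ρ`, `p.1 q.2 ≠ 0`).
Below `b` for `a < b`: base point `g`. -/
theorem jump_exists {ρ : Rel S} (h : ρ.tm ≠ []) :
    ∃ (a : S.Λ) (g : H), ρ.Within a g ∧ ¬ ρ.Below a ∧ ∀ b, a < b → ρ.Below b := by
  obtain ⟨p0, hp0⟩ : ∃ p0, p0 ∈ ρ.tm := List.exists_mem_of_ne_nil _ h
  obtain ⟨q0, hq0, hn0⟩ := nd_spec S (ρ.tame p0 hp0) (ρ.inf p0 hp0)
  obtain ⟨s0, hs0⟩ : ∃ s0, p0.2 s0 ≠ 0 := by
    by_contra hcon
    push Not at hcon
    exact ρ.nz p0 hp0 (Finsupp.ext hcon)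
  obtain ⟨g, hg⟩ : ∃ g, g = q0.2 * s0 := ⟨_, rfl⟩
  have hgpt : j10_3_pt ρ g := Or.inr ⟨p0, hp0, q0.2, s0, hn0.2.2.1, hs0, hg⟩
  obtain ⟨B, hB⟩ : ∃ B : Set S.Λ, B = {b | (∃ p ∈ ρ.tm, ∃ q, nd S p.1 = some q ∧ q.1 = b) ∨
    ∃ y ∈ j10_3_ref ρ, S.v (y * g⁻¹) = (b : WithBot S.Λ)} := ⟨_, rfl⟩
  have hBfin : B.Finite := by
    have h1 : {q : S.Λ × H | q ∈ ρ.tm.filterMap fun p => nd S p.1}.Finite := List.finite_toSet _
    have h2 : ((fun y => S.v (y * g⁻¹)) '' j10_3_ref ρ).Finite := (j10_3_ref_finite ρ).image _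
    refine ((h1.image Prod.fst).union (h2.preimage (f := fun b : S.Λ => (b : WithBot S.Λ))
      (fun x _ y _ hxy => WithBot.coe_injective hxy))).subset ?_
    intro b hb
    rw [hB] at hb
    rcases hb with ⟨p, hp, q, hq, hqb⟩ | ⟨y, hy, hyb⟩
    · exact Or.inl ⟨q, List.mem_filterMap.2 ⟨p, hp, hq⟩, hqb⟩
    · exact Or.inr ⟨y, hy, hyb⟩
  have hBne : B.Nonempty := ⟨q0.1, by rw [hB]; exact Or.inl ⟨p0, hp0, q0, hq0, rfl⟩⟩
  obtain ⟨a, haB, hamax⟩ := Set.exists_max_image B id hBfin hBne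
  have hmax1 : ∀ p ∈ ρ.tm, ∀ q, nd S p.1 = some q → q.1 ≤ a := by
    intro p hp q hq
    exact hamax q.1 (by rw [hB]; exact Or.inl ⟨p, hp, q, hq, rfl⟩)
  have hmax2 : ∀ y ∈ j10_3_ref ρ, S.v (y * g⁻¹) ≤ a := by
    intro y hy
    rcases hv : S.v (y * g⁻¹) with _ | b
    · exact bot_le
    · exact WithBot.coe_le_coe.2 (hamax b (by rw [hB]; exact Or.inr ⟨y, hy, hv⟩))
  have hw : ρ.Within a g := by
    refine ⟨fun y hy => hmax2 y (Or.inl hy), ?_⟩
    intro p hp k s hk hs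
    obtain ⟨q, hq, hn⟩ := nd_spec S (ρ.tame p hp) (ρ.inf p hp)
    have h1 : S.v (k * q.2⁻¹) ≤ a := (hn.1 k hk).trans (WithBot.coe_le_coe.2 (hmax1 p hp q hq))
    have h2 : S.v (q.2 * s * g⁻¹) ≤ a := by
      refine hmax2 _ (Or.inr ?_)
      simp only [Set.mem_iUnion]
      exact ⟨p, hp, q, s, hq, hs, rfl⟩
    have h3 := S.le_mul h1 h2
    rwa [show k * q.2⁻¹ * (q.2 * s * g⁻¹) = k * s * g⁻¹ by group] at h3
  refine ⟨a, g, hw, ?_, ?_⟩
  · rintro ⟨g', hg1, hg2⟩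
    have hpt : ∀ y, j10_3_pt ρ y → S.v (y * g'⁻¹) < a := by
      rintro y (hy | ⟨p, hp, k, s, hk, hs, rfl⟩)
      · exact hg1 y hy
      · exact hg2 p hp k s hk hs
    have hpp : ∀ y y', j10_3_pt ρ y → j10_3_pt ρ y' → S.v (y * y'⁻¹) < a := by
      intro y y' hy hy'
      exact S.lt_tri (hpt y hy) (by rw [S.v_symm]; exact hpt y' hy')
    rw [hB] at haB
    rcases haB with ⟨p, hp, q, hq, hqa⟩ | ⟨y, hy, hya⟩
    · have hn := nd_isNode S hq
      obtain ⟨k, hk, hkv⟩ := hn.2.2.2.2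
      obtain ⟨s, hs⟩ : ∃ s, p.2 s ≠ 0 := by
        by_contra hcon
        push Not at hcon
        exact ρ.nz p hp (Finsupp.ext hcon)
      have h1 := hpp (k * s) (q.2 * s) (Or.inr ⟨p, hp, k, s, hk, hs, rfl⟩)
        (Or.inr ⟨p, hp, q.2, s, hn.2.2.1, hs, rfl⟩)
      rw [show k * s * (q.2 * s)⁻¹ = k * q.2⁻¹ by group, hkv, hqa] at h1
      exact lt_irrefl _ h1
    · have h1 := hpp y g (j10_3_ref_pt hy) hgpt
      rw [hya] at h1
      exact lt_irrefl _ h1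
  · intro b hb
    refine ⟨g, fun y hy => (hw.1 y hy).trans_lt (WithBot.coe_lt_coe.2 hb), ?_⟩
    intro p hp k s hk hs
    exact (hw.2 p hp k s hk hs).trans_lt (WithBot.coe_lt_coe.2 hb)

end Pool.Agent.COST

end
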