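import Pool.Agent.COST.J6

section

open Set

namespace Pool.Agent.COST

variable {H : Type} [Group H] {S : JS H}

open Classical in
/-- `ρ'` is the part of the relation `ρ` at level `r` with respect to `(a, g)`: the terms are the
terms of `subt` with infinite support, the other ones are merged into the finite part. -/
structure IsChild (a : S.Λ) (g : H) (r : ℝ) (ρ ρ' : Rel S) : Prop where
  tm : ρ'.tm = (ρ.tm.flatMap (subt S a g r)).filter fun u => ¬ (Function.support u.1).Finite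
  c0 : ∀ y, ρ'.c0 y = (if S.v (y * g⁻¹) ≤ a ∧ S.ψ a (y * g⁻¹) = r then ρ.c0 y else 0) +
    (((ρ.tm.flatMap (subt S a g r)).filter fun u => (Function.support u.1).Finite).map
      fun u => rc u.1 u.2 y).sum

/-- PROOF: let `h` be a support point of `p.1` with `S.v (h * q.2⁻¹) = q.1` (from `IsNode`), `s` a
support point of `p.2` (`ρ.nz`). `S.v (h * s * g⁻¹) ≤ a` and `S.v (q.2 * s * g⁻¹) ≤ a` by
`Within`, so `S.v (h * q.2⁻¹) ≤ a` by `le_tri` type arguments
(`h * q.2⁻¹ = (h * s * g⁻¹) * (q.2 * s * g⁻¹)⁻¹`). -/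
theorem within_node {ρ : Rel S} {a : S.Λ} {g : H} (hw : ρ.Within a g)
    {p : (H → ℂ) × (H →₀ ℂ)} (hp : p ∈ ρ.tm) {q : S.Λ × H} (hq : nd S p.1 = some q) :
    q.1 ≤ a := by
  obtain ⟨h1, h2, h3, h4, h, hh, hv⟩ := nd_isNode S hq
  have hs : ∃ s, p.2 s ≠ 0 := by
    by_contra hne
    push Not at hne
    exact ρ.nz p hp (Finsupp.ext hne)
  obtain ⟨s, hs⟩ := hs
  have e1 := hw.2 p hp h s hh hs
  have e2 := hw.2 p hp q.2 s h3 hs
  have e3 : S.v (h * q.2⁻¹) ≤ a := by
    have e4 : h * q.2⁻¹ = (h * s * g⁻¹) * (q.2 * s * g⁻¹)⁻¹ := by group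
    rw [e4]
    apply S.le_mul e1
    rw [S.v_inv]
    exact e2
  rw [hv] at e3
  exact WithBot.coe_le_coe.mp e3

end Pool.Agent.COST

end

section

open Set

namespace Pool.Agent.COST

variable {H : Type} [Group H] {S : JS H}

/-- `rc x c` has finite support if `x` has. PROOF: support points are of the form `h * s` with
`x h ≠ 0`, `c s ≠ 0`. -/
theorem rc_finite {x : H → ℂ} (hx : (Function.support x).Finite) (c : H →₀ ℂ) :
    (Function.support (rc x c)).Finite := by
  refine ((hx.prod c.finite_support).image fun p : H × H => p.1 * p.2).subset ?_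
  intro h hh
  by_contra hne
  apply hh
  unfold rc Finsupp.sum
  apply Finset.sum_eq_zero
  intro s hs
  by_contra h2
  apply hne
  refine ⟨(h * s⁻¹, s), ⟨fun h3 => h2 (by change x (h * s⁻¹) * c s = 0; rw [h3, zero_mul]), Finsupp.mem_support_iff.mp hs⟩, ?_⟩
  change h * s⁻¹ * s = h
  group

end Pool.Agent.COST

end

section

open Set

namespace Pool.Agent.COST

variable {H : Type} [Group H] {S : JS H}

theorem j7_3_split {α : Type} (l : List α) (F : α → ℂ) (P Q : α → Bool)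
    (hPQ : ∀ u, Q u = !(P u)) :
    ((l.filter P).map F).sum + ((l.filter Q).map F).sum = (l.map F).sum := by
  induction l with
  | nil => simp
  | cons u l ih =>
    rw [List.map_cons, List.sum_cons, ← ih]
    cases hP : P u with
    | true =>
      have hQ : Q u = false := by rw [hPQ, hP]; rfl
      rw [List.filter_cons_of_pos hP, List.filter_cons_of_neg (by rw [hQ]; simp), List.map_cons,
        List.sum_cons]
      ring
    | false =>
      have hQ : Q u = true := by rw [hPQ, hP]; rfl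
      rw [List.filter_cons_of_neg (by rw [hP]; simp), List.filter_cons_of_pos hQ, List.map_cons,
        List.sum_cons]
      ring

theorem j7_3_flat {α β : Type} (l : List α) (f : α → List β) (F : β → ℂ) :
    ((l.flatMap f).map F).sum = (l.map fun p => ((f p).map F).sum).sum := by
  induction l with
  | nil => simp
  | cons u l ih =>
    rw [List.flatMap_cons, List.map_append, List.sum_append, ih, List.map_cons, List.sum_cons]

theorem j7_3_fin (l : List ((H → ℂ) × (H →₀ ℂ))) (hl : ∀ u ∈ l, (Function.support u.1).Finite) :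
    (Function.support fun y => (l.map fun u => rc u.1 u.2 y).sum).Finite := by
  induction l with
  | nil =>
    refine Set.Finite.subset Set.finite_empty ?_
    intro y hy
    exact absurd rfl hy
  | cons u l ih =>
    have h1 := rc_finite (hl u (List.mem_cons_self)) u.2
    have h2 := ih (fun v hv => hl v (List.mem_cons_of_mem _ hv))
    refine (h1.union h2).subset ?_
    intro y hy
    by_contra hn
    rw [Set.mem_union, not_or] at hn
    obtain ⟨hn1, hn2⟩ := hn
    rw [Function.notMem_support] at hn1 hn2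
    apply hy
    show ((u :: l).map fun u => rc u.1 u.2 y).sum = 0
    rw [List.map_cons, List.sum_cons, hn1, hn2, add_zero]

theorem j7_3_ite {α : Type} (l : List α) (C : Prop) [Decidable C] (F : α → ℂ) :
    (l.map fun p => if C then F p else 0).sum = if C then (l.map F).sum else 0 := by
  by_cases h : C
  · simp only [if_pos h]
  · simp only [if_neg h]
    induction l with
    | nil => simp
    | cons u l ih => rw [List.map_cons, List.sum_cons, ih, add_zero]

/-- PROOF: the Finsupp `c0` is made with `Finsupp.ofSupportFinite` (finite by `rc_finite` and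
since `ρ.c0` is a Finsupp). `tame`, `nz` of the new relation: `mem_subt` (with `nd_spec`,
`within_node`), `inf`: filter. `eq` at `h`: the two filtered sums add up to the sum over
`ρ.tm.flatMap (subt S a g r)` which is by `subt_sum` the sum over `p ∈ ρ.tm` of
`if (level of h is r) then rc p.1 p.2 h else 0`; use `ρ.eq h`. -/
theorem child_exists {ρ : Rel S} {a : S.Λ} {g : H} (hw : ρ.Within a g) (r : ℝ) :
    ∃ ρ' : Rel S, IsChild a g r ρ ρ' := by
  classical
  have hmem : ∀ u ∈ ρ.tm.flatMap (subt S a g r), Tame S u.1 ∧ u.2 ≠ 0 := by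
    intro u hu
    obtain ⟨p, hp, hup⟩ := List.mem_flatMap.mp hu
    obtain ⟨q, hq, -⟩ := nd_spec S (ρ.tame p hp) (ρ.inf p hp)
    have h1 := mem_subt S a g r p (ρ.tame p hp) q hq (within_node hw hp hq)
      (fun h s => hw.2 p hp h s) u hup
    exact ⟨h1.1, h1.2.1⟩
  have hfin : (Function.support fun y => (if S.v (y * g⁻¹) ≤ a ∧ S.ψ a (y * g⁻¹) = r then
      ρ.c0 y else 0) + (((ρ.tm.flatMap (subt S a g r)).filter fun u =>
        (Function.support u.1).Finite).map fun u => rc u.1 u.2 y).sum).Finite := by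
    have h1 := j7_3_fin ((ρ.tm.flatMap (subt S a g r)).filter fun u =>
        (Function.support u.1).Finite) (fun u hu => by
      have h2 := (List.mem_filter.mp hu).2
      exact of_decide_eq_true h2)
    refine ((ρ.c0.finite_support).union h1).subset ?_
    intro y hy
    by_contra hn
    rw [Set.mem_union, not_or] at hn
    obtain ⟨hn1, hn2⟩ := hn
    rw [Function.notMem_support] at hn1 hn2
    apply hy
    show (if S.v (y * g⁻¹) ≤ a ∧ S.ψ a (y * g⁻¹) = r then
      ρ.c0 y else 0) + (((ρ.tm.flatMap (subt S a g r)).filter fun u =>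
        (Function.support u.1).Finite).map fun u => rc u.1 u.2 y).sum = 0
    rw [hn1, hn2, ite_self, add_zero]
  have heq : ∀ h, ((if S.v (h * g⁻¹) ≤ a ∧ S.ψ a (h * g⁻¹) = r then
      ρ.c0 h else 0) + (((ρ.tm.flatMap (subt S a g r)).filter fun u =>
        (Function.support u.1).Finite).map fun u => rc u.1 u.2 h).sum) +
      (((ρ.tm.flatMap (subt S a g r)).filter fun u =>
        ¬ (Function.support u.1).Finite).map fun u => rc u.1 u.2 h).sum = 0 := by
    intro h
    rw [add_assoc, j7_3_split _ _ _ _ (fun u => by rw [decide_not]), j7_3_flat]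
    have h2 : (ρ.tm.map fun p => ((subt S a g r p).map fun u => rc u.1 u.2 h).sum) =
        ρ.tm.map fun p => if S.v (h * g⁻¹) ≤ a ∧ S.ψ a (h * g⁻¹) = r then rc p.1 p.2 h else 0 := by
      apply List.map_congr_left
      intro p hp
      obtain ⟨q, hq, -⟩ := nd_spec S (ρ.tame p hp) (ρ.inf p hp)
      exact subt_sum S a g r p q hq (within_node hw hp hq) (fun h s => hw.2 p hp h s) h
    rw [h2, j7_3_ite]
    by_cases hc : S.v (h * g⁻¹) ≤ a ∧ S.ψ a (h * g⁻¹) = r
    · rw [if_pos hc, if_pos hc]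
      exact ρ.eq h
    · rw [if_neg hc, if_neg hc, add_zero]
  refine ⟨⟨Finsupp.ofSupportFinite _ hfin, (ρ.tm.flatMap (subt S a g r)).filter fun u =>
        ¬ (Function.support u.1).Finite, ?_, ?_, ?_, heq⟩, ⟨?_, fun y => ?_⟩⟩
  · intro p hp
    exact (hmem p (List.mem_filter.mp hp).1).1
  · intro p hp
    exact of_decide_eq_true (List.mem_filter.mp hp).2
  · intro p hp
    exact (hmem p (List.mem_filter.mp hp).1).2
  · rfl
  · rfl

end Pool.Agent.COST

end

section

open Set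

namespace Pool.Agent.COST

variable {H : Type} [Group H] {S : JS H}

theorem j7_4_sub {ρ : Rel S} {a : S.Λ} {g : H} (hw : ρ.Within a g) {r : ℝ}
    {p : (H → ℂ) × (H →₀ ℂ)} (hp : p ∈ ρ.tm) {u : (H → ℂ) × (H →₀ ℂ)}
    (hu : u ∈ subt S a g r p) :
    ∀ h s, u.1 h ≠ 0 → u.2 s ≠ 0 → S.v (h * s * g⁻¹) ≤ a ∧ S.ψ a (h * s * g⁻¹) = r := by
  obtain ⟨q, hq, hn⟩ := nd_spec S (ρ.tame p hp) (ρ.inf p hp)
  exact (mem_subt S a g r p (ρ.tame p hp) q hq (within_node hw hp hq)
    (fun h s => hw.2 p hp h s) u hu).2.2.2.2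

theorem j7_4_rc {x : H → ℂ} {c : H →₀ ℂ} {y : H} (h : rc x c y ≠ 0) :
    ∃ s, x (y * s⁻¹) ≠ 0 ∧ c s ≠ 0 := by
  unfold rc at h
  rw [Finsupp.sum] at h
  obtain ⟨s, hs, hne⟩ := Finset.exists_ne_zero_of_sum_ne_zero h
  exact ⟨s, left_ne_zero_of_mul hne, right_ne_zero_of_mul hne⟩

/-- All points of the child are points of the parent at level `r`; so the child is `Below a`.
PROOF: a member of `ρ'.tm` is a member `u` of `subt S a g r p` for some `p ∈ ρ.tm`: `mem_subt`
gives the level statement. For `y` with `ρ'.c0 y ≠ 0`: either the first summand is nonzero, or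
some `rc u.1 u.2 y ≠ 0`, then `y = h * s` with `u.1 h ≠ 0`, `u.2 s ≠ 0`, again `mem_subt`. -/
theorem child_level {ρ ρ' : Rel S} {a : S.Λ} {g : H} (hw : ρ.Within a g) {r : ℝ}
    (hc : IsChild a g r ρ ρ') :
    (∀ y, ρ'.c0 y ≠ 0 → S.v (y * g⁻¹) ≤ a ∧ S.ψ a (y * g⁻¹) = r) ∧
      ∀ p ∈ ρ'.tm, ∀ h s, p.1 h ≠ 0 → p.2 s ≠ 0 →
        S.v (h * s * g⁻¹) ≤ a ∧ S.ψ a (h * s * g⁻¹) = r := by
  classical
  constructor
  · intro y hy
    rw [hc.c0 y] at hy
    by_cases h1 : S.v (y * g⁻¹) ≤ a ∧ S.ψ a (y * g⁻¹) = r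
    · exact h1
    · rw [if_neg h1, zero_add] at hy
      have h2 : ∃ u ∈ (ρ.tm.flatMap (subt S a g r)).filter
          (fun u => (Function.support u.1).Finite), rc u.1 u.2 y ≠ 0 := by
        by_contra hcon
        push Not at hcon
        apply hy
        apply List.sum_eq_zero
        intro x hx
        obtain ⟨u, hu, rfl⟩ := List.mem_map.mp hx
        exact hcon u hu
      obtain ⟨u, hu, hne⟩ := h2
      obtain ⟨p, hp, hup⟩ := List.mem_flatMap.mp (List.mem_filter.mp hu).1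
      obtain ⟨s, h3, h4⟩ := j7_4_rc hne
      have h5 := j7_4_sub hw hp hup (y * s⁻¹) s h3 h4
      rwa [inv_mul_cancel_right] at h5
  · intro p hp h s h1 h2
    rw [hc.tm] at hp
    obtain ⟨q, hq, hup⟩ := List.mem_flatMap.mp (List.mem_filter.mp hp).1
    exact j7_4_sub hw hq hup h s h1 h2

end Pool.Agent.COST

end

section

open Set

namespace Pool.Agent.COST

variable {H : Type} [Group H] {S : JS H}

/-- PROOF: from `child_level`: if there is no point at all, any base point works. Otherwise let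
`y0` be a point (`y0 = h * s` or a support point of `c0`): it has level `r`, and for another point
`y` the element `y * y0⁻¹ = (y * g⁻¹) * (y0 * g⁻¹)⁻¹` has `ψ a = r - r = 0`, so jump `< a`
(`ψ_zero`, `ψ_tri`). -/
theorem child_below {ρ ρ' : Rel S} {a : S.Λ} {g : H} (hw : ρ.Within a g) {r : ℝ}
    (hc : IsChild a g r ρ ρ') : ρ'.Below a := by
  obtain ⟨h1, h2⟩ := child_level hw hc
  have key : ∀ y y0, (S.v (y * g⁻¹) ≤ a ∧ S.ψ a (y * g⁻¹) = r) →
      (S.v (y0 * g⁻¹) ≤ a ∧ S.ψ a (y0 * g⁻¹) = r) → S.v (y * y0⁻¹) < a := by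
    intro y y0 hy hy0
    have h3 : S.v (y * y0⁻¹) ≤ a := S.le_tri hy.1 (by rw [S.v_symm]; exact hy0.1)
    have h4 := S.ψ_tri a h3 hy0.1
    rw [hy.2, hy0.2] at h4
    exact (S.ψ_zero a _ h3).1 (by linarith)
  by_cases hex : ∃ y0, S.v (y0 * g⁻¹) ≤ a ∧ S.ψ a (y0 * g⁻¹) = r
  · obtain ⟨y0, hy0⟩ := hex
    exact ⟨y0, fun y hy => key y y0 (h1 y hy) hy0,
      fun p hp h s hh hs => key _ y0 (h2 p hp h s hh hs) hy0⟩
  · exact ⟨g, fun y hy => absurd ⟨y, h1 y hy⟩ hex,
      fun p hp h s hh hs => absurd ⟨_, h2 p hp h s hh hs⟩ hex⟩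

end Pool.Agent.COST

end

section

open Set

namespace Pool.Agent.COST

variable {H : Type} [Group H] {S : JS H}

theorem j7_6_mem {ρ : Rel S} {a : S.Λ} {g : H} (hw : ρ.Within a g) {r : ℝ} {u : (H → ℂ) × (H →₀ ℂ)}
    (hu : u ∈ ρ.tm.flatMap (subt S a g r)) :
    ∃ p ∈ ρ.tm, (∀ h, u.1 h ≠ 0 → p.1 h ≠ 0) ∧ (∀ s, u.2 s ≠ 0 → p.2 s ≠ 0) := by
  obtain ⟨p, hp, hup⟩ := List.mem_flatMap.mp hu
  obtain ⟨q, hq, _⟩ := nd_spec S (ρ.tame p hp) (ρ.inf p hp)
  obtain ⟨_, _, h3, h4, _⟩ := mem_subt S a g r p (ρ.tame p hp) q hq (within_node hw hp hq)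
    (hw.2 p hp) u hup
  exact ⟨p, hp, h3, h4⟩

theorem j7_6_sum {α : Type} {M : Type} [AddMonoid M] (l : List α) (f : α → M) (h : (l.map f).sum ≠ 0) :
    ∃ u ∈ l, f u ≠ 0 := by
  by_contra hne
  apply h
  apply List.sum_eq_zero
  intro x hx
  obtain ⟨u, hu, rfl⟩ := List.mem_map.mp hx
  by_contra hu2
  exact hne ⟨u, hu, hu2⟩

theorem j7_6_rc {x : H → ℂ} {c : H →₀ ℂ} {y : H} (h : rc x c y ≠ 0) :
    ∃ s, c s ≠ 0 ∧ x (y * s⁻¹) ≠ 0 := by
  unfold rc Finsupp.sum at h
  obtain ⟨s, _, hs⟩ := Finset.exists_ne_zero_of_sum_ne_zero h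
  exact ⟨s, right_ne_zero_of_mul hs, left_ne_zero_of_mul hs⟩

/-- PROOF: the points of `ρ'` are products of points `h` of `p.1` and `s` of `p.2` with
`p ∈ ρ.tm`, or support points of `ρ.c0` (see `child_level`, `mem_subt`), so the base point of
`ρ` works for `ρ'`. -/
theorem child_below_of {ρ ρ' : Rel S} {a : S.Λ} {g : H} (hw : ρ.Within a g) {r : ℝ}
    (hc : IsChild a g r ρ ρ') {b : S.Λ} (hb : ρ.Below b) : ρ'.Below b := by
  obtain ⟨g0, hb1, hb2⟩ := hb
  refine ⟨g0, fun y hy => ?_, fun u hu h s h1 h2 => ?_⟩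
  · by_cases hy0 : ρ.c0 y = 0
    · rw [hc.c0 y, hy0, ite_self, zero_add] at hy
      obtain ⟨u, hu, hne⟩ := j7_6_sum _ _ hy
      obtain ⟨p, hp, h3, h4⟩ := j7_6_mem hw (List.mem_filter.mp hu).1
      obtain ⟨s, hs1, hs2⟩ := j7_6_rc hne
      have h5 := hb2 p hp (y * s⁻¹) s (h3 _ hs2) (h4 s hs1)
      rwa [inv_mul_cancel_right] at h5
    · exact hb1 y hy0
  · rw [hc.tm] at hu
    obtain ⟨p, hp, h3, h4⟩ := j7_6_mem hw (List.mem_filter.mp hu).1
    exact hb2 p hp h s (h3 h h1) (h4 s h2)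

end Pool.Agent.COST

end

section

open Set

namespace Pool.Agent.COST

variable {H : Type} [Group H] {S : JS H}

theorem j7_7_list {α : Type} (P : α → ℝ → Prop) (R : ℝ) (l : List α)
    (h : ∀ p ∈ l, ∃ L : Finset ℝ, ∀ r ≤ R, r ∉ L → P p r) :
    ∃ L : Finset ℝ, ∀ r ≤ R, r ∉ L → ∀ p ∈ l, P p r := by
  classical
  induction l with
  | nil => exact ⟨∅, fun r _ _ p hp => by simp at hp⟩
  | cons b l ih =>
    obtain ⟨L1, h1⟩ := h b List.mem_cons_self
    obtain ⟨L2, h2⟩ := ih fun p hp => h p (List.mem_cons_of_mem b hp)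
    refine ⟨L1 ∪ L2, fun r hr hrL p hp => ?_⟩
    rw [Finset.mem_union, not_or] at hrL
    rcases List.mem_cons.1 hp with rfl | hp
    · exact h1 r hr hrL.1
    · exact h2 r hr hrL.2 p hp

theorem j7_7_term {ρ : Rel S} {a : S.Λ} {g : H} (hw : ρ.Within a g) (R : ℝ)
    (p : (H → ℂ) × (H →₀ ℂ)) (hp : p ∈ ρ.tm) :
    ∃ L : Finset ℝ, ∀ r ≤ R, r ∉ L → ∀ u ∈ subt S a g r p, u.1 = 0 := by
  classical
  obtain ⟨q, hq, hn⟩ := nd_spec S (ρ.tame p hp) (ρ.inf p hp)
  have hqa := within_node hw hp hq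
  have hin : InCoset S a q.2 p.1 := fun h hh =>
    (hn.1 h hh).trans (WithBot.coe_le_coe.2 hqa)
  have hloc := (tame_piece S (ρ.tame p hp) a q.2 hin).1
  let T : Finset ℝ := p.2.support.image fun s => S.ψ a (q.2 * s * g⁻¹)
  refine ⟨T.biUnion fun σ => (hloc (R - σ)).toFinset.image fun r => r + σ, ?_⟩
  intro r hr hrL u hu
  unfold subt at hu
  rw [hq] at hu
  simp only [List.mem_map, Finset.mem_toList] at hu
  obtain ⟨σ, hσ, rfl⟩ := hu
  by_contra hne
  apply hrL
  rw [Finset.mem_biUnion]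
  refine ⟨σ, hσ, ?_⟩
  rw [Finset.mem_image]
  refine ⟨r - σ, ?_, by ring⟩
  rw [Set.Finite.mem_toFinset]
  exact ⟨by linarith, hne⟩

/-- Below any bound only finitely many levels are nonempty. PROOF: take the levels
`ψ a (y * g⁻¹)`, `y ∈ supp ρ.c0`, and for each `p ∈ ρ.tm` (node data `q`), each
`σ ∈ {ψ a (q.2 * s * g⁻¹) : s ∈ supp p.2}` the numbers `r' + σ` with
`r' ≤ R - σ`, `piece S a q.2 r' p.1 ≠ 0` (finitely many: `tame_piece` with the coset of
`(a, q.2)`, `InCoset` because `q.1 ≤ a`). For `r ≤ R` outside this set every member of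
`subt S a g r p` has first component `0`. -/
theorem child_finite {ρ : Rel S} {a : S.Λ} {g : H} (hw : ρ.Within a g) (R : ℝ) :
    ∃ L : Finset ℝ, ∀ r ≤ R, r ∉ L → ∀ ρ' : Rel S, IsChild a g r ρ ρ' →
      ρ'.tm = [] ∧ ρ'.c0 = 0 := by
  classical
  obtain ⟨L, hL⟩ := j7_7_list (fun p r => ∀ u ∈ subt S a g r p, u.1 = 0) R ρ.tm
    fun p hp => j7_7_term hw R p hp
  refine ⟨L ∪ ρ.c0.support.image fun y => S.ψ a (y * g⁻¹), fun r hr hrL ρ' hc => ?_⟩
  rw [Finset.mem_union, not_or] at hrL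
  have key : ∀ u ∈ ρ.tm.flatMap (subt S a g r), u.1 = 0 := by
    intro u hu
    rw [List.mem_flatMap] at hu
    obtain ⟨p, hp, hu⟩ := hu
    exact hL r hr hrL.1 p hp u hu
  constructor
  · rw [hc.tm, List.filter_eq_nil_iff]
    intro u hu
    rw [key u hu]
    simp
  · ext y
    rw [hc.c0 y]
    have h1 : (if S.v (y * g⁻¹) ≤ a ∧ S.ψ a (y * g⁻¹) = r then ρ.c0 y else 0) = 0 := by
      split_ifs with h
      · by_contra hne
        apply hrL.2
        rw [Finset.mem_image]
        exact ⟨y, Finsupp.mem_support_iff.2 hne, h.2⟩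
      · rfl
    rw [h1, zero_add]
    show _ = (0 : ℂ)
    apply List.sum_eq_zero
    intro x hx
    rw [List.mem_map] at hx
    obtain ⟨u, hu, rfl⟩ := hx
    rw [key u (List.mem_of_mem_filter hu)]
    simp [rc]

end Pool.Agent.COST

end
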