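import Pool.Agent.COST.J3
import Pool.Agent.COST.J7

section

open Set

namespace Pool.Agent.COST

/-- Each element `m i` of a multiset is either kept or replaced by a finite multiset of smaller
elements. PROOF: induction on the list: `X`, `Y`, `Z` are built step by step (unchanged elements
are put into `X`; for a changed one `m i` is put into `Z` and `f i` into `Y`). -/
theorem dm_list {α ι : Type*} [Preorder α] (l : List ι) (m : ι → α) (f : ι → Multiset α)
    (h : ∀ i ∈ l, f i = {m i} ∨ ∀ y ∈ f i, y < m i) :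
    ∃ X Y Z : Multiset α, (l.map f).sum = X + Y ∧ ((l.map m : List α) : Multiset α) = X + Z ∧
      (∀ y ∈ Y, ∃ z ∈ Z, y < z) ∧ (Z = 0 → ∀ i ∈ l, f i = {m i}) ∧
      (∀ i ∈ l, f i ≠ {m i} → m i ∈ Z) := by
  induction l with
  | nil =>
    refine ⟨0, 0, 0, ?_, ?_, ?_, ?_, ?_⟩
    · simp
    · simp
    · intro y hy
      exact absurd hy (Multiset.notMem_zero y)
    · intro _ i hi
      exact absurd hi List.not_mem_nil
    · intro i hi
      exact absurd hi List.not_mem_nil
  | cons i l ih =>
    obtain ⟨X, Y, Z, h1, h2, h3, h4, h5⟩ := ih (fun j hj => h j (List.mem_cons_of_mem i hj))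
    have e1 : ((i :: l).map f).sum = f i + (X + Y) := by
      rw [List.map_cons, List.sum_cons, h1]
    have e2 : (((i :: l).map m : List α) : Multiset α) = {m i} + (X + Z) := by
      rw [List.map_cons, ← Multiset.cons_coe, h2, Multiset.singleton_add]
    by_cases hi : f i = {m i}
    · refine ⟨{m i} + X, Y, Z, ?_, ?_, h3, ?_, ?_⟩
      · rw [e1, hi, add_assoc]
      · rw [e2, add_assoc]
      · intro hZ j hj
        rcases List.mem_cons.1 hj with hj | hj
        · rw [hj]
          exact hi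
        · exact h4 hZ j hj
      · intro j hj hne
        rcases List.mem_cons.1 hj with hj | hj
        · rw [hj] at hne
          exact absurd hi hne
        · exact h5 j hj hne
    · have hlt : ∀ y ∈ f i, y < m i := by
        rcases h i List.mem_cons_self with h6 | h6
        · exact absurd h6 hi
        · exact h6
      refine ⟨X, f i + Y, {m i} + Z, ?_, ?_, ?_, ?_, ?_⟩
      · rw [e1]
        abel
      · rw [e2]
        abel
      · intro y hy
        rcases Multiset.mem_add.1 hy with hy | hy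
        · exact ⟨m i, Multiset.mem_add.2 (Or.inl (Multiset.mem_singleton_self _)), hlt y hy⟩
        · obtain ⟨z, hz, hyz⟩ := h3 y hy
          exact ⟨z, Multiset.mem_add.2 (Or.inr hz), hyz⟩
      · intro hZ
        exfalso
        have h7 : m i ∈ ({m i} + Z : Multiset α) :=
          Multiset.mem_add.2 (Or.inl (Multiset.mem_singleton_self _))
        rw [hZ] at h7
        exact absurd h7 (Multiset.notMem_zero _)
      · intro j hj hne
        rcases List.mem_cons.1 hj with hj | hj
        · rw [hj]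
          exact Multiset.mem_add.2 (Or.inl (Multiset.mem_singleton_self _))
        · exact Multiset.mem_add.2 (Or.inr (h5 j hj hne))

end Pool.Agent.COST

end

section

open Set

namespace Pool.Agent.COST

variable {H : Type} [Group H] {S : JS H}

theorem j9_2_filter {α : Type*} (P : α → Prop) [DecidablePred P] (r : α) (l : List α) (hl : l.Nodup)
    (hP : ∀ x ∈ l, P x → x = r) :
    l.filter (fun x => P x) = [] ∨ (l.filter (fun x => P x) = [r] ∧ r ∈ l ∧ P r) := by
  induction l with
  | nil => left; rfl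
  | cons x l ih =>
    rw [List.nodup_cons] at hl
    have ih' := ih hl.2 fun y hy => hP y (List.mem_cons_of_mem _ hy)
    by_cases hx : P x
    · have hxr : x = r := hP x List.mem_cons_self hx
      right
      rcases ih' with h | ⟨-, h, -⟩
      · refine ⟨?_, ?_, ?_⟩
        · rw [List.filter_cons_of_pos (by simpa using hx), h, hxr]
        · rw [hxr]
          exact List.mem_cons_self
        · rw [← hxr]
          exact hx
      · exfalso
        rw [← hxr] at h
        exact hl.1 h
    · rw [List.filter_cons_of_neg (by simpa using hx)]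
      rcases ih' with h | ⟨h1, h2, h3⟩
      · left
        exact h
      · right
        exact ⟨h1, List.mem_cons_of_mem _ h2, h3⟩

open Classical in
/-- (hypothesis `hW` added: without it the last part is false.) The multiset of the infinite members of `subt S a g r p` is either that of `p` or all its
members are smaller. PROOF: `p.1` is tame with infinite support, node data `q` (`nd_spec`),
`q.1 ≤ a`. Let `u` be a member of `subt S a g r p` with infinite support:
`u = (piece S a q.2 (r - σ) p.1, p.2.filter ...)`.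
If `q.1 = a` then `rk_lt` gives a smaller first coordinate (lexicographic order: `Prod.Lex.toLex_lt_toLex`,
`rk + 1 < rk + 1`), this is the second alternative.
If `q.1 < a` then all support points of `p.1` have level `0` with respect to `(a, q.2)`
(`ψ_zero`), so the piece is `p.1` if `r = σ` (`piece_all`) and `0` otherwise (`piece_none`), so
the list has at most one infinite member, `(p.1, p.2.filter ..)` with `σ = r`; if the filter is
everything then the list of infinite members is `[p]`, otherwise the number of support points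
is smaller (second coordinate). -/
theorem subt_ms (a : S.Λ) (g : H) (r : ℝ) (p : (H → ℂ) × (H →₀ ℂ)) (hp : Tame S p.1)
    (hinf : ¬ (Function.support p.1).Finite) (hnz : p.2 ≠ 0)
    (q : S.Λ × H) (hq : nd S p.1 = some q) (hqa : q.1 ≤ a)
    (hW : ∀ h s, p.1 h ≠ 0 → p.2 s ≠ 0 → S.v (h * s * g⁻¹) ≤ a) :
    let f : Multiset (Ordinal.{0} ×ₗ ℕ) :=
      ((((subt S a g r p).filter fun u => ¬ (Function.support u.1).Finite).map
        fun u => (toLex (rk S u.1 + 1, u.2.support.card) : Ordinal.{0} ×ₗ ℕ) : List _) : Multiset _)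
    let m : Ordinal.{0} ×ₗ ℕ := toLex (rk S p.1 + 1, p.2.support.card)
    (f = {m} ∨ ∀ y ∈ f, y < m) ∧ (q.1 = a → ∀ y ∈ f, y < m) ∧
      (f = {m} → ∀ h s, p.1 h ≠ 0 → p.2 s ≠ 0 → S.ψ a (h * s * g⁻¹) = r) := by
  intro f m
  have hnode := nd_isNode S hq
  have hf : f = (((((p.2.support.image fun s => S.ψ a (q.2 * s * g⁻¹)).toList.filter fun σ =>
      ¬ (Function.support (piece S a q.2 (r - σ) p.1)).Finite).map fun σ =>
      (toLex (rk S (piece S a q.2 (r - σ) p.1) + 1,
        (p.2.filter fun s => S.ψ a (q.2 * s * g⁻¹) = σ).support.card) : Ordinal.{0} ×ₗ ℕ)) :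
      List (Ordinal.{0} ×ₗ ℕ)) : Multiset (Ordinal.{0} ×ₗ ℕ)) := by
    have h0 : subt S a g r p = (p.2.support.image fun s => S.ψ a (q.2 * s * g⁻¹)).toList.map fun σ =>
      (piece S a q.2 (r - σ) p.1, p.2.filter fun s => S.ψ a (q.2 * s * g⁻¹) = σ) := by
      unfold subt
      rw [hq]
    simp only [f]
    rw [h0, List.filter_map, List.map_map]
    rfl
  clear_value f
  rcases eq_or_lt_of_le hqa with hqa' | hqa'
  · -- the piece is a child
    have key : ∀ y ∈ f, y < m := by
      intro y hy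
      rw [hf, Multiset.mem_coe, List.mem_map] at hy
      obtain ⟨σ, hσ, rfl⟩ := hy
      show _ < (toLex (rk S p.1 + 1, p.2.support.card) : Ordinal.{0} ×ₗ ℕ)
      rw [Prod.Lex.toLex_lt_toLex]
      left
      have h1 := rk_lt S hp hinf hq (r - σ)
      rw [hqa'] at h1
      show rk S (piece S a q.2 (r - σ) p.1) + 1 < rk S p.1 + 1
      rw [← Order.succ_eq_add_one, ← Order.succ_eq_add_one, Order.succ_lt_succ_iff]
      exact h1
    refine ⟨Or.inr key, fun _ => key, fun hfm => ?_⟩
    exfalso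
    exact lt_irrefl _ (key m (by rw [hfm]; exact Multiset.mem_singleton_self _))
  · have hlev : ∀ k, p.1 k ≠ 0 → S.v (k * q.2⁻¹) ≤ a ∧ S.ψ a (k * q.2⁻¹) = 0 := by
      intro k hk
      have h1 : S.v (k * q.2⁻¹) ≤ q.1 := hnode.1 k hk
      have h2 : S.v (k * q.2⁻¹) < a := lt_of_le_of_lt h1 (WithBot.coe_lt_coe.2 hqa')
      exact ⟨h2.le, (S.ψ_zero a _ h2.le).2 h2⟩
    have hpr : piece S a q.2 (r - r) p.1 = p.1 := by
      rw [sub_self]
      exact piece_all S a q.2 0 p.1 hlev
    have h2 := j9_2_filter (fun σ => ¬ (Function.support (piece S a q.2 (r - σ) p.1)).Finite) r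
      ((p.2.support.image fun s => S.ψ a (q.2 * s * g⁻¹)).toList) (Finset.nodup_toList _) (by
        intro σ _ hσ
        by_contra hne
        apply hσ
        have h3 := piece_none S a q.2 0 (r - σ) p.1 hlev (fun h => hne (by linarith))
        rw [h3]
        simp)
    have hc0 : q.1 = a → ∀ y ∈ f, y < m := fun h => absurd h hqa'.ne
    rcases h2 with h2 | ⟨h2, h3, h4⟩
    · rw [h2] at hf
      have hf0 : f = 0 := by rw [hf]; rfl
      refine ⟨Or.inr ?_, hc0, ?_⟩
      · intro y hy
        rw [hf0] at hy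
        exact absurd hy (Multiset.notMem_zero y)
      · intro hfm
        rw [hf0] at hfm
        exact absurd hfm.symm (Multiset.singleton_ne_zero m)
    · rw [h2] at hf
      have hf1 : f = {(toLex (rk S p.1 + 1,
        (p.2.filter fun s => S.ψ a (q.2 * s * g⁻¹) = r).support.card) : Ordinal.{0} ×ₗ ℕ)} := by
        rw [hf, List.map_singleton, hpr]
        rfl
      have hsub : (p.2.filter fun s => S.ψ a (q.2 * s * g⁻¹) = r).support ⊆ p.2.support := by
        intro s hs
        rw [Finsupp.support_filter, Finset.mem_filter] at hs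
        exact hs.1
      refine ⟨?_, hc0, ?_⟩
      · rcases lt_or_eq_of_le (Finset.card_le_card hsub) with h5 | h5
        · right
          intro y hy
          rw [hf1, Multiset.mem_singleton] at hy
          rw [hy]
          show _ < (toLex (rk S p.1 + 1, p.2.support.card) : Ordinal.{0} ×ₗ ℕ)
          rw [Prod.Lex.toLex_lt_toLex]
          exact Or.inr ⟨rfl, h5⟩
        · left
          rw [hf1, h5]
      · intro hfm h s hh hs
        rw [hf1, Multiset.singleton_inj] at hfm
        have h5 : (p.2.filter fun s => S.ψ a (q.2 * s * g⁻¹) = r).support.card = p.2.support.card := by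
          have h6 := congrArg (fun x : Ordinal.{0} ×ₗ ℕ => (ofLex x).2) hfm
          exact h6
        have h6 := Finset.eq_of_subset_of_card_le hsub h5.ge
        have h7 : s ∈ (p.2.filter fun s => S.ψ a (q.2 * s * g⁻¹) = r).support := by
          rw [h6]
          exact Finsupp.mem_support_iff.2 hs
        rw [Finsupp.support_filter, Finset.mem_filter] at h7
        have h8 : h * s * g⁻¹ = (h * q.2⁻¹) * (q.2 * s * g⁻¹) := by group
        rw [h8, S.ψ_mul a _ _ (hlev h hh).1 (hW q.2 s hnode.2.2.1 hs), (hlev h hh).2, h7.2, zero_add]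

end Pool.Agent.COST

end

section

open Set

namespace Pool.Agent.COST

variable {H : Type} [Group H] {S : JS H}

open Classical in
/-- the measures of the infinite members of `subt` -/
noncomputable def j9_3_f (a : S.Λ) (g : H) (r : ℝ) (p : (H → ℂ) × (H →₀ ℂ)) :
    Multiset (Ordinal.{0} ×ₗ ℕ) :=
  ((((subt S a g r p).filter fun u => ¬ (Function.support u.1).Finite).map
        fun u => (toLex (rk S u.1 + 1, u.2.support.card) : Ordinal.{0} ×ₗ ℕ) : List _) : Multiset _)

/-- the measure of a term -/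
noncomputable def j9_3_m (p : (H → ℂ) × (H →₀ ℂ)) : Ordinal.{0} ×ₗ ℕ :=
  toLex (rk S p.1 + 1, p.2.support.card)

open Classical in
theorem j9_3_sum (a : S.Λ) (g : H) (r : ℝ) (l : List ((H → ℂ) × (H →₀ ℂ))) :
    ((((l.flatMap (subt S a g r)).filter fun u => ¬ (Function.support u.1).Finite).map
        fun u => (toLex (rk S u.1 + 1, u.2.support.card) : Ordinal.{0} ×ₗ ℕ) : List _) : Multiset _) =
      (l.map (j9_3_f (S := S) a g r)).sum := by
  induction l with
  | nil => rfl
  | cons p l ih =>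
    rw [List.flatMap_cons, List.filter_append, List.map_append, ← Multiset.coe_add, ih, List.map_cons,
      List.sum_cons]
    rfl

theorem j9_3_zero (a : S.Λ) (g : H) (r : ℝ) (p : (H → ℂ) × (H →₀ ℂ))
    (hinf : ¬ (Function.support p.1).Finite) (q : S.Λ × H) (hq : nd S p.1 = some q) (hqa : q.1 < a)
    (u : (H → ℂ) × (H →₀ ℂ)) (hu : u ∈ subt S a g r p) (hfin : (Function.support u.1).Finite) :
    u.1 = 0 := by
  unfold subt at hu
  rw [hq] at hu
  rw [List.mem_map] at hu
  obtain ⟨σ, -, rfl⟩ := hu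
  have hlev : ∀ k, p.1 k ≠ 0 → S.v (k * q.2⁻¹) ≤ a ∧ S.ψ a (k * q.2⁻¹) = 0 := by
    intro k hk
    have h1 : S.v (k * q.2⁻¹) ≤ q.1 := (nd_isNode S hq).1 k hk
    have h2 : S.v (k * q.2⁻¹) < a := lt_of_le_of_lt h1 (WithBot.coe_lt_coe.2 hqa)
    exact ⟨h2.le, (S.ψ_zero a _ h2.le).2 h2⟩
  by_cases h0 : r - σ = 0
  · exfalso
    apply hinf
    have h1 := piece_all S a q.2 (r - σ) p.1 (by rw [h0]; exact hlev)
    simp only at hfin
    rwa [h1] at hfin
  · exact piece_none S a q.2 0 (r - σ) p.1 hlev h0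

theorem j9_3_lt {a : S.Λ} {g y y0 : H} {r : ℝ} (h1 : S.v (y * g⁻¹) ≤ a) (h2 : S.ψ a (y * g⁻¹) = r)
    (h3 : S.v (y0 * g⁻¹) ≤ a) (h4 : S.ψ a (y0 * g⁻¹) = r) : S.v (y * y0⁻¹) < a := by
  have h5 : S.v (g * y0⁻¹) ≤ a := by
    rw [S.v_symm]
    exact h3
  have h6 : S.v (y * y0⁻¹) ≤ a := S.le_tri h1 h5
  rw [← S.ψ_zero a _ h6, S.ψ_tri a h1 h5, h2]
  have h7 : g * y0⁻¹ = (y0 * g⁻¹)⁻¹ := by group
  rw [h7, S.ψ_inv a _ h3, h4]
  ring

/-- The measure decreases. PROOF: apply `dm_list` to `l = ρ.tm`, `m p = (rk + 1, card)` and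
`f p` = multiset of the infinite members of `subt S a g r p` (see `subt_ms`); the sum of the `f p` is the
multiset of the terms of `ρ'` (`List.filter_flatMap`, `List.map_flatMap`, or induction on the
list). Now add the elements `m0' = (0, card supp ρ'.c0)` and `m0 = (0, card supp ρ.c0)`.
(i) If some `p` has `q.1 = a` then `m p ∈ Z` (its `f p` is not `{m p}` because all its members
are `< m p`), and `m0' < m p` (first coordinates `0 < rk + 1`): use `X`, `m0' ::ₘ Y`,
`m0 ::ₘ Z`.
(ii) If no `p` has `q.1 = a`, then no infinite `p.1` was split: every member of `subt` is either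
infinite or has first component `0`, so `ρ'.c0 y` is `ρ.c0 y` on the level `r` and `0` elsewhere,
and `card supp ρ'.c0 ≤ card supp ρ.c0`. If it is smaller: `X`, `m0' ::ₘ Y`, `m0 ::ₘ Z`. If it is
equal then all support points of `ρ.c0` have level `r`; `m0 = m0'` goes to `X`. Then `Z ≠ 0`,
because `Z = 0` would imply (by the last part of `subt_ms`) that all points of `ρ` have level `r`,
hence `ρ.Below a` (base point: any point of `ρ`; if there is no point, any base point), a
contradiction. -/
theorem child_ms {ρ ρ' : Rel S} {a : S.Λ} {g : H} (hw : ρ.Within a g) (hb : ¬ ρ.Below a)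
    {r : ℝ} (hc : IsChild a g r ρ ρ') : Multiset.IsDershowitzMannaLT ρ'.ms ρ.ms := by
  classical
  have hq : ∀ p ∈ ρ.tm, ∃ q, nd S p.1 = some q ∧ q.1 ≤ a := by
    intro p hp
    obtain ⟨q, hq, -⟩ := nd_spec S (ρ.tame p hp) (ρ.inf p hp)
    exact ⟨q, hq, within_node hw hp hq⟩
  have hms : ∀ p ∈ ρ.tm, j9_3_f (S := S) a g r p = {j9_3_m (S := S) p} ∨
      ∀ y ∈ j9_3_f (S := S) a g r p, y < j9_3_m (S := S) p := by
    intro p hp
    obtain ⟨q, hq1, hq2⟩ := hq p hp
    exact (subt_ms a g r p (ρ.tame p hp) (ρ.inf p hp) (ρ.nz p hp) q hq1 hq2 (hw.2 p hp)).1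
  obtain ⟨X, Y, Z, hXY, hXZ, hYZ, hZ0, hZm⟩ := dm_list ρ.tm (j9_3_m (S := S)) (j9_3_f (S := S) a g r) hms
  have e1 : ρ'.ms = (toLex (0, ρ'.c0.support.card) : Ordinal.{0} ×ₗ ℕ) ::ₘ (X + Y) := by
    rw [← hXY, ← j9_3_sum, ← hc.tm]
    rfl
  have e2 : ρ.ms = (toLex (0, ρ.c0.support.card) : Ordinal.{0} ×ₗ ℕ) ::ₘ (X + Z) := by
    rw [← hXZ]
    rfl
  rw [e1, e2]
  by_cases hi : ∃ p ∈ ρ.tm, ∃ q, nd S p.1 = some q ∧ q.1 = a
  · obtain ⟨p, hp, q, hq1, hq2⟩ := hi
    have h1 := (subt_ms a g r p (ρ.tame p hp) (ρ.inf p hp) (ρ.nz p hp) q hq1 hq2.le (hw.2 p hp)).2.1 hq2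
    have h2 : j9_3_f (S := S) a g r p ≠ {j9_3_m (S := S) p} := by
      intro h3
      have h4 : j9_3_m (S := S) p ∈ j9_3_f (S := S) a g r p := by
        rw [h3]
        exact Multiset.mem_singleton_self _
      exact lt_irrefl _ (h1 _ h4)
    have h3 := hZm p hp h2
    refine ⟨X, (toLex (0, ρ'.c0.support.card) : Ordinal.{0} ×ₗ ℕ) ::ₘ Y,
      (toLex (0, ρ.c0.support.card) : Ordinal.{0} ×ₗ ℕ) ::ₘ Z, ?_, ?_, ?_, ?_⟩
    · exact Multiset.cons_ne_zero
    · rw [Multiset.add_cons]
    · rw [Multiset.add_cons]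
    · intro y hy
      rcases Multiset.mem_cons.1 hy with h4 | h4
      · refine ⟨_, Multiset.mem_cons_of_mem h3, ?_⟩
        rw [h4]
        unfold j9_3_m
        rw [Prod.Lex.toLex_lt_toLex]
        left
        exact lt_of_lt_of_le zero_lt_one le_add_self
      · obtain ⟨z, hz, hyz⟩ := hYZ y h4
        exact ⟨z, Multiset.mem_cons_of_mem hz, hyz⟩
  · have hlt : ∀ p ∈ ρ.tm, ∃ q, nd S p.1 = some q ∧ q.1 < a := by
      intro p hp
      obtain ⟨q, hq1, hq2⟩ := hq p hp
      exact ⟨q, hq1, lt_of_le_of_ne hq2 fun h => hi ⟨p, hp, q, hq1, h⟩⟩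
    have hc0 : ∀ y, ρ'.c0 y = if S.v (y * g⁻¹) ≤ a ∧ S.ψ a (y * g⁻¹) = r then ρ.c0 y else 0 := by
      intro y
      rw [hc.c0 y]
      have h1 : (((ρ.tm.flatMap (subt S a g r)).filter fun u => (Function.support u.1).Finite).map
          fun u => rc u.1 u.2 y).sum = 0 := by
        apply List.sum_eq_zero
        intro x hx
        rw [List.mem_map] at hx
        obtain ⟨u, hu, rfl⟩ := hx
        rw [List.mem_filter, List.mem_flatMap] at hu
        obtain ⟨⟨p, hp, hup⟩, hfin⟩ := hu
        obtain ⟨q, hq1, hq2⟩ := hlt p hp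
        have h2 := j9_3_zero a g r p (ρ.inf p hp) q hq1 hq2 u hup (by simpa using hfin)
        rw [h2]
        unfold rc
        simp
      rw [h1, add_zero]
    have hsub : ρ'.c0.support ⊆ ρ.c0.support := by
      intro y hy
      rw [Finsupp.mem_support_iff, hc0 y] at hy
      rw [Finsupp.mem_support_iff]
      intro h1
      rw [h1] at hy
      simp at hy
    have hcard := Finset.card_le_card hsub
    rcases lt_or_eq_of_le hcard with hlt' | heq
    · refine ⟨X, (toLex (0, ρ'.c0.support.card) : Ordinal.{0} ×ₗ ℕ) ::ₘ Y,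
        (toLex (0, ρ.c0.support.card) : Ordinal.{0} ×ₗ ℕ) ::ₘ Z, ?_, ?_, ?_, ?_⟩
      · exact Multiset.cons_ne_zero
      · rw [Multiset.add_cons]
      · rw [Multiset.add_cons]
      · intro y hy
        rcases Multiset.mem_cons.1 hy with h4 | h4
        · refine ⟨_, Multiset.mem_cons_self _ _, ?_⟩
          rw [h4, Prod.Lex.toLex_lt_toLex]
          exact Or.inr ⟨rfl, hlt'⟩
        · obtain ⟨z, hz, hyz⟩ := hYZ y h4
          exact ⟨z, Multiset.mem_cons_of_mem hz, hyz⟩
    · have hseq := Finset.eq_of_subset_of_card_le hsub heq.ge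
      have hlev0 : ∀ y, ρ.c0 y ≠ 0 → S.v (y * g⁻¹) ≤ a ∧ S.ψ a (y * g⁻¹) = r := by
        intro y hy
        have h1 : y ∈ ρ'.c0.support := by
          rw [hseq]
          exact Finsupp.mem_support_iff.2 hy
        rw [Finsupp.mem_support_iff, hc0 y] at h1
        by_contra h2
        rw [if_neg h2] at h1
        exact h1 rfl
      refine ⟨(toLex (0, ρ.c0.support.card) : Ordinal.{0} ×ₗ ℕ) ::ₘ X, Y, Z, ?_, ?_, ?_, hYZ⟩
      · intro hZ
        apply hb
        have hf := hZ0 hZ
        have hlev1 : ∀ p ∈ ρ.tm, ∀ h s, p.1 h ≠ 0 → p.2 s ≠ 0 →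
            S.v (h * s * g⁻¹) ≤ a ∧ S.ψ a (h * s * g⁻¹) = r := by
          intro p hp h s hh hs
          obtain ⟨q, hq1, hq2⟩ := hq p hp
          exact ⟨hw.2 p hp h s hh hs,
            (subt_ms a g r p (ρ.tame p hp) (ρ.inf p hp) (ρ.nz p hp) q hq1 hq2 (hw.2 p hp)).2.2 (hf p hp) h s hh hs⟩
        by_cases h0 : ∃ y0, S.v (y0 * g⁻¹) ≤ a ∧ S.ψ a (y0 * g⁻¹) = r
        · obtain ⟨y0, hy1, hy2⟩ := h0
          exact ⟨y0, fun y hy => j9_3_lt (hlev0 y hy).1 (hlev0 y hy).2 hy1 hy2,
            fun p hp h s hh hs => j9_3_lt (hlev1 p hp h s hh hs).1 (hlev1 p hp h s hh hs).2 hy1 hy2⟩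
        · exact ⟨1, fun y hy => absurd ⟨y, hlev0 y hy⟩ h0,
            fun p hp h s hh hs => absurd ⟨h * s, hlev1 p hp h s hh hs⟩ h0⟩
      · rw [heq, Multiset.cons_add]
      · rw [Multiset.cons_add]

end Pool.Agent.COST

end
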