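import Pool.Agent.COST.J8
import Pool.Agent.COST.J9
import Pool.Agent.COST.J10

section

open Set MeasureTheory
open scoped ENNReal

namespace Pool.Agent.COST

variable {H : Type} [Group H] {S : JS H}

/-- Error sets for a relation from error sets for its children.
PROOF. `c` from `step_error`. Given `n = N a > 0`, let `L` be the finite set from
`child_finite hw (n + c)` and for each `r` let `ρ_r` be the child at level `r`. Suppose
`T r, T' r` are error sets for `ρ_r`, `r ∈ L`. Put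
`T = (fun z => g • z) ⁻¹' (A.edge a c) ∪ ⋃ r ∈ L, T r`, `T' = A.edge a c ∪ ⋃ r ∈ L, T' r`.
Good: let `z ∉ T'` and `total y ≠ 0`. By `step_error` either `g • y⁻¹ • z ∈ edge`, so
`y⁻¹ • z ∈ T`; or `r = ψ a (y * g⁻¹) ≤ n + c` and the total of `ρ_r` at `y` is nonzero. If
`r ∉ L` then the child is zero (`child_finite`), so its total is `0`, contradiction. If
`r ∈ L` then `z ∉ T' r` and `ρ_r` good gives `y⁻¹ • z ∈ T r`.
Measures: `edge_measure` and invariance (`A.X.mp g`), `measure_union_le`,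
`measure_biUnion_finset_le`. -/
theorem step_good {ρ : Rel S} {a : S.Λ} {g : H} (hw : ρ.Within a g) :
    ∃ c : ℝ, 0 ≤ c ∧ ∀ n : ℕ, 0 < n → ∃ L : Finset ℝ, ∀ ch : ℝ → Rel S,
      (∀ r, IsChild a g r ρ (ch r)) → ∀ (N : S.Λ → ℕ), N a = n → ∀ (A : Sys S N) (δ : ℝ≥0∞),
      (∀ r ∈ L, ∃ T T' : Set A.X.X, MeasurableSet T ∧ MeasurableSet T' ∧
        A.X.μ T + A.X.μ T' ≤ δ ∧ (ch r).Good A T T') →
      ∃ T T' : Set A.X.X, MeasurableSet T ∧ MeasurableSet T' ∧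
        A.X.μ T + A.X.μ T' ≤ 2 * ENNReal.ofReal (2 * c / n) + L.card * δ ∧ ρ.Good A T T' := by
  obtain ⟨c, hc0, hc⟩ := step_error hw
  refine ⟨c, hc0, fun n hn => ?_⟩
  obtain ⟨L, hL⟩ := child_finite hw (n + c)
  refine ⟨L, fun ch hch N hN A δ hT => ?_⟩
  have hT2 : ∀ r : ℝ, ∃ T T' : Set A.X.X, r ∈ L → (MeasurableSet T ∧ MeasurableSet T' ∧
      A.X.μ T + A.X.μ T' ≤ δ ∧ (ch r).Good A T T') := by
    intro r
    by_cases hr : r ∈ L
    · obtain ⟨T, T', h⟩ := hT r hr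
      exact ⟨T, T', fun _ => h⟩
    · exact ⟨∅, ∅, fun h => absurd h hr⟩
  choose T T' hTT using hT2
  have hNpos : 0 < N a := by
    rw [hN]
    exact hn
  obtain ⟨hem, heμ⟩ := edge_measure A a hNpos c hc0
  rw [hN] at heμ
  have hpre : MeasurableSet ((fun z => g • z) ⁻¹' (A.edge a c)) := (A.X.mp g).measurable hem
  have hpreμ : A.X.μ ((fun z => g • z) ⁻¹' (A.edge a c)) = A.X.μ (A.edge a c) :=
    (A.X.mp g).measure_preimage hem.nullMeasurableSet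
  refine ⟨(fun z => g • z) ⁻¹' (A.edge a c) ∪ ⋃ r ∈ L, T r, A.edge a c ∪ ⋃ r ∈ L, T' r,
    ?_, ?_, ?_, ?_⟩
  · exact hpre.union (Finset.measurableSet_biUnion L (fun r hr => (hTT r hr).1))
  · exact hem.union (Finset.measurableSet_biUnion L (fun r hr => (hTT r hr).2.1))
  · have h1 : A.X.μ ((fun z => g • z) ⁻¹' (A.edge a c) ∪ ⋃ r ∈ L, T r) ≤
        ENNReal.ofReal (2 * c / n) + ∑ r ∈ L, A.X.μ (T r) := by
      apply (measure_union_le _ _).trans
      apply add_le_add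
      · rw [hpreμ]
        exact heμ
      · exact measure_biUnion_finset_le L T
    have h2 : A.X.μ (A.edge a c ∪ ⋃ r ∈ L, T' r) ≤
        ENNReal.ofReal (2 * c / n) + ∑ r ∈ L, A.X.μ (T' r) := by
      apply (measure_union_le _ _).trans
      apply add_le_add heμ
      exact measure_biUnion_finset_le L T'
    have h3 : ∑ r ∈ L, (A.X.μ (T r) + A.X.μ (T' r)) ≤ L.card * δ := by
      have h4 := Finset.sum_le_card_nsmul L (fun r => A.X.μ (T r) + A.X.μ (T' r)) δ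
        (fun r hr => (hTT r hr).2.2.1)
      rwa [nsmul_eq_mul] at h4
    calc _ ≤ (ENNReal.ofReal (2 * c / n) + ∑ r ∈ L, A.X.μ (T r)) +
          (ENNReal.ofReal (2 * c / n) + ∑ r ∈ L, A.X.μ (T' r)) := add_le_add h1 h2
      _ = 2 * ENNReal.ofReal (2 * c / n) + ∑ r ∈ L, (A.X.μ (T r) + A.X.μ (T' r)) := by
          rw [Finset.sum_add_distrib]
          ring
      _ ≤ _ := add_le_add le_rfl h3
  · intro z hz y hy
    have hz1 : z ∉ A.edge a c := fun h => hz (Or.inl h)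
    rcases hc N A hNpos z hz1 y hy with h1 | ⟨h1, h2, h3⟩
    · exact Or.inl h1
    · right
      rw [hN] at h2
      by_cases hr : S.ψ a (y * g⁻¹) ∈ L
      · have hz2 : z ∉ T' (S.ψ a (y * g⁻¹)) := by
          intro h
          apply hz
          right
          simp only [Set.mem_iUnion]
          exact ⟨_, hr, h⟩
        have h4 := (hTT _ hr).2.2.2 z hz2 y (h3 _ (hch _))
        simp only [Set.mem_iUnion]
        exact ⟨_, hr, h4⟩
      · exfalso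
        obtain ⟨h4, h5⟩ := hL _ h2 hr _ (hch _)
        apply h3 _ (hch _)
        unfold Rel.total
        rw [h4, h5]
        simp

end Pool.Agent.COST

end

section

open Set MeasureTheory
open scoped ENNReal

namespace Pool.Agent.COST

variable {H : Type} [Group H] {S : JS H}

open Classical in
/-- The ordinal rank of a relation for the Dershowitz-Manna order. -/
noncomputable def Rel.ord (ρ : Rel S) : Ordinal.{1} :=
  ((Multiset.wellFounded_isDershowitzMannaLT (α := Ordinal.{0} ×ₗ ℕ)).apply ρ.ms).rank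

/-- PROOF: `child_ms` and `Acc.rank_lt_of_rel`. -/
theorem child_ord {ρ ρ' : Rel S} {a : S.Λ} {g : H} (hw : ρ.Within a g) (hb : ¬ ρ.Below a)
    {r : ℝ} (hc : IsChild a g r ρ ρ') : ρ'.ord < ρ.ord := by
  exact Acc.rank_lt_of_rel _ (child_ms hw hb hc)

end Pool.Agent.COST

end

section

open Set MeasureTheory
open scoped ENNReal

namespace Pool.Agent.COST

variable {H : Type} [Group H] {S : JS H}

/-- the largest jump of a list of relations -/
theorem j11_3_max (Rs : List (Rel S)) (h : ∃ ρ ∈ Rs, ρ.tm ≠ []) :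
    ∃ a : S.Λ, (∃ ρ ∈ Rs, ¬ ρ.Below a) ∧ ∀ ρ ∈ Rs, ρ.Below a ∨ ∃ g : H, ρ.Within a g := by
  classical
  obtain ⟨ρ1, hρ1, htm1⟩ := h
  have hj : ∀ ρ : Rel S, ∃ b : S.Λ, ρ.tm ≠ [] →
      ∃ g : H, ρ.Within b g ∧ ¬ ρ.Below b ∧ ∀ b', b < b' → ρ.Below b' := by
    intro ρ
    by_cases hρ : ρ.tm = []
    · obtain ⟨b, _⟩ := jump_exists htm1
      exact ⟨b, fun h => absurd hρ h⟩
    · obtain ⟨b, g, h1, h2, h3⟩ := jump_exists hρ
      exact ⟨b, fun _ => ⟨g, h1, h2, h3⟩⟩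
  choose jump hjump using hj
  have hne : (Rs.filter fun ρ => ρ.tm ≠ []).toFinset.Nonempty :=
    ⟨ρ1, by rw [List.mem_toFinset, List.mem_filter]; exact ⟨hρ1, by simpa using htm1⟩⟩
  obtain ⟨ρ0, h0, hmax⟩ := Finset.exists_max_image _ jump hne
  rw [List.mem_toFinset, List.mem_filter] at h0
  have h0' : ρ0.tm ≠ [] := by simpa using h0.2
  obtain ⟨g0, h1, h2, h3⟩ := hjump ρ0 h0'
  refine ⟨jump ρ0, ⟨ρ0, h0.1, h2⟩, fun ρ hρ => ?_⟩
  by_cases hρtm : ρ.tm = []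
  · exact Or.inl (below_nil hρtm _)
  · have h4 := hmax ρ (by rw [List.mem_toFinset, List.mem_filter]; exact ⟨hρ, by simpa using hρtm⟩)
    obtain ⟨g, h5, h6, h7⟩ := hjump ρ hρtm
    rcases lt_or_eq_of_le h4 with h8 | h8
    · exact Or.inl (h7 _ h8)
    · rw [← h8]
      exact Or.inr ⟨g, h5⟩

/-- the small parameter exists -/
theorem j11_3_small (Rs : List (Rel S)) (c : Rel S → ℝ) (ε : ℝ≥0∞) (hε : ε ≠ 0) :
    ∃ n : ℕ, 0 < n ∧ ∀ ρ ∈ Rs, 2 * ENNReal.ofReal (2 * c ρ / n) ≤ ε / 2 := by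
  have h1 : ∀ ρ ∈ {ρ | ρ ∈ Rs}, ∀ᶠ n : ℕ in Filter.atTop, 2 * ENNReal.ofReal (2 * c ρ / n) ≤ ε / 2 := by
    intro ρ _
    have h2 : Filter.Tendsto (fun n : ℕ => 2 * c ρ / (n : ℝ)) Filter.atTop (nhds 0) :=
      tendsto_const_div_atTop_nhds_zero_nat _
    have h3 := ENNReal.tendsto_ofReal h2
    have h4 := ENNReal.Tendsto.const_mul (a := 2) h3 (Or.inr (by norm_num))
    rw [ENNReal.ofReal_zero, mul_zero] at h4
    have h5 : (0 : ℝ≥0∞) < ε / 2 := ENNReal.half_pos hε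
    exact h4.eventually_le_const h5
  have h2 := (Filter.eventually_all_finite (List.finite_toSet Rs)).2 h1
  obtain ⟨n, hn1, hn2⟩ := (h2.and (Filter.eventually_gt_atTop 0)).exists
  exact ⟨n, hn2, hn1⟩

/-- the induction step -/
theorem j11_3_step (Rs : List (Rel S)) (h : ∃ ρ ∈ Rs, ρ.tm ≠ [])
    (ih : ∀ Rs' : List (Rel S), Multiset.IsDershowitzMannaLT
      ((Rs'.map Rel.ord : List Ordinal.{1}) : Multiset Ordinal.{1})
      ((Rs.map Rel.ord : List Ordinal.{1}) : Multiset Ordinal.{1}) →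
      ∀ (U : Set S.Λ) (N0 : S.Λ → ℕ), (∀ a, 0 < N0 a) → (∀ a ∈ U, ∀ ρ ∈ Rs', ρ.Below a) →
    ∀ ε : ℝ≥0∞, ε ≠ 0 → ∃ N : S.Λ → ℕ, (∀ a, 0 < N a) ∧ (∀ a ∈ U, N a = N0 a) ∧
      ∀ A : Sys S N, ∀ ρ ∈ Rs', ∃ T T' : Set A.X.X, MeasurableSet T ∧ MeasurableSet T' ∧
        A.X.μ T + A.X.μ T' ≤ ε ∧ ρ.Good A T T')
    (U : Set S.Λ) (N0 : S.Λ → ℕ) (hN0 : ∀ a, 0 < N0 a) (hU : ∀ a ∈ U, ∀ ρ ∈ Rs, ρ.Below a)
    (ε : ℝ≥0∞) (hε : ε ≠ 0) : ∃ N : S.Λ → ℕ, (∀ a, 0 < N a) ∧ (∀ a ∈ U, N a = N0 a) ∧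
      ∀ A : Sys S N, ∀ ρ ∈ Rs, ∃ T T' : Set A.X.X, MeasurableSet T ∧ MeasurableSet T' ∧
        A.X.μ T + A.X.μ T' ≤ ε ∧ ρ.Good A T T' := by
  classical
  obtain ⟨a, ⟨ρ0, hρ0, hρ0a⟩, ha⟩ := j11_3_max Rs h
  -- base points and constants
  have h1 : ∀ ρ : Rel S, ∃ (g : H) (c : ℝ), (ρ ∈ Rs ∧ ¬ ρ.Below a) → ρ.Within a g ∧
      ∀ n : ℕ, 0 < n → ∃ L : Finset ℝ, ∀ ch : ℝ → Rel S,
        (∀ r, IsChild a g r ρ (ch r)) → ∀ (N : S.Λ → ℕ), N a = n → ∀ (A : Sys S N) (δ : ℝ≥0∞),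
        (∀ r ∈ L, ∃ T T' : Set A.X.X, MeasurableSet T ∧ MeasurableSet T' ∧
          A.X.μ T + A.X.μ T' ≤ δ ∧ (ch r).Good A T T') →
        ∃ T T' : Set A.X.X, MeasurableSet T ∧ MeasurableSet T' ∧
          A.X.μ T + A.X.μ T' ≤ 2 * ENNReal.ofReal (2 * c / n) + L.card * δ ∧ ρ.Good A T T' := by
    intro ρ
    by_cases hc : ρ ∈ Rs ∧ ¬ ρ.Below a
    · obtain ⟨g, hg⟩ := (ha ρ hc.1).resolve_left hc.2
      obtain ⟨c, _, hc2⟩ := step_good hg
      exact ⟨g, c, fun _ => ⟨hg, hc2⟩⟩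
    · exact ⟨1, 0, fun h => absurd h hc⟩
  choose g c hgc using h1
  obtain ⟨n, hn0, hn⟩ := j11_3_small Rs c ε hε
  have h2 : ∀ ρ : Rel S, ∃ L : Finset ℝ, (ρ ∈ Rs ∧ ¬ ρ.Below a) → ∀ ch : ℝ → Rel S,
        (∀ r, IsChild a (g ρ) r ρ (ch r)) → ∀ (N : S.Λ → ℕ), N a = n → ∀ (A : Sys S N) (δ : ℝ≥0∞),
        (∀ r ∈ L, ∃ T T' : Set A.X.X, MeasurableSet T ∧ MeasurableSet T' ∧
          A.X.μ T + A.X.μ T' ≤ δ ∧ (ch r).Good A T T') →
        ∃ T T' : Set A.X.X, MeasurableSet T ∧ MeasurableSet T' ∧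
          A.X.μ T + A.X.μ T' ≤ 2 * ENNReal.ofReal (2 * c ρ / n) + L.card * δ ∧ ρ.Good A T T' := by
    intro ρ
    by_cases hc : ρ ∈ Rs ∧ ¬ ρ.Below a
    · obtain ⟨L, hL⟩ := (hgc ρ hc).2 n hn0
      exact ⟨L, fun _ => hL⟩
    · exact ⟨∅, fun h => absurd h hc⟩
  choose L hL using h2
  have h3 : ∀ ρ : Rel S, ∃ ch : ℝ → Rel S, (ρ ∈ Rs ∧ ¬ ρ.Below a) → ∀ r, IsChild a (g ρ) r ρ (ch r) := by
    intro ρ
    by_cases hc : ρ ∈ Rs ∧ ¬ ρ.Below a
    · choose ch hch using fun r => child_exists (hgc ρ hc).1 r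
      exact ⟨ch, fun _ => hch⟩
    · exact ⟨fun _ => ρ, fun h => absurd h hc⟩
  choose ch hch using h3
  -- the new list
  let F : Rel S → List (Rel S) := fun ρ => if ρ.Below a then [ρ] else (L ρ).toList.map (ch ρ)
  let Rs' : List (Rel S) := Rs.flatMap F
  have hmem1 : ∀ ρ ∈ Rs, ρ.Below a → ρ ∈ Rs' := by
    intro ρ hρ hb
    refine List.mem_flatMap.2 ⟨ρ, hρ, ?_⟩
    show ρ ∈ (if ρ.Below a then [ρ] else (L ρ).toList.map (ch ρ))
    rw [if_pos hb]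
    exact List.mem_singleton_self ρ
  have hmem2 : ∀ ρ ∈ Rs, ¬ ρ.Below a → ∀ r ∈ L ρ, ch ρ r ∈ Rs' := by
    intro ρ hρ hb r hr
    refine List.mem_flatMap.2 ⟨ρ, hρ, ?_⟩
    show ch ρ r ∈ (if ρ.Below a then [ρ] else (L ρ).toList.map (ch ρ))
    rw [if_neg hb]
    exact List.mem_map_of_mem (Finset.mem_toList.2 hr)
  have hmem3 : ∀ ρ' ∈ Rs', (ρ' ∈ Rs ∧ ρ'.Below a) ∨
      ∃ ρ ∈ Rs, ¬ ρ.Below a ∧ ∃ r, ρ' = ch ρ r := by
    intro ρ' hρ'
    obtain ⟨ρ, hρ, h4⟩ := List.mem_flatMap.1 hρ'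
    have h5 : ρ' ∈ (if ρ.Below a then [ρ] else (L ρ).toList.map (ch ρ)) := h4
    by_cases hb : ρ.Below a
    · rw [if_pos hb, List.mem_singleton] at h5
      rw [h5]
      exact Or.inl ⟨hρ, hb⟩
    · rw [if_neg hb, List.mem_map] at h5
      obtain ⟨r, _, hr⟩ := h5
      exact Or.inr ⟨ρ, hρ, hb, r, hr.symm⟩
  -- the order
  have hdm : Multiset.IsDershowitzMannaLT
      ((Rs'.map Rel.ord : List Ordinal.{1}) : Multiset Ordinal.{1})
      ((Rs.map Rel.ord : List Ordinal.{1}) : Multiset Ordinal.{1}) := by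
    have hlt : ∀ ρ ∈ Rs, ¬ ρ.Below a →
        ∀ y ∈ (((F ρ).map Rel.ord : List Ordinal.{1}) : Multiset Ordinal.{1}), y < ρ.ord := by
      intro ρ hρ hb y hy
      rw [Multiset.mem_coe, List.mem_map] at hy
      obtain ⟨ρ', hρ', rfl⟩ := hy
      have h5 : ρ' ∈ (if ρ.Below a then [ρ] else (L ρ).toList.map (ch ρ)) := hρ'
      rw [if_neg hb, List.mem_map] at h5
      obtain ⟨r, _, rfl⟩ := h5
      exact child_ord (hgc ρ ⟨hρ, hb⟩).1 hb (hch ρ ⟨hρ, hb⟩ r)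
    obtain ⟨X, Y, Z, hX, hZ, hYZ, hZ0, -⟩ := dm_list Rs Rel.ord
      (fun ρ => (((F ρ).map Rel.ord : List Ordinal.{1}) : Multiset Ordinal.{1})) (by
        intro ρ hρ
        by_cases hb : ρ.Below a
        · left
          show ((((if ρ.Below a then [ρ] else (L ρ).toList.map (ch ρ)) : List (Rel S)).map Rel.ord :
            List Ordinal.{1}) : Multiset Ordinal.{1}) = {ρ.ord}
          rw [if_pos hb]
          rfl
        · exact Or.inr (hlt ρ hρ hb))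
    have hsum : ∀ l : List (Rel S), (((l.flatMap F).map Rel.ord : List Ordinal.{1}) : Multiset Ordinal.{1}) =
        (l.map fun ρ => (((F ρ).map Rel.ord : List Ordinal.{1}) : Multiset Ordinal.{1})).sum := by
      intro l
      induction l with
      | nil => rfl
      | cons x l ihl =>
        rw [List.flatMap_cons, List.map_append, List.map_cons, List.sum_cons, ← ihl, Multiset.coe_add]
    refine ⟨X, Y, Z, ?_, ?_, hZ, hYZ⟩
    · intro hZ1
      have h5 := hZ0 hZ1 ρ0 hρ0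
      have h6 := hlt ρ0 hρ0 hρ0a ρ0.ord (by
        show ρ0.ord ∈ (((F ρ0).map Rel.ord : List Ordinal.{1}) : Multiset Ordinal.{1})
        rw [h5]
        exact Multiset.mem_singleton_self _)
      exact lt_irrefl _ h6
    · rw [← hX]
      exact hsum Rs
  -- the induction hypothesis
  let M : ℕ := (Rs.map fun ρ => (L ρ).card).sum
  have hM : ∀ ρ ∈ Rs, (L ρ).card ≤ M := by
    intro ρ hρ
    exact List.single_le_sum (fun _ _ => Nat.zero_le _) _ (List.mem_map_of_mem hρ)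
  let ε' : ℝ≥0∞ := ε / 2 / ((M + 1 : ℕ) : ℝ≥0∞)
  have hM0 : ((M + 1 : ℕ) : ℝ≥0∞) ≠ 0 := by
    rw [Nat.cast_ne_zero]
    omega
  have hMt : ((M + 1 : ℕ) : ℝ≥0∞) ≠ ⊤ := ENNReal.natCast_ne_top _
  have hε2 : ε / 2 ≠ 0 := (ENNReal.half_pos hε).ne'
  have hε' : ε' ≠ 0 := (ENNReal.div_pos hε2 hMt).ne'
  have hε'le : ε' ≤ ε := by
    refine le_trans ?_ ENNReal.half_le_self
    apply ENNReal.div_le_of_le_mul
    apply le_mul_of_one_le_right zero_le
    rw [← Nat.cast_one, Nat.cast_le]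
    omega
  obtain ⟨N, hNpos, hNU, hN⟩ := ih Rs' hdm (insert a U) (Function.update N0 a n) (by
    intro b
    by_cases hb : b = a
    · rw [hb, Function.update_self]
      exact hn0
    · rw [Function.update_of_ne hb]
      exact hN0 b) (by
    intro b hb ρ' hρ'
    rcases hmem3 ρ' hρ' with ⟨h4, h5⟩ | ⟨ρ, h4, h5, r, rfl⟩
    · rcases hb with rfl | hb
      · exact h5
      · exact hU b hb ρ' h4
    · rcases hb with rfl | hb
      · exact child_below (hgc ρ ⟨h4, h5⟩).1 (hch ρ ⟨h4, h5⟩ r)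
      · exact child_below_of (hgc ρ ⟨h4, h5⟩).1 (hch ρ ⟨h4, h5⟩ r) (hU b hb ρ h4)) ε' hε'
  have haU : a ∉ U := fun h4 => hρ0a (hU a h4 ρ0 hρ0)
  refine ⟨N, hNpos, ?_, ?_⟩
  · intro b hb
    have hba : b ≠ a := fun h4 => haU (h4 ▸ hb)
    rw [hNU b (Or.inr hb), Function.update_of_ne hba]
  · intro A ρ hρ
    by_cases hb : ρ.Below a
    · obtain ⟨T, T', h4, h5, h6, h7⟩ := hN A ρ (hmem1 ρ hρ hb)
      exact ⟨T, T', h4, h5, h6.trans hε'le, h7⟩
    · have hNa : N a = n := by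
        rw [hNU a (Or.inl rfl), Function.update_self]
      obtain ⟨T, T', h4, h5, h6, h7⟩ := hL ρ ⟨hρ, hb⟩ (ch ρ) (hch ρ ⟨hρ, hb⟩) N hNa A ε'
        (fun r hr => hN A (ch ρ r) (hmem2 ρ hρ hb r hr))
      refine ⟨T, T', h4, h5, h6.trans ?_, h7⟩
      calc 2 * ENNReal.ofReal (2 * c ρ / n) + (L ρ).card * ε' ≤ ε / 2 + ((M + 1 : ℕ) : ℝ≥0∞) * ε' := by
            refine add_le_add (hn ρ hρ) (mul_le_mul_left ?_ _)
            rw [Nat.cast_le]
            have := hM ρ hρ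
            omega
        _ = ε / 2 + ε / 2 := by
            rw [ENNReal.mul_div_cancel hM0 hMt]
        _ = ε := ENNReal.add_halves ε

/-- Induction. PROOF. Well-founded induction on the multiset of the ordinals `ρ.ord`, `ρ ∈ Rs`
(`Multiset.wellFounded_isDershowitzMannaLT`), for all `U`, `N0`, `ε`.
If all `ρ ∈ Rs` have `tm = []`, take `N = N0`: totals are zero (`rel_nil`), `T = T' = ∅`.
Otherwise for each `ρ ∈ Rs` with `tm ≠ []` take `(jump ρ, base ρ)` from `jump_exists` and let `a`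
be the largest of these jumps. `a ∉ U` (some `ρ` is not `Below a`). Every `ρ ∈ Rs` is either
`Below a` or has jump exactly `a` (then `Within a g` and not `Below a`): if `jump ρ < a` then
`Below a`; if `tm = []` then `below_nil`. Let `c ρ` be from `step_good` for the `ρ` with jump `a`,
choose `n > 0` with `2 * ENNReal.ofReal (2 * c ρ / n) ≤ ε / 2` for all of them (finite list), let
`L ρ` be the finite set for this `n`, `ch ρ r` the children (`child_exists`). New list `Rs'`: the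
`ρ ∈ Rs` with `Below a`, and all `ch ρ r`, `r ∈ L ρ`, for the others. New set `U' = insert a U`,
`N0' = Function.update N0 a n`. Hypothesis for `Rs'`: `Below b` for `b ∈ U` is inherited
(`child_below_of`), `Below a` by `child_below`. The multiset of ordinals is smaller (every `ρ` with
jump `a` is replaced by finitely many smaller ones: `child_ord`; there is at least one).
Let `M` be the largest `card (L ρ)`; the induction hypothesis with
`ε' = ε / (2 * (M + 1))` gives `N` with `N a = n`, `N = N0` on `U`. For `ρ` below `a`: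
`ε' ≤ ε`. For the others `step_good`: the measure is at most `ε / 2 + M * ε' ≤ ε`. -/
theorem star_aux (Rs : List (Rel S)) :
    ∀ (U : Set S.Λ) (N0 : S.Λ → ℕ), (∀ a, 0 < N0 a) → (∀ a ∈ U, ∀ ρ ∈ Rs, ρ.Below a) →
    ∀ ε : ℝ≥0∞, ε ≠ 0 → ∃ N : S.Λ → ℕ, (∀ a, 0 < N a) ∧ (∀ a ∈ U, N a = N0 a) ∧
      ∀ A : Sys S N, ∀ ρ ∈ Rs, ∃ T T' : Set A.X.X, MeasurableSet T ∧ MeasurableSet T' ∧
        A.X.μ T + A.X.μ T' ≤ ε ∧ ρ.Good A T T' := by
  have wf := (InvImage.wf (fun Rs : List (Rel S) =>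
    ((Rs.map Rel.ord : List Ordinal.{1}) : Multiset Ordinal.{1}))
    (Multiset.wellFounded_isDershowitzMannaLT (α := Ordinal.{1})))
  induction Rs using wf.induction with
  | _ Rs ih =>
  intro U N0 hN0 hU ε hε
  by_cases h : ∃ ρ ∈ Rs, ρ.tm ≠ []
  · exact j11_3_step Rs h (fun Rs' h' => ih Rs' h') U N0 hN0 hU ε hε
  · push Not at h
    refine ⟨N0, hN0, fun _ _ => rfl, fun A ρ hρ => ⟨∅, ∅, MeasurableSet.empty, MeasurableSet.empty, ?_, ?_⟩⟩
    · rw [measure_empty, add_zero]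
      exact zero_le
    · intro z _ y hy
      exfalso
      apply hy
      rw [h ρ hρ, rel_nil (h ρ hρ)]
      simp

end Pool.Agent.COST

end

section

open Set MeasureTheory
open scoped ENNReal

namespace Pool.Agent.COST

variable {H : Type} [Group H] {S : JS H}

theorem star (Rs : List (Rel S)) (ε : ℝ≥0∞) (hε : ε ≠ 0) :
    ∃ N : S.Λ → ℕ, (∀ a, 0 < N a) ∧ ∀ A : Sys S N, ∀ ρ ∈ Rs, ∃ T T' : Set A.X.X,
      MeasurableSet T ∧ MeasurableSet T' ∧ A.X.μ T + A.X.μ T' ≤ ε ∧ ρ.Good A T T' := by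
  obtain ⟨N, h1, _, h3⟩ := star_aux Rs ∅ (fun _ => 1) (fun _ => one_pos) (by simp) ε hε
  exact ⟨N, h1, h3⟩

end Pool.Agent.COST

end
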