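import Pool.Agent.COST.J0

section

open Set MeasureTheory
open scoped ENNReal

namespace Pool.Agent.COST

/-- Countable product of pmp spaces. PROOF of the fields: as in `PMP.shift`, `coind_mp`:
`Measure.infinitePi_map_pi`. -/
theorem PMP.pi_exists {G : Type} [Group G] (ι : Type) [Countable ι] (Y : ι → PMP G) :
    ∃ X : PMP G, ∀ i, Nonempty (PMP.Fac X (Y i)) := by
  have hmp : ∀ g : G, MeasurePreserving (fun (x : ∀ i, (Y i).X) (i : ι) => g • x i)
      (Measure.infinitePi fun i => (Y i).μ) (Measure.infinitePi fun i => (Y i).μ) := by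
    intro g
    refine ⟨measurable_pi_lambda _ fun i =>
      ((Y i).mp g).measurable.comp (measurable_pi_apply i), ?_⟩
    rw [Measure.infinitePi_map_pi (fun i => (Y i).μ) (fun i => ((Y i).mp g).measurable)]
    exact congrArg Measure.infinitePi (funext fun i => ((Y i).mp g).map_eq)
  let X : PMP G :=
    { X := ∀ i, (Y i).X
      ms := inferInstance
      sb := inferInstance
      act :=
        { smul := fun g x i => g • x i
          one_smul := fun x => funext fun i => one_smul G (x i)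
          mul_smul := fun g h x => funext fun i => mul_smul g h (x i) }
      μ := Measure.infinitePi fun i => (Y i).μ
      prob := inferInstance
      mp := hmp }
  refine ⟨X, fun i => ⟨⟨fun x => x i, ?_, fun _ _ => rfl⟩⟩⟩
  exact measurePreserving_eval_infinitePi (fun i => (Y i).μ) i

end Pool.Agent.COST

end

section

open Set MeasureTheory
open scoped ENNReal

namespace Pool.Agent.COST

/-- the level function on the circle -/
noncomputable def j13_2_l (n : ℝ) [Fact (0 < n)] (x : AddCircle n) : ℝ :=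
  (AddCircle.equivIco n 0 x : ℝ)

theorem j13_2_meas (n : ℝ) [Fact (0 < n)] : Measurable (j13_2_l n) :=
  measurable_subtype_coe.comp (AddCircle.measurableEquivIco n 0).measurable

theorem j13_2_coe (n : ℝ) [Fact (0 < n)] (x : AddCircle n) : ((j13_2_l n x : ℝ) : AddCircle n) = x :=
  AddCircle.coe_equivIco

theorem j13_2_nonneg (n : ℝ) [Fact (0 < n)] (x : AddCircle n) : 0 ≤ j13_2_l n x :=
  (AddCircle.equivIco n 0 x).2.1

theorem j13_2_lt (n : ℝ) [Fact (0 < n)] (x : AddCircle n) : j13_2_l n x < n := by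
  have h : j13_2_l n x < 0 + n := (AddCircle.equivIco n 0 x).2.2
  rwa [zero_add] at h

theorem j13_2_of (n : ℝ) [Fact (0 < n)] {x : ℝ} (h0 : 0 ≤ x) (h1 : x < n) :
    j13_2_l n (x : AddCircle n) = x := by
  unfold j13_2_l
  rw [AddCircle.equivIco_coe_eq (p := n) (a := 0) (x := x) ⟨h0, by rw [zero_add]; exact h1⟩]

theorem j13_2_vol (n : ℝ) [Fact (0 < n)] (s t : ℝ) :
    (volume : Measure (AddCircle n)) {z | s ≤ j13_2_l n z ∧ j13_2_l n z < t} ≤
      ENNReal.ofReal (t - s) := by
  have hm : MeasurableSet {z : AddCircle n | s ≤ j13_2_l n z ∧ j13_2_l n z < t} :=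
    (measurableSet_le measurable_const (j13_2_meas n)).inter
      (measurableSet_lt (j13_2_meas n) measurable_const)
  have h1 := (AddCircle.measurePreserving_mk n 0).measure_preimage hm.nullMeasurableSet
  rw [← h1, Measure.restrict_apply' measurableSet_Ioc]
  have h2 : ((fun x : ℝ => (x : AddCircle n)) ⁻¹' {z | s ≤ j13_2_l n z ∧ j13_2_l n z < t}) ∩
      Ioc 0 (0 + n) ⊆ Ico s t ∪ {n} := by
    rintro x ⟨h3, h4, h5⟩
    rw [zero_add] at h5
    rcases lt_or_eq_of_le h5 with h6 | h6
    · left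
      have h7 : s ≤ j13_2_l n (x : AddCircle n) ∧ j13_2_l n (x : AddCircle n) < t := h3
      rw [j13_2_of n h4.le h6] at h7
      exact h7
    · right
      exact h6
  calc _ ≤ volume (Ico s t ∪ {n}) := measure_mono h2
    _ ≤ volume (Ico s t) + volume {n} := measure_union_le _ _
    _ = ENNReal.ofReal (t - s) := by
        rw [Real.volume_Ico, Real.volume_singleton, add_zero]

/-- Rotation of the circle of length `n` through a homomorphism.
PROOF: `X = AddCircle (n : ℝ)` (with `Fact (0 < (n : ℝ))`), the action is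
`k • x = x + (Multiplicative.toAdd (ψ k) : AddCircle n)`, the measure is `(n : ℝ≥0∞)⁻¹ • volume`;
`l x` is the representative in `[0, n)` (`AddCircle.equivIco`, `AddCircle.measurableEquivIco`,
`toIcoMod`). Volume of `{s ≤ l < t}` is `t - s` (`AddCircle.measurePreserving_mk` or
`AddCircle.volume_...`). -/
theorem circle_exists {K : Type} [Group K] (ψ : K →* Multiplicative ℝ) (n : ℕ) (hn : 0 < n) :
    ∃ (X : PMP K) (l : X.X → ℝ), Measurable l ∧ (∀ z, 0 ≤ l z) ∧ (∀ z, l z < n) ∧
      (∀ k z, ∃ m : ℤ, l (k • z) = l z + Multiplicative.toAdd (ψ k) + m * n) ∧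
      ∀ s t : ℝ, 0 ≤ s → s ≤ t → t ≤ n →
        X.μ {z | s ≤ l z ∧ l z < t} ≤ ENNReal.ofReal ((t - s) / n) := by
  have hn0 : (0 : ℝ) < (n : ℝ) := by exact_mod_cast hn
  have hF : Fact (0 < (n : ℝ)) := ⟨hn0⟩
  have hne : (n : ℝ≥0∞) ≠ 0 := by
    have h1 : n ≠ 0 := by omega
    exact_mod_cast h1
  refine ⟨{
    X := AddCircle (n : ℝ)
    ms := inferInstance
    sb := inferInstance
    act := {
      smul := fun k x => x + ((Multiplicative.toAdd (ψ k) : ℝ) : AddCircle (n : ℝ))
      one_smul := fun x => by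
        show x + ((Multiplicative.toAdd (ψ 1) : ℝ) : AddCircle (n : ℝ)) = x
        rw [map_one, toAdd_one, AddCircle.coe_zero, add_zero]
      mul_smul := fun k k' x => by
        show x + ((Multiplicative.toAdd (ψ (k * k')) : ℝ) : AddCircle (n : ℝ)) =
          x + ((Multiplicative.toAdd (ψ k') : ℝ) : AddCircle (n : ℝ)) +
            ((Multiplicative.toAdd (ψ k) : ℝ) : AddCircle (n : ℝ))
        rw [map_mul, toAdd_mul, AddCircle.coe_add]
        abel }
    μ := (n : ℝ≥0∞)⁻¹ • volume
    prob := by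
      constructor
      rw [Measure.smul_apply, AddCircle.measure_univ, smul_eq_mul, ENNReal.ofReal_natCast]
      exact ENNReal.inv_mul_cancel hne (ENNReal.natCast_ne_top n)
    mp := fun k => by
      apply MeasurePreserving.smul_measure
      exact measurePreserving_add_right volume _ }, j13_2_l (n : ℝ), j13_2_meas _,
      j13_2_nonneg _, j13_2_lt _, ?_, ?_⟩
  · intro k z
    have h1 : ((j13_2_l (n : ℝ) (z + ((Multiplicative.toAdd (ψ k) : ℝ) : AddCircle (n : ℝ))) -
        (j13_2_l (n : ℝ) z + Multiplicative.toAdd (ψ k)) : ℝ) : AddCircle (n : ℝ)) = 0 := by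
      rw [AddCircle.coe_sub, AddCircle.coe_add, j13_2_coe, j13_2_coe, sub_self]
    obtain ⟨m, hm⟩ := (AddCircle.coe_eq_zero_iff (n : ℝ)).1 h1
    refine ⟨m, ?_⟩
    show j13_2_l (n : ℝ) (z + ((Multiplicative.toAdd (ψ k) : ℝ) : AddCircle (n : ℝ))) = _
    rw [zsmul_eq_mul] at hm
    linarith
  · intro s t _ _ _
    show ((n : ℝ≥0∞)⁻¹ • (volume : Measure (AddCircle (n : ℝ))))
      {z | s ≤ j13_2_l (n : ℝ) z ∧ j13_2_l (n : ℝ) z < t} ≤ _
    rw [Measure.smul_apply, smul_eq_mul, ENNReal.ofReal_div_of_pos hn0, ENNReal.ofReal_natCast,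
      ENNReal.div_eq_inv_mul]
    exact mul_le_mul' le_rfl (j13_2_vol (n : ℝ) s t)

end Pool.Agent.COST

end

section

open Set MeasureTheory
open scoped ENNReal

namespace Pool.Agent.COST

/-- the subgroup `{v ≤ a}` -/
def j13_3_K {H : Type} [Group H] (S : JS H) (a : S.Λ) : Subgroup H where
  carrier := {g | S.v g ≤ a}
  mul_mem' := fun h1 h2 => (S.v_mul _ _).trans (max_le h1 h2)
  one_mem' := by
    change S.v 1 ≤ a
    rw [(S.v_bot 1).2 rfl]
    exact bot_le
  inv_mem' := fun {g} h1 => by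
    change S.v g⁻¹ ≤ a
    rw [S.v_inv]
    exact h1

/-- the homomorphism of `{v ≤ a}` -/
def j13_3_ψ {H : Type} [Group H] (S : JS H) (a : S.Λ) : j13_3_K S a →* Multiplicative ℝ where
  toFun := fun k => Multiplicative.ofAdd (S.ψ a (k : H))
  map_one' := by
    have h1 : S.v (1 : H) < a := by
      rw [(S.v_bot 1).2 rfl]
      exact WithBot.bot_lt_coe a
    have h2 : S.ψ a ((1 : j13_3_K S a) : H) = 0 := (S.ψ_zero a 1 h1.le).2 h1
    rw [h2]
    rfl
  map_mul' := fun x y => by
    have h1 : S.ψ a ((x * y : j13_3_K S a) : H) = S.ψ a (x : H) + S.ψ a (y : H) :=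
      S.ψ_mul a _ _ x.2 y.2
    rw [h1]
    rfl

theorem j13_3_one {H : Type} [Group H] [Countable H] (S : JS H) (a : S.Λ) (n : ℕ) (hn : 0 < n) :
    ∃ (Z : PMP H) (l : Z.X → ℝ), Measurable l ∧ (∀ z, 0 ≤ l z) ∧ (∀ z, l z < n) ∧
      (∀ (g : H) (z : Z.X), S.v g ≤ a → ∃ m : ℤ, l (g • z) = l z + S.ψ a g + m * n) ∧
      ∀ s t : ℝ, 0 ≤ s → s ≤ t → t ≤ n →
        Z.μ {z | s ≤ l z ∧ l z < t} ≤ ENNReal.ofReal ((t - s) / n) := by
  obtain ⟨Y, l, h1, h2, h3, h4, h5⟩ := circle_exists (j13_3_ψ S a) n hn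
  obtain ⟨p, hp, hpe⟩ := PMP.coind_proj (j13_3_K S a) Y
  refine ⟨PMP.coind (j13_3_K S a) Y, fun z => l (p z), h1.comp hp.measurable, fun z => h2 _,
    fun z => h3 _, ?_, ?_⟩
  · intro g z hg
    obtain ⟨m, hm⟩ := h4 ⟨g, hg⟩ (p z)
    refine ⟨m, ?_⟩
    have e := hpe ⟨g, hg⟩ z
    change p (g • z) = _ at e
    change l (p (g • z)) = l (p z) + S.ψ a g + m * n
    rw [e, hm]
    rfl
  · intro s t hs hst ht
    have hm : MeasurableSet {z | s ≤ l z ∧ l z < t} :=
      (measurableSet_le measurable_const h1).inter (measurableSet_lt h1 measurable_const)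
    have e : (PMP.coind (j13_3_K S a) Y).μ {z | s ≤ l (p z) ∧ l (p z) < t} =
        Y.μ {z | s ≤ l z ∧ l z < t} := hp.measure_preimage hm.nullMeasurableSet
    rw [e]
    exact h5 s t hs hst ht

/-- PROOF. For each `a` let `K` be the subgroup `{g | S.v g ≤ a}` and `ψ` the restriction of
`S.ψ a` to it (`circle_exists` gives `Y a : PMP K`), `X a = PMP.coind K (Y a)` with the
equivariant projection `PMP.coind_proj`; the product over `a` (`PMP.pi_exists`) with
`l a = l_{Y a} ∘ proj ∘ fac a`. -/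
theorem sys_exists {H : Type} [Group H] [Countable H] (S : JS H) (N : S.Λ → ℕ)
    (hN : ∀ a, 0 < N a) : Nonempty (Sys S N) := by
  choose Z l h1 h2 h3 h4 h5 using fun a => j13_3_one S a (N a) (hN a)
  obtain ⟨X, hX⟩ := PMP.pi_exists S.Λ Z
  exact ⟨{
    X := X
    l := fun a x => l a ((hX a).some.f x)
    meas := fun a => (h1 a).comp (hX a).some.mp.measurable
    nonneg := fun a z => h2 a _
    lt := fun a z => h3 a _
    eqv := fun a g z hg => by
      obtain ⟨m, hm⟩ := h4 a g ((hX a).some.f z) hg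
      exact ⟨m, by rw [(hX a).some.eqv, hm]⟩
    unif := fun a s t hs hst ht => by
      have hm : MeasurableSet {z | s ≤ l a z ∧ l a z < t} :=
        (measurableSet_le measurable_const (h1 a)).inter (measurableSet_lt (h1 a) measurable_const)
      have e : X.μ {z | s ≤ l a ((hX a).some.f z) ∧ l a ((hX a).some.f z) < t} =
          (Z a).μ {z | s ≤ l a z ∧ l a z < t} := (hX a).some.mp.measure_preimage hm.nullMeasurableSet
      rw [e]
      exact h5 a s t hs hst ht }⟩

end Pool.Agent.COST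

end
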