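import Pool.Agent.COST.J1

section

open Set

namespace Pool.Agent.COST

variable {H : Type} [Group H] (S : JS H)

/-- Pieces of tame functions are tame, with respect to any coset containing the support.
PROOF: induction on `Tame`.
`fin`: the support is finite, use `piece_finite`, `Tame.fin`; only finitely many levels occur.
`node x a' g' h1 h2 h3`: if `x = 0` use `piece_zero`. Let `x k0 ≠ 0`. Compare `a'` and `a`.
`a' < a`: all support points `k` satisfy `S.v (k * k0⁻¹) ≤ a' < a`, so they have the same level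
`r0 = S.ψ a (k0 * g⁻¹)` with respect to `(a, g)` (use `ψ_tri`, `ψ_zero`): by `piece_all` and
`piece_none` every piece is `x` or `0`, and `x` is tame (`Tame.node x a' g' h1 h2 h3`).
`a' = a`: `S.v (g * g'⁻¹) ≤ a` (use `le_tri` through `k0`), change the base point
(`piece_base`, `LocFin.base`).
`a' > a`: all support points have the same level `r0` with respect to `(a', g')`, so
`piece S a' g' r0 x = x` (`piece_all`) and the induction hypothesis for `r0` (rewritten) applies. -/
theorem tame_piece {x : H → ℂ} (hx : Tame S x) :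
    ∀ (a : S.Λ) (g : H), InCoset S a g x →
      LocFin S a g x ∧ ∀ r, Tame S (piece S a g r x) := by
  induction hx with
  | fin x hx =>
    intro a g _
    refine ⟨fun R => ?_, fun r => Tame.fin _ (piece_finite S a g r x hx)⟩
    refine (hx.image fun h => S.ψ a (h * g⁻¹)).subset ?_
    rintro r ⟨-, hr⟩
    obtain ⟨k, hk⟩ := Function.ne_iff.1 hr
    obtain ⟨h1, -, h3⟩ := piece_ne S a g r x k hk
    exact ⟨k, h1, h3⟩
  | node x a' g' h1 h2 h3 ih =>
    intro a g hc
    by_cases hx0 : x = 0
    · subst hx0
      refine ⟨fun R => ?_, fun r => by rw [piece_zero]; exact Tame.zero S⟩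
      refine Set.finite_empty.subset ?_
      rintro r ⟨-, hr⟩
      exact hr (piece_zero S a g r)
    · obtain ⟨k0, hk0⟩ := Function.ne_iff.1 hx0
      have hk0' : x k0 ≠ 0 := hk0
      rcases lt_trichotomy a' a with hlt | heq | hgt
      · have hall : ∀ k, x k ≠ 0 → S.v (k * g⁻¹) ≤ a ∧ S.ψ a (k * g⁻¹) = S.ψ a (k0 * g⁻¹) := by
          intro k hk
          have h4 : S.v (k * k0⁻¹) ≤ a' := S.le_tri (h1 k hk) (by rw [S.v_symm]; exact h1 k0 hk0')
          have h5 : S.v (k * k0⁻¹) < a := lt_of_le_of_lt h4 (WithBot.coe_lt_coe.2 hlt)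
          refine ⟨hc k hk, ?_⟩
          rw [S.ψ_tri a h5.le (hc k0 hk0'), (S.ψ_zero a _ h5.le).2 h5, zero_add]
        refine ⟨fun R => ?_, fun r => ?_⟩
        · refine (Set.finite_singleton (S.ψ a (k0 * g⁻¹))).subset ?_
          rintro r ⟨-, hr⟩
          by_contra hne
          exact hr (piece_none S a g _ r x hall hne)
        · by_cases hr : r = S.ψ a (k0 * g⁻¹)
          · rw [hr, piece_all S a g _ x hall]
            exact Tame.node x a' g' h1 h2 h3
          · rw [piece_none S a g _ r x hall hr]
            exact Tame.zero S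
      · subst heq
        have hg : S.v (g * g'⁻¹) ≤ a' := S.le_tri (by rw [S.v_symm]; exact hc k0 hk0') (h1 k0 hk0')
        refine ⟨h2.base S hg, fun r => ?_⟩
        rw [piece_base S a' g' g r x hg]
        exact h3 _
      · have hall : ∀ k, x k ≠ 0 → S.v (k * g'⁻¹) ≤ a' ∧ S.ψ a' (k * g'⁻¹) = S.ψ a' (k0 * g'⁻¹) := by
          intro k hk
          have h4 : S.v (k * k0⁻¹) ≤ a := S.le_tri (hc k hk) (by rw [S.v_symm]; exact hc k0 hk0')
          have h5 : S.v (k * k0⁻¹) < a' := lt_of_le_of_lt h4 (WithBot.coe_lt_coe.2 hgt)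
          refine ⟨h1 k hk, ?_⟩
          rw [S.ψ_tri a' h5.le (h1 k0 hk0'), (S.ψ_zero a' _ h5.le).2 h5, zero_add]
        have h6 := ih (S.ψ a' (k0 * g'⁻¹)) a g
        rw [piece_all S a' g' _ x hall] at h6
        exact h6 hc

end Pool.Agent.COST

end

section

open Set

namespace Pool.Agent.COST

variable {H : Type} [Group H] (S : JS H)

/-- PROOF: induction on `Tame`. `fin` is excluded by `hinf`. `node x a g h1 h2 h3`: if all support
points have the same level `r0` w.r.t. `(a, g)` then `piece S a g r0 x = x` and the induction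
hypothesis for `r0` applies. Otherwise let `g0` be a support point of the lowest level (exists:
take any support point of level `R`; the set `{r | r ≤ R ∧ piece S a g r x ≠ 0}` is finite and nonempty,
take its minimum) and show `IsNode S x (a, g0)`: base change lemmas from J1; some support point
has a level different from that of `g0`, so `ψ a (h * g0⁻¹) ≠ 0`, hence `v (h * g0⁻¹) = a` by
`ψ_zero`. -/
theorem exists_node {x : H → ℂ} (hx : Tame S x) (hinf : ¬ (Function.support x).Finite) :
    ∃ p, IsNode S x p := by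
  induction hx with
  | fin x hx => exact absurd hx hinf
  | node x a g h1 h2 h3 ih =>
    by_cases hall : ∃ r0, ∀ k, x k ≠ 0 → S.ψ a (k * g⁻¹) = r0
    · obtain ⟨r0, hr0⟩ := hall
      have h4 := ih r0
      rw [piece_all S a g r0 x fun k hk => ⟨h1 k hk, hr0 k hk⟩] at h4
      exact h4 hinf
    · push Not at hall
      have hne : (Function.support x).Nonempty := by
        by_contra h0
        rw [Set.not_nonempty_iff_eq_empty] at h0
        rw [h0] at hinf
        exact hinf Set.finite_empty
      obtain ⟨k1, hk1⟩ := hne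
      have hpne : ∀ k, x k ≠ 0 → piece S a g (S.ψ a (k * g⁻¹)) x ≠ 0 := by
        intro k hk h0
        apply hk
        rw [← piece_of S a g _ x k (h1 k hk) rfl, h0]
        rfl
      obtain ⟨r0, ⟨hr0R, hr0⟩, hmin⟩ := Set.exists_min_image _ id (h2 (S.ψ a (k1 * g⁻¹)))
        ⟨S.ψ a (k1 * g⁻¹), le_rfl, hpne k1 hk1⟩
      obtain ⟨g0, hg0⟩ := Function.ne_iff.1 hr0
      obtain ⟨hx0, hv0, hψ0⟩ := piece_ne S a g r0 x g0 hg0
      have hc0 : InCoset S a g0 x := h1.base S hv0
      have htri : ∀ h, x h ≠ 0 → S.ψ a (h * g⁻¹) = S.ψ a (h * g0⁻¹) + r0 := by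
        intro h hh
        rw [S.ψ_tri a (hc0 h hh) hv0, hψ0]
      refine ⟨(a, g0), hc0, h2.base S hv0, hx0, ?_, ?_⟩
      · intro h hh
        have h5 := htri h hh
        have h6 : r0 ≤ S.ψ a (h * g⁻¹) := by
          by_cases h7 : S.ψ a (h * g⁻¹) ≤ S.ψ a (k1 * g⁻¹)
          · exact hmin _ ⟨h7, hpne h hh⟩
          · exact hr0R.trans (not_le.1 h7).le
        show 0 ≤ S.ψ a (h * g0⁻¹)
        linarith
      · obtain ⟨h, hh, hhr⟩ := hall r0
        refine ⟨h, hh, ?_⟩
        have h5 := htri h hh
        have h6 : S.ψ a (h * g0⁻¹) ≠ 0 := by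
          intro h0
          rw [h0, zero_add] at h5
          exact hhr h5
        have h7 : ¬ S.v (h * g0⁻¹) < a := fun h8 => h6 ((S.ψ_zero a _ (hc0 h hh)).2 h8)
        exact le_antisymm (hc0 h hh) (not_lt.1 h7)

end Pool.Agent.COST

end

section

open Set

namespace Pool.Agent.COST

variable {H : Type} [Group H] (S : JS H)

theorem nd_isNode {x : H → ℂ} {p : S.Λ × H} (h : nd S x = some p) : IsNode S x p := by
  unfold nd at h
  split_ifs at h with h1
  · have h2 := h1.choose_spec
    rw [Option.some.injEq] at h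
    rw [← h]
    exact h2

theorem nd_spec {x : H → ℂ} (hx : Tame S x) (hinf : ¬ (Function.support x).Finite) :
    ∃ p, nd S x = some p ∧ IsNode S x p := by
  have h := exists_node S hx hinf
  refine ⟨h.choose, ?_, h.choose_spec⟩
  unfold nd
  rw [dif_pos h]

end Pool.Agent.COST

end
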