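import Pool.Agent.COST.J2

section

open Set

namespace Pool.Agent.COST

variable {H : Type} [Group H] (S : JS H)

/-- PROOF: induction on `Tame`. `fin`: a function of finite support has no children.
`node x a g h1 h2 h3`: let `y` be a child: `y = piece S a' g' r x`, `IsNode S x (a', g')`
(`nd_isNode`). The attained jump and `h1` give `a' ≤ a` (use `le_tri`). If `a' = a` then by
`piece_base` `y` is a piece w.r.t. `(a, g)`, accessible by the induction hypothesis. If `a' < a`
then all support points have the same level w.r.t. `(a, g)`, so `x = piece S a g r0 x` is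
accessible by the induction hypothesis and so is its child (`Acc.inv`). -/
theorem acc_child {x : H → ℂ} (hx : Tame S x) : Acc (Child S) x := by
  induction hx with
  | fin x hx => exact Acc.intro _ fun y hy => absurd hx hy.1
  | node x a g h1 h2 h3 ih =>
    refine Acc.intro _ ?_
    rintro y ⟨hinf, a', g', r, hn, rfl⟩
    obtain ⟨hc, -, hg', -, h, hh, hv⟩ := nd_isNode S hn
    simp only at hc hg' hv
    have hgg : S.v (g' * g⁻¹) ≤ a := h1 g' hg'
    have hle : a' ≤ a := by
      have h4 : S.v (h * g'⁻¹) ≤ a := S.le_tri (h1 h hh) (by rw [S.v_symm]; exact hgg)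
      rw [hv] at h4
      exact WithBot.coe_le_coe.1 h4
    rcases hle.lt_or_eq with hlt | heq
    · have hall : ∀ k, x k ≠ 0 → S.v (k * g⁻¹) ≤ a ∧ S.ψ a (k * g⁻¹) = S.ψ a (g' * g⁻¹) := by
        intro k hk
        have h5 : S.v (k * g'⁻¹) < a := lt_of_le_of_lt (hc k hk) (WithBot.coe_lt_coe.2 hlt)
        refine ⟨h1 k hk, ?_⟩
        rw [S.ψ_tri a h5.le hgg, (S.ψ_zero a _ h5.le).2 h5, zero_add]
      have h6 := ih (S.ψ a (g' * g⁻¹))
      rw [piece_all S a g _ x hall] at h6
      exact h6.inv ⟨hinf, a', g', r, hn, rfl⟩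
    · subst heq
      rw [piece_base S a' g g' r x hgg]
      exact ih _

end Pool.Agent.COST

end

section

open Set

namespace Pool.Agent.COST

variable {H : Type} [Group H] (S : JS H)

theorem rk_lt {x : H → ℂ} (hx : Tame S x) (hinf : ¬ (Function.support x).Finite) {p : S.Λ × H}
    (hn : nd S x = some p) (r : ℝ) : rk S (piece S p.1 p.2 r x) < rk S x := by
  have h1 := acc_child S hx
  have hch : Child S (piece S p.1 p.2 r x) x := ⟨hinf, p.1, p.2, r, hn, rfl⟩
  have h2 := h1.inv hch
  unfold rk
  rw [dif_pos h1, dif_pos h2]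
  exact Acc.rank_lt_of_rel h1 hch

end Pool.Agent.COST

end
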