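import Pool.Agent.COST.J4

section

open Set

namespace Pool.Agent.COST

variable {H : Type} [Group H] (S : JS H)

open Classical in
/-- The terms at level `r` (with respect to `(a, g)`) coming from the term `p = (x, c)`: for each
shift `σ = ψ a (gx s g⁻¹)`, `s ∈ supp c`, the piece of `x` at level `r - σ` and the part of `c`
with shift `σ`. -/
noncomputable def subt (a : S.Λ) (g : H) (r : ℝ) (p : (H → ℂ) × (H →₀ ℂ)) :
    List ((H → ℂ) × (H →₀ ℂ)) :=
  match nd S p.1 with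
  | none => []
  | some q => ((p.2.support.image fun s => S.ψ a (q.2 * s * g⁻¹)).toList.map fun σ =>
      (piece S a q.2 (r - σ) p.1, p.2.filter fun s => S.ψ a (q.2 * s * g⁻¹) = σ))

/-- Facts about the members of `subt`. PROOF: unfold `subt`, `piece_ne`, `tame_piece` (with the
coset of `(a, q.2)`: `InCoset` holds because `q.1 ≤ a`); for the level statement use
`h * s * g⁻¹ = (h * q.2⁻¹) * (q.2 * s * g⁻¹)` and `ψ_mul`; both factors have jump `≤ a`
(the second one by `hW` applied to the support point `q.2`). -/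
theorem mem_subt (a : S.Λ) (g : H) (r : ℝ) (p : (H → ℂ) × (H →₀ ℂ)) (hp : Tame S p.1)
    (q : S.Λ × H) (hq : nd S p.1 = some q) (hqa : q.1 ≤ a)
    (hW : ∀ h s, p.1 h ≠ 0 → p.2 s ≠ 0 → S.v (h * s * g⁻¹) ≤ a)
    (u : (H → ℂ) × (H →₀ ℂ)) (hu : u ∈ subt S a g r p) :
    Tame S u.1 ∧ u.2 ≠ 0 ∧ (∀ h, u.1 h ≠ 0 → p.1 h ≠ 0) ∧ (∀ s, u.2 s ≠ 0 → p.2 s ≠ 0) ∧
      ∀ h s, u.1 h ≠ 0 → u.2 s ≠ 0 → S.v (h * s * g⁻¹) ≤ a ∧ S.ψ a (h * s * g⁻¹) = r := by
  have hN := nd_isNode S hq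
  have hqa' : (q.1 : WithBot S.Λ) ≤ (a : WithBot S.Λ) := WithBot.coe_le_coe.2 hqa
  have hin : InCoset S a q.2 p.1 := fun h hh => (hN.1 h hh).trans hqa'
  have hg0 : p.1 q.2 ≠ 0 := hN.2.2.1
  simp only [subt, hq, List.mem_map, Finset.mem_toList, Finset.mem_image] at hu
  obtain ⟨σ, ⟨s0, hs0, hσ⟩, rfl⟩ := hu
  have hs0' : p.2 s0 ≠ 0 := Finsupp.mem_support_iff.1 hs0
  have hf : ∀ s, (p.2.filter fun s => S.ψ a (q.2 * s * g⁻¹) = σ) s ≠ 0 → p.2 s ≠ 0 ∧ S.ψ a (q.2 * s * g⁻¹) = σ := by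
    intro s hs
    rw [Finsupp.filter_apply] at hs
    split_ifs at hs with h1
    · exact ⟨hs, h1⟩
    · exact absurd rfl hs
  refine ⟨(tame_piece S hp a q.2 hin).2 _, ?_, fun h hh => (piece_ne S a q.2 _ _ h hh).1, fun s hs => (hf s hs).1, ?_⟩
  · intro h0
    have h1 : (p.2.filter fun s => S.ψ a (q.2 * s * g⁻¹) = σ) s0 = 0 := DFunLike.congr_fun h0 s0
    rw [Finsupp.filter_apply, if_pos hσ] at h1
    exact hs0' h1
  · intro h s hh hs
    obtain ⟨h1, h2, h3⟩ := piece_ne S a q.2 _ _ h hh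
    obtain ⟨h4, h5⟩ := hf s hs
    refine ⟨hW h s h1 h4, ?_⟩
    have h6 : h * s * g⁻¹ = h * q.2⁻¹ * (q.2 * s * g⁻¹) := by group
    rw [h6, S.ψ_mul a _ _ h2 (hW q.2 s hg0 h4), h3, h5]
    ring

end Pool.Agent.COST

end

section

open Set

namespace Pool.Agent.COST

variable {H : Type} [Group H] (S : JS H)

open Classical in
/-- PROOF: `rc x c y = Σ_{s ∈ supp c} x (y s⁻¹) c s`; group the sum over `s` according to
`σ s = ψ a (q.2 s g⁻¹)` (`Finset.sum_fiberwise_of_maps_to`); for `s` with `x (y s⁻¹) ≠ 0` put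
`h = y s⁻¹`: `ψ a (y g⁻¹) = ψ a (h q.2⁻¹) + σ s`, so the piece at level `r - σ s` contains `h` iff
`ψ a (y g⁻¹) = r`. -/
theorem subt_sum (a : S.Λ) (g : H) (r : ℝ) (p : (H → ℂ) × (H →₀ ℂ))
    (q : S.Λ × H) (hq : nd S p.1 = some q) (hqa : q.1 ≤ a)
    (hW : ∀ h s, p.1 h ≠ 0 → p.2 s ≠ 0 → S.v (h * s * g⁻¹) ≤ a) (y : H) :
    ((subt S a g r p).map fun u => rc u.1 u.2 y).sum =
      if S.v (y * g⁻¹) ≤ a ∧ S.ψ a (y * g⁻¹) = r then rc p.1 p.2 y else 0 := by
  obtain ⟨hn1, hn2, hn3, hn4, hn5⟩ := nd_isNode S hq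
  have hsub : subt S a g r p = ((p.2.support.image fun s => S.ψ a (q.2 * s * g⁻¹)).toList.map
      fun σ => (piece S a q.2 (r - σ) p.1, p.2.filter fun s => S.ψ a (q.2 * s * g⁻¹) = σ)) := by
    unfold subt
    rw [hq]
  rw [hsub, List.map_map]
  have hfin : ((p.2.support.image fun s => S.ψ a (q.2 * s * g⁻¹)).toList.map
      ((fun u : (H → ℂ) × (H →₀ ℂ) => rc u.1 u.2 y) ∘ fun σ => (piece S a q.2 (r - σ) p.1,
        p.2.filter fun s => S.ψ a (q.2 * s * g⁻¹) = σ))).sum =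
      ∑ σ ∈ p.2.support.image fun s => S.ψ a (q.2 * s * g⁻¹),
        rc (piece S a q.2 (r - σ) p.1) (p.2.filter fun s => S.ψ a (q.2 * s * g⁻¹) = σ) y := by
    exact Finset.sum_map_toList _ _
  rw [hfin]
  have hinner : ∀ σ ∈ p.2.support.image fun s => S.ψ a (q.2 * s * g⁻¹),
      rc (piece S a q.2 (r - σ) p.1) (p.2.filter fun s => S.ψ a (q.2 * s * g⁻¹) = σ) y =
      ∑ s ∈ p.2.support with S.ψ a (q.2 * s * g⁻¹) = σ,
        piece S a q.2 (r - S.ψ a (q.2 * s * g⁻¹)) p.1 (y * s⁻¹) * p.2 s := by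
    intro σ _
    unfold rc Finsupp.sum
    rw [Finsupp.support_filter]
    refine Finset.sum_congr rfl fun s hs => ?_
    have hs2 := (Finset.mem_filter.mp hs).2
    have h9 : (Finsupp.filter (fun s => S.ψ a (q.2 * s * g⁻¹) = σ) p.2) s = p.2 s :=
      Finsupp.filter_apply_pos (fun s => S.ψ a (q.2 * s * g⁻¹) = σ) p.2 hs2
    show piece S a q.2 (r - σ) p.1 (y * s⁻¹) *
      (Finsupp.filter (fun s => S.ψ a (q.2 * s * g⁻¹) = σ) p.2) s = _
    rw [h9, hs2]
  rw [Finset.sum_congr rfl hinner]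
  rw [Finset.sum_fiberwise_of_maps_to (fun s hs => Finset.mem_image_of_mem _ hs)]
  have hterm : ∀ s ∈ p.2.support, piece S a q.2 (r - S.ψ a (q.2 * s * g⁻¹)) p.1 (y * s⁻¹) * p.2 s =
      if S.v (y * g⁻¹) ≤ a ∧ S.ψ a (y * g⁻¹) = r then p.1 (y * s⁻¹) * p.2 s else 0 := by
    intro s hs
    have hs' : p.2 s ≠ 0 := Finsupp.mem_support_iff.mp hs
    by_cases hx : p.1 (y * s⁻¹) = 0
    · have h1 : piece S a q.2 (r - S.ψ a (q.2 * s * g⁻¹)) p.1 (y * s⁻¹) = 0 := by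
        by_contra h2
        exact (piece_ne S _ _ _ _ _ h2).1 hx
      rw [h1, hx, zero_mul, ite_self]
    · have h1 : S.v (y * g⁻¹) ≤ a := by
        have h2 := hW (y * s⁻¹) s hx hs'
        rwa [inv_mul_cancel_right] at h2
      have h2 : S.v (q.2 * s * g⁻¹) ≤ a := hW q.2 s hn3 hs'
      have h3 : S.v (y * s⁻¹ * q.2⁻¹) ≤ a :=
        le_trans (hn1 _ hx) (WithBot.coe_le_coe.mpr hqa)
      have h4 : S.ψ a (y * g⁻¹) = S.ψ a (y * s⁻¹ * q.2⁻¹) + S.ψ a (q.2 * s * g⁻¹) := by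
        rw [← S.ψ_mul a _ _ h3 h2]
        apply congrArg
        group
      by_cases h5 : S.ψ a (y * g⁻¹) = r
      · rw [if_pos ⟨h1, h5⟩, piece_of S a q.2 _ p.1 _ h3 (by linarith)]
      · rw [if_neg (fun h6 => h5 h6.2)]
        have h6 : piece S a q.2 (r - S.ψ a (q.2 * s * g⁻¹)) p.1 (y * s⁻¹) = 0 := by
          by_contra h7
          have h8 := (piece_ne S _ _ _ _ _ h7).2.2
          exact h5 (by linarith)
        rw [h6, zero_mul]
  rw [Finset.sum_congr rfl hterm]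
  by_cases hc : S.v (y * g⁻¹) ≤ a ∧ S.ψ a (y * g⁻¹) = r
  · simp only [if_pos hc]
    rfl
  · simp only [if_neg hc, Finset.sum_const_zero]

end Pool.Agent.COST

end

section

open Set

namespace Pool.Agent.COST

variable {H : Type} [Group H] (S : JS H)

open Classical in
/-- The same for truncations. PROOF: as `subt_sum`. If `q.1 = a` then by `trunc_node` (with
`r' = ψ a (h q.2⁻¹) = r - σ s ≤ l a z` by `hl`) `trunc A z x h = trunc A z (piece S a q.2 r' x) h`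
for `h = y s⁻¹`, `ψ a (y g⁻¹) = r`. If `q.1 < a` then for every support point `h` of `x`
`ψ a (h q.2⁻¹) = 0` (`ψ_zero`), so `piece S a q.2 0 x = x` (`piece_all`) and the other pieces are
`0` (`piece_none`, `trunc_zero`). -/
theorem subt_trunc_sum {N : S.Λ → ℕ} (A : Sys S N) (z : A.X.X) (a : S.Λ) (g : H) (r : ℝ)
    (p : (H → ℂ) × (H →₀ ℂ)) (hinf : ¬ (Function.support p.1).Finite)
    (q : S.Λ × H) (hq : nd S p.1 = some q) (hqa : q.1 ≤ a)
    (hW : ∀ h s, p.1 h ≠ 0 → p.2 s ≠ 0 → S.v (h * s * g⁻¹) ≤ a)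
    (hl : q.1 = a → ∀ s, p.2 s ≠ 0 → r - S.ψ a (q.2 * s * g⁻¹) ≤ A.l a z) (y : H) :
    ((subt S a g r p).map fun u => rc (trunc A z u.1) u.2 y).sum =
      if S.v (y * g⁻¹) ≤ a ∧ S.ψ a (y * g⁻¹) = r then rc (trunc A z p.1) p.2 y else 0 := by
  have hN := nd_isNode S hq
  have hqa' : (q.1 : WithBot S.Λ) ≤ (a : WithBot S.Λ) := WithBot.coe_le_coe.2 hqa
  have hg0 : p.1 q.2 ≠ 0 := hN.2.2.1
  have key : ∀ s ∈ p.2.support, trunc A z (piece S a q.2 (r - S.ψ a (q.2 * s * g⁻¹)) p.1) (y * s⁻¹) * p.2 s =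
      if S.v (y * g⁻¹) ≤ a ∧ S.ψ a (y * g⁻¹) = r then trunc A z p.1 (y * s⁻¹) * p.2 s else 0 := by
    intro s hs
    have hs' : p.2 s ≠ 0 := Finsupp.mem_support_iff.1 hs
    obtain ⟨h, hh⟩ : ∃ h, h = y * s⁻¹ := ⟨_, rfl⟩
    rw [← hh]
    have hy : y = h * s := by rw [hh]; group
    by_cases hx : p.1 h = 0
    · have h1 : trunc A z p.1 h = 0 := by
        by_contra h2
        exact (trunc_ne A z h2).2 hx
      have h2 : trunc A z (piece S a q.2 (r - S.ψ a (q.2 * s * g⁻¹)) p.1) h = 0 := by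
        by_contra h3
        exact (piece_ne S a q.2 _ _ h (trunc_ne A z h3).2).1 hx
      rw [h1, h2, zero_mul, ite_self]
    · have h1 := hN.1 h hx
      have h2 : S.v (y * g⁻¹) ≤ a := by rw [hy]; exact hW h s hx hs'
      have h3 : S.ψ a (y * g⁻¹) = S.ψ a (h * q.2⁻¹) + S.ψ a (q.2 * s * g⁻¹) := by
        rw [← S.ψ_mul a _ _ (h1.trans hqa') (hW q.2 s hg0 hs')]
        apply congrArg
        rw [hy]
        group
      by_cases hr : S.ψ a (y * g⁻¹) = r
      · rw [if_pos ⟨h2, hr⟩]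
        have h4 : S.ψ a (h * q.2⁻¹) = r - S.ψ a (q.2 * s * g⁻¹) := by linarith
        have h5 : trunc A z (piece S a q.2 (r - S.ψ a (q.2 * s * g⁻¹)) p.1) h = trunc A z p.1 h := by
          rcases eq_or_lt_of_le hqa with h6 | h6
          · have h7 := trunc_node A z hinf hq h
            have h8 := hl h6 s hs'
            rw [h6] at h7 h1
            rw [if_pos ⟨h1, by rw [h4]; exact h8⟩, h4] at h7
            exact h7.symm
          · have h7 : ∀ k, p.1 k ≠ 0 → S.v (k * q.2⁻¹) ≤ a ∧ S.ψ a (k * q.2⁻¹) = 0 := by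
              intro k hk
              have h8 := hN.1 k hk
              have h9 : S.v (k * q.2⁻¹) < a := lt_of_le_of_lt h8 (WithBot.coe_lt_coe.2 h6)
              exact ⟨h9.le, (S.ψ_zero a _ h9.le).2 h9⟩
            rw [← h4, (h7 h hx).2, piece_all S a q.2 0 p.1 h7]
        rw [h5]
      · rw [if_neg fun h0 => hr h0.2]
        have h2 : trunc A z (piece S a q.2 (r - S.ψ a (q.2 * s * g⁻¹)) p.1) h = 0 := by
          by_contra h4
          have h5 := (piece_ne S a q.2 _ _ h (trunc_ne A z h4).2).2.2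
          exact hr (by linarith)
        rw [h2, zero_mul]
  have hsub : ((subt S a g r p).map fun u => rc (trunc A z u.1) u.2 y).sum =
      ∑ s ∈ p.2.support, trunc A z (piece S a q.2 (r - S.ψ a (q.2 * s * g⁻¹)) p.1) (y * s⁻¹) * p.2 s := by
    simp only [subt, hq, List.map_map, Function.comp_def, Finset.sum_map_toList]
    have h1 : ∀ s ∈ p.2.support, S.ψ a (q.2 * s * g⁻¹) ∈ p.2.support.image fun s => S.ψ a (q.2 * s * g⁻¹) :=
      fun s hs => Finset.mem_image_of_mem _ hs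
    rw [← Finset.sum_fiberwise_of_maps_to h1]
    refine Finset.sum_congr rfl fun σ _ => ?_
    rw [rc, Finsupp.sum, Finsupp.support_filter]
    refine Finset.sum_congr rfl fun s hs => ?_
    have h2 := (Finset.mem_filter.1 hs).2
    rw [Finsupp.filter_apply, if_pos h2, h2]
  rw [hsub, Finset.sum_congr rfl key]
  split_ifs with hc
  · rfl
  · exact Finset.sum_const_zero

end Pool.Agent.COST

end
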