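import Pool.Agent.COST.J7

section

open Set MeasureTheory
open scoped ENNReal

namespace Pool.Agent.COST

variable {H : Type} [Group H] {S : JS H}

/-- value of the truncated relation -/
noncomputable def Rel.total (ρ : Rel S) {N : S.Λ → ℕ} (A : Sys S N) (z : A.X.X) (y : H) : ℂ :=
  ρ.c0 y + (ρ.tm.map fun p => rc (trunc A z p.1) p.2 y).sum

/-- PROOF: `trunc A z x h ≠ 0 → x h ≠ 0`. If the total at `y` is nonzero then `ρ.c0 y ≠ 0` or
some `rc (trunc A z p.1) p.2 y ≠ 0`, so `y = h * s` with `p.1 h ≠ 0`, `p.2 s ≠ 0`. -/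
theorem total_within {ρ : Rel S} {a : S.Λ} {g : H} (hw : ρ.Within a g) {N : S.Λ → ℕ}
    (A : Sys S N) (z : A.X.X) (y : H) (hy : ρ.total A z y ≠ 0) : S.v (y * g⁻¹) ≤ a := by
  by_contra hcon
  apply hy
  have h1 : ρ.c0 y = 0 := by
    by_contra h
    exact hcon (hw.1 y h)
  have h2 : (ρ.tm.map fun p => rc (trunc A z p.1) p.2 y).sum = 0 := by
    apply List.sum_eq_zero
    intro x hx
    rw [List.mem_map] at hx
    obtain ⟨p, hp, rfl⟩ := hx
    unfold rc Finsupp.sum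
    apply Finset.sum_eq_zero
    intro s hs
    by_contra hne
    have h3 : trunc A z p.1 (y * s⁻¹) ≠ 0 := left_ne_zero_of_mul hne
    have h4 := (trunc_ne A z h3).2
    have h5 := hw.2 p hp (y * s⁻¹) s h4 (Finsupp.mem_support_iff.1 hs)
    rw [inv_mul_cancel_right] at h5
    exact hcon h5
  unfold Rel.total
  rw [h1, h2, add_zero]

end Pool.Agent.COST

end

section

open Set MeasureTheory
open scoped ENNReal

namespace Pool.Agent.COST

variable {H : Type} [Group H] {S : JS H}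

theorem j8_2_flat {α β : Type} (l : List α) (F : α → List β) (f : β → ℂ) :
    ((l.flatMap F).map f).sum = (l.map fun p => ((F p).map f).sum).sum := by
  induction l with
  | nil => simp
  | cons p l ih => rw [List.flatMap_cons, List.map_append, List.sum_append, ih, List.map_cons,
      List.sum_cons]

open Classical in
theorem j8_2_filter {β : Type} (l : List β) (P : β → Prop) (f : β → ℂ) :
    ((l.filter fun u => P u).map f).sum + ((l.filter fun u => ¬ P u).map f).sum =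
      (l.map f).sum := by
  induction l with
  | nil => simp
  | cons p l ih =>
    by_cases hp : P p
    · rw [List.filter_cons_of_pos (by simpa using hp), List.filter_cons_of_neg (by simpa using hp),
        List.map_cons, List.map_cons, List.sum_cons, List.sum_cons, ← ih, add_assoc]
    · rw [List.filter_cons_of_neg (by simpa using hp), List.filter_cons_of_pos (by simpa using hp),
        List.map_cons, List.map_cons, List.sum_cons, List.sum_cons, ← ih]
      ring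

/-- PROOF: `r = ψ a (y * g⁻¹)`. By `subt_trunc_sum` (summed over `ρ.tm`) the total of `ρ` at `y`
is the level part of `c0` plus the sum over all members `u` of `ρ.tm.flatMap (subt S a g r)` of
`rc (trunc A z u.1) u.2 y`; for the `u` with finite support `trunc A z u.1 = u.1` (`trunc_fin`). -/
theorem total_child {ρ ρ' : Rel S} {a : S.Λ} {g : H} (hw : ρ.Within a g) {N : S.Λ → ℕ}
    (A : Sys S N) (z : A.X.X) (y : H) (hy : S.v (y * g⁻¹) ≤ a)
    (hc : IsChild a g (S.ψ a (y * g⁻¹)) ρ ρ')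
    (hl : ∀ p ∈ ρ.tm, ∀ q, nd S p.1 = some q → q.1 = a → ∀ s, p.2 s ≠ 0 →
      S.ψ a (y * g⁻¹) - S.ψ a (q.2 * s * g⁻¹) ≤ A.l a z) :
    ρ'.total A z y = ρ.total A z y := by
  classical
  unfold Rel.total
  rw [hc.c0 y, hc.tm, if_pos ⟨hy, rfl⟩, add_assoc]
  congr 1
  have e1 : (((ρ.tm.flatMap (subt S a g (S.ψ a (y * g⁻¹)))).filter
      fun u => (Function.support u.1).Finite).map fun u => rc u.1 u.2 y) =
      (((ρ.tm.flatMap (subt S a g (S.ψ a (y * g⁻¹)))).filter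
        fun u => (Function.support u.1).Finite).map fun u => rc (trunc A z u.1) u.2 y) := by
    refine List.map_congr_left fun u hu => ?_
    have h1 : (Function.support u.1).Finite := by
      simpa using (List.mem_filter.1 hu).2
    rw [trunc_fin A z h1]
  rw [e1, j8_2_filter (ρ.tm.flatMap (subt S a g (S.ψ a (y * g⁻¹))))
    (fun u => (Function.support u.1).Finite) (fun u => rc (trunc A z u.1) u.2 y), j8_2_flat]
  congr 1
  refine List.map_congr_left fun p hp => ?_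
  obtain ⟨q, hq, _⟩ := nd_spec S (ρ.tame p hp) (ρ.inf p hp)
  rw [subt_trunc_sum S A z a g (S.ψ a (y * g⁻¹)) p (ρ.inf p hp) q hq (within_node hw hp hq)
    (hw.2 p hp) (fun hqa s hs => hl p hp q hq hqa s hs) y, if_pos ⟨hy, rfl⟩]

end Pool.Agent.COST

end

section

open Set MeasureTheory
open scoped ENNReal

namespace Pool.Agent.COST

variable {H : Type} [Group H] {S : JS H}

theorem j8_3_bdd (a : S.Λ) (g : H) (L : List ((H → ℂ) × (H →₀ ℂ))) :
    ∃ c1 : ℝ, 0 ≤ c1 ∧ ∀ p ∈ L, ∀ q, nd S p.1 = some q → ∀ s, p.2 s ≠ 0 → |S.ψ a (q.2 * s * g⁻¹)| ≤ c1 := by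
  induction L with
  | nil => exact ⟨0, le_rfl, fun p hp => absurd hp (by simp)⟩
  | cons p L ih =>
    obtain ⟨c1, hc1, h⟩ := ih
    rcases hn : nd S p.1 with _ | q
    · refine ⟨c1, hc1, fun p' hp' q hq s hs => ?_⟩
      rcases List.mem_cons.1 hp' with rfl | hp'
      · rw [hn] at hq
        exact absurd hq (by simp)
      · exact h p' hp' q hq s hs
    · have hs0 : 0 ≤ ∑ s ∈ p.2.support, |S.ψ a (q.2 * s * g⁻¹)| := Finset.sum_nonneg fun _ _ => abs_nonneg _
      refine ⟨c1 + ∑ s ∈ p.2.support, |S.ψ a (q.2 * s * g⁻¹)|, by linarith, fun p' hp' q' hq' s hs => ?_⟩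
      rcases List.mem_cons.1 hp' with rfl | hp'
      · rw [hn, Option.some.injEq] at hq'
        subst hq'
        have h1 := Finset.single_le_sum (f := fun s => |S.ψ a (q.2 * s * g⁻¹)|) (s := p'.2.support)
          (fun _ _ => abs_nonneg _) (Finsupp.mem_support_iff.2 hs)
        linarith
      · have h1 := h p' hp' q' hq' s hs
        linarith

theorem j8_3_dec {ρ : Rel S} {N : S.Λ → ℕ} (A : Sys S N) (z : A.X.X) (y : H) (hy : ρ.total A z y ≠ 0) :
    ρ.c0 y ≠ 0 ∨ ∃ p ∈ ρ.tm, ∃ s, p.2 s ≠ 0 ∧ trunc A z p.1 (y * s⁻¹) ≠ 0 := by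
  by_contra hcon
  push Not at hcon
  obtain ⟨h1, h2⟩ := hcon
  apply hy
  unfold Rel.total
  rw [h1, zero_add]
  refine List.sum_eq_zero fun t ht => ?_
  obtain ⟨p, hp, rfl⟩ := List.mem_map.1 ht
  unfold rc
  refine Finset.sum_eq_zero fun s hs => ?_
  simp only
  rw [h2 p hp s (Finsupp.mem_support_iff.1 hs), zero_mul]

/-- The main estimate of the induction step.
PROOF. Put `σ p s = ψ a (q.2 * s * g⁻¹)` for `p ∈ ρ.tm` with node data `q` and `s ∈ supp p.2`;
let `c1 ≥ 0` be a bound for all `|σ p s|` and all `|ψ a (y * g⁻¹)|`, `y ∈ supp ρ.c0` (finitely many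
numbers). Take `c = 2 * c1 + 1`. Let `z ∉ edge a c` and `total y ≠ 0`, `r = ψ a (y * g⁻¹)`;
`v (y * g⁻¹) ≤ a` by `total_within`.
Case 1: `hl` of `total_child` holds. Then the second alternative holds; for the bound on `r`: if
`ρ.c0 y ≠ 0` then `r ≤ c1`; otherwise `y = h * s`, `trunc A z p.1 h ≠ 0`, `s ∈ supp p.2`,
`r = ψ a (h * q.2⁻¹) + σ p s` where `ψ a (h * q.2⁻¹) = 0` if `q.1 < a` (`ψ_zero`) and
`≤ A.l a z < N a` if `q.1 = a` (`trunc_node`).
Case 2: there are `p0`, `s0` with `q0.1 = a` and `r - σ p0 s0 > A.l a z`. As `z ∉ edge a c`,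
`A.l a z ≥ 2 c1 + 1`, so `r > c1`. As in case 1: `ρ.c0 y ≠ 0` or `y = h * s` with `q.1 < a` would
give `r ≤ c1`. So `y = h * s` with `q.1 = a` and `r ≤ A.l a z + c1`. Put `w = g • y⁻¹ • z`; by
`A.eqv a (g * y⁻¹) z` and `ψ_inv`: `A.l a w = A.l a z - r + m * N a`, where
`-c1 ≤ A.l a z - r < c1`. If `m ≤ 0` then `A.l a w < c1 ≤ c`; if `1 ≤ m` then
`A.l a w ≥ N a - c1`. So `w ∈ edge a c`. -/
theorem step_error {ρ : Rel S} {a : S.Λ} {g : H} (hw : ρ.Within a g) :
    ∃ c : ℝ, 0 ≤ c ∧ ∀ (N : S.Λ → ℕ) (A : Sys S N), 0 < N a → ∀ z, z ∉ A.edge a c → ∀ y,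
      ρ.total A z y ≠ 0 →
      (g • y⁻¹ • z ∈ A.edge a c) ∨
      (S.v (y * g⁻¹) ≤ a ∧ S.ψ a (y * g⁻¹) ≤ N a + c ∧
        ∀ ρ' : Rel S, IsChild a g (S.ψ a (y * g⁻¹)) ρ ρ' → ρ'.total A z y ≠ 0) := by
  obtain ⟨c2, hc2, hb2⟩ := j8_3_bdd a g ρ.tm
  have hs0 : 0 ≤ ∑ y ∈ ρ.c0.support, |S.ψ a (y * g⁻¹)| := Finset.sum_nonneg fun _ _ => abs_nonneg _
  obtain ⟨c1, hc1, hb1, hb0⟩ : ∃ c1 : ℝ, 0 ≤ c1 ∧ (∀ p ∈ ρ.tm, ∀ q, nd S p.1 = some q → ∀ s, p.2 s ≠ 0 →
      |S.ψ a (q.2 * s * g⁻¹)| ≤ c1) ∧ ∀ y, ρ.c0 y ≠ 0 → |S.ψ a (y * g⁻¹)| ≤ c1 := by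
    refine ⟨c2 + ∑ y ∈ ρ.c0.support, |S.ψ a (y * g⁻¹)|, by linarith, fun p hp q hq s hs => ?_, fun y hy => ?_⟩
    · have := hb2 p hp q hq s hs
      linarith
    · have h1 := Finset.single_le_sum (f := fun y => |S.ψ a (y * g⁻¹)|) (s := ρ.c0.support)
        (fun _ _ => abs_nonneg _) (Finsupp.mem_support_iff.2 hy)
      linarith
  refine ⟨2 * c1 + 1, by linarith, fun N A hN z hz y hy => ?_⟩
  have hz1 : 2 * c1 + 1 ≤ A.l a z := by
    by_contra h
    exact hz (Or.inl (not_le.1 h))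
  have hzN : A.l a z < N a := A.lt a z
  have hva := total_within hw A z y hy
  have hr : S.ψ a (y * g⁻¹) ≤ A.l a z + c1 := by
    rcases j8_3_dec A z y hy with h0 | ⟨p, hp, s, hs, ht⟩
    · have h1 := (abs_le.1 (hb0 y h0)).2
      linarith
    · obtain ⟨q, hq, hnode⟩ := nd_spec S (ρ.tame p hp) (ρ.inf p hp)
      have hqa := within_node hw hp hq
      have hk := (trunc_ne A z ht).2
      have hv1 : S.v (y * s⁻¹ * q.2⁻¹) ≤ q.1 := hnode.1 _ hk
      have hv1' : S.v (y * s⁻¹ * q.2⁻¹) ≤ a := hv1.trans (WithBot.coe_le_coe.2 hqa)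
      have hv2 : S.v (q.2 * s * g⁻¹) ≤ a := hw.2 p hp q.2 s hnode.2.2.1 hs
      have h1 := S.ψ_mul a _ _ hv1' hv2
      have h2 : y * s⁻¹ * q.2⁻¹ * (q.2 * s * g⁻¹) = y * g⁻¹ := by group
      rw [h2] at h1
      have h3 := (abs_le.1 (hb1 p hp q hq s hs)).2
      rcases hqa.lt_or_eq with hlt | heq
      · have h4 : S.v (y * s⁻¹ * q.2⁻¹) < a := lt_of_le_of_lt hv1 (WithBot.coe_lt_coe.2 hlt)
        rw [(S.ψ_zero a _ h4.le).2 h4, zero_add] at h1
        linarith
      · have h5 : S.v (y * s⁻¹ * q.2⁻¹) ≤ q.1 ∧ S.ψ q.1 (y * s⁻¹ * q.2⁻¹) ≤ A.l q.1 z := by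
          by_contra h6
          apply ht
          rw [trunc_node A z (ρ.inf p hp) hq, if_neg h6]
        have h7 := h5.2
        rw [heq] at h7
        linarith
  by_cases hl : ∀ p ∈ ρ.tm, ∀ q, nd S p.1 = some q → q.1 = a → ∀ s, p.2 s ≠ 0 →
      S.ψ a (y * g⁻¹) - S.ψ a (q.2 * s * g⁻¹) ≤ A.l a z
  · right
    refine ⟨hva, by linarith, fun ρ' hc => ?_⟩
    rw [total_child hw A z y hva hc hl]
    exact hy
  · left
    push Not at hl
    obtain ⟨p, hp, q, hq, -, s, hs, hlt⟩ := hl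
    have h3 := abs_le.1 (hb1 p hp q hq s hs)
    have hv' : S.v (g * y⁻¹) ≤ a := by rw [S.v_symm]; exact hva
    obtain ⟨m, hm⟩ := A.eqv a (g * y⁻¹) z hv'
    have h4 : S.ψ a (g * y⁻¹) = - S.ψ a (y * g⁻¹) := by
      rw [← S.ψ_inv a _ hva]
      apply congrArg
      group
    rw [h4, mul_smul] at hm
    have hNp : (0 : ℝ) < N a := by exact_mod_cast hN
    rcases le_or_gt m 0 with hm0 | hm0
    · left
      show A.l a (g • y⁻¹ • z) < 2 * c1 + 1
      have h5 : (m : ℝ) ≤ 0 := by exact_mod_cast hm0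
      have h6 : (m : ℝ) * N a ≤ 0 := mul_nonpos_of_nonpos_of_nonneg h5 hNp.le
      rw [hm]
      linarith [h3.1, h3.2]
    · right
      show (N a : ℝ) - (2 * c1 + 1) ≤ A.l a (g • y⁻¹ • z)
      have h5 : (1 : ℝ) ≤ m := by exact_mod_cast hm0
      have h6 : (N a : ℝ) ≤ (m : ℝ) * N a := le_mul_of_one_le_left hNp.le h5
      rw [hm]
      linarith [h3.1, h3.2]

end Pool.Agent.COST

end

section

open Set MeasureTheory
open scoped ENNReal

namespace Pool.Agent.COST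

variable {H : Type} [Group H] {S : JS H}

/-- PROOF: measurable by `A.meas`. If `N a ≤ c` the bound is at least `2` (`N a > 0`) and the
measure is at most `1` (`prob_le_one`). Otherwise the set is the union of `{0 ≤ l < c}` and
`{N a - c ≤ l < N a}`; use `A.unif` twice, `A.nonneg`, `A.lt`, `ENNReal.ofReal_add`. -/
theorem edge_measure {N : S.Λ → ℕ} (A : Sys S N) (a : S.Λ) (hN : 0 < N a) (c : ℝ) (hc : 0 ≤ c) :
    MeasurableSet (A.edge a c) ∧ A.X.μ (A.edge a c) ≤ ENNReal.ofReal (2 * c / N a) := by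
  refine ⟨(measurableSet_lt (A.meas a) measurable_const).union (measurableSet_le measurable_const (A.meas a)), ?_⟩
  have hN' : (0 : ℝ) < N a := by exact_mod_cast hN
  by_cases hcN : (N a : ℝ) ≤ c
  · have h1 : A.X.μ (A.edge a c) ≤ 1 := prob_le_one
    refine h1.trans ?_
    rw [← ENNReal.ofReal_one]
    refine ENNReal.ofReal_le_ofReal ?_
    rw [le_div_iff₀ hN']
    linarith
  · push Not at hcN
    have hsub : A.edge a c ⊆ {z | 0 ≤ A.l a z ∧ A.l a z < c} ∪ {z | (N a : ℝ) - c ≤ A.l a z ∧ A.l a z < N a} := by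
      rintro w (hw | hw)
      · exact Or.inl ⟨A.nonneg a w, hw⟩
      · exact Or.inr ⟨hw, A.lt a w⟩
    refine (measure_mono hsub).trans ((measure_union_le _ _).trans ?_)
    have h1 := A.unif a 0 c le_rfl hc hcN.le
    have h2 := A.unif a (N a - c) (N a) (by linarith) (by linarith) le_rfl
    refine (add_le_add h1 h2).trans ?_
    rw [← ENNReal.ofReal_add (by positivity) (by
      have : (N a : ℝ) - (N a - c) = c := by ring
      rw [this]
      positivity)]
    refine ENNReal.ofReal_le_ofReal (le_of_eq ?_)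
    field_simp
    ring

end Pool.Agent.COST

end
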