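import Pool.Agent.COST.E6

section

open scoped ENNReal InnerProductSpace
open MeasureTheory Filter Topology

namespace Pool.Agent.COST

/-- PROOF: copy of the proof of `op_lower` (E1_4): with `R` the closure of the range of `T`
(equal to the closure of the range of `T T*`) and `y = P_R x` one has
`(⟪x, pk c n (T T*) x⟫).re = ‖y‖ ^ 2 - (⟪x, K ^ n y⟫).re → ‖y‖ ^ 2`. -/
theorem op_tendsto {E F : Type} [NormedAddCommGroup E] [InnerProductSpace ℂ E] [CompleteSpace E]
    [NormedAddCommGroup F] [InnerProductSpace ℂ F] [CompleteSpace F]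
    (T : E →L[ℂ] F) (c : ℝ) (hc : 0 < c) (hT : c * ‖T‖ ^ 2 ≤ 1) (x : F) :
    Tendsto (fun n : ℕ => (⟪x, pk c n (T ∘L T.adjoint) x⟫_ℂ).re) atTop
      (𝓝 (‖(LinearMap.range T.toLinearMap).topologicalClosure.starProjection x‖ ^ 2)) := by
  obtain ⟨hsa, h0, h1⟩ := e1_4_K T c hc hT
  set K : F →L[ℂ] F := 1 - (c : ℂ) • (T ∘L T.adjoint) with hK
  have hc0 : (c : ℂ) ≠ 0 := by
    rw [Ne, Complex.ofReal_eq_zero]
    exact hc.ne'
  set R : Submodule ℂ F := (T ∘L T.adjoint : F →L[ℂ] F).range.topologicalClosure with hR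
  have hRc : IsClosed (R : Set F) := Submodule.isClosed_topologicalClosure _
  have hRcomp : CompleteSpace R := hRc.completeSpace_coe
  -- the complement of `R` is killed by the adjoint
  have hker : ∀ z ∈ Rᗮ, T.adjoint z = 0 := by
    intro z hz
    have h2 : T (T.adjoint z) ∈ R := Submodule.le_topologicalClosure _ ⟨z, rfl⟩
    have h3 : ⟪T (T.adjoint z), z⟫_ℂ = 0 := (Submodule.mem_orthogonal _ _).1 hz _ h2
    rw [← ContinuousLinearMap.adjoint_inner_right] at h3
    exact inner_self_eq_zero.1 h3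
  have hTR : ∀ e, T e ∈ R := by
    intro e
    have h2 : R = Rᗮᗮ := (Submodule.orthogonal_orthogonal R).symm
    rw [h2, Submodule.mem_orthogonal]
    intro z hz
    rw [← ContinuousLinearMap.adjoint_inner_left, hker z hz, inner_zero_left]
  have hRR : (LinearMap.range T.toLinearMap).topologicalClosure = R := by
    apply le_antisymm
    · refine Submodule.topologicalClosure_minimal _ ?_ hRc
      rintro _ ⟨e, rfl⟩
      exact hTR e
    · refine Submodule.topologicalClosure_mono ?_
      rintro _ ⟨e, rfl⟩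
      exact ⟨T.adjoint e, rfl⟩
  set y : F := R.starProjection x with hy
  have hyR : y ∈ R := Submodule.starProjection_apply_mem R x
  have hy' : x - y ∈ Rᗮ := Submodule.sub_starProjection_mem_orthogonal x
  have hyy : (LinearMap.range T.toLinearMap).topologicalClosure.starProjection x = y := by
    apply Submodule.eq_starProjection_of_mem_of_inner_eq_zero
    · rw [hRR]
      exact hyR
    · intro w hw
      rw [hRR] at hw
      rw [← inner_conj_symm, (Submodule.mem_orthogonal _ _).1 hy' w hw, map_zero]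
  rw [hyy]
  have hcl : y ∈ closure (Set.range fun z : F => z - K z) := by
    have h2 : y ∈ closure ((T ∘L T.adjoint : F →L[ℂ] F).range : Set F) := hyR
    refine closure_mono ?_ h2
    rintro _ ⟨z, rfl⟩
    refine ⟨(c : ℂ)⁻¹ • z, ?_⟩
    change (c : ℂ)⁻¹ • z - ((c : ℂ)⁻¹ • z - (c : ℂ) • T (T.adjoint ((c : ℂ)⁻¹ • z))) =
      T (T.adjoint z)
    rw [sub_sub_cancel, map_smul, map_smul, smul_smul, mul_inv_cancel₀ hc0, one_smul]
  have hlim := pow_small_closure K hsa h0 h1 y hcl
  have hfix : ∀ n : ℕ, (K ^ n) (x - y) = x - y := by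
    have h2 : K (x - y) = x - y := by
      change (x - y) - (c : ℂ) • T (T.adjoint (x - y)) = x - y
      rw [hker _ hy', map_zero, smul_zero, sub_zero]
    intro n
    induction n with
    | zero => rfl
    | succ n ih =>
      rw [pow_succ]
      change (K ^ n) (K (x - y)) = x - y
      rw [h2, ih]
  have hinn : (⟪x, y⟫_ℂ).re = ‖y‖ ^ 2 := by
    have h2 : ⟪x - y, y⟫_ℂ = 0 := by
      rw [← inner_conj_symm, (Submodule.mem_orthogonal _ _).1 hy' y hyR, map_zero]
    have h3 : ⟪x, y⟫_ℂ = ⟪y, y⟫_ℂ := by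
      rw [inner_sub_left, sub_eq_zero] at h2
      exact h2
    rw [h3]
    exact inner_self_eq_norm_sq (𝕜 := ℂ) y
  have hval : ∀ n : ℕ, (⟪x, pk c n (T ∘L T.adjoint) x⟫_ℂ).re =
      ‖y‖ ^ 2 - (⟪x, (K ^ n) y⟫_ℂ).re := by
    intro n
    have h2 : pk c n (T ∘L T.adjoint) x = y - (K ^ n) y := by
      change x - (K ^ n) x = y - (K ^ n) y
      have h3 : (K ^ n) x = (K ^ n) y + (K ^ n) (x - y) := by
        rw [← map_add, add_sub_cancel]
      rw [h3, hfix n]
      abel
    rw [h2, inner_sub_right, Complex.sub_re, hinn]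
  have hlim2 : Tendsto (fun n : ℕ => (⟪x, (K ^ n) y⟫_ℂ).re) atTop (𝓝 0) := by
    have h2 : Tendsto (fun n : ℕ => ⟪x, (K ^ n) y⟫_ℂ) atTop (𝓝 ⟪x, 0⟫_ℂ) :=
      Tendsto.inner tendsto_const_nhds hlim
    rw [inner_zero_right] at h2
    have h3 := (Complex.continuous_re.tendsto 0).comp h2
    rw [Complex.zero_re] at h3
    exact h3
  have hfin : Tendsto (fun n : ℕ => ‖y‖ ^ 2 - (⟪x, (K ^ n) y⟫_ℂ).re) atTop (𝓝 (‖y‖ ^ 2 - 0)) :=
    tendsto_const_nhds.sub hlim2
  rw [sub_zero] at hfin
  exact hfin.congr fun n => (hval n).symm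

end Pool.Agent.COST

end

section

open scoped ENNReal InnerProductSpace
open MeasureTheory Filter Topology

namespace Pool.Agent.COST

theorem l0_2_sum {Ω : Type} (f : L2 Ω) (s : Finset Ω) : ∑ ω ∈ s, ‖(f ω : ℂ)‖ ^ 2 ≤ ‖f‖ ^ 2 := by
  have h1 := lp.sum_rpow_le_norm_rpow (p := 2) (by norm_num) f s
  have h2 : (2 : ℝ≥0∞).toReal = ((2 : ℕ) : ℝ) := by norm_num
  rw [h2, Real.rpow_natCast] at h1
  simp only [Real.rpow_natCast] at h1
  exact h1

theorem l0_2_expand {Ω' Ω'' : Type} (A : L2 Ω' →L[ℂ] L2 Ω'') (f : L2 Ω') (x : Ω'') :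
    HasSum (fun ω : Ω' => f ω * (A (dl ω)) x) ((A f) x) := by
  have h1 := ((hasSum_dl f).mapL A).mapL (innerSL ℂ (dl x))
  have h3 : (fun ω : Ω' => f ω * (A (dl ω)) x) =
      fun ω : Ω' => (innerSL ℂ (dl x)) (A (f ω • dl ω)) := by
    funext ω
    rw [map_smul, map_smul, innerSL_apply_apply, inner_dl]
    rfl
  have h4 : (A f) x = (innerSL ℂ (dl x)) (A f) := by
    rw [innerSL_apply_apply, inner_dl]
  rw [h3, h4]
  exact h1

theorem l0_2_bound {Ω Ω' Ω'' : Type} (A : L2 Ω' →L[ℂ] L2 Ω'') (B : L2 Ω →L[ℂ] L2 Ω') (CA CB : ℝ)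
    (bA : ‖A‖ ≤ CA) (bB : ‖B‖ ≤ CB) (ω : Ω) (ω'' : Ω'') (s : Finset Ω') :
    ∑ ω' ∈ s, ‖(B (dl ω)) ω' * (A (dl ω')) ω''‖ ≤ CB ^ 2 + CA ^ 2 := by
  have h1 : ∀ ω', (A (dl ω')) ω'' = (starRingEnd ℂ) ((A.adjoint (dl ω'')) ω') := by
    intro ω'
    rw [← inner_dl ω' (A.adjoint (dl ω'')), ContinuousLinearMap.adjoint_inner_right,
      inner_conj_symm, inner_dl]
  have h2 : ‖B (dl ω)‖ ≤ CB := by
    refine (B.le_opNorm _).trans ?_
    rw [norm_dl, mul_one]
    exact bB
  have h3 : ‖A.adjoint (dl ω'')‖ ≤ CA := by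
    refine (A.adjoint.le_opNorm _).trans ?_
    rw [norm_dl, mul_one, LinearIsometryEquiv.norm_map]
    exact bA
  have h4 : ∀ ω' ∈ s, ‖(B (dl ω)) ω' * (A (dl ω')) ω''‖ ≤
      ‖((B (dl ω)) ω' : ℂ)‖ ^ 2 + ‖((A.adjoint (dl ω'')) ω' : ℂ)‖ ^ 2 := by
    intro ω' _
    rw [h1, norm_mul, RCLike.norm_conj]
    nlinarith [sq_nonneg (‖((B (dl ω)) ω' : ℂ)‖ - ‖((A.adjoint (dl ω'')) ω' : ℂ)‖),
      sq_nonneg ‖((B (dl ω)) ω' : ℂ)‖, sq_nonneg ‖((A.adjoint (dl ω'')) ω' : ℂ)‖]
  refine (Finset.sum_le_sum h4).trans ?_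
  rw [Finset.sum_add_distrib]
  refine add_le_add ((l0_2_sum _ s).trans ?_) ((l0_2_sum _ s).trans ?_)
  · exact pow_le_pow_left₀ (norm_nonneg _) h2 2
  · exact pow_le_pow_left₀ (norm_nonneg _) h3 2

theorem l0_2_one {X Ω Ω' Ω'' : Type} [MeasurableSpace X] [Countable Ω'] (μ : Measure X)
    [IsProbabilityMeasure μ] (A : X → (L2 Ω' →L[ℂ] L2 Ω'')) (B : X → (L2 Ω →L[ℂ] L2 Ω'))
    (hA : EM A) (hB : EM B) (CA CB : ℝ) (bA : ∀ z, ‖A z‖ ≤ CA) (bB : ∀ z, ‖B z‖ ≤ CB)
    (ω : Ω) (ω'' : Ω'') :
    HasSum (fun ω' : Ω' => ∫ z, (B z (dl ω)) ω' * (A z (dl ω')) ω'' ∂μ)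
      (∫ z, (A z (B z (dl ω))) ω'' ∂μ) := by
  have hm : ∀ ω' : Ω', Measurable fun z => (B z (dl ω)) ω' * (A z (dl ω')) ω'' := fun ω' =>
    (hB _ _).mul (hA _ _)
  have hi : ∀ ω' : Ω', Integrable (fun z => (B z (dl ω)) ω' * (A z (dl ω')) ω'') μ := by
    intro ω'
    refine Integrable.of_bound (hm ω').aestronglyMeasurable (CB * CA)
      (Filter.Eventually.of_forall fun z => ?_)
    rw [norm_mul]
    have h3 := e3_4_entry (B z) CB (bB z) ω ω'
    have h4 := e3_4_entry (A z) CA (bA z) ω' ω''
    exact mul_le_mul h3 h4 (norm_nonneg _) ((norm_nonneg _).trans h3)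
  have hs : Summable fun ω' : Ω' => ∫ z, ‖(B z (dl ω)) ω' * (A z (dl ω')) ω''‖ ∂μ := by
    refine summable_of_sum_le (c := CB ^ 2 + CA ^ 2)
      (fun ω' => integral_nonneg fun z => norm_nonneg _) fun s => ?_
    rw [← integral_finsetSum s fun ω' _ => (hi ω').norm]
    have h5 : ∫ z, ∑ ω' ∈ s, ‖(B z (dl ω)) ω' * (A z (dl ω')) ω''‖ ∂μ ≤
        ∫ _, (CB ^ 2 + CA ^ 2) ∂μ := by
      refine integral_mono (integrable_finsetSum s fun ω' _ => (hi ω').norm)
        (integrable_const _) fun z => ?_
      exact l0_2_bound (A z) (B z) CA CB (bA z) (bB z) ω ω'' s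
    rw [integral_const] at h5
    simpa using h5
  have h6 := hasSum_integral_of_summable_integral_norm hi hs
  have h7 : ∫ z, ∑' ω' : Ω', (B z (dl ω)) ω' * (A z (dl ω')) ω'' ∂μ =
      ∫ z, (A z (B z (dl ω))) ω'' ∂μ := by
    refine integral_congr_ae (Filter.Eventually.of_forall fun z => ?_)
    exact (l0_2_expand (A z) (B z (dl ω)) ω'').tsum_eq
  rw [h7] at h6
  exact h6

/-- Trace property without the finite range condition. PROOF. As `trace_swap` (E3_4), with
infinite sums. Put `a z x y = (A z (dl y)) x`, `b z x y = (B z (dl y)) x`,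
`ψ g s i z = b z (1, s) (g⁻¹, i) * a z (g⁻¹, i) (1, s)`. For every `z`, `i` the family
`p = (g, s) ↦ b z p (1, i) * a z (1, i) p` has sum `(A z (B z (dl (1, i)))) (1, i)`
(proof of `e3_4_expand`) and the sum of the absolute values is at most `CA * CB`:
`∑ |b z p (1, i)| ^ 2 = ‖B z (dl (1, i))‖ ^ 2 ≤ CB ^ 2`,
`∑ |a z (1, i) p| ^ 2 = ‖(A z).adjoint (dl (1, i))‖ ^ 2 ≤ CA ^ 2` and `2 |u v| ≤ |u| ^ 2 + |v| ^ 2`
(or Cauchy-Schwarz). So integral and sum may be exchanged
(`hasSum_integral_of_summable_integral_norm`, the integrals of the absolute values are summable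
because their finite subsums are bounded), and by equivariance and invariance of the measure
the integral of the term `(g, s)` is `∫ ψ g s i`. In the same way for `s`: the family
`(h, i) ↦ a z (h, i) (1, s) * b z (1, s) (h, i)`, reindexed by `h = g⁻¹`. Both sides are then the
sum over `g : H` of `∑ i, ∑ s, ∫ ψ g s i` (`HasSum.prod_fiberwise`, `hasSum_sum`,
`Finset.sum_comm`, uniqueness). -/
theorem trace_swap2 {H I S : Type} [Group H] [Countable H] [Fintype I] [Fintype S] (X : PMP H)
    (A : X.X → (L2 (H × S) →L[ℂ] L2 (H × I))) (B : X.X → (L2 (H × I) →L[ℂ] L2 (H × S)))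
    (hA : EM A) (hB : EM B) (eA : Eqv X A) (eB : Eqv X B) (CA CB : ℝ) (bA : ∀ z, ‖A z‖ ≤ CA)
    (bB : ∀ z, ‖B z‖ ≤ CB) :
    ∑ i, ∫ z, (A z (B z (dl ((1 : H), i)))) (1, i) ∂X.μ =
      ∑ s, ∫ z, (B z (A z (dl ((1 : H), s)))) (1, s) ∂X.μ := by
  classical
  let a : X.X → H × I → H × S → ℂ := fun z x y => (A z (dl y)) x
  let b : X.X → H × S → H × I → ℂ := fun z x y => (B z (dl y)) x
  let ψ : H → S → I → X.X → ℂ := fun g s i z => b z (1, s) (g⁻¹, i) * a z (g⁻¹, i) (1, s)
  have hψm : ∀ g s i, Measurable (ψ g s i) := fun g s i => (hB _ _).mul (hA _ _)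
  have heq : ∀ g s i z, b z (g, s) (1, i) * a z (1, i) (g, s) = ψ g s i (g⁻¹ • z) := by
    intro g s i z
    change _ = b (g⁻¹ • z) (1, s) (g⁻¹, i) * a (g⁻¹ • z) (g⁻¹, i) (1, s)
    have h3 : b (g⁻¹ • z) (1, s) (g⁻¹, i) = b z (g, s) (1, i) := by
      have h4 := eB g⁻¹ z (dl ((1 : H), i))
      rw [tr_dl, mul_one] at h4
      change (B (g⁻¹ • z) (dl (g⁻¹, i))) (1, s) = _
      rw [h4, tr_apply, inv_inv, mul_one]
    have h5 : a (g⁻¹ • z) (g⁻¹, i) (1, s) = a z (1, i) (g, s) := by
      have h4 := eA g⁻¹ z (dl (g, s))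
      rw [tr_dl, inv_mul_cancel] at h4
      change (A (g⁻¹ • z) (dl ((1 : H), s))) (g⁻¹, i) = _
      rw [h4, tr_apply, inv_inv, mul_inv_cancel]
    rw [h3, h5]
  have hinv : ∀ g s i, ∫ z, ψ g s i (g⁻¹ • z) ∂X.μ = ∫ z, ψ g s i z ∂X.μ := by
    intro g s i
    have h3 := (X.mp g⁻¹).map_eq
    have h4 : ∫ z, ψ g s i z ∂(Measure.map (fun x : X.X => g⁻¹ • x) X.μ) =
        ∫ z, ψ g s i (g⁻¹ • z) ∂X.μ :=
      integral_map (X.mp g⁻¹).measurable.aemeasurable (hψm g s i).aestronglyMeasurable
    rw [h3] at h4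
    exact h4.symm
  have hL : ∀ i, HasSum (fun p : H × S => ∫ z, ψ p.1 p.2 i z ∂X.μ)
      (∫ z, (A z (B z (dl ((1 : H), i)))) (1, i) ∂X.μ) := by
    intro i
    have h1 := l0_2_one X.μ A B hA hB CA CB bA bB ((1 : H), i) ((1 : H), i)
    have h2 : (fun p : H × S => ∫ z, ψ p.1 p.2 i z ∂X.μ) =
        fun p : H × S => ∫ z, (B z (dl ((1 : H), i))) p * (A z (dl p)) ((1 : H), i) ∂X.μ := by
      funext p
      obtain ⟨g, s⟩ := p
      rw [← hinv]
      exact integral_congr_ae (Filter.Eventually.of_forall fun z => (heq g s i z).symm)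
    rw [h2]
    exact h1
  have hR : ∀ s, HasSum (fun q : H × I => ∫ z, ψ q.1 s q.2 z ∂X.μ)
      (∫ z, (B z (A z (dl ((1 : H), s)))) (1, s) ∂X.μ) := by
    intro s
    have h1 := l0_2_one X.μ B A hB hA CB CA bB bA ((1 : H), s) ((1 : H), s)
    rw [← (Equiv.prodCongr (Equiv.inv H) (Equiv.refl I)).hasSum_iff] at h1
    have h2 : (fun q : H × I => ∫ z, ψ q.1 s q.2 z ∂X.μ) =
        (fun p : H × I => ∫ z, (A z (dl ((1 : H), s))) p * (B z (dl p)) ((1 : H), s) ∂X.μ) ∘
          (Equiv.prodCongr (Equiv.inv H) (Equiv.refl I)) := by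
      funext q
      obtain ⟨g, i⟩ := q
      refine integral_congr_ae (Filter.Eventually.of_forall fun z => ?_)
      exact mul_comm _ _
    rw [h2]
    exact h1
  have hL2 : HasSum (fun g : H => ∑ s, ∑ i, ∫ z, ψ g s i z ∂X.μ)
      (∑ i, ∫ z, (A z (B z (dl ((1 : H), i)))) (1, i) ∂X.μ) := by
    have h1 := hasSum_sum fun (i : I) (_ : i ∈ Finset.univ) => hL i
    exact h1.prod_fiberwise fun g => hasSum_fintype _
  have hR2 : HasSum (fun g : H => ∑ i, ∑ s, ∫ z, ψ g s i z ∂X.μ)
      (∑ s, ∫ z, (B z (A z (dl ((1 : H), s)))) (1, s) ∂X.μ) := by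
    have h1 := hasSum_sum fun (s : S) (_ : s ∈ Finset.univ) => hR s
    exact h1.prod_fiberwise fun g => hasSum_fintype _
  have h8 : (fun g : H => ∑ s, ∑ i, ∫ z, ψ g s i z ∂X.μ) =
      fun g : H => ∑ i, ∑ s, ∫ z, ψ g s i z ∂X.μ := by
    funext g
    exact Finset.sum_comm
  rw [h8] at hL2
  exact hL2.unique hR2

end Pool.Agent.COST

end

section

open scoped ENNReal InnerProductSpace
open MeasureTheory Filter Topology

namespace Pool.Agent.COST

/-- squared norms of the projections of the basis vectors at the identity onto the closure of the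
range -/
noncomputable def rd {H I S : Type} [Group H] [Fintype I] (T : L2 (H × S) →L[ℂ] L2 (H × I)) : ℝ :=
  ∑ i, ‖(LinearMap.range T.toLinearMap).topologicalClosure.starProjection (dl ((1 : H), i))‖ ^ 2

/-- PROOF: `0 ≤ rd ≤ card I` (`norm_dl`, projections are contractions). -/
theorem rd_bound {H I S : Type} [Group H] [Fintype I] (T : L2 (H × S) →L[ℂ] L2 (H × I)) :
    0 ≤ rd T ∧ rd T ≤ Fintype.card I := by
  constructor
  · exact Finset.sum_nonneg fun i _ => sq_nonneg _
  · have h1 : ∀ i ∈ (Finset.univ : Finset I),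
        ‖(LinearMap.range T.toLinearMap).topologicalClosure.starProjection
          (dl ((1 : H), i))‖ ^ 2 ≤ 1 := by
      intro i _
      have h2 := Submodule.norm_starProjection_apply_le
        (LinearMap.range T.toLinearMap).topologicalClosure (dl ((1 : H), i) : L2 (H × I))
      rw [norm_dl] at h2
      exact pow_le_one₀ (norm_nonneg _) h2
    refine (Finset.sum_le_sum h1).trans ?_
    rw [Finset.sum_const, Finset.card_univ, nsmul_eq_mul, mul_one]

/-- Rank of an equivariant family and of its adjoint. PROOF. `c = 1 / (C ^ 2 + 1)`. The function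
`z ↦ rd (T z)` is the pointwise limit (`op_tendsto`) of the measurable functions
`f n z = ∑ i, re ⟪dl (1, i), pk c n (T T*) (dl (1, i))⟫` (see the proof of `gen`, E3_5), similarly
`rd (T z).adjoint` is the limit of `g n z` with `T* T` (`op_tendsto` for the adjoint,
`ContinuousLinearMap.adjoint_adjoint`). All functions are between `0` and `card I`
(`op_bounds`, `op_bounds'`). `∫ f n = ∫ g n` by `trace_swap2` with `B z = bk c n (T z)`
(`comp_bk`, `bk_comp`, as in E3_5). Dominated convergence for both. -/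
theorem rd_adj {H I S : Type} [Group H] [Countable H] [Fintype I] [Fintype S] (X : PMP H)
    (T : X.X → (L2 (H × S) →L[ℂ] L2 (H × I))) (hT : EM T) (eT : Eqv X T) (C : ℝ)
    (bT : ∀ z, ‖T z‖ ≤ C) :
    Measurable (fun z => rd (T z)) ∧ Measurable (fun z => rd (T z).adjoint) ∧
      ∫ z, rd (T z) ∂X.μ = ∫ z, rd (T z).adjoint ∂X.μ := by
  classical
  let D : ℝ := |C|
  have hTC : ∀ z, ‖T z‖ ≤ D := fun z => (bT z).trans (le_abs_self C)
  have hD : 0 ≤ D := abs_nonneg C
  let c : ℝ := 1 / (D ^ 2 + 1)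
  have hc : 0 < c := by positivity
  have hcT : ∀ z, c * ‖T z‖ ^ 2 ≤ 1 := by
    intro z
    have h1 : ‖T z‖ ^ 2 ≤ D ^ 2 := by
      have := hTC z
      gcongr
    calc c * ‖T z‖ ^ 2 ≤ c * (D ^ 2 + 1) := by
          apply mul_le_mul_of_nonneg_left _ hc.le
          linarith
      _ = 1 := by
          change 1 / (D ^ 2 + 1) * (D ^ 2 + 1) = 1
          field_simp
  have hcT' : ∀ z, c * ‖(T z).adjoint‖ ^ 2 ≤ 1 := by
    intro z
    rw [LinearIsometryEquiv.norm_map]
    exact hcT z
  let f : ℕ → X.X → ℝ := fun n z =>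
    ∑ i, (⟪dl ((1 : H), i), pk c n (T z ∘L (T z).adjoint) (dl ((1 : H), i))⟫_ℂ).re
  let g : ℕ → X.X → ℝ := fun n z =>
    ∑ s, (⟪dl ((1 : H), s), pk c n ((T z).adjoint ∘L T z) (dl ((1 : H), s))⟫_ℂ).re
  -- measurability
  have hEMB : ∀ n, EM fun z => bk c n (T z) := fun n => hT.bk c n
  have m1 : ∀ n i, Measurable fun z =>
      ⟪dl ((1 : H), i), pk c n (T z ∘L (T z).adjoint) (dl ((1 : H), i))⟫_ℂ := by
    intro n i
    have h1 := (hT.comp (hEMB n)) ((1 : H), i) ((1 : H), i)
    have h2 : (fun z => ⟪dl ((1 : H), i), pk c n (T z ∘L (T z).adjoint) (dl ((1 : H), i))⟫_ℂ) =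
        fun z => ((T z ∘L bk c n (T z)) (dl ((1 : H), i))) ((1 : H), i) := by
      funext z
      rw [inner_dl, comp_bk]
    rw [h2]
    exact h1
  have m2 : ∀ n s, Measurable fun z =>
      ⟪dl ((1 : H), s), pk c n ((T z).adjoint ∘L T z) (dl ((1 : H), s))⟫_ℂ := by
    intro n s
    have h1 := ((hEMB n).comp hT) ((1 : H), s) ((1 : H), s)
    have h2 : (fun z => ⟪dl ((1 : H), s), pk c n ((T z).adjoint ∘L T z) (dl ((1 : H), s))⟫_ℂ) =
        fun z => ((bk c n (T z) ∘L T z) (dl ((1 : H), s))) ((1 : H), s) := by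
      funext z
      rw [inner_dl, bk_comp]
    rw [h2]
    exact h1
  obtain ⟨M, hM⟩ : ∃ M : ℕ → ℝ, ∀ n z, ‖bk c n (T z)‖ ≤ M n := by
    have h1 : ∀ n, ∃ M : ℝ, ∀ T' : L2 (H × S) →L[ℂ] L2 (H × I), ‖T'‖ ≤ D → ‖bk c n T'‖ ≤ M :=
      fun n => bk_norm c D hc.le hD n
    choose M hM using h1
    exact ⟨M, fun n z => hM n (T z) (hTC z)⟩
  -- integrals
  have hbd1 : ∀ n i, Integrable (fun z =>
      ⟪dl ((1 : H), i), pk c n (T z ∘L (T z).adjoint) (dl ((1 : H), i))⟫_ℂ) X.μ := by
    intro n i
    refine Integrable.of_bound (m1 n i).aestronglyMeasurable (D * M n) ?_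
    refine Filter.Eventually.of_forall fun z => ?_
    rw [← comp_bk]
    refine (norm_inner_le_norm _ _).trans ?_
    rw [norm_dl, one_mul]
    calc ‖(T z ∘L bk c n (T z)) (dl ((1 : H), i))‖ ≤ ‖T z ∘L bk c n (T z)‖ * ‖dl ((1 : H), i)‖ :=
          ContinuousLinearMap.le_opNorm _ _
      _ ≤ (‖T z‖ * ‖bk c n (T z)‖) * 1 := by
          rw [norm_dl]
          gcongr
          exact ContinuousLinearMap.opNorm_comp_le _ _
      _ ≤ (D * M n) := by
          rw [mul_one]
          exact mul_le_mul (hTC z) (hM n z) (norm_nonneg _) hD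
  have hbd2 : ∀ n s, Integrable (fun z =>
      ⟪dl ((1 : H), s), pk c n ((T z).adjoint ∘L T z) (dl ((1 : H), s))⟫_ℂ) X.μ := by
    intro n s
    refine Integrable.of_bound (m2 n s).aestronglyMeasurable (M n * D) ?_
    refine Filter.Eventually.of_forall fun z => ?_
    rw [← bk_comp]
    refine (norm_inner_le_norm _ _).trans ?_
    rw [norm_dl, one_mul]
    have hM0 : 0 ≤ M n := (norm_nonneg _).trans (hM n z)
    calc ‖(bk c n (T z) ∘L T z) (dl ((1 : H), s))‖ ≤ ‖bk c n (T z) ∘L T z‖ * ‖dl ((1 : H), s)‖ :=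
          ContinuousLinearMap.le_opNorm _ _
      _ ≤ (‖bk c n (T z)‖ * ‖T z‖) * 1 := by
          rw [norm_dl]
          gcongr
          exact ContinuousLinearMap.opNorm_comp_le _ _
      _ ≤ (M n * D) := by
          rw [mul_one]
          exact mul_le_mul (hM n z) (hTC z) (norm_nonneg _) hM0
  have hre1 : ∀ n i, Integrable (fun z =>
      (⟪dl ((1 : H), i), pk c n (T z ∘L (T z).adjoint) (dl ((1 : H), i))⟫_ℂ).re) X.μ :=
    fun n i => (hbd1 n i).re
  have hre2 : ∀ n s, Integrable (fun z =>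
      (⟪dl ((1 : H), s), pk c n ((T z).adjoint ∘L T z) (dl ((1 : H), s))⟫_ℂ).re) X.μ :=
    fun n s => (hbd2 n s).re
  have hsw : ∀ n, ∫ z, f n z ∂X.μ = ∫ z, g n z ∂X.μ := by
    intro n
    have h1 := trace_swap2 X T (fun z => bk c n (T z)) hT (hEMB n) eT (eT.bk c n) D (M n)
      hTC (hM n)
    have h2 : ∀ i, ∫ z, (T z (bk c n (T z) (dl ((1 : H), i)))) (1, i) ∂X.μ =
        ∫ z, ⟪dl ((1 : H), i), pk c n (T z ∘L (T z).adjoint) (dl ((1 : H), i))⟫_ℂ ∂X.μ := by
      intro i
      apply integral_congr_ae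
      refine Filter.Eventually.of_forall fun z => ?_
      change _ = ⟪dl ((1 : H), i), pk c n (T z ∘L (T z).adjoint) (dl ((1 : H), i))⟫_ℂ
      rw [← comp_bk, inner_dl]
      rfl
    have h3 : ∀ s, ∫ z, (bk c n (T z) (T z (dl ((1 : H), s)))) (1, s) ∂X.μ =
        ∫ z, ⟪dl ((1 : H), s), pk c n ((T z).adjoint ∘L T z) (dl ((1 : H), s))⟫_ℂ ∂X.μ := by
      intro s
      apply integral_congr_ae
      refine Filter.Eventually.of_forall fun z => ?_
      change _ = ⟪dl ((1 : H), s), pk c n ((T z).adjoint ∘L T z) (dl ((1 : H), s))⟫_ℂ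
      rw [← bk_comp, inner_dl]
      rfl
    simp only [h2, h3] at h1
    have h4 := congrArg Complex.re h1
    rw [Complex.re_sum, Complex.re_sum] at h4
    have h5 : ∀ (u : X.X → ℂ), Integrable u X.μ → (∫ z, u z ∂X.μ).re = ∫ z, (u z).re ∂X.μ := by
      intro u hu
      exact (integral_re hu).symm
    rw [Finset.sum_congr rfl fun i _ => h5 _ (hbd1 n i),
      Finset.sum_congr rfl fun s _ => h5 _ (hbd2 n s)] at h4
    change ∫ z, ∑ i, (⟪dl ((1 : H), i), pk c n (T z ∘L (T z).adjoint) (dl ((1 : H), i))⟫_ℂ).re ∂X.μ =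
      ∫ z, ∑ s, (⟪dl ((1 : H), s), pk c n ((T z).adjoint ∘L T z) (dl ((1 : H), s))⟫_ℂ).re ∂X.μ
    rw [integral_finsetSum _ fun i _ => hre1 n i, integral_finsetSum _ fun s _ => hre2 n s]
    exact h4
  have hf_meas : ∀ n, Measurable (f n) := fun n =>
    Finset.measurable_sum _ fun i _ => Complex.measurable_re.comp (m1 n i)
  have hg_meas : ∀ n, Measurable (g n) := fun n =>
    Finset.measurable_sum _ fun i _ => Complex.measurable_re.comp (m2 n i)
  have hflim : ∀ z, Tendsto (fun n => f n z) atTop (𝓝 (rd (T z))) := fun z =>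
    tendsto_finsetSum _ fun i _ => op_tendsto (T z) c hc (hcT z) (dl ((1 : H), i))
  have hglim : ∀ z, Tendsto (fun n => g n z) atTop (𝓝 (rd (T z).adjoint)) := by
    intro z
    refine tendsto_finsetSum _ fun s _ => ?_
    have h1 := op_tendsto (T z).adjoint c hc (hcT' z) (dl ((1 : H), s))
    rw [ContinuousLinearMap.adjoint_adjoint] at h1
    exact h1
  have hf_lim : Tendsto f atTop (𝓝 fun z => rd (T z)) := tendsto_pi_nhds.mpr hflim
  have hg_lim : Tendsto g atTop (𝓝 fun z => rd (T z).adjoint) := tendsto_pi_nhds.mpr hglim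
  have hf0 : ∀ n z, 0 ≤ f n z := fun n z =>
    Finset.sum_nonneg fun i _ => (op_bounds (T z) c hc (hcT z) n _).1
  have hg0 : ∀ n z, 0 ≤ g n z := fun n z =>
    Finset.sum_nonneg fun s _ => (op_bounds' (T z) c hc (hcT z) n _).1
  have hf1 : ∀ n z, f n z ≤ Fintype.card I := by
    intro n z
    have h1 : ∀ i ∈ (Finset.univ : Finset I),
        (⟪dl ((1 : H), i), pk c n (T z ∘L (T z).adjoint) (dl ((1 : H), i))⟫_ℂ).re ≤ 1 := by
      intro i _
      have h2 := (op_bounds (T z) c hc (hcT z) n (dl ((1 : H), i))).2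
      rw [norm_dl, one_pow] at h2
      exact h2
    refine (Finset.sum_le_sum h1).trans ?_
    rw [Finset.sum_const, Finset.card_univ, nsmul_eq_mul, mul_one]
  have hg1 : ∀ n z, g n z ≤ Fintype.card S := by
    intro n z
    have h1 : ∀ s ∈ (Finset.univ : Finset S),
        (⟪dl ((1 : H), s), pk c n ((T z).adjoint ∘L T z) (dl ((1 : H), s))⟫_ℂ).re ≤ 1 := by
      intro s _
      have h2 := (op_bounds' (T z) c hc (hcT z) n (dl ((1 : H), s))).2
      rw [norm_dl, one_pow] at h2
      exact h2
    refine (Finset.sum_le_sum h1).trans ?_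
    rw [Finset.sum_const, Finset.card_univ, nsmul_eq_mul, mul_one]
  have d1 : Tendsto (fun n => ∫ z, f n z ∂X.μ) atTop (𝓝 (∫ z, rd (T z) ∂X.μ)) := by
    refine tendsto_integral_of_dominated_convergence (fun _ => (Fintype.card I : ℝ)) ?_
      (integrable_const _) ?_ ?_
    · exact fun n => (hf_meas n).aestronglyMeasurable
    · intro n
      refine Filter.Eventually.of_forall fun z => ?_
      rw [Real.norm_eq_abs, abs_of_nonneg (hf0 n z)]
      exact hf1 n z
    · exact Filter.Eventually.of_forall hflim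
  have d2 : Tendsto (fun n => ∫ z, g n z ∂X.μ) atTop (𝓝 (∫ z, rd (T z).adjoint ∂X.μ)) := by
    refine tendsto_integral_of_dominated_convergence (fun _ => (Fintype.card S : ℝ)) ?_
      (integrable_const _) ?_ ?_
    · exact fun n => (hg_meas n).aestronglyMeasurable
    · intro n
      refine Filter.Eventually.of_forall fun z => ?_
      rw [Real.norm_eq_abs, abs_of_nonneg (hg0 n z)]
      exact hg1 n z
    · exact Filter.Eventually.of_forall hglim
  refine ⟨measurable_of_tendsto_metrizable hf_meas hf_lim,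
    measurable_of_tendsto_metrizable hg_meas hg_lim, ?_⟩
  have d3 : Tendsto (fun n => ∫ z, f n z ∂X.μ) atTop (𝓝 (∫ z, rd (T z).adjoint ∂X.μ)) :=
    d2.congr fun n => (hsw n).symm
  exact tendsto_nhds_unique d1 d3

end Pool.Agent.COST

end

section

open scoped ENNReal InnerProductSpace
open MeasureTheory Filter Topology

namespace Pool.Agent.COST

theorem l0_4_congr {E : Type} [NormedAddCommGroup E] [InnerProductSpace ℂ E] [CompleteSpace E]
    (U W : Submodule ℂ E) (h : U.topologicalClosure = W.topologicalClosure) (x : E) :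
    U.topologicalClosure.starProjection x = W.topologicalClosure.starProjection x := by
  apply Submodule.eq_starProjection_of_mem_of_inner_eq_zero
  · rw [h]
    exact Submodule.starProjection_apply_mem _ _
  · intro w hw
    rw [h] at hw
    exact Submodule.starProjection_inner_eq_zero _ _ hw

theorem l0_4_comm {H I : Type} [Group H] (V : Submodule ℂ (L2 (H × I)))
    (hV : ∀ (g : H) (f : L2 (H × I)), f ∈ V → tr g f ∈ V) (g : H) (f : L2 (H × I)) :
    V.topologicalClosure.starProjection (tr g f) =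
      tr g (V.topologicalClosure.starProjection f) := by
  apply Submodule.eq_starProjection_of_mem_of_inner_eq_zero
  · exact e5_2_closure V hV g _ (Submodule.starProjection_apply_mem _ _)
  · intro w hw
    have h3 : w = tr g (tr g⁻¹ w) := by
      rw [← tr_mul, mul_inv_cancel, tr_one]
    rw [← map_sub, h3, LinearIsometryEquiv.inner_map_map]
    exact Submodule.starProjection_inner_eq_zero _ _ (e5_2_closure V hV g⁻¹ w hw)

/-- PROOF: constants are measurable; `P` commutes with `tr g` by the argument of `proj_tr`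
(E5_2: the closure of `V` is invariant and so is its complement). -/
theorem proj_fam {H I : Type} [Group H] (X : PMP H) (V : Submodule ℂ (L2 (H × I)))
    (hV : ∀ (g : H) (f : L2 (H × I)), f ∈ V → tr g f ∈ V) :
    EM (fun _ : X.X => V.topologicalClosure.starProjection) ∧
      Eqv X (fun _ => V.topologicalClosure.starProjection) := by
  exact ⟨fun _ _ => measurable_const, fun g _ f => l0_4_comm V hV g f⟩

/-- span of the translates of the generators which are active at `z` -/
noncomputable def genSpan {H I S Z : Type} [Group H] [MulAction H Z] (ξ : S → H × I →₀ ℂ)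
    (A : S → Set Z) (z : Z) : Submodule ℂ (L2 (H × I)) :=
  Submodule.span ℂ {f : L2 (H × I) | ∃ g s, g⁻¹ • z ∈ A s ∧ f = tr g (toL2 (ξ s))}

/-- PROOF. Let `T⁰`, `C` be from `gen_fam` and `T z = P_V ∘L T⁰ z`, `EM`, `Eqv` (`proj_fam`,
`EM.comp`, `Eqv.comp`), `‖T z‖ ≤ C`. The closure of the range of `T z` is the closure of
`P_V (genSpan ξ A z)` (`hasSum_dl`: the range of `T z` is contained in the closure of the span of the
values on basis vectors), so `vd (...) = rd (T z)`. `rd_adj`: `∫ rd (T z) = ∫ rd (T z).adjoint`.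
If `z ∉ A s` then `T z (dl (1, s)) = 0`, so `dl (1, s)` is orthogonal to the range of
`(T z).adjoint` and its projection is `0`; otherwise the squared norm is at most `1`. So
`rd (T z).adjoint ≤ ∑ s, indicator (A s) z`. -/
theorem gen_proj {H I S : Type} [Group H] [Countable H] [Fintype I] [Fintype S] (X : PMP H)
    (ξ : S → H × I →₀ ℂ) (A : S → Set X.X) (hA : ∀ s, MeasurableSet (A s))
    (V : Submodule ℂ (L2 (H × I))) (hV : ∀ (g : H) (f : L2 (H × I)), f ∈ V → tr g f ∈ V) :
    Measurable (fun z => vd ((genSpan ξ A z).map V.topologicalClosure.starProjection.toLinearMap)) ∧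
      ∫ z, vd ((genSpan ξ A z).map V.topologicalClosure.starProjection.toLinearMap) ∂X.μ ≤
        ∑ s, (X.μ (A s)).toReal := by
  classical
  obtain ⟨C, T0, F, hC, hTC, hEM, hEqv, hT, hF⟩ := gen_fam X ξ A hA
  obtain ⟨hP1, hP2⟩ := proj_fam X V hV
  let T : X.X → (L2 (H × S) →L[ℂ] L2 (H × I)) := fun z =>
    V.topologicalClosure.starProjection ∘L T0 z
  have hEM2 : EM T := hP1.comp hEM
  have hEqv2 : Eqv X T := hP2.comp hEqv
  have hTC2 : ∀ z, ‖T z‖ ≤ C := by
    intro z
    refine (ContinuousLinearMap.opNorm_comp_le _ _).trans ?_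
    calc ‖V.topologicalClosure.starProjection‖ * ‖T0 z‖ ≤ 1 * C :=
          mul_le_mul (Submodule.starProjection_norm_le _) (hTC z) (norm_nonneg _) zero_le_one
      _ = C := one_mul C
  have hval : ∀ z g s, T z (dl (g, s)) =
      V.topologicalClosure.starProjection (if g⁻¹ • z ∈ A s then tr g (toL2 (ξ s)) else 0) := by
    intro z g s
    rw [← hT z g s]
    rfl
  have hcl : ∀ z, ((genSpan ξ A z).map
      V.topologicalClosure.starProjection.toLinearMap).topologicalClosure =
        (LinearMap.range (T z).toLinearMap).topologicalClosure := by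
    intro z
    apply le_antisymm
    · refine Submodule.topologicalClosure_mono ?_
      unfold genSpan
      rw [Submodule.map_span, Submodule.span_le]
      rintro _ ⟨_, ⟨g, s, hg, rfl⟩, rfl⟩
      refine ⟨dl (g, s), ?_⟩
      change T z (dl (g, s)) = _
      rw [hval, if_pos hg]
      rfl
    · refine Submodule.topologicalClosure_minimal _ ?_ (Submodule.isClosed_topologicalClosure _)
      rintro _ ⟨u, rfl⟩
      have h1 : HasSum (fun ω => T z (u ω • dl ω)) (T z u) := (hasSum_dl u).mapL (T z)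
      refine (Submodule.isClosed_topologicalClosure _).mem_of_tendsto h1
        (Filter.Eventually.of_forall fun t => ?_)
      refine Submodule.sum_mem _ fun ω _ => ?_
      rw [map_smul]
      refine Submodule.smul_mem _ _ (Submodule.le_topologicalClosure _ ?_)
      obtain ⟨g, s⟩ := ω
      rw [hval]
      by_cases hg : g⁻¹ • z ∈ A s
      · rw [if_pos hg]
        exact ⟨_, Submodule.subset_span ⟨g, s, hg, rfl⟩, rfl⟩
      · rw [if_neg hg, map_zero]
        exact Submodule.zero_mem _
  have hvd : ∀ z, vd ((genSpan ξ A z).map V.topologicalClosure.starProjection.toLinearMap) =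
      rd (T z) := by
    intro z
    unfold vd rd
    refine Finset.sum_congr rfl fun i _ => ?_
    rw [l0_4_congr _ _ (hcl z)]
  obtain ⟨hm1, hm2, hint⟩ := rd_adj X T hEM2 hEqv2 C hTC2
  have hfun : (fun z => vd ((genSpan ξ A z).map
      V.topologicalClosure.starProjection.toLinearMap)) = fun z => rd (T z) := funext hvd
  rw [hfun]
  refine ⟨hm1, ?_⟩
  rw [hint]
  have h1 : ∀ z, rd (T z).adjoint ≤ ∑ s, (A s).indicator (fun _ => (1 : ℝ)) z := by
    intro z
    apply Finset.sum_le_sum
    intro s _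
    by_cases hz : z ∈ A s
    · rw [Set.indicator_of_mem hz]
      have h2 := Submodule.norm_starProjection_apply_le
        (LinearMap.range (T z).adjoint.toLinearMap).topologicalClosure
        (dl ((1 : H), s) : L2 (H × S))
      rw [norm_dl] at h2
      exact pow_le_one₀ (norm_nonneg _) h2
    · rw [Set.indicator_of_notMem hz]
      have h3 : T z (dl ((1 : H), s)) = 0 := by
        rw [hval z 1 s, if_neg, map_zero]
        rw [inv_one, one_smul]
        exact hz
      have h4 : (LinearMap.range (T z).adjoint.toLinearMap).topologicalClosure.starProjection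
          (dl ((1 : H), s)) = 0 := by
        apply Submodule.eq_starProjection_of_mem_of_inner_eq_zero
        · exact Submodule.zero_mem _
        · intro w hw
          rw [sub_zero]
          have h5 : (dl ((1 : H), s) : L2 (H × S)) ∈
              (LinearMap.range (T z).adjoint.toLinearMap).topologicalClosureᗮ := by
            rw [Submodule.orthogonal_closure, Submodule.mem_orthogonal]
            rintro _ ⟨u, rfl⟩
            change ⟪(T z).adjoint u, dl ((1 : H), s)⟫_ℂ = 0
            rw [ContinuousLinearMap.adjoint_inner_left, h3, inner_zero_right]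
          exact Submodule.inner_left_of_mem_orthogonal hw h5
      rw [h4, norm_zero]
      norm_num
  have h2 : Integrable (fun z => ∑ s, (A s).indicator (fun _ => (1 : ℝ)) z) X.μ :=
    integrable_finsetSum _ fun s _ => (integrable_const (1 : ℝ)).indicator (hA s)
  have h3 : Integrable (fun z => rd (T z).adjoint) X.μ := by
    refine Integrable.of_bound hm2.aestronglyMeasurable (Fintype.card S : ℝ) ?_
    refine Filter.Eventually.of_forall fun z => ?_
    obtain ⟨h4, h5⟩ := rd_bound (T z).adjoint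
    rw [Real.norm_eq_abs, abs_of_nonneg h4]
    exact h5
  calc ∫ z, rd (T z).adjoint ∂X.μ ≤ ∫ z, ∑ s, (A s).indicator (fun _ => (1 : ℝ)) z ∂X.μ :=
        integral_mono h3 h2 h1
    _ = ∑ s, (X.μ (A s)).toReal := by
        rw [integral_finsetSum _ fun s _ => (integrable_const (1 : ℝ)).indicator (hA s)]
        apply Finset.sum_congr rfl
        intro s _
        rw [integral_indicator (hA s), setIntegral_const, smul_eq_mul, mul_one]
        rfl

end Pool.Agent.COST

end

section

open scoped ENNReal InnerProductSpace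
open MeasureTheory Filter Topology

namespace Pool.Agent.COST

/-- boundary of a chain -/
noncomputable def l0_5_bd {G : Type} [Group G] {d : ℕ} (s : Fin d → G) (p : G × Fin d →₀ ℂ)
    (k : G) : ℂ := ∑ j, (p (k * (s j)⁻¹, j) - p (k, j))

theorem l0_5_add {G : Type} [Group G] {d : ℕ} (s : Fin d → G) (p q : G × Fin d →₀ ℂ) (k : G) :
    l0_5_bd s (p + q) k = l0_5_bd s p k + l0_5_bd s q k := by
  unfold l0_5_bd
  rw [← Finset.sum_add_distrib]
  refine Finset.sum_congr rfl fun j _ => ?_
  rw [Finsupp.add_apply, Finsupp.add_apply]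
  ring

theorem l0_5_neg {G : Type} [Group G] {d : ℕ} (s : Fin d → G) (p : G × Fin d →₀ ℂ) (k : G) :
    l0_5_bd s (-p) k = - l0_5_bd s p k := by
  unfold l0_5_bd
  rw [← Finset.sum_neg_distrib]
  refine Finset.sum_congr rfl fun j _ => ?_
  rw [Finsupp.neg_apply, Finsupp.neg_apply]
  ring

/-- left translate -/
noncomputable def l0_5_tr {G : Type} [Group G] {d : ℕ} (g : G) (p : G × Fin d →₀ ℂ) :
    G × Fin d →₀ ℂ :=
  Finsupp.equivMapDomain (Equiv.prodCongr (Equiv.mulLeft g) (Equiv.refl (Fin d))) p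

theorem l0_5_tr_apply {G : Type} [Group G] {d : ℕ} (g : G) (p : G × Fin d →₀ ℂ) (k : G)
    (j : Fin d) : l0_5_tr g p (k, j) = p (g⁻¹ * k, j) := rfl

theorem l0_5_bd_tr {G : Type} [Group G] {d : ℕ} (s : Fin d → G) (g : G) (p : G × Fin d →₀ ℂ)
    (k : G) : l0_5_bd s (l0_5_tr g p) k = l0_5_bd s p (g⁻¹ * k) := by
  unfold l0_5_bd
  refine Finset.sum_congr rfl fun j _ => ?_
  rw [l0_5_tr_apply, l0_5_tr_apply, mul_assoc]

theorem l0_5_ind {G : Type} [Group G] (g a k : G) :
    Set.indicator {g} (fun _ => (1 : ℂ)) (a * k) =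
      Set.indicator {a⁻¹ * g} (fun _ => (1 : ℂ)) k := by
  classical
  by_cases h : a * k = g
  · have h1 : k = a⁻¹ * g := by rw [← h, inv_mul_cancel_left]
    rw [Set.indicator_of_mem (show a * k ∈ ({g} : Set G) from h),
      Set.indicator_of_mem (show k ∈ ({a⁻¹ * g} : Set G) from h1)]
  · have h1 : ¬ k = a⁻¹ * g := by
      intro h2
      apply h
      rw [h2, mul_inv_cancel_left]
    rw [Set.indicator_of_notMem (show a * k ∉ ({g} : Set G) from h),
      Set.indicator_of_notMem (show k ∉ ({a⁻¹ * g} : Set G) from h1)]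

theorem l0_5_all {G : Type} [Group G] {d : ℕ} (s : Fin d → G)
    (hs : Subgroup.closure (Set.range s) = ⊤) (g : G) :
    ∃ p : G × Fin d →₀ ℂ, ∀ k : G, l0_5_bd s p k =
      (Set.indicator {g} (fun _ => (1 : ℂ)) k) - (Set.indicator {(1 : G)} (fun _ => (1 : ℂ)) k) := by
  classical
  have hg : g ∈ Subgroup.closure (Set.range s) := by
    rw [hs]
    exact Subgroup.mem_top g
  refine Subgroup.closure_induction (p := fun g _ => ∃ p : G × Fin d →₀ ℂ, ∀ k : G,
    l0_5_bd s p k = (Set.indicator {g} (fun _ => (1 : ℂ)) k) -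
      (Set.indicator {(1 : G)} (fun _ => (1 : ℂ)) k)) ?_ ?_ ?_ ?_ hg
  · rintro _ ⟨j, rfl⟩
    refine ⟨Finsupp.single ((1 : G), j) 1, fun k => ?_⟩
    unfold l0_5_bd
    rw [Finset.sum_sub_distrib]
    have h1 : ∑ i, (Finsupp.single ((1 : G), j) (1 : ℂ)) (k * (s i)⁻¹, i) =
        Set.indicator {s j} (fun _ => (1 : ℂ)) k := by
      rw [Finset.sum_eq_single j]
      · rw [Finsupp.single_apply, Set.indicator_apply]
        by_cases h : k = s j
        · have h2 : k ∈ ({s j} : Set G) := h
          rw [if_pos h2, if_pos]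
          rw [h, mul_inv_cancel]
        · have h2 : ¬ k ∈ ({s j} : Set G) := h
          rw [if_neg h2, if_neg]
          intro h3
          apply h
          have h4 : (1 : G) = k * (s j)⁻¹ := congrArg Prod.fst h3
          rw [eq_mul_inv_iff_mul_eq, one_mul] at h4
          exact h4.symm
      · intro i _ hi
        rw [Finsupp.single_apply, if_neg]
        intro h3
        exact hi (congrArg Prod.snd h3).symm
      · intro h
        exact absurd (Finset.mem_univ j) h
    have h2 : ∑ i, (Finsupp.single ((1 : G), j) (1 : ℂ)) (k, i) =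
        Set.indicator {(1 : G)} (fun _ => (1 : ℂ)) k := by
      rw [Finset.sum_eq_single j]
      · rw [Finsupp.single_apply, Set.indicator_apply]
        by_cases h : k = 1
        · have h2 : k ∈ ({(1 : G)} : Set G) := h
          rw [if_pos h2, if_pos]
          rw [h]
        · have h2 : ¬ k ∈ ({(1 : G)} : Set G) := h
          rw [if_neg h2, if_neg]
          intro h3
          exact h (congrArg Prod.fst h3).symm
      · intro i _ hi
        rw [Finsupp.single_apply, if_neg]
        intro h3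
        exact hi (congrArg Prod.snd h3).symm
      · intro h
        exact absurd (Finset.mem_univ j) h
    rw [h1, h2]
  · refine ⟨0, fun k => ?_⟩
    rw [sub_self]
    unfold l0_5_bd
    simp
  · rintro a b _ _ ⟨p, hp⟩ ⟨q, hq⟩
    refine ⟨p + l0_5_tr a q, fun k => ?_⟩
    rw [l0_5_add, l0_5_bd_tr, hp, hq, l0_5_ind, l0_5_ind, inv_inv, mul_one]
    ring
  · rintro a _ ⟨p, hp⟩
    refine ⟨- l0_5_tr a⁻¹ p, fun k => ?_⟩
    rw [l0_5_neg, l0_5_bd_tr, hp, l0_5_ind, l0_5_ind, inv_inv, inv_mul_cancel, mul_one]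
    ring

/-- Path chains: for every `g` a finitely supported chain with boundary `g - 1`. PROOF: the set of
the `g` with such a chain is a subgroup containing all `s j`: chain of `s j`: `single (1, j) 1`;
chain of `g * h`: chain of `g` plus the left translate by `g` of the chain of `h`; chain of
`g⁻¹`: minus the left translate by `g⁻¹` of the chain of `g`; chain of `1`: `0`.
(`Finsupp.mapDomain` or `Finsupp.embDomain` for translates.) -/
theorem path_exists {G : Type} [Group G] {d : ℕ} (s : Fin d → G)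
    (hs : Subgroup.closure (Set.range s) = ⊤) (g : G) :
    ∃ p : G × Fin d →₀ ℂ, ∀ k : G, ∑ j, (p (k * (s j)⁻¹, j) - p (k, j)) =
      (Set.indicator {g} (fun _ => (1 : ℂ)) k) - (Set.indicator {(1 : G)} (fun _ => (1 : ℂ)) k) := by
  exact l0_5_all s hs g

end Pool.Agent.COST

end

section

open scoped ENNReal InnerProductSpace
open MeasureTheory Filter Topology

namespace Pool.Agent.COST

theorem l0_6_mem {G : Type} [Group G] {d : ℕ} (s : Fin d → G) (p : G × Fin d →₀ ℂ)
    (hp : ∀ k, l0_5_bd s p k = 0) : toL2 p ∈ finCycles s := by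
  refine ⟨fun g => ?_, ?_⟩
  · have h1 := hp g
    unfold l0_5_bd at h1
    rw [← h1]
    refine Finset.sum_congr rfl fun j _ => ?_
    rw [toL2_apply, toL2_apply]
  · have h1 : ((toL2 p : L2 (G × Fin d)) : G × Fin d → ℂ) = p := funext fun ω => toL2_apply p ω
    rw [h1]
    exact p.finite_support

theorem l0_6_eq {G : Type} [Group G] {d : ℕ} (s : Fin d → G) (h : L2 (G × Fin d))
    (hc : ∀ f ∈ finCycles s, ⟪f, h⟫_ℂ = 0) (p q r : G × Fin d →₀ ℂ)
    (hpq : ∀ k, l0_5_bd s p k = l0_5_bd s q k - l0_5_bd s r k) :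
    ⟪toL2 p, h⟫_ℂ = ⟪toL2 q, h⟫_ℂ - ⟪toL2 r, h⟫_ℂ := by
  have h1 : toL2 (p + r + -q) ∈ finCycles s := by
    refine l0_6_mem s _ fun k => ?_
    rw [l0_5_add, l0_5_add, l0_5_neg, hpq]
    ring
  have h2 := hc _ h1
  have h3 : toL2 (p + r + -q) = toL2 p + toL2 r - toL2 q := by
    rw [toL2_add, toL2_add]
    have h4 : toL2 (-q) = - toL2 q := by
      have h5 := toL2_smul (-1) q
      rw [neg_one_smul, neg_one_smul] at h5
      exact h5
    rw [h4, sub_eq_add_neg]
  rw [h3, inner_sub_left, inner_add_left] at h2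
  linear_combination h2

theorem l0_6_single {G : Type} [Group G] {d : ℕ} (s : Fin d → G) (g : G) (j : Fin d) (k : G) :
    l0_5_bd s (Finsupp.single (g, j) 1) k = (Set.indicator {g * s j} (fun _ => (1 : ℂ)) k) -
      (Set.indicator {g} (fun _ => (1 : ℂ)) k) := by
  classical
  unfold l0_5_bd
  rw [Finset.sum_sub_distrib]
  have h1 : ∑ i, (Finsupp.single (g, j) (1 : ℂ)) (k * (s i)⁻¹, i) =
      Set.indicator {g * s j} (fun _ => (1 : ℂ)) k := by
    rw [Finset.sum_eq_single j]
    · rw [Finsupp.single_apply]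
      by_cases h : k = g * s j
      · rw [Set.indicator_of_mem (show k ∈ ({g * s j} : Set G) from h), if_pos]
        rw [h, mul_inv_cancel_right]
      · rw [Set.indicator_of_notMem (show k ∉ ({g * s j} : Set G) from h), if_neg]
        intro h3
        apply h
        have h4 : g = k * (s j)⁻¹ := congrArg Prod.fst h3
        rw [h4, inv_mul_cancel_right]
    · intro i _ hi
      rw [Finsupp.single_apply, if_neg]
      intro h3
      exact hi (congrArg Prod.snd h3).symm
    · intro h
      exact absurd (Finset.mem_univ j) h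
  have h2 : ∑ i, (Finsupp.single (g, j) (1 : ℂ)) (k, i) =
      Set.indicator {g} (fun _ => (1 : ℂ)) k := by
    rw [Finset.sum_eq_single j]
    · rw [Finsupp.single_apply]
      by_cases h : k = g
      · rw [Set.indicator_of_mem (show k ∈ ({g} : Set G) from h), if_pos]
        rw [h]
      · rw [Set.indicator_of_notMem (show k ∉ ({g} : Set G) from h), if_neg]
        intro h3
        exact h (congrArg Prod.fst h3).symm
    · intro i _ hi
      rw [Finsupp.single_apply, if_neg]
      intro h3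
      exact hi (congrArg Prod.snd h3).symm
    · intro h
      exact absurd (Finset.mem_univ j) h
  rw [h1, h2]

theorem l0_6_rel {G X J : Type} [Group G] [MulAction G X] (γ : J → G) (A : J → Set X) (z : X)
    (u : G → ℂ) (hu : ∀ j (g : G), g⁻¹ • z ∈ A j → u (g * (γ j)⁻¹) = u g) (a b : X)
    (hab : Relation.EqvGen (fun a b => ∃ j, a ∈ A j ∧ b = γ j • a) a b) :
    (∀ g : G, a = g⁻¹ • z → ∃ g' : G, b = g'⁻¹ • z ∧ u g' = u g) ∧
      (∀ g : G, b = g⁻¹ • z → ∃ g' : G, a = g'⁻¹ • z ∧ u g' = u g) := by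
  induction hab with
  | rel x y hxy =>
    obtain ⟨j, hj, rfl⟩ := hxy
    constructor
    · rintro g rfl
      refine ⟨g * (γ j)⁻¹, ?_, hu j g hj⟩
      rw [mul_inv_rev, inv_inv, mul_smul]
    · intro g hg
      have h1 : x = (g * γ j)⁻¹ • z := by
        rw [mul_inv_rev, mul_smul, ← hg, inv_smul_smul]
      refine ⟨g * γ j, h1, ?_⟩
      rw [h1] at hj
      have h2 := hu j _ hj
      rw [mul_inv_cancel_right] at h2
      exact h2.symm
  | refl x => exact ⟨fun g hg => ⟨g, hg, rfl⟩, fun g hg => ⟨g, hg, rfl⟩⟩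
  | symm x y _ ih => exact ⟨ih.2, ih.1⟩
  | trans x y w _ _ ih1 ih2 =>
    constructor
    · intro g hg
      obtain ⟨g1, h1, h2⟩ := ih1.1 g hg
      obtain ⟨g2, h3, h4⟩ := ih2.1 g1 h1
      exact ⟨g2, h3, h4.trans h2⟩
    · intro g hg
      obtain ⟨g1, h1, h2⟩ := ih2.2 g hg
      obtain ⟨g2, h3, h4⟩ := ih1.2 g1 h1
      exact ⟨g2, h3, h4.trans h2⟩

/-- A function orthogonal to the finite cycles and to the chains of a connected family vanishes.
PROOF. Let `P g` be chains as in `path_exists`, `ξ j` has boundary `(γ j)⁻¹ - 1`. For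
`g, g' : G` put `D g g' = ⟪tr g (toL2 (P (g⁻¹ * g'))), h⟫`. Since `h` is orthogonal to all finitely
supported cycles, `⟪toL2 c, h⟫` depends only on the boundary of the finitely supported chain `c`;
`tr g (toL2 (P (g⁻¹ * g')))` has boundary `g' - g`. So `D` is additive (`D g g' + D g' g'' = D g g''`),
`D g (g * s j) = h (g, j)` (compare with `dl (g, j)`), and the hypothesis `hh` says
`D g (g * (γ j)⁻¹) = 0` if `g⁻¹ • z ∈ A j`. Define `F : X → ℂ` by `F y = D 1 g` if `y = g⁻¹ • z`
(`g` is unique by `hfree`) and `0` outside the orbit. `F` is constant along the relation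
`a ∈ A j`, `b = γ j • a`: for `a = g⁻¹ • z`, `b = (g * (γ j)⁻¹)⁻¹ • z`; if `a` is not in the
orbit then `b` is not either. By `hgen` `F` is constant on the orbit, so `D 1 g = D 1 1 = 0` for all
`g`, hence `h (g, j) = D g (g * s j) = D 1 (g * s j) - D 1 g = 0`. -/
theorem orth_zero {G X J : Type} [Group G] [MulAction G X] {d : ℕ} (s : Fin d → G)
    (hs : Subgroup.closure (Set.range s) = ⊤) (γ : J → G) (A : J → Set X)
    (ξ : J → G × Fin d →₀ ℂ)
    (hξ : ∀ j (k : G), ∑ i, (ξ j (k * (s i)⁻¹, i) - ξ j (k, i)) =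
      (Set.indicator {(γ j)⁻¹} (fun _ => (1 : ℂ)) k) - (Set.indicator {(1 : G)} (fun _ => (1 : ℂ)) k))
    (z : X) (hfree : ∀ g : G, g • z = z → g = 1)
    (hgen : ∀ g : G, Relation.EqvGen (fun a b => ∃ j, a ∈ A j ∧ b = γ j • a) z (g • z))
    (h : L2 (G × Fin d)) (hc : ∀ f ∈ finCycles s, ⟪f, h⟫_ℂ = 0)
    (hh : ∀ j (g : G), g⁻¹ • z ∈ A j → ⟪tr g (toL2 (ξ j)), h⟫_ℂ = 0) : h = 0 := by
  choose P hP using l0_5_all s hs
  have hbd : ∀ (a b : G) (c : G × Fin d →₀ ℂ), (∀ k, l0_5_bd s c k =
      (Set.indicator {b} (fun _ => (1 : ℂ)) k) - (Set.indicator {a} (fun _ => (1 : ℂ)) k)) →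
      ⟪toL2 c, h⟫_ℂ = ⟪toL2 (P b), h⟫_ℂ - ⟪toL2 (P a), h⟫_ℂ := by
    intro a b c hcb
    refine l0_6_eq s h hc c (P b) (P a) fun k => ?_
    rw [hcb, hP, hP]
    ring
  have hu : ∀ j (g : G), g⁻¹ • z ∈ A j →
      ⟪toL2 (P (g * (γ j)⁻¹)), h⟫_ℂ = ⟪toL2 (P g), h⟫_ℂ := by
    intro j g hg
    have h1 := hh j g hg
    have h2 : tr g (toL2 (ξ j)) = toL2 (l0_5_tr g (ξ j)) := by
      apply L2.ext
      rintro ⟨k, i⟩
      rw [tr_toL2, toL2_apply, l0_5_tr_apply]
    rw [h2, hbd g (g * (γ j)⁻¹)] at h1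
    · exact sub_eq_zero.mp h1
    · intro k
      rw [l0_5_bd_tr]
      have h3 := hξ j (g⁻¹ * k)
      unfold l0_5_bd
      rw [h3, l0_5_ind, l0_5_ind, inv_inv, mul_one]
  have hconst : ∀ g : G, ⟪toL2 (P g), h⟫_ℂ = ⟪toL2 (P 1), h⟫_ℂ := by
    intro g
    obtain ⟨h1, _⟩ := l0_6_rel γ A z (fun g => ⟪toL2 (P g), h⟫_ℂ) hu z (g⁻¹ • z) (hgen g⁻¹)
    obtain ⟨g', h2, h3⟩ := h1 1 (by rw [inv_one, one_smul])
    have h4 : (g' * g⁻¹) • z = z := by
      rw [mul_smul, h2, smul_inv_smul]
    have h5 := hfree _ h4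
    have h6 : g' = g := by
      rw [mul_inv_eq_one] at h5
      exact h5
    rw [← h6]
    exact h3
  apply L2.ext
  rintro ⟨g, j⟩
  have h1 : (h (g, j) : ℂ) = ⟪toL2 (Finsupp.single (g, j) (1 : ℂ)), h⟫_ℂ := by
    rw [toL2_single, one_smul, inner_dl]
  rw [h1, hbd g (g * s j) _ (l0_6_single s g j), hconst, hconst g, sub_self]
  rfl

end Pool.Agent.COST

end

section

open scoped ENNReal InnerProductSpace
open MeasureTheory Filter Topology

namespace Pool.Agent.COST

theorem l0_7_inv {G : Type} [Group G] {d : ℕ} (s : Fin d → G) (g : G) (f : L2 (G × Fin d))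
    (hf : f ∈ (finCycles s)ᗮ) : tr g f ∈ (finCycles s)ᗮ := by
  rw [Submodule.mem_orthogonal] at hf ⊢
  intro u hu
  have h3 : u = tr g (tr g⁻¹ u) := by
    rw [← tr_mul, mul_inv_cancel, tr_one]
  rw [h3, LinearIsometryEquiv.inner_map_map]
  exact hf _ (finCycles_tr s g⁻¹ u hu)

theorem l0_7_vd {H J : Type} [Group H] [Fintype J] (V : Submodule ℂ (L2 (H × J))) :
    0 ≤ vd V ∧ vd V ≤ Fintype.card J := by
  constructor
  · exact Finset.sum_nonneg fun i _ => sq_nonneg _
  · have h1 : ∀ i ∈ (Finset.univ : Finset J),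
        ‖V.topologicalClosure.starProjection (dl ((1 : H), i))‖ ^ 2 ≤ 1 := by
      intro i _
      have h2 := Submodule.norm_starProjection_apply_le
        V.topologicalClosure (dl ((1 : H), i) : L2 (H × J))
      rw [norm_dl] at h2
      exact pow_le_one₀ (norm_nonneg _) h2
    refine (Finset.sum_le_sum h1).trans ?_
    rw [Finset.sum_const, Finset.card_univ, nsmul_eq_mul, mul_one]

/-- the spaces of the exhaustion -/
noncomputable def l0_7_W {G X J : Type} [Group G] [MulAction G X] {d : ℕ} (s : Fin d → G)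
    (A : J → Set X) (ξ : J → G × Fin d →₀ ℂ) (z : X) (F : Finset J) :
    Submodule ℂ (L2 (G × Fin d)) :=
  (genSpan (fun j : F => ξ j) (fun j : F => A j) z).map
    ((finCycles s)ᗮ).topologicalClosure.starProjection.toLinearMap

theorem l0_7_mono {G X J : Type} [Group G] [MulAction G X] {d : ℕ} (s : Fin d → G)
    (A : J → Set X) (ξ : J → G × Fin d →₀ ℂ) (z : X) :
    Monotone fun F : Finset J => (l0_7_W s A ξ z F).topologicalClosure := by
  intro F F' hF
  refine Submodule.topologicalClosure_mono ?_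
  refine Submodule.map_mono ?_
  refine Submodule.span_mono ?_
  rintro _ ⟨g, j, hj, rfl⟩
  exact ⟨g, ⟨j.1, hF j.2⟩, hj, rfl⟩

theorem l0_7_closure {G X J : Type} [Group G] [MulAction G X] {d : ℕ} (s : Fin d → G)
    (hs : Subgroup.closure (Set.range s) = ⊤) (γ : J → G) (A : J → Set X)
    (ξ : J → G × Fin d →₀ ℂ)
    (hξ : ∀ j (k : G), ∑ i, (ξ j (k * (s i)⁻¹, i) - ξ j (k, i)) =
      (Set.indicator {(γ j)⁻¹} (fun _ => (1 : ℂ)) k) - (Set.indicator {(1 : G)} (fun _ => (1 : ℂ)) k))
    (z : X) (hfree : ∀ g : G, g • z = z → g = 1)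
    (hgen : ∀ g : G, Relation.EqvGen (fun a b => ∃ j, a ∈ A j ∧ b = γ j • a) z (g • z)) :
    (⨆ F : Finset J, (l0_7_W s A ξ z F).topologicalClosure).topologicalClosure =
      ((finCycles s)ᗮ).topologicalClosure := by
  have hVc : ((finCycles s)ᗮ).topologicalClosure = (finCycles s)ᗮ :=
    (Submodule.isClosed_orthogonal _).submodule_topologicalClosure_eq
  have hle : (⨆ F : Finset J, (l0_7_W s A ξ z F).topologicalClosure).topologicalClosure ≤
      ((finCycles s)ᗮ).topologicalClosure := by
    refine Submodule.topologicalClosure_minimal _ ?_ (Submodule.isClosed_topologicalClosure _)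
    refine iSup_le fun F => ?_
    refine Submodule.topologicalClosure_minimal _ ?_ (Submodule.isClosed_topologicalClosure _)
    rintro _ ⟨u, _, rfl⟩
    exact Submodule.starProjection_apply_mem _ u
  apply le_antisymm hle
  intro x hx
  set K : Submodule ℂ (L2 (G × Fin d)) :=
    (⨆ F : Finset J, (l0_7_W s A ξ z F).topologicalClosure).topologicalClosure with hK
  have hKcomp : CompleteSpace K := (Submodule.isClosed_topologicalClosure _).completeSpace_coe
  have h1 : K.starProjection x ∈ K := Submodule.starProjection_apply_mem K x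
  have h2 : x - K.starProjection x ∈ Kᗮ := Submodule.sub_starProjection_mem_orthogonal x
  have h3 : x - K.starProjection x ∈ ((finCycles s)ᗮ).topologicalClosure :=
    Submodule.sub_mem _ hx (hle h1)
  have h4 : x - K.starProjection x ∈ (finCycles s)ᗮ := by
    rw [hVc] at h3
    exact h3
  have h5 : x - K.starProjection x = 0 := by
    refine orth_zero s hs γ A ξ hξ z hfree hgen _ ?_ ?_
    · intro f hf
      exact (Submodule.mem_orthogonal _ _).1 h4 f hf
    · intro j g hg
      have h6 : ((finCycles s)ᗮ).topologicalClosure.starProjection (tr g (toL2 (ξ j))) ∈ K := by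
        refine Submodule.le_topologicalClosure _ ?_
        refine Submodule.mem_iSup_of_mem {j} ?_
        refine Submodule.le_topologicalClosure _ ?_
        exact ⟨_, Submodule.subset_span ⟨g, ⟨j, Finset.mem_singleton_self j⟩, hg, rfl⟩, rfl⟩
      have h7 := (Submodule.mem_orthogonal _ _).1 h2 _ h6
      have h8 := Submodule.starProjection_inner_eq_zero (K := ((finCycles s)ᗮ).topologicalClosure)
        (tr g (toL2 (ξ j))) _ h3
      rw [inner_sub_left, h7, sub_zero] at h8
      exact h8
  rw [sub_eq_zero] at h5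
  rw [h5]
  exact h1

theorem l0_7_tendsto {G X J : Type} [Group G] [MulAction G X] {d : ℕ} (s : Fin d → G)
    (hs : Subgroup.closure (Set.range s) = ⊤) (γ : J → G) (A : J → Set X)
    (ξ : J → G × Fin d →₀ ℂ)
    (hξ : ∀ j (k : G), ∑ i, (ξ j (k * (s i)⁻¹, i) - ξ j (k, i)) =
      (Set.indicator {(γ j)⁻¹} (fun _ => (1 : ℂ)) k) - (Set.indicator {(1 : G)} (fun _ => (1 : ℂ)) k))
    (z : X) (hfree : ∀ g : G, g • z = z → g = 1)
    (hgen : ∀ g : G, Relation.EqvGen (fun a b => ∃ j, a ∈ A j ∧ b = γ j • a) z (g • z)) :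
    Tendsto (fun F : Finset J => vd (l0_7_W s A ξ z F)) atTop (𝓝 (vd (finCycles s)ᗮ)) := by
  have hcl := l0_7_closure s hs γ A ξ hξ z hfree hgen
  unfold vd
  refine tendsto_finsetSum _ fun i _ => ?_
  rw [← l0_4_congr _ _ hcl]
  have h1 := Submodule.starProjection_tendsto_closure_iSup
    (fun F : Finset J => (l0_7_W s A ξ z F).topologicalClosure) (l0_7_mono s A ξ z)
    (dl ((1 : G), i))
  exact (h1.norm).pow 2

/-- Gaboriau's inequality for a countable family of restrictions of group elements. PROOF. Let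
`V` be the orthogonal complement of `finCycles s` (closed, invariant: `finCycles_tr` and unitarity),
`ξ j` a chain with boundary `(γ j)⁻¹ - 1` (`path_exists`), `c = ∑' j, μ (A j)`, which may be assumed
finite. Let `J n` be an increasing sequence of finite subsets with union `J` (countable; for
example from an injection to `ℕ`). `gen_proj` for the finite family `J n` gives
`∫ vd (W n z) ≤ ∑ j ∈ J n, μ (A j) ≤ c` for `W n z = P_V (genSpan ...)`. For almost every `z`
(free, generating) the spaces `W n z` increase with `n` and the closure of their union is `V`: it is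
contained in `V`, and a vector `h ∈ V` orthogonal to all `P_V (tr g ξ j)`, `g⁻¹ • z ∈ A j`, satisfies
`⟪tr g ξ j, h⟫ = 0`, so `h = 0` by `orth_zero`. Hence `vd (W n z) → vd V`
(`Submodule.starProjection_tendsto_closure_iSup`), and by dominated convergence (`0 ≤ vd ≤ d`)
`vd V = lim ∫ vd (W n z) ≤ c`. -/
theorem lower_fam {G : Type} [Group G] [Countable G] {d : ℕ} (s : Fin d → G)
    (hs : Subgroup.closure (Set.range s) = ⊤) (α : StdAction G) {J : Type} [Countable J]
    (γ : J → G) (A : J → Set α.X) (hA : ∀ j, MeasurableSet (A j))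
    (hgen : ∀ᵐ z ∂α.μ, ∀ g : G,
      Relation.EqvGen (fun a b => ∃ j, a ∈ A j ∧ b = γ j • a) z (g • z)) :
    ENNReal.ofReal (vd (finCycles s)ᗮ) ≤ ∑' j, α.μ (A j) := by
  classical
  have hex : ∀ j, ∃ p : G × Fin d →₀ ℂ, ∀ k : G, ∑ i, (p (k * (s i)⁻¹, i) - p (k, i)) =
      (Set.indicator {(γ j)⁻¹} (fun _ => (1 : ℂ)) k) -
        (Set.indicator {(1 : G)} (fun _ => (1 : ℂ)) k) := fun j => path_exists s hs (γ j)⁻¹
  choose ξ hξ using hex
  by_cases htop : ∑' j, α.μ (A j) = ⊤
  · rw [htop]
    exact le_top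
  refine ENNReal.ofReal_le_of_le_toReal ?_
  have hgp := fun F : Finset J => gen_proj α.toPMP (fun j : F => ξ j) (fun j : F => A j)
    (fun j => hA j) (finCycles s)ᗮ (fun g f hf => l0_7_inv s g f hf)
  have hlim : Tendsto (fun F : Finset J => ∫ z, vd (l0_7_W s A ξ z F) ∂α.μ) atTop
      (𝓝 (∫ _, vd (finCycles s)ᗮ ∂α.μ)) := by
    refine tendsto_integral_filter_of_dominated_convergence (fun _ => (Fintype.card (Fin d) : ℝ))
      ?_ ?_ (integrable_const _) ?_
    · exact Filter.Eventually.of_forall fun F => (hgp F).1.aestronglyMeasurable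
    · refine Filter.Eventually.of_forall fun F => Filter.Eventually.of_forall fun z => ?_
      obtain ⟨h4, h5⟩ := l0_7_vd (l0_7_W s A ξ z F)
      rw [Real.norm_eq_abs, abs_of_nonneg h4]
      exact h5
    · filter_upwards [α.free, hgen] with z hz1 hz2
      exact l0_7_tendsto s hs γ A ξ hξ z hz1 hz2
  rw [integral_const] at hlim
  simp only [probReal_univ, one_smul] at hlim
  refine le_of_tendsto' hlim fun F => ?_
  refine (hgp F).2.trans ?_
  rw [Finset.sum_coe_sort F fun j => (α.μ (A j)).toReal,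
    ← ENNReal.toReal_sum fun j _ => measure_ne_top _ _]
  exact ENNReal.toReal_mono htop (ENNReal.sum_le_tsum F)

end Pool.Agent.COST

end

section

open scoped ENNReal InnerProductSpace
open MeasureTheory Filter Topology

namespace Pool.Agent.COST

/-- PROOF: `Graphing.split` replaces `Φ` by a family of restrictions of group elements with the
same cost; the generated equivalence relation contains that of `Φ`, so it contains the orbit
equivalence relation almost everywhere; `lower_fam`. Infimum over `Φ` and `α`. -/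
theorem cost_lower {G : Type} [Group G] [Countable G] {d : ℕ} (s : Fin d → G)
    (hs : Subgroup.closure (Set.range s) = ⊤) :
    ENNReal.ofReal (vd (finCycles s)ᗮ) ≤ groupCost G := by
  refine le_iInf fun α => le_iInf fun Φ => ?_
  obtain ⟨D, hD, hcost, hex⟩ := Graphing.split Φ
  rw [← hcost]
  refine lower_fam s hs α (fun j : ℕ × G => j.2) D hD ?_
  filter_upwards [Φ.gen] with z hz g
  refine Relation.EqvGen.mono ?_ _ _ (hz g)
  rintro a b ⟨i, hi, rfl⟩
  obtain ⟨h, h1, h2⟩ := hex i a hi
  exact ⟨(i, h), h1, h2.symm⟩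

end Pool.Agent.COST

end

section

open scoped ENNReal InnerProductSpace
open MeasureTheory Filter Topology

namespace Pool.Agent.COST

/-- PROOF: `‖P x‖ ^ 2 + ‖P' x‖ ^ 2 = ‖x‖ ^ 2` for the closure of `U` and the orthogonal complement
(`Submodule.norm_sq_eq_add_norm_sq_starProjection`, `Submodule.orthogonal_closure`; the orthogonal
complement is closed). -/
theorem vd_orth {H J : Type} [Group H] [Fintype J] (U : Submodule ℂ (L2 (H × J))) :
    vd Uᗮ = Fintype.card J - vd U := by
  have hcl : (Uᗮ).topologicalClosure = Uᗮ :=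
    (Submodule.isClosed_orthogonal _).submodule_topologicalClosure_eq
  have key : ∀ x : L2 (H × J), ‖(Uᗮ).topologicalClosure.starProjection x‖ ^ 2 =
      ‖x‖ ^ 2 - ‖U.topologicalClosure.starProjection x‖ ^ 2 := by
    intro x
    have h1 : (Uᗮ).topologicalClosure.starProjection x =
        x - U.topologicalClosure.starProjection x := by
      apply Submodule.eq_starProjection_of_mem_of_inner_eq_zero
      · rw [hcl, ← Submodule.orthogonal_closure]
        exact Submodule.sub_starProjection_mem_orthogonal x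
      · intro w hw
        rw [hcl, ← Submodule.orthogonal_closure] at hw
        rw [sub_sub_cancel]
        exact Submodule.inner_right_of_mem_orthogonal (Submodule.starProjection_apply_mem _ _) hw
    have h2 := Submodule.norm_sq_eq_add_norm_sq_starProjection x U.topologicalClosure
    rw [Submodule.starProjection_orthogonal_val] at h2
    rw [h1]
    linarith
  unfold vd
  rw [Finset.sum_congr rfl fun j _ => key (dl ((1 : H), j)), Finset.sum_sub_distrib]
  simp only [norm_dl, one_pow, Finset.sum_const, Finset.card_univ, nsmul_eq_mul, mul_one]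

theorem l0_9_const {G : Type} [Group G] [Infinite G] (u : L2 (G × Unit)) (c : ℂ)
    (hu : ∀ g, u (g, ()) = c) : c = 0 := by
  classical
  by_contra hc
  have h0 : 0 < ‖c‖ ^ 2 := by positivity
  obtain ⟨n, hn⟩ := exists_nat_gt (‖u‖ ^ 2 / ‖c‖ ^ 2)
  obtain ⟨F, hF⟩ := Infinite.exists_subset_card_eq G n
  have h1 := l0_2_sum u (F.image fun g => (g, ()))
  rw [Finset.sum_image (fun a _ b _ hab => congrArg Prod.fst hab)] at h1
  simp only [hu] at h1
  rw [Finset.sum_const, hF, nsmul_eq_mul] at h1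
  rw [div_lt_iff₀ h0] at hn
  linarith

theorem l0_9_inv {G : Type} [Group G] {d : ℕ} (s : Fin d → G)
    (hs : Subgroup.closure (Set.range s) = ⊤) (u : G → ℂ) (hu : ∀ k j, u (k * s j) = u k) (g : G) :
    u g = u 1 := by
  have hg : g ∈ Subgroup.closure (Set.range s) := by
    rw [hs]
    exact Subgroup.mem_top g
  have h1 : ∀ k, u (k * g) = u k := by
    refine Subgroup.closure_induction (p := fun g _ => ∀ k, u (k * g) = u k) ?_ ?_ ?_ ?_ hg
    · rintro _ ⟨j, rfl⟩ k
      exact hu k j
    · intro k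
      rw [mul_one]
    · intro a b _ _ ha hb k
      rw [← mul_assoc, hb, ha]
    · intro a _ ha k
      have h2 := ha (k * a⁻¹)
      rw [inv_mul_cancel_right] at h2
      exact h2.symm
  have h2 := h1 1
  rw [one_mul] at h2
  exact h2

/-- PROOF. Let `ζ` and `U = span {tr g (toL2 ζ)}` be as in the proof of `cycles_lower` (E5_1):
`cycles s` is the orthogonal complement of `U`, so `vd (cycles s) = d - vd U` (`vd_orth`). Let
`T : L2 (G × Unit) →L L2 (G × Fin d)` be the operator with `T (dl (g, ())) = tr g (toL2 ζ)`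
(`gen_fam` for the one point space); `(T u) (k, j) = u (k * s j) - u k`
(check on basis vectors), so `T` is injective if `G` is infinite (a constant square summable
function is `0`) and `G` is generated by `s`. The closure of the range of `T` is the closure of `U`, the closure of the
range of `T.adjoint` is the complement of `ker T = 0`, i.e. everything, so
`vd U = rd T = rd T.adjoint = 1` by `rd_adj` for the one point space. -/
theorem cycles_vd {G : Type} [Group G] [Countable G] [Infinite G] {d : ℕ} (s : Fin d → G)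
    (hs : Subgroup.closure (Set.range s) = ⊤) : vd (cycles s) = d - 1 := by
  classical
  let ζ : G × Fin d →₀ ℂ :=
    ∑ j, (Finsupp.single ((s j)⁻¹, j) 1 - Finsupp.single ((1 : G), j) 1)
  let U : Submodule ℂ (L2 (G × Fin d)) :=
    Submodule.span ℂ {f : L2 (G × Fin d) | ∃ g : G, f = tr g (toL2 ζ)}
  have hζ : toL2 ζ = ∑ j, (dl ((s j)⁻¹, j) - dl ((1 : G), j)) := by
    let T : (G × Fin d →₀ ℂ) →+ L2 (G × Fin d) := AddMonoidHom.mk' toL2 toL2_add
    have h1 : toL2 ζ = T ζ := rfl
    rw [h1]
    change T (∑ j, (Finsupp.single ((s j)⁻¹, j) 1 - Finsupp.single ((1 : G), j) 1)) = _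
    rw [map_sum]
    apply Finset.sum_congr rfl
    intro j _
    rw [map_sub]
    change toL2 (Finsupp.single ((s j)⁻¹, j) 1) - toL2 (Finsupp.single ((1 : G), j) 1) = _
    rw [toL2_single, toL2_single, one_smul, one_smul]
  have hinner : ∀ (g : G) (f : L2 (G × Fin d)), ⟪tr g (toL2 ζ), f⟫_ℂ =
      ∑ j, (f (g * (s j)⁻¹, j) - f (g, j)) := by
    intro g f
    rw [hζ, map_sum, sum_inner]
    apply Finset.sum_congr rfl
    intro j _
    rw [map_sub, tr_dl, tr_dl, inner_sub_left, inner_dl, inner_dl, mul_one]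
  have hcyc : cycles s = Uᗮ := by
    apply le_antisymm
    · intro f hf
      rw [Submodule.mem_orthogonal]
      intro u hu
      refine Submodule.span_induction (p := fun u _ => ⟪u, f⟫_ℂ = 0) ?_ ?_ ?_ ?_ hu
      · rintro _ ⟨g, rfl⟩
        rw [hinner]
        exact hf g
      · exact inner_zero_left _
      · intro x y _ _ hx hy
        rw [inner_add_left, hx, hy, add_zero]
      · intro a x _ hx
        rw [inner_smul_left, hx, mul_zero]
    · intro f hf g
      rw [← hinner]
      have hgU : tr g (toL2 ζ) ∈ U := Submodule.subset_span ⟨g, rfl⟩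
      exact Submodule.inner_right_of_mem_orthogonal hgU hf
  obtain ⟨C, T, F, hC, hTC, hEM, hEqv, hT, hF⟩ :=
    gen_fam (S := Unit) (PMP.point G) (fun _ => ζ) (fun _ => Set.univ) (fun _ => MeasurableSet.univ)
  have hval : ∀ z g, T z (dl (g, ())) = tr g (toL2 ζ) := by
    intro z g
    rw [hT z g (), if_pos (Set.mem_univ _)]
  have hcl : ∀ z, (LinearMap.range (T z).toLinearMap).topologicalClosure =
      U.topologicalClosure := by
    intro z
    apply le_antisymm
    · refine Submodule.topologicalClosure_minimal _ ?_ (Submodule.isClosed_topologicalClosure _)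
      rintro _ ⟨u, rfl⟩
      have h1 : HasSum (fun ω => T z (u ω • dl ω)) (T z u) := (hasSum_dl u).mapL (T z)
      refine (Submodule.isClosed_topologicalClosure _).mem_of_tendsto h1
        (Filter.Eventually.of_forall fun t => ?_)
      refine Submodule.sum_mem _ fun ω _ => ?_
      rw [map_smul]
      refine Submodule.smul_mem _ _ (Submodule.le_topologicalClosure _ ?_)
      obtain ⟨g, s⟩ := ω
      have h2 : T z (dl (g, s)) = tr g (toL2 ζ) := hval z g
      rw [h2]
      exact Submodule.subset_span (s := {f : L2 (G × Fin d) | ∃ g : G, f = tr g (toL2 ζ)}) ⟨g, rfl⟩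
    · refine Submodule.topologicalClosure_mono ?_
      rw [Submodule.span_le]
      rintro _ ⟨g, rfl⟩
      exact ⟨dl (g, ()), hval z g⟩
  have hrd : ∀ z, rd (T z) = vd U := by
    intro z
    unfold vd rd
    refine Finset.sum_congr rfl fun i _ => ?_
    rw [l0_4_congr _ _ (hcl z)]
  have hadj : ∀ z k j, (T z).adjoint (dl (k, j)) = dl (k * s j, ()) - dl (k, ()) := by
    intro z k j
    refine ext_inner_right ℂ fun v => ?_
    have h2 : (fun v => ⟪(T z).adjoint (dl (k, j)), v⟫_ℂ) =
        fun v => ⟪dl (k * s j, ()) - dl (k, ()), v⟫_ℂ := by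
      have h3 : innerSL ℂ ((T z).adjoint (dl (k, j))) =
          innerSL ℂ (dl (k * s j, ()) - dl (k, ()) : L2 (G × Unit)) := by
        refine clm_ext fun ω => ?_
        obtain ⟨g, t⟩ := ω
        rw [innerSL_apply_apply, innerSL_apply_apply, ContinuousLinearMap.adjoint_inner_left,
          inner_sub_left, inner_dl, inner_dl, inner_dl, hval, tr_toL2]
        have h4 : ζ (g⁻¹ * k, j) = ∑ i, ((Finsupp.single ((s i)⁻¹, i) (1 : ℂ)) (g⁻¹ * k, j) -
            (Finsupp.single ((1 : G), i) (1 : ℂ)) (g⁻¹ * k, j)) := by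
          change (∑ j, (Finsupp.single ((s j)⁻¹, j) (1 : ℂ) -
            Finsupp.single ((1 : G), j) (1 : ℂ)) : G × Fin d →₀ ℂ) (g⁻¹ * k, j) = _
          rw [Finsupp.finsetSum_apply]
          rfl
        rw [h4, Finset.sum_sub_distrib]
        have h5 : ∑ i, (Finsupp.single ((s i)⁻¹, i) (1 : ℂ)) (g⁻¹ * k, j) =
            (dl (g, t) : L2 (G × Unit)) (k * s j, ()) := by
          rw [Finset.sum_eq_single j]
          · rw [Finsupp.single_apply]
            by_cases h : g = k * s j
            · rw [if_pos]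
              · have h6 : (dl (g, t) : L2 (G × Unit)) (k * s j, ()) = 1 := by
                  rw [← h]
                  exact dl_self _
                rw [h6]
              · rw [h, mul_inv_rev, inv_mul_cancel_right]
            · rw [if_neg, dl_ne]
              · intro h7
                exact h (congrArg Prod.fst h7).symm
              · intro h7
                apply h
                have h8 : (s j)⁻¹ = g⁻¹ * k := congrArg Prod.fst h7
                rw [inv_eq_iff_eq_inv, mul_inv_rev, inv_inv] at h8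
                rw [h8, mul_inv_cancel_left]
          · intro i _ hi
            rw [Finsupp.single_apply, if_neg]
            intro h3
            exact hi (congrArg Prod.snd h3)
          · intro h
            exact absurd (Finset.mem_univ j) h
        have h6 : ∑ i, (Finsupp.single ((1 : G), i) (1 : ℂ)) (g⁻¹ * k, j) =
            (dl (g, t) : L2 (G × Unit)) (k, ()) := by
          rw [Finset.sum_eq_single j]
          · rw [Finsupp.single_apply]
            by_cases h : g = k
            · rw [if_pos]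
              · have h6 : (dl (g, t) : L2 (G × Unit)) (k, ()) = 1 := by
                  rw [← h]
                  exact dl_self _
                rw [h6]
              · rw [h, inv_mul_cancel]
            · rw [if_neg, dl_ne]
              · intro h7
                exact h (congrArg Prod.fst h7).symm
              · intro h7
                apply h
                have h8 : (1 : G) = g⁻¹ * k := congrArg Prod.fst h7
                exact (inv_mul_eq_one.mp h8.symm)
          · intro i _ hi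
            rw [Finsupp.single_apply, if_neg]
            intro h3
            exact hi (congrArg Prod.snd h3)
          · intro h
            exact absurd (Finset.mem_univ j) h
        rw [h5, h6]
      funext v
      exact DFunLike.congr_fun h3 v
    exact congrFun h2 v
  have hperp : ∀ z, (LinearMap.range (T z).adjoint.toLinearMap)ᗮ = ⊥ := by
    intro z
    rw [Submodule.eq_bot_iff]
    intro u hu
    rw [Submodule.mem_orthogonal] at hu
    have h1 : ∀ k j, (u (k * s j, ()) : ℂ) = u (k, ()) := by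
      intro k j
      have h2 := hu _ ⟨dl (k, j), rfl⟩
      change ⟪(T z).adjoint (dl (k, j)), u⟫_ℂ = 0 at h2
      rw [hadj, inner_sub_left, inner_dl, inner_dl, sub_eq_zero] at h2
      exact h2
    have h2 : ∀ g, (u (g, ()) : ℂ) = u (1, ()) := l0_9_inv s hs (fun g => u (g, ())) h1
    have h3 := l0_9_const u _ h2
    apply L2.ext
    rintro ⟨g, t⟩
    change (u (g, ()) : ℂ) = 0
    rw [h2, h3]
  have hrd2 : ∀ z, rd (T z).adjoint = 1 := by
    intro z
    unfold rd
    rw [Fintype.sum_unique]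
    have h1 : (LinearMap.range (T z).adjoint.toLinearMap).topologicalClosure.starProjection
        (dl ((1 : G), (default : Unit))) = dl ((1 : G), default) := by
      have h2 := Submodule.sub_starProjection_mem_orthogonal
        (K := (LinearMap.range (T z).adjoint.toLinearMap).topologicalClosure)
        (dl ((1 : G), (default : Unit)) : L2 (G × Unit))
      rw [Submodule.orthogonal_closure, hperp, Submodule.mem_bot, sub_eq_zero] at h2
      exact h2.symm
    rw [h1, norm_dl, one_pow]
  obtain ⟨_, _, hint⟩ := rd_adj (PMP.point G) T hEM hEqv C hTC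
  simp only [hrd, hrd2] at hint
  rw [integral_const, integral_const] at hint
  simp only [probReal_univ, one_smul] at hint
  rw [hcyc, vd_orth, hint, Fintype.card_fin]

end Pool.Agent.COST

end

section

open scoped ENNReal InnerProductSpace
open MeasureTheory Filter Topology

namespace Pool.Agent.COST

/-- Gaboriau's inequality. PROOF: `cost_lower`, `vd_orth`, `cycles_vd`:
`1 + bettiOne s = 1 + (d - 1) - vd (finCycles s) = vd (finCycles s)ᗮ`. -/
theorem betti_le_cost {G : Type} [Group G] [Countable G] [Infinite G] {d : ℕ} (s : Fin d → G)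
    (hs : Subgroup.closure (Set.range s) = ⊤) :
    ENNReal.ofReal (1 + bettiOne s) ≤ groupCost G := by
  have h1 := cost_lower s hs
  have h2 : vd (finCycles s)ᗮ = 1 + bettiOne s := by
    unfold bettiOne
    rw [vd_orth, cycles_vd s hs, Fintype.card_fin]
    ring
  rw [h2] at h1
  exact h1

end Pool.Agent.COST

end
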