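import Mathlib

/-!
The first l2-Betti number of a group with a finite generating tuple, computed from the
Cayley graph: von Neumann dimension of the square summable 1-cycles minus von Neumann
dimension of the closure of the finitely supported 1-cycles.
-/

namespace Pool.Agent.COST.Statement

/-- The Hilbert space of square summable functions on `G × Fin d`, the set of edges of the Cayley
graph of `G` with respect to a `d`-tuple. -/
abbrev Edges (G : Type) (d : ℕ) : Type := lp (fun _ : G × Fin d => ℂ) 2

/-- The square summable 1-cycles of the Cayley graph with respect to the tuple `s`. The edge `(g, j)`
goes from `g` to `g * s j`; at every vertex `g` the incoming and the outgoing values have the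
same sum. -/
def cycles {G : Type} [Group G] {d : ℕ} (s : Fin d → G) : Set (Edges G d) :=
  {f | ∀ g : G, ∑ j, (f (g * (s j)⁻¹, j) - f (g, j)) = 0}

/-- The finitely supported 1-cycles. -/
def finCycles {G : Type} [Group G] {d : ℕ} (s : Fin d → G) : Set (Edges G d) :=
  {f | f ∈ cycles s ∧ (Function.support (f : G × Fin d → ℂ)).Finite}

open Classical in
/-- The basis vector at a point: the function with value 1 there and 0 elsewhere. -/
noncomputable def basisVector {X : Type} (x : X) : lp (fun _ : X => ℂ) 2 := lp.single 2 x (1 : ℂ)

/-- The von Neumann dimension of the closed linear span of a set `A` of vectors (used for sets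
`A` invariant under left translation): the sum of the squared norms of the projections of the basis
vectors at `(1, j)`, i.e. the trace of the orthogonal projection. -/
noncomputable def vonNeumannDim {G : Type} [Group G] {d : ℕ} (A : Set (Edges G d)) : ℝ :=
  ∑ j, ‖(Submodule.span ℂ A).topologicalClosure.starProjection (basisVector ((1 : G), j))‖ ^ 2

/-- The first l2-Betti number of `G`, for a tuple `s` generating `G`: the von Neumann dimension of
(square summable 1-cycles) / (closure of the finitely supported 1-cycles). -/
noncomputable def bettiOne {G : Type} [Group G] {d : ℕ} (s : Fin d → G) : ℝ :=
  vonNeumannDim (cycles s) - vonNeumannDim (finCycles s)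

end Pool.Agent.COST.Statement
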