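import Pool.Agent.COST.E7
import Pool.Agent.COST.L0
import Pool.Agent.COST.Statement

open scoped ENNReal

namespace Pool.Agent.COST

/-- For an infinite group `G` generated by `s_1, ..., s_d` with a bi-orderable subgroup of finite
index, the cost of `G` is one plus its first l2-Betti number. -/
theorem cost_eq_betti {G : Type} [Group G] [Infinite G] (H : Subgroup G) [H.FiniteIndex]
    (hH : BiOrderable H) {d : ℕ} (s : Fin d → G) (hs : Subgroup.closure (Set.range s) = ⊤) :
    groupCost G = ENNReal.ofReal (1 + bettiOne s) := by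
  have hcG : Countable G := e7_1_countable s hs
  exact le_antisymm (cost_le_betti H hH s hs) (betti_le_cost s hs)

theorem one_add_betti_nonneg {G : Type} [Group G] [Infinite G] {d : ℕ} (s : Fin d → G)
    (hs : Subgroup.closure (Set.range s) = ⊤) : 0 ≤ 1 + bettiOne s := by
  have hcG : Countable G := e7_1_countable s hs
  have h2 : vd (finCycles s)ᗮ = 1 + bettiOne s := by
    unfold bettiOne
    rw [vd_orth, cycles_vd s hs, Fintype.card_fin]
    ring
  rw [← h2]
  unfold vd
  exact Finset.sum_nonneg fun j _ => by positivity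

theorem vonNeumannDim_eq {G : Type} [Group G] {d : ℕ} (V : Submodule ℂ (L2 (G × Fin d))) :
    Statement.vonNeumannDim (V : Set (L2 (G × Fin d))) = vd V := by
  change vd (Submodule.span ℂ (V : Set (L2 (G × Fin d)))) = vd V
  rw [Submodule.span_eq]

theorem statement_bettiOne {G : Type} [Group G] {d : ℕ} (s : Fin d → G) :
    Statement.bettiOne s = bettiOne s := by
  unfold Statement.bettiOne bettiOne
  rw [← vonNeumannDim_eq, ← vonNeumannDim_eq]
  rfl

/-- The identity `b_1^(2)(G) = cost(G) - 1`. -/
theorem betti_eq_cost {G : Type} [Group G] [Infinite G] (H : Subgroup G) [H.FiniteIndex]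
    (hH : BiOrderable H) {d : ℕ} (s : Fin d → G) (hs : Subgroup.closure (Set.range s) = ⊤) :
    groupCost G ≠ ⊤ ∧ Statement.bettiOne s = (groupCost G).toReal - 1 := by
  rw [cost_eq_betti H hH s hs, statement_bettiOne]
  refine ⟨ENNReal.ofReal_ne_top, ?_⟩
  rw [ENNReal.toReal_ofReal (one_add_betti_nonneg s hs)]
  ring

end Pool.Agent.COST
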