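import Pool.Agent.COST.Lift

open MeasureTheory Set
open scoped ENNReal

namespace Pool.Agent.COST

theorem main_aux (G : Type) [Group G] [Countable G] (H : Subgroup G) (x : G)
    (hgen : H ⊔ Subgroup.zpowers x = ⊤) (h0 : H) (l1 : List (Bool × H)) (e : Bool × H)
    (l2 : List (Bool × H)) (hw : (h0 : G) * ev H.subtype x (l1 ++ e :: l2) = 1)
    (D : Set G) (hD : Desc D)
    (hD2 : ∀ v ∈ pos H.subtype x l2, v * (pos1 H.subtype x e l2)⁻¹ ∈ D)
    (hD1 : ∀ v ∈ pos H.subtype x l1,
      (v * ev H.subtype x (e :: l2)) * (pos1 H.subtype x e l2)⁻¹ ∈ D) :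
    groupCost G ≤ groupCost H := by
  classical
  apply ENNReal.le_of_forall_pos_le_add
  intro ε hε hfin
  have hε2 : (ε : ℝ≥0∞) / 2 ≠ 0 := by
    have : (ε : ℝ≥0∞) ≠ 0 := by exact_mod_cast hε.ne'
    exact (ENNReal.half_pos this).ne'
  have hlt : groupCost H < groupCost H + (ε : ℝ≥0∞) / 2 := ENNReal.lt_add_right hfin.ne hε2
  obtain ⟨Y, hY⟩ := iInf_lt_iff.mp hlt
  obtain ⟨Φ, hΦ⟩ := iInf_lt_iff.mp hY
  obtain ⟨W, S, hSm, hSμ, hcov⟩ := cover D hD ((ε : ℝ≥0∞) / 2) hε2
  obtain ⟨DΦ, hDm, hDsum, hDex⟩ := Φ.split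
  let X0 := PMP.prod (PMP.coind H Y.toPMP) W
  let X := X0.toStd
  obtain ⟨F⟩ := X0.toStd_fac
  obtain ⟨p, hpm, hpe⟩ := PMP.coind_proj H Y.toPMP
  let π : X.X → Y.X := fun z => p (PMP.p1 _ _ (F.f z))
  let ρ : X.X → W.X := fun z => PMP.p2 _ _ (F.f z)
  have hπm : MeasurePreserving π X.μ Y.μ := hpm.comp ((PMP.p1_mp _ _).comp F.mp)
  have hρm : MeasurePreserving ρ X.μ W.μ := (PMP.p2_mp _ _).comp F.mp
  have hπe : ∀ (h : H) (z : X.X), π ((h : G) • z) = h • π z := by
    intro h z
    change p (PMP.p1 _ _ (F.f ((h : G) • z))) = h • p (PMP.p1 _ _ (F.f z))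
    rw [F.eqv]
    exact hpe h _
  have hρe : ∀ (g : G) (z : X.X), ρ (g • z) = g • ρ z := by
    intro g z
    change PMP.p2 _ _ (F.f (g • z)) = g • PMP.p2 _ _ (F.f z)
    rw [F.eqv]
    rfl
  -- the family
  let gf : Bool × (ℕ × H) → G := fun j => cond j.1 (j.2.2 : G) x
  let Sf : Bool × (ℕ × H) → Set X.X := fun j =>
    cond j.1 (π ⁻¹' (DΦ j.2)) (if j.2 = (0, 1) then ρ ⁻¹' S else ∅)
  have hSf : ∀ j, MeasurableSet (Sf j) := by
    rintro ⟨b, j⟩
    cases b
    · change MeasurableSet (if j = (0, 1) then ρ ⁻¹' S else ∅)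
      split_ifs
      · exact hρm.measurable hSm
      · exact MeasurableSet.empty
    · exact hπm.measurable (hDm j)
  have hsum : ∑' j, X.μ (Sf j) = Φ.cost + W.μ S := by
    rw [ENNReal.tsum_prod', tsum_bool, add_comm]
    apply congrArg₂
    · rw [← hDsum]
      apply tsum_congr
      intro j
      exact hπm.measure_preimage (hDm j).nullMeasurableSet
    · rw [tsum_eq_single (0, 1)]
      · change X.μ (if ((0, 1) : ℕ × H) = (0, 1) then ρ ⁻¹' S else ∅) = _
        rw [if_pos rfl]
        exact hρm.measure_preimage hSm.nullMeasurableSet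
      · intro j hj
        change X.μ (if j = (0, 1) then ρ ⁻¹' S else ∅) = 0
        rw [if_neg hj]
        exact measure_empty
  set r : X.X → X.X → Prop := Relation.EqvGen (fun a b => ∃ j, a ∈ Sf j ∧ b = gf j • a) with hr
  have hreq : Equivalence r := Relation.EqvGen.is_equivalence _
  -- good points
  let Good : Y.X → Prop := fun y => (∀ h : H,
    Relation.EqvGen (fun a b => ∃ i, a ∈ Φ.A i ∧ b = Φ.φ i a) y (h • y)) ∧ ∀ h : H, h • y = y → h = 1
  have hGood : ∀ᵐ y ∂Y.μ, Good y := by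
    filter_upwards [Φ.gen, Y.free] with y h1 h2
    exact ⟨h1, h2⟩
  let V : X.X → Prop := fun z => ∀ g : G, Good (π (g • z))
  have hVae : ∀ᵐ z ∂X.μ, V z := by
    rw [ae_all_iff]
    intro g
    exact (hπm.comp (X.mp g)).quasiMeasurePreserving.ae hGood
  have hVinv : ∀ (g : G) z, V z → V (g • z) := by
    intro g z hz g'
    rw [← mul_smul]
    exact hz _
  have hHmove : ∀ (h : H) z, V z → r z ((h : G) • z) := by
    intro h z hz
    have hz1 := hz 1
    rw [one_smul] at hz1
    obtain ⟨h', hh', hlift⟩ := lift_path (H := H) π hπe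
      (fun a b => ∃ i, a ∈ Φ.A i ∧ b = Φ.φ i a) r hreq (by
        rintro a b ⟨i, hi, rfl⟩
        obtain ⟨h', hmem, hh'⟩ := hDex i a hi
        refine ⟨h', hh'.symm, fun z hz => Relation.EqvGen.rel _ _ ⟨(true, (i, h')), ?_, rfl⟩⟩
        change π z ∈ DΦ (i, h')
        rw [hz]
        exact hmem) _ _ (hz1.1 h)
    have heq : h = h' := by
      have h1 : (h⁻¹ * h') • π z = π z := by
        rw [mul_smul, ← hh', inv_smul_smul]
      have h2 := hz1.2 _ h1
      exact inv_mul_eq_one.mp h2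
    rw [heq]
    exact hlift z rfl
  have hxmove : ∀ z, V z → r z (x • z) := by
    have key := hcov (fun w => ∀ z : X.X, ρ z = w → V z → r z (x • z)) ?_ ?_
    · intro z hz
      exact key (ρ z) z rfl hz
    · intro w hw' z hz _
      refine Relation.EqvGen.rel _ _ ⟨(false, (0, 1)), ?_, rfl⟩
      change z ∈ (if ((0, 1) : ℕ × H) = (0, 1) then ρ ⁻¹' S else ∅)
      rw [if_pos rfl]
      change ρ z ∈ S
      rw [hz]
      exact hw'
    · intro w hw' z hz hVz
      apply step_lemma H x r hreq V hVinv hHmove h0 l1 e l2 hw z hVz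
      · intro v hv
        exact hw' _ (hD2 v hv) _ (by rw [hρe, hz]) (hVinv _ _ hVz)
      · intro v hv
        exact hw' _ (hD1 v hv) _ (by rw [hρe, hz]) (hVinv _ _ hVz)
  let T : Subgroup G :=
    { carrier := {g | ∀ z, V z → r z (g • z)}
      one_mem' := fun z _ => by rw [one_smul]; exact hreq.refl z
      mul_mem' := fun {a b} ha hb z hz => by
        rw [mul_smul]
        exact hreq.trans (hb z hz) (ha _ (hVinv b z hz))
      inv_mem' := fun {a} ha z hz => by
        have := ha (a⁻¹ • z) (hVinv _ _ hz)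
        rw [smul_inv_smul] at this
        exact hreq.symm this }
  have hT : T = ⊤ := by
    rw [eq_top_iff, ← hgen, sup_le_iff]
    constructor
    · intro h hh z hz
      exact hHmove ⟨h, hh⟩ z hz
    · rw [Subgroup.zpowers_le]
      exact fun z hz => hxmove z hz
  have hcost : X.cost ≤ ∑' j, X.μ (Sf j) := by
    apply cost_le_fam X gf Sf hSf
    filter_upwards [hVae] with z hz k
    have : k ∈ T := by rw [hT]; trivial
    exact this z hz
  calc groupCost G ≤ X.cost := iInf_le _ _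
    _ ≤ Φ.cost + W.μ S := by rw [← hsum]; exact hcost
    _ ≤ (groupCost H + (ε : ℝ≥0∞) / 2) + (ε : ℝ≥0∞) / 2 := add_le_add hΦ.le hSμ.le
    _ = groupCost H + ε := by rw [add_assoc, ENNReal.add_halves]

/-- Theorem C with a homomorphism to a locally indicable group. -/
theorem main_word (G Q : Type) [Group G] [Countable G] [Group Q] (q : G →* Q)
    (hQ : LocallyIndicable Q) (H : Subgroup G) (x : G)
    (hgen : H ⊔ Subgroup.zpowers x = ⊤) (h0 : H) (l : List (Bool × H)) (hl : l ≠ [])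
    (hw : (h0 : G) * ev H.subtype x l = 1)
    (hrep : ∀ l1 e l2 e' l3, l = l1 ++ e :: (l2 ++ e' :: l3) →
        q (pos1 H.subtype x e (l2 ++ e' :: l3)) ≠ q (pos1 H.subtype x e' l3)) :
    groupCost G ≤ groupCost H := by
  classical
  have hne : ((pos H.subtype x l).map q).toFinset.Nonempty := by
    cases l with
    | nil => exact absurd rfl hl
    | cons e l => exact ⟨q (pos1 H.subtype x e l), by simp [pos]⟩
  obtain ⟨u', hu', hDesc⟩ := exists_peak hQ _ ((pos H.subtype x l).map q).toFinset rfl hne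
  rw [List.mem_toFinset, List.mem_map] at hu'
  obtain ⟨u, hu, rfl⟩ := hu'
  obtain ⟨l1, e, l2, rfl, rfl⟩ := (mem_pos _ _ _ _).mp hu
  set u := pos1 H.subtype x e l2 with hudef
  let D : Set G := (fun v => v * u⁻¹) '' {v | v ∈ pos H.subtype x (l1 ++ e :: l2) ∧ q v ≠ q u}
  have hDfin : D.Finite := by
    apply Set.Finite.image
    apply Set.Finite.subset (List.finite_toSet (pos H.subtype x (l1 ++ e :: l2)))
    intro v hv
    exact hv.1
  have hD : Desc D := by
    apply Desc.pull q _ hDesc D hDfin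
    rintro _ ⟨v, ⟨hv, hne⟩, rfl⟩
    refine ⟨q v, ?_, hne, by simp⟩
    rw [List.mem_toFinset, List.mem_map]
    exact ⟨v, hv, rfl⟩
  apply main_aux G H x hgen h0 l1 e l2 hw D hD
  · intro v hv
    refine ⟨v, ⟨?_, ?_⟩, rfl⟩
    · rw [pos_append]
      simp [pos, hv]
    · obtain ⟨m1, e', m2, rfl, rfl⟩ := (mem_pos _ _ _ _).mp hv
      exact (hrep l1 e m1 e' m2 rfl).symm
  · intro v hv
    refine ⟨v * ev H.subtype x (e :: l2), ⟨?_, ?_⟩, rfl⟩
    · rw [pos_append]
      simp only [List.mem_append, List.mem_map]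
      exact Or.inl ⟨v, hv, rfl⟩
    · obtain ⟨m1, e', m2, rfl, rfl⟩ := (mem_pos _ _ _ _).mp hv
      have := hrep m1 e' m2 e l2 (by simp)
      rw [hudef]
      refine fun h => this ?_
      rw [← h]
      simp only [pos1, ev_append, mul_assoc]

/-- Theorem C. -/
theorem theoremC (G : Type) [Group G] [Countable G] (hG : LocallyIndicable G)
    (H : Subgroup G) (x : G) (hgen : H ⊔ Subgroup.zpowers x = ⊤)
    (hnf : ¬ Function.Injective (Monoid.Coprod.lift H.subtype (zpowersHom G x))) :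
    groupCost G ≤ groupCost H := by
  have hinl : (Monoid.Coprod.lift H.subtype (zpowersHom G x)).comp Monoid.Coprod.inl = H.subtype := by
    ext h
    simp
  have hinr : Monoid.Coprod.lift H.subtype (zpowersHom G x)
      (Monoid.Coprod.inr (Multiplicative.ofAdd (1 : ℤ))) = x := by
    simp
  obtain ⟨h0, l, hl, hw, hrep⟩ := minimal_word
    (Monoid.Coprod.inl : H →* Monoid.Coprod H (Multiplicative ℤ))
    (Monoid.Coprod.inr (Multiplicative.ofAdd (1 : ℤ)))
    (Monoid.Coprod.lift H.subtype (zpowersHom G x)) (by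
      rw [hinl]
      exact Subtype.val_injective) coprod_len (by
      by_contra hcon
      push Not at hcon
      apply hnf
      rw [injective_iff_map_eq_one]
      intro a ha
      by_contra hne
      exact hcon a hne ha)
  rw [hinl, hinr] at hw hrep
  apply main_word G G (MonoidHom.id G) hG H x hgen h0 l hl
  · simpa using hw
  · intro l1 e l2 e' l3 hsplit
    exact hrep l1 e l2 e' l3 hsplit

end Pool.Agent.COST
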