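import Pool.Agent.COST.Cover

open Set

namespace Pool.Agent.COST

theorem exists_peak {Q : Type} [Group Q] (hQ : LocallyIndicable Q) :
    ∀ (n : ℕ) (A : Finset Q), A.card = n → A.Nonempty →
      ∃ u ∈ A, Desc {g | ∃ a ∈ A, a ≠ u ∧ g = a * u⁻¹} := by
  classical
  intro n
  induction n using Nat.strong_induction_on with
  | _ n ih =>
    intro A hn hA
    obtain ⟨b0, hb0⟩ := hA
    by_cases h1 : ∀ a ∈ A, a = b0
    · refine ⟨b0, hb0, ?_⟩
      have : {g : Q | ∃ a ∈ A, a ≠ b0 ∧ g = a * b0⁻¹} = ∅ := by
        ext g
        simp only [mem_setOf_eq, mem_empty_iff_false, iff_false, not_exists, not_and]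
        intro a ha hne
        exact absurd (h1 a ha) hne
      rw [this]
      exact Desc.empty
    · push Not at h1
      obtain ⟨a1, ha1, hne1⟩ := h1
      let K : Subgroup Q := Subgroup.closure ((A ×ˢ A).image (fun p => p.1 * p.2⁻¹) : Finset Q)
      have hmem : ∀ a ∈ A, ∀ b ∈ A, a * b⁻¹ ∈ K := by
        intro a ha b hb
        apply Subgroup.subset_closure
        simp only [Finset.coe_image, Set.mem_image, Finset.mem_coe, Finset.mem_product]
        exact ⟨(a, b), ⟨ha, hb⟩, rfl⟩
      have hFG : K.FG := ⟨_, rfl⟩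
      have hbot : K ≠ ⊥ := by
        intro h
        have := hmem a1 ha1 b0 hb0
        rw [h, Subgroup.mem_bot, mul_inv_eq_one] at this
        exact hne1 this
      obtain ⟨ψ, hψ⟩ := hQ K hFG hbot
      -- height function
      let f : Q → ℤ := fun a => if h : a * b0⁻¹ ∈ K then Multiplicative.toAdd (ψ ⟨a * b0⁻¹, h⟩) else 0
      have hf : ∀ a ∈ A, ∀ b ∈ A, ∀ h : a * b⁻¹ ∈ K,
          Multiplicative.toAdd (ψ ⟨a * b⁻¹, h⟩) = f a - f b := by
        intro a ha b hb h
        have h1 := hmem a ha b0 hb0
        have h2 := hmem b hb b0 hb0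
        have e : (⟨a * b⁻¹, h⟩ : K) = ⟨a * b0⁻¹, h1⟩ * (⟨b * b0⁻¹, h2⟩ : K)⁻¹ := by
          apply Subtype.ext
          simp
        rw [e, map_mul, map_inv, toAdd_mul, toAdd_inv]
        simp only [f, h1, h2, dif_pos]
        ring
      obtain ⟨m, hmA, hmax⟩ := A.exists_max_image f ⟨b0, hb0⟩
      let A' := A.filter (fun a => f a = f m)
      have hA'ne : A'.Nonempty := ⟨m, by simp [A', hmA]⟩
      have hlt : A'.card < n := by
        rw [← hn]
        apply Finset.card_lt_card
        refine ⟨Finset.filter_subset _ _, ?_⟩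
        intro hsub
        have hall : ∀ a ∈ A, f a = f m := fun a ha => (Finset.mem_filter.mp (hsub ha)).2
        have htriv : ∀ x : K, ψ x = 1 := by
          rintro ⟨x, hx⟩
          induction hx using Subgroup.closure_induction with
          | mem y hy =>
            simp only [Finset.coe_image, Set.mem_image, Finset.mem_coe, Finset.mem_product] at hy
            obtain ⟨⟨a, b⟩, ⟨ha, hb⟩, rfl⟩ := hy
            apply Multiplicative.toAdd.injective
            rw [hf a ha b hb, hall a ha, hall b hb]
            simp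
          | one => exact map_one ψ
          | mul y z hy hz h1 h2 =>
            have : (⟨y * z, mul_mem hy hz⟩ : K) = ⟨y, hy⟩ * ⟨z, hz⟩ := rfl
            rw [this, map_mul, h1, h2, mul_one]
          | inv y hy h1 =>
            have : (⟨y⁻¹, inv_mem hy⟩ : K) = (⟨y, hy⟩ : K)⁻¹ := rfl
            rw [this, map_inv, h1, inv_one]
        obtain ⟨x, hx⟩ := hψ (Multiplicative.ofAdd 1)
        rw [htriv x] at hx
        have := congrArg Multiplicative.toAdd hx
        simp at this
      obtain ⟨u, hu, hD⟩ := ih A'.card hlt A' rfl hA'ne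
      have huA : u ∈ A := (Finset.mem_filter.mp hu).1
      have hfu : f u = f m := (Finset.mem_filter.mp hu).2
      refine ⟨u, huA, ?_⟩
      apply Desc.step _ _ K ψ
      · rintro g ⟨a, ha, _, rfl⟩
        exact hmem a ha u huA
      · rintro g hg ⟨a, ha, hne, rfl⟩
        rw [hf a ha u huA]
        have := hmax a ha
        omega
      · have : {g | g ∈ {g | ∃ a ∈ A, a ≠ u ∧ g = a * u⁻¹} ∧
            ∃ h : g ∈ K, Multiplicative.toAdd (ψ ⟨g, h⟩) = 0} =
            {g | ∃ a ∈ A', a ≠ u ∧ g = a * u⁻¹} := by
          ext g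
          simp only [mem_setOf_eq]
          constructor
          · rintro ⟨⟨a, ha, hne, rfl⟩, h, h0⟩
            refine ⟨a, ?_, hne, rfl⟩
            rw [hf a ha u huA] at h0
            simp only [A', Finset.mem_filter]
            exact ⟨ha, by omega⟩
          · rintro ⟨a, ha, hne, rfl⟩
            have haA := (Finset.mem_filter.mp ha).1
            have hfa := (Finset.mem_filter.mp ha).2
            refine ⟨⟨a, haA, hne, rfl⟩, hmem a haA u huA, ?_⟩
            rw [hf a haA u huA]
            omega
        rw [this]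
        exact hD
      · apply Set.Finite.subset (A.finite_toSet.image (fun a => a * u⁻¹))
        rintro g ⟨a, ha, _, rfl⟩
        exact ⟨a, ha, rfl⟩

theorem Desc.pull {G Q : Type} [Group G] [Group Q] (q : G →* Q) (D : Set Q) (hD : Desc D) :
    ∀ E : Set G, E.Finite → (∀ g ∈ E, q g ∈ D) → Desc E := by
  induction hD with
  | empty =>
    intro E _ hE
    have : E = ∅ := by
      ext g
      constructor
      · intro hg
        exact (hE g hg).elim
      · intro hg
        exact hg.elim
    rw [this]
    exact Desc.empty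
  | step D hfin K ψ hK hψ hD ih =>
    intro E hfin' hE
    apply Desc.step E hfin' (K.comap q) (ψ.comp (q.subgroupComap K))
    · intro g hg
      exact hK _ (hE g hg)
    · intro g h hg
      exact hψ (q g) h (hE g hg)
    · apply ih
      · exact hfin'.subset (fun g hg => hg.1)
      · rintro g ⟨hg, h, h0⟩
        exact ⟨hE g hg, h, h0⟩

end Pool.Agent.COST
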