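import Pool.Agent.COST.Word

open Set

namespace Pool.Agent.COST

/-- positions of a word -/
def pos {H M : Type} [Group H] [Group M] (f : H →* M) (t : M) : List (Bool × H) → List M
  | [] => []
  | e :: l => pos1 f t e l :: pos f t l

theorem pos_append {H M : Type} [Group H] [Group M] (f : H →* M) (t : M) (l1 l2 : List (Bool × H)) :
    pos f t (l1 ++ l2) = (pos f t l1).map (fun v => v * ev f t l2) ++ pos f t l2 := by
  induction l1 with
  | nil => simp [pos]
  | cons e l ih =>
    simp only [List.cons_append, pos, List.map_cons, ih, pos1, ev_append]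
    simp only [mul_assoc]

theorem mem_pos {H M : Type} [Group H] [Group M] (f : H →* M) (t : M) (l : List (Bool × H)) (u : M) :
    u ∈ pos f t l ↔ ∃ l1 e l2, l = l1 ++ e :: l2 ∧ u = pos1 f t e l2 := by
  constructor
  · induction l with
    | nil =>
      intro h
      simp [pos] at h
    | cons e l ih =>
      intro h
      simp only [pos, List.mem_cons] at h
      rcases h with h | h
      · exact ⟨[], e, l, rfl, h⟩
      · obtain ⟨l1, e', l2, h1, h2⟩ := ih h
        exact ⟨e :: l1, e', l2, by rw [h1]; rfl, h2⟩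
  · rintro ⟨l1, e, l2, rfl, rfl⟩
    rw [pos_append]
    simp [pos]

theorem walk {G X : Type} [Group G] [MulAction G X] (H : Subgroup G) (x : G) (r : X → X → Prop)
    (hr : Equivalence r) (V : X → Prop) (hV : ∀ (g : G) z, V z → V (g • z))
    (hH : ∀ (h : H) z, V z → r z ((h : G) • z)) :
    ∀ (l : List (Bool × H)) (y : X), V y →
      (∀ v ∈ pos H.subtype x l, r (v • y) (x • v • y)) → r y (ev H.subtype x l • y) := by
  intro l
  induction l with
  | nil =>
    intro y hy _
    simp only [ev, one_smul]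
    exact hr.refl y
  | cons e l ih =>
    intro y hy hpos
    obtain ⟨b, h⟩ := e
    have h1 : r y (ev H.subtype x l • y) := ih y hy (fun v hv => hpos v (by simp [pos, hv]))
    have h2 : r (ev H.subtype x l • y) ((h : G) • ev H.subtype x l • y) := hH h _ (hV _ _ hy)
    have h3 := hpos (pos1 H.subtype x (b, h) l) (by simp [pos])
    cases b
    · simp only [pos1, ev, cond_false, Subgroup.coe_subtype] at h3 ⊢
      rw [mul_smul x⁻¹, smul_inv_smul, mul_smul (h : G)] at h3
      rw [mul_smul x⁻¹, mul_smul (h : G)]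
      exact hr.trans (hr.trans h1 h2) (hr.symm h3)
    · simp only [pos1, ev, cond_true, one_mul, Subgroup.coe_subtype] at h3 ⊢
      rw [mul_smul (h : G)] at h3
      rw [mul_smul x, mul_smul (h : G)]
      exact hr.trans (hr.trans h1 h2) h3

theorem step_lemma {G X : Type} [Group G] [MulAction G X] (H : Subgroup G) (x : G) (r : X → X → Prop)
    (hr : Equivalence r) (V : X → Prop) (hV : ∀ (g : G) z, V z → V (g • z))
    (hH : ∀ (h : H) z, V z → r z ((h : G) • z))
    (h0 : H) (l1 : List (Bool × H)) (e : Bool × H) (l2 : List (Bool × H))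
    (hw : (h0 : G) * ev H.subtype x (l1 ++ e :: l2) = 1) (z : X) (hz : V z)
    (hl2 : ∀ v ∈ pos H.subtype x l2, r ((v * (pos1 H.subtype x e l2)⁻¹) • z)
      (x • (v * (pos1 H.subtype x e l2)⁻¹) • z))
    (hl1 : ∀ v ∈ pos H.subtype x l1,
      r (((v * ev H.subtype x (e :: l2)) * (pos1 H.subtype x e l2)⁻¹) • z)
      (x • ((v * ev H.subtype x (e :: l2)) * (pos1 H.subtype x e l2)⁻¹) • z)) :
    r z (x • z) := by
  set u := pos1 H.subtype x e l2 with hu
  have hy : V (u⁻¹ • z) := hV _ _ hz
  have a1 : r (u⁻¹ • z) (ev H.subtype x l2 • u⁻¹ • z) := by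
    apply walk H x r hr V hV hH l2 _ hy
    intro v hv
    have := hl2 v hv
    rwa [mul_smul] at this
  have a2 : r (ev H.subtype x l2 • u⁻¹ • z) ((e.2 : G) • ev H.subtype x l2 • u⁻¹ • z) :=
    hH e.2 _ (hV _ _ hy)
  have a3 := hr.trans a1 a2
  have b1 : r (ev H.subtype x (e :: l2) • u⁻¹ • z)
      (ev H.subtype x l1 • ev H.subtype x (e :: l2) • u⁻¹ • z) := by
    apply walk H x r hr V hV hH l1 _ (hV _ _ hy)
    intro v hv
    have := hl1 v hv
    rwa [mul_smul, mul_smul] at this
  have b2 : ev H.subtype x l1 • ev H.subtype x (e :: l2) • u⁻¹ • z = ((h0⁻¹ : H) : G) • u⁻¹ • z := by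
    rw [← mul_smul, ← ev_append]
    have : ev H.subtype x (l1 ++ e :: l2) = (h0 : G)⁻¹ := eq_inv_of_mul_eq_one_right hw
    rw [this]
    simp
  rw [b2] at b1
  have b3 : r (u⁻¹ • z) (((h0⁻¹ : H) : G) • u⁻¹ • z) := hH h0⁻¹ _ hy
  have c : r (ev H.subtype x (e :: l2) • u⁻¹ • z) ((e.2 : G) • ev H.subtype x l2 • u⁻¹ • z) :=
    hr.trans b1 (hr.trans (hr.symm b3) a3)
  obtain ⟨b, h⟩ := e
  cases b
  · simp only [pos1, cond_false, Subgroup.coe_subtype] at hu
    simp only [ev, cond_false, Subgroup.coe_subtype] at c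
    have e1 : (x⁻¹ * ((h : G) * ev H.subtype x l2)) • u⁻¹ • z = z := by
      rw [← hu, smul_inv_smul]
    have e2 : (h : G) • ev H.subtype x l2 • u⁻¹ • z = x • z := by
      conv_rhs => rw [← e1]
      rw [mul_smul x⁻¹, smul_inv_smul, mul_smul (h : G)]
    rw [e1, e2] at c
    exact c
  · simp only [pos1, cond_true, one_mul, Subgroup.coe_subtype] at hu
    simp only [ev, cond_true, Subgroup.coe_subtype] at c
    have e1 : (h : G) • ev H.subtype x l2 • u⁻¹ • z = z := by
      rw [← mul_smul (h : G), ← hu, smul_inv_smul]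
    rw [mul_smul x, mul_smul (h : G), e1] at c
    exact hr.symm c

end Pool.Agent.COST
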