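import Pool.Agent.COST.Peak

open Set

namespace Pool.Agent.COST

/-- value of a word -/
def ev {H M : Type} [Group H] [Group M] (f : H →* M) (t : M) : List (Bool × H) → M
  | [] => 1
  | (b, h) :: l => (cond b t t⁻¹) * (f h * ev f t l)

/-- position of a letter -/
def pos1 {H M : Type} [Group H] [Group M] (f : H →* M) (t : M) (e : Bool × H)
    (l : List (Bool × H)) : M :=
  (cond e.1 1 t⁻¹) * (f e.2 * ev f t l)

theorem ev_append {H M : Type} [Group H] [Group M] (f : H →* M) (t : M) (l1 l2 : List (Bool × H)) :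
    ev f t (l1 ++ l2) = ev f t l1 * ev f t l2 := by
  induction l1 with
  | nil => simp [ev]
  | cons e l ih =>
    obtain ⟨b, h⟩ := e
    simp only [List.cons_append, ev, ih]
    group

theorem map_ev {H M N : Type} [Group H] [Group M] [Group N] (f : H →* M) (t : M) (φ : M →* N)
    (l : List (Bool × H)) : φ (ev f t l) = ev (φ.comp f) (φ t) l := by
  induction l with
  | nil => simp [ev]
  | cons e l ih =>
    obtain ⟨b, h⟩ := e
    cases b <;> simp [ev, ih]

theorem absorb {H M : Type} [Group H] [Group M] (f : H →* M) (t : M) (k : H) :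
    ∀ (l : List (Bool × H)) (h0 : H), ∃ (h0' : H) (l' : List (Bool × H)), l'.length = l.length ∧
      f h0 * ev f t l * f k = f h0' * ev f t l' := by
  intro l
  induction l with
  | nil =>
    intro h0
    exact ⟨h0 * k, [], rfl, by simp [ev]⟩
  | cons e l ih =>
    intro h0
    obtain ⟨b, h⟩ := e
    obtain ⟨h', l', hlen, heq⟩ := ih h
    refine ⟨h0, (b, h') :: l', by simp [hlen], ?_⟩
    simp only [ev]
    rw [← heq]
    group

/-- words with n letters -/
def Len {H M : Type} [Group H] [Group M] (f : H →* M) (t : M) (n : ℕ) (c : M) : Prop :=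
  ∃ (h0 : H) (l : List (Bool × H)), l.length = n ∧ c = f h0 * ev f t l

theorem Len.mul {H M : Type} [Group H] [Group M] (f : H →* M) (t : M) {n m : ℕ} {c d : M}
    (hc : Len f t n c) (hd : Len f t m d) : Len f t (n + m) (c * d) := by
  obtain ⟨h0, l, rfl, rfl⟩ := hc
  obtain ⟨h1, l', rfl, rfl⟩ := hd
  obtain ⟨h0', l'', hlen, heq⟩ := absorb f t h1 l h0
  refine ⟨h0', l'' ++ l', by simp [hlen], ?_⟩
  rw [ev_append, ← mul_assoc, heq, mul_assoc]

/-- A kernel word with a minimal number of letters has no repeated position. -/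
theorem minimal_word {H M N : Type} [Group H] [Group M] [Group N] (f : H →* M) (t : M)
    (φ : M →* N) (hinj : Function.Injective (φ.comp f))
    (hall : ∀ c : M, ∃ n, Len f t n c) (hker : ∃ c : M, c ≠ 1 ∧ φ c = 1) :
    ∃ (h0 : H) (l : List (Bool × H)), l ≠ [] ∧ φ (f h0) * ev (φ.comp f) (φ t) l = 1 ∧
      ∀ l1 e l2 e' l3, l = l1 ++ e :: (l2 ++ e' :: l3) →
        pos1 (φ.comp f) (φ t) e (l2 ++ e' :: l3) ≠ pos1 (φ.comp f) (φ t) e' l3 := by
  classical
  have hex : ∃ n, ∃ c : M, Len f t n c ∧ c ≠ 1 ∧ φ c = 1 := by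
    obtain ⟨c, hc1, hc2⟩ := hker
    obtain ⟨n, hn⟩ := hall c
    exact ⟨n, c, hn, hc1, hc2⟩
  obtain ⟨c, hlen, hc1, hc2⟩ := Nat.find_spec hex
  have hmin : ∀ m, m < Nat.find hex → ∀ d : M, Len f t m d → φ d = 1 → d = 1 := by
    intro m hm d hd hd1
    by_contra hne
    exact Nat.find_min hex hm ⟨d, hd, hne, hd1⟩
  generalize Nat.find hex = n at hlen hmin
  obtain ⟨h0, l, hl, hc⟩ := hlen
  refine ⟨h0, l, ?_, ?_, ?_⟩
  · rintro rfl
    apply hc1
    rw [hc] at hc2 ⊢
    simp only [ev, mul_one] at hc2 ⊢
    have : h0 = 1 := hinj (by rw [map_one]; exact hc2)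
    rw [this, map_one]
  · rw [← map_ev, ← map_mul, ← hc]
    exact hc2
  · rintro l1 ⟨b, h⟩ l2 ⟨b', h'⟩ l3 hsplit heq
    have hn : n = l1.length + 1 + l2.length + 1 + l3.length := by
      rw [← hl, hsplit]
      simp
      omega
    have hcC : c = f h0 * (ev f t l1 * ((cond b t t⁻¹) * (f h * (ev f t l2 *
        ((cond b' t t⁻¹) * (f h' * ev f t l3)))))) := by
      rw [hc, hsplit]
      simp only [ev_append, ev]
    simp only [pos1, ev_append, ev] at heq
    by_cases hb : b = b'
    · subst hb
      have hk : φ (f h * ev f t (l2 ++ [(b, 1)])) = 1 := by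
        simp only [ev_append, ev, map_mul, map_ev, map_one, mul_one]
        have h1 := mul_left_cancel heq
        have h2 : (φ.comp f) h * (ev (φ.comp f) (φ t) l2 * (cond b (φ t) (φ t)⁻¹)) *
            ((φ.comp f) h' * ev (φ.comp f) (φ t) l3) = 1 * ((φ.comp f) h' * ev (φ.comp f) (φ t) l3) := by
          rw [one_mul]
          refine Eq.trans ?_ h1
          simp only [mul_assoc]
        have h3 := mul_right_cancel h2
        cases b
        · simpa using h3
        · simpa using h3
      have hk1 := hmin (l2.length + 1) (by omega) _ ⟨h, l2 ++ [(b, 1)], by simp, rfl⟩ hk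
      simp only [ev_append, ev, map_one, mul_one] at hk1
      have hc' : c = f h0 * ev f t (l1 ++ (b, h') :: l3) := by
        rw [hcC]
        simp only [ev_append, ev]
        have : (f h * (ev f t l2 * ((cond b t t⁻¹) * (f h' * ev f t l3)))) = f h' * ev f t l3 := by
          rw [show (f h * (ev f t l2 * ((cond b t t⁻¹) * (f h' * ev f t l3)))) =
            (f h * (ev f t l2 * (cond b t t⁻¹))) * (f h' * ev f t l3) by group, hk1, one_mul]
        rw [this]
      exact hc1 (hmin (l1.length + 1 + l3.length) (by omega) c ⟨h0, _, by simp; omega, hc'⟩ hc2)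
    · have hk : φ (f h * ev f t l2) = 1 := by
        rw [map_mul, map_ev]
        cases b <;> cases b'
        · exact absurd rfl hb
        · simp only [cond_false, cond_true, one_mul] at heq
          have h2 : ((φ t)⁻¹ * ((φ.comp f) h * ev (φ.comp f) (φ t) l2) * (φ t)) *
            ((φ.comp f) h' * ev (φ.comp f) (φ t) l3) = 1 * ((φ.comp f) h' * ev (φ.comp f) (φ t) l3) := by
            rw [one_mul]
            refine Eq.trans ?_ heq
            group
          have h3 := mul_right_cancel h2
          have h4 : (φ.comp f) h * ev (φ.comp f) (φ t) l2 = 1 := by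
            have : (φ.comp f) h * ev (φ.comp f) (φ t) l2 =
              φ t * ((φ t)⁻¹ * ((φ.comp f) h * ev (φ.comp f) (φ t) l2) * (φ t)) * (φ t)⁻¹ := by group
            rw [this, h3]; group
          exact h4
        · simp only [cond_false, cond_true, one_mul] at heq
          have h2 : ((φ.comp f) h * ev (φ.comp f) (φ t) l2) *
            ((φ t)⁻¹ * ((φ.comp f) h' * ev (φ.comp f) (φ t) l3)) =
              1 * ((φ t)⁻¹ * ((φ.comp f) h' * ev (φ.comp f) (φ t) l3)) := by
            rw [one_mul]
            refine Eq.trans ?_ heq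
            group
          exact mul_right_cancel h2
        · exact absurd rfl hb
      have hk1 := hmin l2.length (by omega) _ ⟨h, l2, rfl, rfl⟩ hk
      have hc' : c = (f h0 * ev f t l1) * (f h' * ev f t l3) := by
        rw [hcC]
        have e1 : (f h * (ev f t l2 * ((cond b' t t⁻¹) * (f h' * ev f t l3)))) =
            (cond b' t t⁻¹) * (f h' * ev f t l3) := by
          rw [show (f h * (ev f t l2 * ((cond b' t t⁻¹) * (f h' * ev f t l3)))) =
            (f h * ev f t l2) * ((cond b' t t⁻¹) * (f h' * ev f t l3)) by group, hk1, one_mul]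
        rw [e1]
        cases b <;> cases b'
        · exact absurd rfl hb
        · simp only [cond_false, cond_true]
          group
        · simp only [cond_false, cond_true]
          group
        · exact absurd rfl hb
      have hL : Len f t (l1.length + l3.length) c := by
        rw [hc']
        exact Len.mul f t ⟨h0, l1, rfl, rfl⟩ ⟨h', l3, rfl, rfl⟩
      exact hc1 (hmin _ (by omega) c hL hc2)

theorem coprod_len {H : Type} [Group H] (c : Monoid.Coprod H (Multiplicative ℤ)) :
    ∃ n, Len (Monoid.Coprod.inl : H →* Monoid.Coprod H (Multiplicative ℤ))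
      (Monoid.Coprod.inr (Multiplicative.ofAdd (1 : ℤ))) n c := by
  induction c using Monoid.Coprod.induction_on' with
  | one => exact ⟨0, 1, [], rfl, by simp [ev]⟩
  | inl_mul h c ih =>
    obtain ⟨n, h0, l, hl, rfl⟩ := ih
    exact ⟨n, h * h0, l, hl, by rw [map_mul, mul_assoc]⟩
  | inr_mul z c ih =>
    obtain ⟨n, hn⟩ := ih
    have key : ∀ k : ℕ, (∃ m, Len (Monoid.Coprod.inl : H →* Monoid.Coprod H (Multiplicative ℤ))
        (Monoid.Coprod.inr (Multiplicative.ofAdd (1 : ℤ))) m
        ((Monoid.Coprod.inr (Multiplicative.ofAdd (1 : ℤ))) ^ k * c)) ∧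
        (∃ m, Len (Monoid.Coprod.inl : H →* Monoid.Coprod H (Multiplicative ℤ))
        (Monoid.Coprod.inr (Multiplicative.ofAdd (1 : ℤ))) m
        (((Monoid.Coprod.inr (Multiplicative.ofAdd (1 : ℤ)))⁻¹) ^ k * c)) := by
      intro k
      induction k with
      | zero => simp only [pow_zero, one_mul]; exact ⟨⟨n, hn⟩, ⟨n, hn⟩⟩
      | succ k ihk =>
        obtain ⟨⟨m, h0, l, hl, he⟩, ⟨m', h0', l', hl', he'⟩⟩ := ihk
        refine ⟨⟨m + 1, 1, (true, h0) :: l, by simp [hl], ?_⟩, ⟨m' + 1, 1, (false, h0') :: l', by simp [hl'], ?_⟩⟩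
        · rw [pow_succ', mul_assoc, he]
          simp [ev]
        · rw [pow_succ', mul_assoc, he']
          simp [ev]
    obtain ⟨k, hk⟩ := Int.eq_nat_or_neg (Multiplicative.toAdd z)
    have hz : z = (Multiplicative.ofAdd (1 : ℤ)) ^ k ∨ z = ((Multiplicative.ofAdd (1 : ℤ))⁻¹) ^ k := by
      rcases hk with hk | hk
      · left
        apply Multiplicative.toAdd.injective
        rw [hk, toAdd_pow]
        simp
      · right
        apply Multiplicative.toAdd.injective
        rw [hk, toAdd_pow]
        simp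
    rcases hz with hz | hz
    · rw [hz, map_pow]
      exact (key k).1
    · rw [hz, map_pow, map_inv]
      exact (key k).2

end Pool.Agent.COST
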